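import Pool.Agent.Work.MP_0c526b_al.Hull

/-!
# C6: the subtree of the points at distances in the group of lengths
-/

set_option autoImplicit false
set_option linter.unusedSectionVars false

namespace LTree.Idx

open LTree

namespace Subtree

section Criterion

variable {Λ : Type*} [AddCommGroup Λ] [LinearOrder Λ] [IsOrderedAddMonoid Λ] {X : Type*}
variable {D : Dist Λ X}

/-- Segments are the sets of the points between their end points. -/
lemma isSeg_iff
    (h1 : ∀ x y : X, ∀ t, 0 ≤ t → t ≤ D.d x y → ∃ p, Btw D x p y ∧ D.d x p = t)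
    (h2 : ∀ x y p q : X, Btw D x p y → Btw D x q y → D.d p q = |D.d x p - D.d x q|)
    (S : Set X) (x y : X) : IsSeg D S x y ↔ S = {m | Btw D x m y} := by
  classical
  constructor
  · intro h
    ext m
    constructor
    · intro hm
      exact h.btw hm
    · intro hm
      have hm' : Btw D x m y := hm
      have hle : D.d x m ≤ D.d x y := by
        have := D.nonneg m y
        unfold Btw at hm'
        grind
      obtain ⟨p, hp, e⟩ := h.exists_at (D.nonneg x m) hle
      have : D.d p m = 0 := by rw [h2 x y p m (h.btw hp) hm', e]; simp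
      rw [← D.eq_of_d _ _ this]
      exact hp
  · rintro rfl
    have key : ∀ t, ∃ p, (0 ≤ t ∧ t ≤ D.d x y) → Btw D x p y ∧ D.d x p = t := by
      intro t
      by_cases h : 0 ≤ t ∧ t ≤ D.d x y
      · obtain ⟨p, hp⟩ := h1 x y t h.1 h.2
        exact ⟨p, fun _ => hp⟩
      · exact ⟨x, fun h' => absurd h' h⟩
    choose f hf using key
    refine ⟨f, ?_, ?_, ?_, ?_⟩
    · have := (hf 0 ⟨le_rfl, D.nonneg x y⟩).2
      exact (D.eq_of_d _ _ this).symm
    · have h3 := (hf _ ⟨D.nonneg x y, le_rfl⟩)
      apply D.eq_of_d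
      rw [h2 x y _ _ h3.1 (btw_right _ _), h3.2]; simp
    · intro s t s0 s1 t0 t1
      have h3 := hf s ⟨s0, s1⟩
      have h4 := hf t ⟨t0, t1⟩
      rw [h2 x y _ _ h3.1 h4.1, h3.2, h4.2]
    · ext m
      constructor
      · intro hm
        have hm' : Btw D x m y := hm
        have hle : D.d x m ≤ D.d x y := by
          have := D.nonneg m y
          unfold Btw at hm'
          grind
        refine ⟨D.d x m, ⟨D.nonneg x m, hle⟩, ?_⟩
        have h3 := hf _ ⟨D.nonneg x m, hle⟩
        apply D.eq_of_d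
        rw [h2 x y _ _ h3.1 hm', h3.2]; simp
      · rintro ⟨t, ⟨t0, t1⟩, rfl⟩
        exact (hf t ⟨t0, t1⟩).1

omit [IsOrderedAddMonoid Λ] in
lemma arith_aux [IsOrderedAddMonoid Λ] {xp py xy pz xz xm my mz yz pm : Λ} (a1 : xp + py = xy)
    (a2 : xp + pz = xz) (a3 : xm + my = xy) (a4 : my + mz = yz) (a5 : xm + mz = xz)
    (e : pm = |xp - xm|) (t : yz ≤ py + pz) : xp + pm = xm := by
  grind

lemma btw_of_both {x y z m p : X} (p1 : Btw D x p y) (p2 : Btw D x p z) (m1 : Btw D x m y)
    (m2 : Btw D y m z) (m3 : Btw D x m z) (e : D.d p m = |D.d x p - D.d x m|) : Btw D x p m := by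
  have t1 := D.tri y p z
  rw [D.symm y p] at t1
  have m2' : D.d m y + D.d m z = D.d y z := by rw [D.symm m y]; exact m2
  exact arith_aux p1 p2 m1 m2' m3 e t1

/-- A criterion for trees. -/
theorem isTree_of
    (h1 : ∀ x y : X, ∀ t, 0 ≤ t → t ≤ D.d x y → ∃ p, Btw D x p y ∧ D.d x p = t)
    (h2 : ∀ x y p q : X, Btw D x p y → Btw D x q y → D.d p q = |D.d x p - D.d x q|)
    (h3 : ∀ x y z : X, ∃ m, Btw D x m y ∧ Btw D y m z ∧ Btw D x m z) : IsTree D := by
  have hseg := isSeg_iff h1 h2
  constructor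
  · intro x y
    exact ⟨_, (hseg _ x y).2 rfl⟩
  · intro x y z S T hS hT
    rw [hseg] at hS hT
    subst hS hT
    obtain ⟨m, m1, m2, m3⟩ := h3 x y z
    refine ⟨x, m, (hseg _ x m).2 ?_⟩
    ext p
    constructor
    · rintro ⟨p1, p2⟩
      have p1' : Btw D x p y := p1
      have p2' : Btw D x p z := p2
      have e := h2 x y p m p1' m1
      change Btw D x p m
      exact btw_of_both p1' p2' m1 m2 m3 e
    · intro hp
      have hp' : Btw D x p m := hp
      exact ⟨(btw_trans' m1 hp').1, (btw_trans' m3 hp').1⟩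
  · intro x y z S T hS hT hST
    rw [hseg] at hS hT
    subst hS hT
    obtain ⟨m, m1, m2, m3⟩ := h3 x y z
    have hm : m ∈ ({x} : Set X) := by
      rw [← hST]; exact ⟨m1, m3⟩
    rw [Set.mem_singleton_iff] at hm
    subst hm
    refine ⟨y, z, (hseg _ y z).2 ?_⟩
    ext p
    constructor
    · rintro (hp | hp)
      · have hp' : Btw D m p y := hp
        exact (btw_trans' m2 hp'.symm).1
      · have hp' : Btw D m p z := hp
        exact (btw_trans m2 hp').1
    · intro hp
      have hp' : Btw D y p z := hp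
      have e := h2 y z p m hp' m2
      rcases le_total (D.d y p) (D.d y m) with h | h
      · left
        rw [abs_of_nonpos (sub_nonpos.2 h)] at e
        have : Btw D y p m := by
          unfold Btw
          rw [e]; abel
        exact this.symm
      · right
        rw [abs_of_nonneg (sub_nonneg.2 h)] at e
        change D.d m p + D.d p z = D.d m z
        have a1 : D.d y p + D.d p z = D.d y z := hp'
        have a2 : D.d y m + D.d m z = D.d y z := m2
        have a3 : D.d p z = D.d y z - D.d y p := by rw [← a1]; abel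
        have a4 : D.d m z = D.d y z - D.d y m := by rw [← a2]; abel
        rw [D.symm m p, e, a3, a4]; abel

end Criterion

section Sub

variable {Λ : Type*} [AddCommGroup Λ] [LinearOrder Λ] [IsOrderedAddMonoid Λ] {X : Type*}
variable {D : Dist Λ X} {G : Type*} [Group G] [MulAction G X]

/-- The convex hull of the orbit. -/
def KK (D : Dist Λ X) (G : Type*) [Group G] [MulAction G X] (x0 : X) : Set X :=
  {y | ∃ g h : G, Btw D (g • x0) y (h • x0)}

/-- The points of the hull at distances in the group of lengths. -/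
def YY (D : Dist Λ X) (G : Type*) [Group G] [MulAction G X] (x0 : X) : Set X :=
  {y | y ∈ KK D G x0 ∧ D.d x0 y ∈ lengths D G x0}

variable {x0 : X}

lemma KK_beyond (hT : IsTree D) {y : X} (hy : y ∈ KK D G x0) (c : X) :
    ∃ g : G, Btw D (g • x0) y c := by
  obtain ⟨a, b, h⟩ := hy
  by_cases h' : Btw D (a • x0) y c
  · exact ⟨a, h'⟩
  · exact ⟨b, (dir hT h h').symm⟩

lemma KK_convex (hT : IsTree D) {y z m : X} (hy : y ∈ KK D G x0) (hz : z ∈ KK D G x0)
    (hm : Btw D y m z) : m ∈ KK D G x0 := by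
  by_cases e : y = z
  · subst e
    have : D.d y m = 0 := by
      have s := D.symm y m
      have n := D.nonneg y m
      have z := D.d_self y
      unfold Btw at hm
      grind
    rwa [← D.eq_of_d _ _ this]
  obtain ⟨a, ha⟩ := KK_beyond hT hy z
  obtain ⟨b, hb⟩ := KK_beyond hT hz y
  have h1 := lg_btw hT ha hb.symm e
  refine ⟨a, b, ?_⟩
  exact (btw_trans h1.1 (btw_trans' hb.symm hm).1).1

lemma smul_mem_KK (hG : FreeAct D G) (g : G) {y : X} (hy : y ∈ KK D G x0) :
    g • y ∈ KK D G x0 := by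
  obtain ⟨a, b, h⟩ := hy
  refine ⟨g * a, g * b, ?_⟩
  rw [mul_smul, mul_smul]
  exact hG.btw g h

/-- Membership of the distance to a point of the hull in the group of lengths does not depend on the
base point. -/
lemma base_change (hT : IsTree D) {y p q : X} (hy : y ∈ KK D G x0) (hp : p ∈ hullPts D G x0)
    (hq : q ∈ hullPts D G x0) (h : D.d p y ∈ lengths D G x0) : D.d q y ∈ lengths D G x0 := by
  obtain ⟨a, b, hab⟩ := hy
  have ha := orbit_mem_hull (D := D) x0 a
  have hb := orbit_mem_hull (D := D) x0 b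
  have key : ∀ {p : X}, p ∈ hullPts D G x0 → ∃ z ∈ lengths D G x0,
      D.d p y = D.d (a • x0) y + z ∨ D.d p y = z - D.d (a • x0) y := by
    intro p hp
    obtain ⟨m, m1, m2, m3⟩ := exists_median hT (a • x0) (b • x0) p
    have hm := median_mem_hull (G := G) hT ha hb hp ⟨m1, m2, m3⟩
    have e := btw_dist hT hab m1
    have d1 := dist_mem_lengths (D := D) ha hm
    have d2 := dist_mem_lengths (D := D) hp hm
    -- `d p y = d p m + d m y`
    have e2 : D.d p y = D.d p m + D.d m y := by
      by_cases hc : Btw D (a • x0) m y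
      · by_cases hym : y = m
        · subst hym
          rw [D.d_self, add_zero]
        by_cases hbm : Btw D p m y
        · exact Eq.symm hbm
        · exfalso
          have h3 := dir hT (r := p) (c := m) (w := b • x0) (z := y) m2.symm hbm
          apply hym
          apply D.eq_of_d
          unfold Btw at hab hc h3 m1
          have n2 := D.nonneg y m
          have s8 := D.symm y m
          have : D.d y m + D.d y m = 0 := by grind
          grind
      · have h4 := dir hT (r := a • x0) (c := m) (w := p) (z := y) m3 hc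
        exact Eq.symm (Btw.symm h4)
    rcases le_total (D.d (a • x0) y) (D.d (a • x0) m) with h5 | h5
    · refine ⟨D.d p m + D.d (a • x0) m, Submodule.add_mem _ d2 d1, Or.inr ?_⟩
      rw [e2, D.symm m y, e, abs_of_nonpos (sub_nonpos.2 h5)]
      abel
    · refine ⟨D.d p m - D.d (a • x0) m, Submodule.sub_mem _ d2 d1, Or.inl ?_⟩
      rw [e2, D.symm m y, e, abs_of_nonneg (sub_nonneg.2 h5)]
      abel
  obtain ⟨z, hz, h1⟩ := key hp
  obtain ⟨z', hz', h2⟩ := key hq
  have h3 : D.d (a • x0) y ∈ lengths D G x0 := by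
    rcases h1 with h1 | h1
    · have : D.d (a • x0) y = D.d p y - z := by rw [h1]; abel
      rw [this]; exact Submodule.sub_mem _ h hz
    · have : D.d (a • x0) y = z - D.d p y := by rw [h1]; abel
      rw [this]; exact Submodule.sub_mem _ hz h
  rcases h2 with h2 | h2
  · rw [h2]; exact Submodule.add_mem _ h3 hz'
  · rw [h2]; exact Submodule.sub_mem _ hz' h3

lemma x0_hull : x0 ∈ hullPts D G x0 := by
  simpa using orbit_mem_hull (D := D) x0 (1 : G)

lemma x0_mem : x0 ∈ YY D G x0 := by
  refine ⟨⟨1, 1, ?_⟩, ?_⟩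
  · rw [one_smul]; exact btw_left _ _
  · rw [D.d_self]; exact Submodule.zero_mem _

lemma YY_dist_hull (hT : IsTree D) {y p : X} (hy : y ∈ YY D G x0) (hp : p ∈ hullPts D G x0) :
    D.d p y ∈ lengths D G x0 := base_change hT hy.1 x0_hull hp hy.2

lemma mem_YY (hT : IsTree D) {y p : X} (hy : y ∈ KK D G x0) (hp : p ∈ hullPts D G x0)
    (h : D.d p y ∈ lengths D G x0) : y ∈ YY D G x0 := ⟨hy, base_change hT hy hp x0_hull h⟩

lemma YY_dist (hT : IsTree D) {y z : X} (hy : y ∈ YY D G x0) (hz : z ∈ YY D G x0) :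
    D.d y z ∈ lengths D G x0 := by
  obtain ⟨a, ha⟩ := KK_beyond hT hy.1 z
  have e : D.d y z = D.d (a • x0) z - D.d (a • x0) y := by
    unfold Btw at ha
    rw [← ha]; abel
  rw [e]
  exact Submodule.sub_mem _ (YY_dist_hull hT hz (orbit_mem_hull x0 a))
    (YY_dist_hull hT hy (orbit_mem_hull x0 a))

lemma smul_mem_YY (hT : IsTree D) (hG : FreeAct D G) (g : G) {y : X} (hy : y ∈ YY D G x0) :
    g • y ∈ YY D G x0 := by
  refine mem_YY hT (smul_mem_KK hG g hy.1) (orbit_mem_hull x0 g) ?_
  rw [hG.iso]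
  exact hy.2

lemma YY_at (hT : IsTree D) {x y m : X} (hx : x ∈ YY D G x0) (hy : y ∈ YY D G x0)
    (hm : Btw D x m y) (h : D.d x m ∈ lengths D G x0) : m ∈ YY D G x0 := by
  have hmK := KK_convex hT hx.1 hy.1 hm
  obtain ⟨a, ha⟩ := KK_beyond hT hx.1 y
  refine mem_YY hT hmK (orbit_mem_hull x0 a) ?_
  have e : D.d (a • x0) m = D.d (a • x0) x + D.d x m := by
    have t1 := D.tri (a • x0) x m
    have t2 := D.tri (a • x0) m y
    unfold Btw at *
    grind
  rw [e]
  exact Submodule.add_mem _ (YY_dist_hull hT hx (orbit_mem_hull x0 a)) h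

lemma YY_median (hT : IsTree D) {x y z m : X} (hx : x ∈ YY D G x0) (hy : y ∈ YY D G x0)
    (hz : z ∈ YY D G x0) (h1 : Btw D x m y) (h2 : Btw D y m z) (h3 : Btw D x m z) :
    m ∈ YY D G x0 := by
  by_cases ex : x = m
  · rwa [← ex]
  by_cases ey : y = m
  · rwa [← ey]
  by_cases ez : z = m
  · rwa [← ez]
  have hmK := KK_convex hT hx.1 hy.1 h1
  obtain ⟨a, ha⟩ := KK_beyond hT hx.1 m
  obtain ⟨b, hb⟩ := KK_beyond hT hy.1 m
  obtain ⟨c, hc⟩ := KK_beyond hT hz.1 m
  have key : ∀ {p q : X} {a b : G}, p ≠ m → q ≠ m → Btw D p m q → Btw D (a • x0) p m →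
      Btw D (b • x0) q m → Btw D (a • x0) m (b • x0) := by
    intro p q a b hp hq h ha hb
    have h1 : Btw D (a • x0) m q := (lg_btw hT ha h hp).2
    exact (lg_btw hT h1 hb.symm (fun e => hq e.symm)).1
  have hm : m ∈ hullPts D G x0 :=
    ⟨a, b, c, key ex ey h1 ha hb, key ey ez h2 hb hc, key ex ez h3 ha hc⟩
  exact ⟨hmK, dist_mem_lengths x0_hull hm⟩

end Sub

end Subtree

open Subtree

/-- The points of the hull of an orbit at distances in the group of lengths form a tree over this
group, on which `G` acts freely. -/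
theorem exists_subtree {Λ : Type*} [AddCommGroup Λ] [LinearOrder Λ] [IsOrderedAddMonoid Λ]
    {X : Type*} {D : Dist Λ X} {G : Type*} [Group G] [MulAction G X] (hT : IsTree D)
    (hG : FreeAct D G) (x0 : X) :
    ∃ (Y : Set X) (_ : MulAction G Y) (D' : Dist (lengths D G x0).toAddSubgroup Y),
      (∀ (g : G) (y : Y), ((g • y : Y) : X) = g • (y : X)) ∧
      (∀ y z : Y, ((D'.d y z : (lengths D G x0).toAddSubgroup) : Λ) = D.d y z) ∧
      x0 ∈ Y ∧ IsTree D' ∧ FreeAct D' G := by
  classical
  let Y : Set X := YY D G x0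
  let act : MulAction G Y :=
    { smul := fun g y => ⟨g • (y : X), smul_mem_YY hT hG g y.2⟩
      one_smul := fun y => Subtype.ext (one_smul G (y : X))
      mul_smul := fun g h y => Subtype.ext (mul_smul g h (y : X)) }
  let D' : Dist (lengths D G x0).toAddSubgroup Y :=
    { d := fun y z => ⟨D.d y z, YY_dist hT y.2 z.2⟩
      d_self := fun y => Subtype.ext (D.d_self y)
      eq_of_d := fun y z h => Subtype.ext (D.eq_of_d _ _ (congrArg Subtype.val h))
      symm := fun y z => Subtype.ext (D.symm y z)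
      tri := fun x y z => D.tri x y z }
  have hsm : ∀ (g : G) (y : Y), ((g • y : Y) : X) = g • (y : X) := fun g y => rfl
  have hd : ∀ y z : Y, ((D'.d y z : (lengths D G x0).toAddSubgroup) : Λ) = D.d y z :=
    fun y z => rfl
  have hbt : ∀ x y z : Y, Btw D' x y z ↔ Btw D (x : X) y z := by
    intro x y z
    unfold Btw
    rw [Subtype.ext_iff, AddSubgroup.coe_add, hd, hd, hd]
  refine ⟨Y, act, D', hsm, hd, x0_mem, ?_, ?_⟩
  · apply isTree_of
    · intro x y t h0 h1
      have h0' : (0 : Λ) ≤ t := h0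
      have h1' : (t : Λ) ≤ D.d x y := h1
      obtain ⟨p, hp, e⟩ := exists_btw hT h0' h1'
      have hpY : p ∈ Y := YY_at hT x.2 y.2 hp (by rw [e]; exact t.2)
      exact ⟨⟨p, hpY⟩, (hbt _ _ _).2 hp, Subtype.ext e⟩
    · intro x y p q hp hq
      apply Subtype.ext
      have h := btw_dist hT ((hbt _ _ _).1 hp) ((hbt _ _ _).1 hq)
      rw [hd, h]
      rfl
    · intro x y z
      obtain ⟨m, m1, m2, m3⟩ := exists_median hT (x : X) y z
      have hm : m ∈ Y := YY_median hT x.2 y.2 z.2 m1 m2 m3
      exact ⟨⟨m, hm⟩, (hbt _ _ _).2 m1, (hbt _ _ _).2 m2, (hbt _ _ _).2 m3⟩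
  · constructor
    · intro g x y
      apply Subtype.ext
      rw [hd, hd, hsm, hsm, hG.iso]
    · intro g x h
      exact hG.free g x (congrArg Subtype.val h)
    · rintro g ⟨h1, x, h2⟩
      have h3 : (g ^ 2) • (x : X) = x := congrArg Subtype.val h2
      refine hG.noinv g ⟨?_, x, h3⟩
      intro y hy
      have h4 := hG.free g y hy
      apply h1 x
      rw [h4, one_smul]

end LTree.Idx
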