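import Pool.Agent.Work.MP_0c526b_al.Idx.Defs

/-!
# Module A2: word calculus
-/

set_option autoImplicit false

namespace LTree.Idx

open LTree

variable {Λ : Type*} [AddCommGroup Λ] [LinearOrder Λ] [IsOrderedAddMonoid Λ] {X : Type*}
variable {D : Dist Λ X} {G : Type*} [Group G] [MulAction G X]

lemma val_append (w w' : List (Letter X G)) : val (w ++ w') = val w' * val w := by
  induction w with
  | nil => simp [val]
  | cons l w ih => simp [val, ih, mul_assoc]

lemma ok_append (t : Λ) (w w' : List (Letter X G)) (y : X) :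
    ok D t (w ++ w') y ↔ ok D t w y ∧ ok D t w' (val w • y) := by
  induction w generalizing y with
  | nil => simp [ok, val]
  | cons l w ih => simp only [List.cons_append, ok, val, ih, mul_smul, and_assoc]

lemma mem_append (w w' : List (Letter X G)) (y : X) :
    mem D (w ++ w') y ↔ mem D w y ∧ mem D w' (val w • y) := by
  induction w generalizing y with
  | nil => simp [mem, val]
  | cons l w ih => simp only [List.cons_append, mem, val, ih, mul_smul, and_assoc]

lemma rev_cons (l : Letter X G) (w : List (Letter X G)) : rev (l :: w) = rev w ++ [l.inv] := by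
  simp [rev]

lemma val_rev (w : List (Letter X G)) : val (rev w) = (val w)⁻¹ := by
  induction w with
  | nil => simp [rev, val]
  | cons l w ih =>
    rw [rev_cons, val_append, ih]
    simp [val, Letter.inv, mul_inv_rev]

lemma ok_rev (hG : FreeAct D G) (t : Λ) (w : List (Letter X G)) (y : X) :
    ok D t (rev w) (val w • y) ↔ ok D t w y := by
  induction w generalizing y with
  | nil => simp [rev, ok]
  | cons l w ih =>
    rw [rev_cons, ok_append, val_rev]
    have h1 : (val (l :: w) • y : X) = val w • (l.h • y) := by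
      show (val w * l.h) • y = _
      rw [mul_smul]
    rw [h1, ih, inv_smul_smul]
    simp only [ok, Letter.inv, and_true, hG.btw_iff, hG.iso]
    exact and_comm

lemma mem_rev (hG : FreeAct D G) (w : List (Letter X G)) (y : X) :
    mem D (rev w) (val w • y) ↔ mem D w y := by
  induction w generalizing y with
  | nil => simp [rev, mem]
  | cons l w ih =>
    rw [rev_cons, mem_append, val_rev]
    have h1 : (val (l :: w) • y : X) = val w • (l.h • y) := by
      show (val w * l.h) • y = _
      rw [mul_smul]
    rw [h1, ih, inv_smul_smul]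
    simp only [mem, Letter.inv, and_true, hG.btw_iff]
    exact and_comm

lemma rev_in {L : Set (Letter X G)} (hL : ∀ l ∈ L, l.inv ∈ L) {w : List (Letter X G)}
    (hw : ∀ l ∈ w, l ∈ L) : ∀ l ∈ rev w, l ∈ L := by
  intro l hl
  rw [rev, List.mem_reverse, List.mem_map] at hl
  obtain ⟨l', hl', rfl⟩ := hl
  exact hL l' (hw l' hl')

lemma ok_mem {t : Λ} {w : List (Letter X G)} {y : X} (h : ok D t w y) : mem D w y := by
  induction w generalizing y with
  | nil => trivial
  | cons l w ih => exact ⟨h.1.1, ih h.2⟩

/-- Without flags, `ok` is `mem`. -/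
lemma ok_of_mem {t : Λ} {w : List (Letter X G)} {y : X} (h : mem D w y)
    (hf : ∀ l ∈ w, l.flag = false) : ok D t w y := by
  induction w generalizing y with
  | nil => trivial
  | cons l w ih =>
    refine ⟨⟨h.1, fun h1 => ?_⟩, ih h.2 (fun l' hl' => hf l' (List.mem_cons_of_mem _ hl'))⟩
    rw [hf l List.mem_cons_self] at h1
    exact absurd h1 (by decide)

lemma ok_move (hG : FreeAct D G) {s t : Λ} {w : List (Letter X G)} {y z : X} (h : ok D s w y)
    (hm : mem D w z) (hd : D.d y z ≤ t - s) : ok D t w z := by
  induction w generalizing y z with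
  | nil => trivial
  | cons l w ih =>
    refine ⟨⟨hm.1, fun h1 => ?_⟩, ih h.2 hm.2 ?_⟩
    · have h2 := h.1.2 h1
      have h3 := D.tri l.a y z
      grind
    · rw [hG.iso]
      exact hd

lemma ok_mono {s t : Λ} (hst : s ≤ t) {w : List (Letter X G)} {y : X} (h : ok D s w y) :
    ok D t w y := by
  induction w generalizing y with
  | nil => trivial
  | cons l w ih => exact ⟨⟨h.1.1, fun h1 => lt_of_lt_of_le (h.1.2 h1) hst⟩, ih h.2⟩

/-- Segments are convex. -/
lemma btw_convex (hT : IsTree D) {a b y z m : X} (hy : Btw D a y b) (hz : Btw D a z b)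
    (hm : Btw D y m z) : Btw D a m b := by
  have key : ∀ {y z : X}, Btw D a y b → Btw D a z b → Btw D y m z → D.d a y ≤ D.d a z →
      Btw D a m b := by
    intro y z hy hz hm hle
    have h1 := btw_dist hT hy hz
    have h2 : Btw D a y z := by
      unfold Btw
      rw [h1]
      grind
    exact (btw_trans' hz (btw_trans h2 hm).1).1
  rcases le_total (D.d a y) (D.d a z) with h | h
  · exact key hy hz hm h
  · exact key hz hy hm.symm h

lemma mem_convex (hT : IsTree D) (hG : FreeAct D G) {w : List (Letter X G)} {y z m : X}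
    (hy : mem D w y) (hz : mem D w z) (hm : Btw D y m z) : mem D w m := by
  induction w generalizing y z m with
  | nil => trivial
  | cons l w ih => exact ⟨btw_convex hT hy.1 hz.1 hm, ih hy.2 hz.2 (hG.btw l.h hm)⟩

/-- A word whose letters have end points in the hull stays in the hull. -/
lemma mem_hull (hT : IsTree D) (hG : FreeAct D G) {F : Finset X} {w : List (Letter X G)}
    (hw : ∀ l ∈ w, l.h • l.a ∈ hull D F ∧ l.h • l.b ∈ hull D F) {y : X} (hy : y ∈ hull D F)
    (hm : mem D w y) : val w • y ∈ hull D F := by
  have beyond : ∀ {y : X}, y ∈ hull D F → ∀ c : X, ∃ f ∈ F, Btw D c y f := by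
    rintro y ⟨f, hf, f', hf', h⟩ c
    by_cases h1 : Btw D f y c
    · exact ⟨f, hf, h1.symm⟩
    · exact ⟨f', hf', dir hT h h1⟩
  have conv : ∀ {y z m : X}, y ∈ hull D F → z ∈ hull D F → Btw D y m z → m ∈ hull D F := by
    intro y z m hy hz hm
    by_cases e1 : y = m
    · rwa [← e1]
    by_cases e2 : z = m
    · rwa [← e2]
    obtain ⟨f, hf, h1⟩ := beyond hy m
    obtain ⟨f', hf', h2⟩ := beyond hz m
    have h3 : Btw D f m z := (lg_btw hT h1.symm hm e1).2
    exact ⟨f, hf, f', hf', (lg_btw hT h3 h2 (Ne.symm e2)).1⟩
  induction w generalizing y with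
  | nil => simpa [val] using hy
  | cons l w ih =>
    have h1 : (val (l :: w) • y : X) = val w • (l.h • y) := by
      show (val w * l.h) • y = _
      rw [mul_smul]
    rw [h1]
    refine ih (fun l' hl' => hw l' (List.mem_cons_of_mem _ hl')) ?_ hm.2
    have h2 := hw l List.mem_cons_self
    exact conv h2.1 h2.2 (hG.btw l.h hm.1)

end LTree.Idx
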