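import Pool.Agent.Work.MP_0c526b_al.Idx.Basics
import Pool.Agent.Work.MP_0c526b_al.Idx.Words

/-!
# Module A6: connected points and directions are joined by words, and conversely
-/

set_option autoImplicit false
set_option linter.unusedVariables false

namespace LTree.Idx

open LTree

variable {Λ : Type*} [AddCommGroup Λ] [LinearOrder Λ] [IsOrderedAddMonoid Λ] {X : Type*}
variable {D : Dist Λ X} {G : Type*} [Group G] [MulAction G X]

lemma Letter.inv_inv (l : Letter X G) : l.inv.inv = l := by
  unfold Letter.inv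
  simp

lemma lett_inv {T : Set (Letter X G)} : ∀ l ∈ lett T, l.inv ∈ lett T := by
  rintro l (h | ⟨l', h, rfl⟩)
  · exact Or.inr ⟨l, h, rfl⟩
  · rw [Letter.inv_inv]
    exact Or.inl h

lemma lett_flag {T : Set (Letter X G)} (hTf : ∀ l ∈ T, l.flag = false) :
    ∀ l ∈ lett T, l.flag = false := by
  rintro l (h | ⟨l', h, rfl⟩)
  · exact hTf l h
  · exact hTf l' h

lemma eqv_mono {α : Type*} {r r' : α → α → Prop} (h : ∀ x y, r x y → r' x y) {x y : α}
    (hxy : Relation.EqvGen r x y) : Relation.EqvGen r' x y := by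
  induction hxy with
  | rel x y hr => exact Relation.EqvGen.rel _ _ (h _ _ hr)
  | refl x => exact Relation.EqvGen.refl _
  | symm x y _ ih => exact Relation.EqvGen.symm _ _ ih
  | trans x y z _ _ ih1 ih2 => exact Relation.EqvGen.trans _ _ _ ih1 ih2

lemma rV_mono {E E' : Set (Edge X G)} (h : E ⊆ E') {x y : X}
    (hxy : Relation.EqvGen (rV E) x y) : Relation.EqvGen (rV E') x y :=
  eqv_mono (fun _ _ ⟨e, he, h1⟩ => ⟨e, h he, h1⟩) hxy

lemma conn_symm (hG : FreeAct D G) {T : Set (Letter X G)} {x : X} {g : G} (h : Conn D T x g) :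
    Conn D T (g • x) g⁻¹ := by
  obtain ⟨w, hw, hm, rfl⟩ := h
  exact ⟨rev w, rev_in lett_inv hw, (mem_rev hG w x).2 hm, val_rev w⟩

lemma conn_trans {T : Set (Letter X G)} {x : X} {g h : G} (h1 : Conn D T x g)
    (h2 : Conn D T (g • x) h) : Conn D T x (h * g) := by
  obtain ⟨w, hw, hm, rfl⟩ := h1
  obtain ⟨w', hw', hm', rfl⟩ := h2
  refine ⟨w ++ w', fun l hl => ?_, (mem_append w w' x).2 ⟨hm, hm'⟩, val_append w w'⟩
  rcases List.mem_append.1 hl with h | h
  · exact hw l h
  · exact hw' l h

/-- Connected points are joined by words. -/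
theorem rV_word (hG : FreeAct D G) {T : Set (Letter X G)} (hTf : ∀ l ∈ T, l.flag = false)
    {E : Set (Edge X G)}
    (hE : ∀ e ∈ E, EdgeOf D T e) {x y : X} (h : Relation.EqvGen (rV E) x y) :
    ∃ g : G, Conn D T x g ∧ y = g • x := by
  induction h with
  | rel x y hr =>
    obtain ⟨e, he, rfl, rfl⟩ := hr
    refine ⟨e.h, ⟨[⟨e.a, e.b, e.h, false⟩], ?_, ?_, ?_⟩, rfl⟩
    · intro l hl
      rw [List.mem_singleton.1 hl]
      exact Or.inl (hE e he).1
    · exact ⟨(hE e he).2, trivial⟩
    · simp [val]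
  | refl x => exact ⟨1, ⟨[], by simp, trivial, rfl⟩, (one_smul _ _).symm⟩
  | symm x y _ ih =>
    obtain ⟨g, hg, rfl⟩ := ih
    exact ⟨g⁻¹, conn_symm hG hg, (inv_smul_smul g x).symm⟩
  | trans x y z _ _ ih1 ih2 =>
    obtain ⟨g, hg, rfl⟩ := ih1
    obtain ⟨h, hh, rfl⟩ := ih2
    exact ⟨h * g, conn_trans hg hh, (mul_smul h g x).symm⟩

/-- a letter of the system gives one edge -/
lemma letter_rV (hG : FreeAct D G) {T : Set (Letter X G)} (hTf : ∀ l ∈ T, l.flag = false)
    {l : Letter X G} (hl : l ∈ lett T) {y : X} (hm : Btw D l.a y l.b) :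
    ∃ e : Edge X G, EdgeOf D T e ∧ Relation.EqvGen (rV {e}) y (l.h • y) := by
  rcases hl with h | ⟨l', h, rfl⟩
  · refine ⟨⟨l.a, l.b, l.h, y⟩, ⟨?_, hm⟩, Relation.EqvGen.rel _ _ ⟨_, rfl, rfl, rfl⟩⟩
    have := hTf l h
    obtain ⟨a, b, g, f⟩ := l
    simp only at this
    rw [this] at h
    exact h
  · refine ⟨⟨l'.a, l'.b, l'.h, l'.h⁻¹ • y⟩, ⟨?_, ?_⟩,
      Relation.EqvGen.symm _ _ (Relation.EqvGen.rel _ _ ⟨_, rfl, rfl, ?_⟩)⟩
    · have := hTf l' h
      obtain ⟨a, b, g, f⟩ := l'
      simp only at this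
      rw [this] at h
      exact h
    · have h1 := hG.btw l'.h⁻¹ hm
      unfold Letter.inv at h1
      simpa using h1
    · show y = l'.h • (l'.h⁻¹ • y)
      rw [smul_inv_smul]

/-- Words give finitely many edges. -/
theorem word_rV (hG : FreeAct D G) {T : Set (Letter X G)} (hTf : ∀ l ∈ T, l.flag = false)
    {x : X} {g : G} (h : Conn D T x g) :
    ∃ E : Set (Edge X G), E.Finite ∧ (∀ e ∈ E, EdgeOf D T e) ∧
      Relation.EqvGen (rV E) x (g • x) := by
  obtain ⟨w, hw, hm, rfl⟩ := h
  induction w generalizing x with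
  | nil => exact ⟨∅, Set.finite_empty, by simp, by simpa [val] using Relation.EqvGen.refl _⟩
  | cons l w ih =>
    obtain ⟨e, he, h1⟩ := letter_rV hG hTf (hw l (by simp)) hm.1
    obtain ⟨E, hE1, hE2, h2⟩ := ih (fun l' hl' => hw l' (by simp [hl'])) hm.2
    refine ⟨insert e E, hE1.insert e, ?_, ?_⟩
    · intro e' he'
      rcases Set.mem_insert_iff.1 he' with rfl | h
      · exact he
      · exact hE2 e' h
    · have e3 : val (l :: w) • x = val w • (l.h • x) := by
        rw [val, mul_smul]
      rw [e3]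
      exact Relation.EqvGen.trans _ _ _ (rV_mono (by simp) h1)
        (rV_mono (Set.subset_insert e E) h2)

/-- Connected directions are joined by words valid on a nondegenerate segment. -/
theorem rH_word (hT : IsTree D) (hG : FreeAct D G) {T : Set (Letter X G)}
    (hTf : ∀ l ∈ T, l.flag = false)
    {E : Set (Edge X G)} (hE : ∀ e ∈ E, EdgeOf D T e) {x z y : X} {d : Set X} (hz : z ≠ x)
    (h : Relation.EqvGen (rH D E) (x, drn D x z) (y, d)) :
    ∃ (w : List (Letter X G)) (m : X), (∀ l ∈ w, l ∈ lett T) ∧ y = val w • x ∧ m ≠ x ∧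
      Btw D x m z ∧ mem D w x ∧ mem D w m := by
  have key : ∀ u v : X × Set X, Relation.EqvGen (rH D E) u v →
      ∃ w : List (Letter X G), (∀ l ∈ w, l ∈ lett T) ∧ v = (val w • u.1, sm (val w) u.2) ∧
        (w = [] ∨ ∃ m, m ≠ u.1 ∧ u.2 = drn D u.1 m ∧ mem D w u.1 ∧ mem D w m) := by
    intro u v huv
    induction huv with
    | rel u v hr =>
      obtain ⟨e, he, h1, h2, rfl⟩ := hr
      refine ⟨[⟨e.a, e.b, e.h, false⟩], ?_, ?_, Or.inr ?_⟩
      · intro l hl
        rw [List.mem_singleton.1 hl]
        exact Or.inl (hE e he).1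
      · simp [val, h1]
      · rcases h2 with ⟨h3, h4⟩ | ⟨h3, h4⟩
        · exact ⟨e.a, by rw [h1]; exact h3, by rw [h1]; exact h4,
            ⟨by rw [h1]; exact (hE e he).2, trivial⟩, ⟨btw_left _ _, trivial⟩⟩
        · exact ⟨e.b, by rw [h1]; exact h3, by rw [h1]; exact h4,
            ⟨by rw [h1]; exact (hE e he).2, trivial⟩, ⟨btw_right _ _, trivial⟩⟩
    | refl u => exact ⟨[], by simp, by simp [val, sm_one], Or.inl rfl⟩
    | symm u v _ ih =>
      obtain ⟨w, hw, rfl, h⟩ := ih
      refine ⟨rev w, rev_in lett_inv hw, ?_, ?_⟩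
      · rw [val_rev]
        show u = ((val w)⁻¹ • (val w • u.1), sm (val w)⁻¹ (sm (val w) u.2))
        rw [inv_smul_smul, ← sm_mul, inv_mul_cancel, sm_one]
      · rcases h with rfl | ⟨m, h1, h2, h3, h4⟩
        · exact Or.inl rfl
        · refine Or.inr ⟨val w • m, ?_, ?_, (mem_rev hG w _).2 h3, (mem_rev hG w _).2 h4⟩
          · intro heq
            exact h1 (smul_left_cancel _ heq)
          · show sm (val w) u.2 = _
            rw [h2, sm_drn hG]
    | trans u v t _ _ ih1 ih2 =>
      obtain ⟨w1, hw1, rfl, h1⟩ := ih1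
      obtain ⟨w2, hw2, rfl, h2⟩ := ih2
      refine ⟨w1 ++ w2, ?_, ?_, ?_⟩
      · intro l hl
        rcases List.mem_append.1 hl with h | h
        · exact hw1 l h
        · exact hw2 l h
      · rw [val_append, mul_smul, sm_mul]
      · rcases h1 with rfl | ⟨m1, a1, a2, a3, a4⟩
        · rcases h2 with rfl | ⟨m2, b1, b2, b3, b4⟩
          · exact Or.inl rfl
          · simp only [val, one_smul, sm_one] at b1 b2 b3 b4
            exact Or.inr ⟨m2, b1, b2, b3, b4⟩
        · rcases h2 with rfl | ⟨m2, b1, b2, b3, b4⟩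
          · rw [List.append_nil]
            exact Or.inr ⟨m1, a1, a2, a3, a4⟩
          · simp only at b1 b2 b3 b4
            rw [a2, sm_drn hG] at b2
            obtain ⟨m3, c1, c2, c3⟩ := drn_common hT (fun heq => a1 (smul_left_cancel _ heq)) b1 b2
            have c4 : Btw D u.1 ((val w1)⁻¹ • m3) m1 := by
              have := hG.btw (val w1)⁻¹ c2
              rwa [inv_smul_smul, inv_smul_smul] at this
            have c5 : (val w1)⁻¹ • m3 ≠ u.1 := by
              intro heq
              apply c1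
              rw [← heq, smul_inv_smul]
            refine Or.inr ⟨(val w1)⁻¹ • m3, c5, ?_, ?_, ?_⟩
            · rw [a2]
              exact (drn_eq_of_btw hT c4 c5).symm
            · exact (mem_append _ _ _).2 ⟨a3, b3⟩
            · refine (mem_append _ _ _).2 ⟨mem_convex hT hG a3 a4 c4, ?_⟩
              rw [smul_inv_smul]
              exact mem_convex hT hG b3 b4 c3
  obtain ⟨w, hw, h1, h2⟩ := key _ _ h
  have h3 : y = val w • x := congrArg Prod.fst h1
  rcases h2 with rfl | ⟨m1, a1, a2, a3, a4⟩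
  · exact ⟨[], z, by simp, h3, hz, btw_right _ _, trivial, trivial⟩
  · simp only at a1 a2 a3 a4
    obtain ⟨m, c1, c2, c3⟩ := drn_common hT hz a1 a2
    exact ⟨w, m, hw, h3, c1, c2, a3, mem_convex hT hG a3 a4 c3⟩

/-- points of a segment before a point -/
lemma btw_before (hT : IsTree D) {p q q' r : X} (hq' : Btw D p q' q) (hr : Btw D p r q)
    (h : D.d p r < D.d p q') : Btw D p r q' ∧ r ≠ q' := by
  refine ⟨?_, fun heq => ?_⟩
  · have h1 := btw_dist hT hr hq'
    unfold Btw
    rw [h1, abs_of_nonpos (sub_nonpos.2 h.le)]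
    abel
  · rw [heq] at h
    exact lt_irrefl _ h

/-- A word with flagged letters, valid at time `d(p,q')` from `q'`, gives finitely many edges of
the system and finitely many edges of the family `(p,q',g)` at points different from `q'`. -/
theorem flag_rV (hT : IsTree D) (hG : FreeAct D G) {T : Set (Letter X G)}
    (hTf : ∀ l ∈ T, l.flag = false) {p q q' : X} {g : G} (hq' : Btw D p q' q)
    {w : List (Letter X G)}
    (hw : ∀ l ∈ w, l ∈ lett T ∨ l = ⟨p, q, g, true⟩ ∨ l = (⟨p, q, g, true⟩ : Letter X G).inv)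
    (hok : ok D (D.d p q') w q') :
    ∃ (E : Set (Edge X G)) (R : Set X), E.Finite ∧ (∀ e ∈ E, EdgeOf D T e) ∧ R.Finite ∧
      (∀ r ∈ R, Btw D p r q' ∧ r ≠ q') ∧
      Relation.EqvGen (rV (E ∪ (fun r => (⟨p, q', g, r⟩ : Edge X G)) '' R)) q' (val w • q') := by
  have key : ∀ y, ok D (D.d p q') w y → ∃ (E : Set (Edge X G)) (R : Set X), E.Finite ∧
      (∀ e ∈ E, EdgeOf D T e) ∧ R.Finite ∧ (∀ r ∈ R, Btw D p r q' ∧ r ≠ q') ∧
      Relation.EqvGen (rV (E ∪ (fun r => (⟨p, q', g, r⟩ : Edge X G)) '' R)) y (val w • y) := by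
    clear hok
    induction w with
    | nil =>
      intro y _
      exact ⟨∅, ∅, Set.finite_empty, by simp, Set.finite_empty, by simp,
        by simpa [val] using Relation.EqvGen.refl _⟩
    | cons l w ih =>
      intro y hy
      obtain ⟨E, R, hE1, hE2, hR1, hR2, h2⟩ := ih (fun l' hl' => hw l' (by simp [hl']))
        (l.h • y) hy.2
      have e3 : val (l :: w) • y = val w • (l.h • y) := by
        rw [val, mul_smul]
      rcases hw l (by simp) with h | h | h
      · obtain ⟨e, he, h1⟩ := letter_rV hG hTf h hy.1.1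
        refine ⟨insert e E, R, hE1.insert e, ?_, hR1, hR2, ?_⟩
        · intro e' he'
          rcases Set.mem_insert_iff.1 he' with rfl | h
          · exact he
          · exact hE2 e' h
        · rw [e3]
          refine Relation.EqvGen.trans _ _ _ (rV_mono ?_ h1) (rV_mono ?_ h2)
          · intro e' he'
            rw [Set.mem_singleton_iff.1 he']
            exact Or.inl (Set.mem_insert _ _)
          · exact Set.union_subset_union_left _ (Set.subset_insert e E)
      · subst h
        have hb := hy.1.1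
        have hf := hy.1.2 rfl
        refine ⟨E, insert y R, hE1, hE2, hR1.insert y, ?_, ?_⟩
        · intro r hr
          rcases Set.mem_insert_iff.1 hr with rfl | h
          · exact btw_before hT hq' hb hf
          · exact hR2 r h
        · rw [e3]
          refine Relation.EqvGen.trans _ _ _ (Relation.EqvGen.rel _ _
            ⟨⟨p, q', g, y⟩, Or.inr ⟨y, Set.mem_insert _ _, rfl⟩, rfl, rfl⟩) (rV_mono ?_ h2)
          exact Set.union_subset_union_right _ (Set.image_mono (Set.subset_insert y R))
      · subst h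
        have hb : Btw D p (g⁻¹ • y) q := by
          have := hG.btw g⁻¹ hy.1.1
          unfold Letter.inv at this
          simpa using this
        have hf : D.d p (g⁻¹ • y) < D.d p q' := by
          have h1 : D.d (g • p) y < D.d p q' := hy.1.2 rfl
          rwa [← hG.iso g⁻¹, inv_smul_smul] at h1
        refine ⟨E, insert (g⁻¹ • y) R, hE1, hE2, hR1.insert _, ?_, ?_⟩
        · intro r hr
          rcases Set.mem_insert_iff.1 hr with rfl | h
          · exact btw_before hT hq' hb hf
          · exact hR2 r h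
        · rw [e3]
          refine Relation.EqvGen.trans _ _ _ (Relation.EqvGen.symm _ _ (Relation.EqvGen.rel _ _
            ⟨⟨p, q', g, g⁻¹ • y⟩, Or.inr ⟨g⁻¹ • y, Set.mem_insert _ _, rfl⟩, rfl, ?_⟩))
            (rV_mono ?_ h2)
          · show y = g • (g⁻¹ • y)
            rw [smul_inv_smul]
          · exact Set.union_subset_union_right _ (Set.image_mono (Set.subset_insert _ R))
  exact key q' hok

/-- A word of the system with the family `(p,q',g)` added, valid at `q'` and at a point beyond `q'`,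
may be rewritten with flagged letters. -/
theorem flag_word (hT : IsTree D) (hG : FreeAct D G) {T : Set (Letter X G)}
    (hTf : ∀ l ∈ T, l.flag = false) {p q q' m : X} {g : G} (hq' : Btw D p q' q)
    (hm : Btw D q' m q) (hne : m ≠ q') {w : List (Letter X G)}
    (hw : ∀ l ∈ w, l ∈ lett (insert ⟨p, q', g, false⟩ T)) (h1 : mem D w q') (h2 : mem D w m) :
    ∃ w' : List (Letter X G), (∀ l ∈ w', l ∈ lett T ∨ l = ⟨p, q, g, true⟩ ∨
      l = (⟨p, q, g, true⟩ : Letter X G).inv) ∧ val w' = val w ∧
      ok D (D.d p q') w' q' ∧ ok D (D.d p m) w' m := by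
  -- `m` is beyond `q'`
  have hqm : 0 < D.d q' m :=
    lt_of_le_of_ne (D.nonneg _ _) fun h => hne (D.eq_of_d _ _ h.symm).symm
  have hpm : D.d p q' + D.d q' m = D.d p m := (btw_trans hq' hm).2
  have hlt : D.d p q' < D.d p m := by
    rw [← hpm]
    exact lt_add_of_pos_right _ hqm
  have hnb : ¬ Btw D p m q' := by
    intro h
    have h3 : D.d p m + D.d m q' = D.d p q' := h
    have h4 := D.nonneg m q'
    have h5 : D.d p m ≤ D.d p q' := by
      rw [← h3]
      exact le_add_of_nonneg_right h4
    exact absurd hlt (not_lt.2 h5)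
  have hbt : ∀ r, Btw D p r q' → r ≠ q' → D.d p r < D.d p q' := by
    intro r hr hrne
    have h3 : D.d p r + D.d r q' = D.d p q' := hr
    have h4 : 0 < D.d r q' := lt_of_le_of_ne (D.nonneg _ _) fun h => hrne (D.eq_of_d _ _ h.symm)
    rw [← h3]
    exact lt_add_of_pos_right _ h4
  have hbt' : ∀ r, Btw D p r q' → D.d p r < D.d p m := by
    intro r hr
    have h3 : D.d p r + D.d r q' = D.d p q' := hr
    have h4 := D.nonneg r q'
    refine lt_of_le_of_lt ?_ hlt
    rw [← h3]
    exact le_add_of_nonneg_right h4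
  have key : ∀ h : G, mem D w (h • q') → mem D w (h • m) →
      ∃ w' : List (Letter X G), (∀ l ∈ w', l ∈ lett T ∨ l = ⟨p, q, g, true⟩ ∨
        l = (⟨p, q, g, true⟩ : Letter X G).inv) ∧ val w' = val w ∧
        ok D (D.d p q') w' (h • q') ∧ ok D (D.d p m) w' (h • m) := by
    clear h1 h2
    induction w with
    | nil => exact fun h _ _ => ⟨[], by simp, rfl, trivial, trivial⟩
    | cons l w ih =>
      intro h h1 h2
      have e1 : l.h • (h • q') = (l.h * h) • q' := (mul_smul _ _ _).symm
      have e2 : l.h • (h • m) = (l.h * h) • m := (mul_smul _ _ _).symm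
      have h1' := h1.2
      have h2' := h2.2
      rw [e1] at h1'
      rw [e2] at h2'
      obtain ⟨w', hw', hv, hok1, hok2⟩ := ih (fun l' hl' => hw l' (by simp [hl'])) (l.h * h) h1' h2'
      rw [← e1] at hok1
      rw [← e2] at hok2
      have hcase : (l ∈ lett T) ∨ l = ⟨p, q', g, false⟩ ∨
          l = (⟨p, q', g, false⟩ : Letter X G).inv := by
        rcases hw l (by simp) with h3 | ⟨l', h3, h4⟩
        · rcases Set.mem_insert_iff.1 h3 with h5 | h5
          · exact Or.inr (Or.inl h5)
          · exact Or.inl (Or.inl h5)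
        · rcases Set.mem_insert_iff.1 h3 with h5 | h5
          · rw [h5] at h4
            exact Or.inr (Or.inr h4)
          · exact Or.inl (Or.inr ⟨l', h5, h4⟩)
      rcases hcase with h3 | h3 | h3
      · have hf := lett_flag hTf l h3
        refine ⟨l :: w', ?_, ?_, ?_, ?_⟩
        · intro l' hl'
          rcases List.mem_cons.1 hl' with rfl | h4
          · exact Or.inl h3
          · exact hw' l' h4
        · rw [val, val, hv]
        · exact ⟨⟨h1.1, fun h4 => by rw [hf] at h4; exact absurd h4 (by simp)⟩, hok1⟩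
        · exact ⟨⟨h2.1, fun h4 => by rw [hf] at h4; exact absurd h4 (by simp)⟩, hok2⟩
      · subst h3
        have a1 : Btw D p (h • q') q' := h1.1
        have a2 : Btw D p (h • m) q' := h2.1
        have a3 : h • q' ≠ q' := by
          intro heq
          rw [hG.free h q' heq, one_smul] at a2
          exact hnb a2
        refine ⟨⟨p, q, g, true⟩ :: w', ?_, ?_, ?_, ?_⟩
        · intro l' hl'
          rcases List.mem_cons.1 hl' with h4 | h4
          · exact Or.inr (Or.inl h4)
          · exact hw' l' h4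
        · rw [val, val, hv]
        · exact ⟨⟨(btw_trans' hq' a1).1, fun _ => hbt _ a1 a3⟩, hok1⟩
        · exact ⟨⟨(btw_trans' hq' a2).1, fun _ => hbt' _ a2⟩, hok2⟩
      · subst h3
        have a1 : Btw D (g • p) (h • q') (g • q') := h1.1
        have a2 : Btw D (g • p) (h • m) (g • q') := h2.1
        have b1 : Btw D p (g⁻¹ • (h • q')) q' := by
          have := hG.btw g⁻¹ a1
          rwa [inv_smul_smul, inv_smul_smul] at this
        have b2 : Btw D p (g⁻¹ • (h • m)) q' := by
          have := hG.btw g⁻¹ a2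
          rwa [inv_smul_smul, inv_smul_smul] at this
        have a3 : g⁻¹ • (h • q') ≠ q' := by
          intro heq
          rw [← mul_smul] at heq b2
          rw [hG.free _ q' heq, one_smul] at b2
          exact hnb b2
        have c1 : D.d (g • p) (h • q') = D.d p (g⁻¹ • (h • q')) := by
          rw [← hG.iso g⁻¹, inv_smul_smul]
        have c2 : D.d (g • p) (h • m) = D.d p (g⁻¹ • (h • m)) := by
          rw [← hG.iso g⁻¹, inv_smul_smul]
        have hgq : Btw D (g • p) (g • q') (g • q) := hG.btw g hq'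
        refine ⟨(⟨p, q, g, true⟩ : Letter X G).inv :: w', ?_, ?_, ?_, ?_⟩
        · intro l' hl'
          rcases List.mem_cons.1 hl' with h4 | h4
          · exact Or.inr (Or.inr h4)
          · exact hw' l' h4
        · rw [val, val, hv]
          rfl
        · refine ⟨⟨(btw_trans' hgq a1).1, fun _ => ?_⟩, hok1⟩
          show D.d (g • p) (h • q') < D.d p q'
          rw [c1]
          exact hbt _ b1 a3
        · refine ⟨⟨(btw_trans' hgq a2).1, fun _ => ?_⟩, hok2⟩
          show D.d (g • p) (h • m) < D.d p m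
          rw [c2]
          exact hbt' _ b2
  have h3 := key 1 (by rwa [one_smul]) (by rwa [one_smul])
  rwa [one_smul, one_smul] at h3

end LTree.Idx
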