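import Pool.Agent.Work.MP_0c526b_al.Idx.Defs

/-!
# Number of classes
-/

set_option autoImplicit false

namespace LTree.Idx

open LTree

lemma ncl_eq {α : Type*} (r : α → α → Prop) [DecidableEq (Quot r)]
    (V : Finset α) : ncl r V = (V.image (Quot.mk r)).card := by
  unfold ncl
  have h : ∀ i j : DecidableEq (Quot r), (@Finset.image _ _ i (Quot.mk r) V).card =
      (@Finset.image _ _ j (Quot.mk r) V).card := by
    intro i j
    rw [Subsingleton.elim i j]
  exact h _ _

theorem ncl_bot {α : Type*} (V : Finset α) (r : α → α → Prop) (h : ∀ x y, ¬ r x y) :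
    ncl r V = V.card := by
  classical
  rw [ncl_eq]
  apply Finset.card_image_of_injective
  intro x y hxy
  have h1 : Relation.EqvGen r x y := Quot.eqvGen_exact hxy
  clear hxy
  induction h1 with
  | rel x y hr => exact absurd hr (h x y)
  | refl x => rfl
  | symm x y _ ih => exact ih.symm
  | trans x y z _ _ ih1 ih2 => exact ih1.trans ih2

theorem ncl_mono {α : Type*} {r r' : α → α → Prop} (h : ∀ x y, r x y → Relation.EqvGen r' x y)
    (V : Finset α) : ncl r' V ≤ ncl r V := by
  classical
  rw [ncl_eq, ncl_eq]
  let g : Quot r → Quot r' := Quot.lift (Quot.mk r') (fun x y hxy => Quot.eqvGen_sound (h x y hxy))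
  have : V.image (Quot.mk r') = (V.image (Quot.mk r)).image g := by
    rw [Finset.image_image]
    rfl
  rw [this]
  exact Finset.card_image_le

/-- Adding one pair. -/
theorem ncl_add {α : Type*} {r r' : α → α → Prop} {a b : α}
    (h : ∀ x y, r' x y ↔ r x y ∨ (x = a ∧ y = b)) (V : Finset α) (ha : a ∈ V) (hb : b ∈ V)
    (hab : ¬ Relation.EqvGen r a b) : ncl r' V + 1 = ncl r V := by
  classical
  rw [ncl_eq, ncl_eq]
  have hne : Quot.mk r a ≠ Quot.mk r b := fun e => hab (Quot.eqvGen_exact e)
  let f : Quot r → Quot r := fun q => if q = Quot.mk r b then Quot.mk r a else q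
  let g : Quot r' → Quot r := Quot.lift (fun x => f (Quot.mk r x)) (by
    intro x y hxy
    rcases (h x y).1 hxy with h1 | ⟨rfl, rfl⟩
    · rw [Quot.sound h1]
    · simp only [f]
      rw [if_neg hne]
      simp)
  have hginj : Function.Injective g := by
    intro u v
    induction u using Quot.ind with | _ x => ?_
    induction v using Quot.ind with | _ y => ?_
    intro hxy
    have key : ∀ z w : α, Quot.mk r z = Quot.mk r w → Quot.mk r' z = Quot.mk r' w := by
      intro z w hzw
      have h1 : Relation.EqvGen r z w := Quot.eqvGen_exact hzw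
      exact Quot.eqvGen_sound (Relation.EqvGen.mono (fun x y hr => (h x y).2 (Or.inl hr)) _ _ h1)
    have hab' : Quot.mk r' a = Quot.mk r' b := Quot.sound ((h a b).2 (Or.inr ⟨rfl, rfl⟩))
    change f (Quot.mk r x) = f (Quot.mk r y) at hxy
    simp only [f] at hxy
    split_ifs at hxy with h1 h2 h2
    · exact key _ _ (h1.trans h2.symm)
    · exact (key _ _ h1).trans (hab'.symm.trans (key _ _ hxy))
    · exact (key _ _ hxy).trans (hab'.trans (key _ _ h2.symm))
    · exact key _ _ hxy
  have e1 : (V.image (Quot.mk r')).card = ((V.image (Quot.mk r)).erase (Quot.mk r b)).card := by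
    rw [← Finset.card_image_of_injective _ hginj]
    congr 1
    ext q
    simp only [Finset.mem_image, Finset.mem_erase, exists_exists_and_eq_and]
    constructor
    · rintro ⟨x, hx, rfl⟩
      change f (Quot.mk r x) ≠ _ ∧ ∃ a ∈ V, Quot.mk r a = f (Quot.mk r x)
      simp only [f]
      split_ifs with h1
      · exact ⟨hne, a, ha, rfl⟩
      · exact ⟨h1, x, hx, rfl⟩
    · rintro ⟨hq, x, hx, rfl⟩
      refine ⟨x, hx, ?_⟩
      change f (Quot.mk r x) = _
      simp only [f]
      rw [if_neg hq]
  rw [e1]
  apply Finset.card_erase_add_one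
  exact Finset.mem_image_of_mem _ hb

/-- A set of pairwise inequivalent elements. -/
theorem le_ncl {α ι : Type*} {r : α → α → Prop} (V : Finset α) (I : Finset ι) (f : ι → α)
    (hf : ∀ i ∈ I, f i ∈ V) (hinj : ∀ i ∈ I, ∀ j ∈ I, Relation.EqvGen r (f i) (f j) → i = j) :
    I.card ≤ ncl r V := by
  classical
  rw [ncl_eq]
  apply Finset.card_le_card_of_injOn (fun i => Quot.mk r (f i))
  · intro i hi
    exact Finset.mem_coe.2 (Finset.mem_image_of_mem _ (hf i hi))
  · intro i hi j hj hij
    exact hinj i hi j hj (Quot.eqvGen_exact hij)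

/-- Elements with different classes: the number of classes is the number of classes of any
equivalent relation. -/
theorem ncl_congr {α : Type*} {r r' : α → α → Prop}
    (h : ∀ x y, Relation.EqvGen r x y ↔ Relation.EqvGen r' x y) (V : Finset α) :
    ncl r V = ncl r' V :=
  le_antisymm (ncl_mono (fun x y hxy => (h x y).2 (Relation.EqvGen.rel _ _ hxy)) V)
    (ncl_mono (fun x y hxy => (h x y).1 (Relation.EqvGen.rel _ _ hxy)) V)

end LTree.Idx
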