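import Pool.Agent.Work.MP_0c526b_al.Idx.Defs

/-!
# A1: points on segments, medians, directions, hulls, skeletons
-/

set_option autoImplicit false

namespace LTree.Idx

open LTree

variable {Λ : Type*} [AddCommGroup Λ] [LinearOrder Λ] [IsOrderedAddMonoid Λ] {X : Type*}
variable {D : Dist Λ X} {G : Type*} [Group G] [MulAction G X]

lemma pt_btw (hT : IsTree D) {p q : X} {t : Λ} (h0 : 0 ≤ t) (h1 : t ≤ D.d p q) :
    Btw D p (pt hT p q t) q := by
  unfold pt
  rw [dif_pos ⟨h0, h1⟩]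
  exact (exists_btw hT h0 h1).choose_spec.1

lemma d_pt (hT : IsTree D) {p q : X} {t : Λ} (h0 : 0 ≤ t) (h1 : t ≤ D.d p q) :
    D.d p (pt hT p q t) = t := by
  unfold pt
  rw [dif_pos ⟨h0, h1⟩]
  exact (exists_btw hT h0 h1).choose_spec.2

lemma pt_of_btw (hT : IsTree D) {p q y : X} (h : Btw D p y q) : pt hT p q (D.d p y) = y := by
  have h0 := D.nonneg p y
  have h1 : D.d p y ≤ D.d p q := by
    have := D.nonneg y q
    unfold Btw at h
    grind
  exact btw_unique hT (pt_btw hT h0 h1) h (d_pt hT h0 h1)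

lemma pt_zero (hT : IsTree D) (p q : X) : pt hT p q 0 = p := by
  have := pt_of_btw hT (btw_left (D := D) p q)
  rwa [D.d_self] at this

lemma pt_end (hT : IsTree D) (p q : X) : pt hT p q (D.d p q) = q :=
  pt_of_btw hT (btw_right (D := D) p q)

lemma pt_dist (hT : IsTree D) {p q : X} {s t : Λ} (h0 : 0 ≤ s) (h1 : s ≤ t) (h2 : t ≤ D.d p q) :
    D.d (pt hT p q s) (pt hT p q t) = t - s := by
  have h3 : s ≤ D.d p q := h1.trans h2
  have h4 : 0 ≤ t := h0.trans h1
  rw [btw_dist hT (pt_btw hT h0 h3) (pt_btw hT h4 h2), d_pt hT h0 h3, d_pt hT h4 h2]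
  grind

lemma pt_mid (hT : IsTree D) {p q : X} {s t u : Λ} (h0 : 0 ≤ s) (h1 : s ≤ t) (h2 : t ≤ u)
    (h3 : u ≤ D.d p q) : Btw D (pt hT p q s) (pt hT p q t) (pt hT p q u) := by
  unfold Btw
  rw [pt_dist hT h0 h1 (h2.trans h3), pt_dist hT (h0.trans h1) h2 h3,
    pt_dist hT h0 (h1.trans h2) h3]
  abel

lemma smul_pt (hT : IsTree D) (hG : FreeAct D G) (g : G) {p q : X} {t : Λ} (h0 : 0 ≤ t)
    (h1 : t ≤ D.d p q) : g • pt hT p q t = pt hT (g • p) (g • q) t := by
  have h2 : t ≤ D.d (g • p) (g • q) := by rw [hG.iso]; exact h1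
  refine btw_unique hT (hG.btw g (pt_btw hT h0 h1)) (pt_btw hT h0 h2) ?_
  rw [hG.iso, d_pt hT h0 h1, d_pt hT h0 h2]

/-- A point on an isometric piece: if `y` and `z` are the points at times `s ≤ u` of a segment and
also of an isometric copy, then so are the points in between. -/
lemma pt_copy (hT : IsTree D) {p q p' q' : X} {g : G} (hG : FreeAct D G) {s t u s' : Λ}
    (h0 : 0 ≤ s) (h1 : s ≤ t) (h2 : t ≤ u) (h3 : u ≤ D.d p q) (h0' : 0 ≤ s')
    (h3' : s' + (u - s) ≤ D.d p' q') (e0 : g • pt hT p q s = pt hT p' q' s')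
    (e1 : g • pt hT p q u = pt hT p' q' (s' + (u - s))) :
    g • pt hT p q t = pt hT p' q' (s' + (t - s)) := by
  have b1 := hG.btw g (pt_mid hT h0 h1 h2 h3)
  rw [e0, e1] at b1
  have a1 : s' ≤ s' + (t - s) := by grind
  have a2 : s' + (t - s) ≤ s' + (u - s) := by grind
  have b2 := pt_mid hT h0' a1 a2 h3'
  refine btw_unique hT b1 b2 ?_
  rw [← e0, hG.iso, pt_dist hT h0 h1 (h2.trans h3), e0, pt_dist hT h0' a1 (a2.trans h3')]
  abel

lemma med_spec (hT : IsTree D) (x y z : X) : IsMedian D x y z (med hT x y z) :=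
  (exists_median hT x y z).choose_spec

lemma med_unique (hT : IsTree D) {x y z c c' : X} (h : IsMedian D x y z c)
    (h' : IsMedian D x y z c') : c = c' := by
  obtain ⟨a1, a2, a3⟩ := h
  obtain ⟨b1, b2, b3⟩ := h'
  refine btw_unique hT a1 b1 ?_
  have s1 := D.symm y c
  have s2 := D.symm y c'
  have s3 := D.symm x y
  unfold Btw at *
  grind

lemma mem_drn {x y z : X} : z ∈ drn D x y ↔ ¬ Btw D z x y := Iff.rfl

lemma eq_of_btw_self {x y : X} (h : Btw D x y x) : y = x := by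
  unfold Btw at h
  have s := D.symm x y
  have n := D.nonneg x y
  have e := D.d_self x
  exact (D.eq_of_d x y (by grind)).symm

lemma not_btw_both {x y z : X} (hy : y ≠ x) (h : Btw D x y z) : ¬ Btw D y x z := by
  intro h'
  apply hy
  unfold Btw at *
  have s := D.symm x y
  have n := D.nonneg x y
  exact (D.eq_of_d x y (by grind)).symm

lemma drn_eq_iff (hT : IsTree D) {x y z : X} (hy : y ≠ x) (hz : z ≠ x) :
    drn D x y = drn D x z ↔ ¬ Btw D y x z := by
  constructor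
  · intro h h'
    have h1 : y ∈ drn D x y := fun h2 => hy (eq_of_btw_self h2).symm
    rw [h] at h1
    exact h1 h'
  · intro h
    ext w
    rw [mem_drn, mem_drn, not_iff_not]
    constructor
    · intro h1
      by_contra h2
      exact h (dir hT h1 h2).symm
    · intro h1
      by_contra h2
      exact h (dir hT h1 h2)

lemma drn_eq_of_btw (hT : IsTree D) {x y z : X} (h : Btw D x y z) (hy : y ≠ x) :
    drn D x y = drn D x z := by
  have hz : z ≠ x := by
    rintro rfl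
    exact hy (eq_of_btw_self h)
  rw [drn_eq_iff hT hy hz]
  exact not_btw_both hy h

/-- Equal directions share a nondegenerate segment. -/
lemma drn_common (hT : IsTree D) {x y z : X} (hy : y ≠ x) (hz : z ≠ x)
    (h : drn D x y = drn D x z) : ∃ m, m ≠ x ∧ Btw D x m y ∧ Btw D x m z := by
  obtain ⟨m, h1, h2, h3⟩ := exists_median hT x y z
  refine ⟨m, ?_, h1, h3⟩
  rintro rfl
  exact (drn_eq_iff hT hy hz).1 h h2

lemma sm_drn (hG : FreeAct D G) (g : G) (x y : X) : sm g (drn D x y) = drn D (g • x) (g • y) := by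
  ext w
  constructor
  · rintro ⟨z, hz, rfl⟩
    rw [mem_drn] at *
    rwa [hG.btw_iff]
  · intro hw
    refine ⟨g⁻¹ • w, ?_, smul_inv_smul g w⟩
    rw [mem_drn] at *
    rwa [← hG.btw_iff g, smul_inv_smul]

lemma sm_one (d : Set X) : sm (1 : G) d = d := by
  unfold sm
  simp

lemma sm_mul (g h : G) (d : Set X) : sm (g * h) d = sm g (sm h d) := by
  unfold sm
  rw [Set.image_image]
  simp only [mul_smul]

lemma subset_hull {F : Finset X} {f : X} (hf : f ∈ F) : f ∈ hull D F :=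
  ⟨f, hf, f, hf, btw_left f f⟩

lemma hull_beyond (hT : IsTree D) {F : Finset X} {y : X} (hy : y ∈ hull D F) (c : X) :
    ∃ f ∈ F, Btw D c y f := by
  obtain ⟨f, hf, f', hf', h⟩ := hy
  by_cases h1 : Btw D f y c
  · exact ⟨f, hf, h1.symm⟩
  · exact ⟨f', hf', dir hT h h1⟩

lemma hull_convex (hT : IsTree D) {F : Finset X} {y z m : X} (hy : y ∈ hull D F)
    (hz : z ∈ hull D F) (hm : Btw D y m z) : m ∈ hull D F := by
  by_cases e1 : m = z
  · rwa [e1]
  by_cases e2 : y = m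
  · rwa [← e2]
  obtain ⟨f, hf, h1⟩ := hull_beyond hT hz m
  obtain ⟨f', hf', h2⟩ := hull_beyond hT hy m
  have h3 := (lg_btw hT hm h1 e1).1
  exact ⟨f', hf', f, hf, (lg_btw hT h2.symm h3 e2).2⟩

lemma mem_dirs {F : Finset X} {x : X} {d : Set X} :
    d ∈ dirs D F x ↔ ∃ f ∈ F, f ≠ x ∧ d = drn D x f := by
  classical
  unfold dirs
  simp only [Finset.mem_image, Finset.mem_filter]
  constructor
  · rintro ⟨f, ⟨h1, h2⟩, h3⟩
    exact ⟨f, h1, h2, h3.symm⟩
  · rintro ⟨f, h1, h2, h3⟩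
    exact ⟨f, ⟨h1, h2⟩, h3.symm⟩

lemma drn_mem_dirs (hT : IsTree D) {F : Finset X} {x y : X} (hy : y ∈ hull D F) (hne : y ≠ x) :
    drn D x y ∈ dirs D F x := by
  obtain ⟨f, hf, h⟩ := hull_beyond hT hy x
  rw [mem_dirs]
  refine ⟨f, hf, ?_, drn_eq_of_btw hT h hne⟩
  rintro rfl
  exact hne (eq_of_btw_self h)

lemma two_le_dirs (hT : IsTree D) {F : Finset X} {x : X} (hx : x ∈ hull D F) (hF : x ∉ F) :
    2 ≤ (dirs D F x).card := by
  obtain ⟨f, hf, f', hf', h⟩ := hx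
  have e1 : f ≠ x := by rintro rfl; exact hF hf
  have e2 : f' ≠ x := by rintro rfl; exact hF hf'
  have h1 : 1 < (dirs D F x).card := by
    rw [Finset.one_lt_card]
    refine ⟨drn D x f, mem_dirs.2 ⟨f, hf, e1, rfl⟩, drn D x f', mem_dirs.2 ⟨f', hf', e2, rfl⟩, ?_⟩
    intro h2
    exact (drn_eq_iff hT e1 e2).1 h2 h
  exact h1

lemma three_le_dirs (hT : IsTree D) {F : Finset X} {x y z c : X} (hx : x ∈ F) (hy : y ∈ F)
    (hz : z ∈ F) (hc : IsMedian D x y z c) (hF : c ∉ F) : 3 ≤ (dirs D F c).card := by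
  obtain ⟨h1, h2, h3⟩ := hc
  have e1 : x ≠ c := by rintro rfl; exact hF hx
  have e2 : y ≠ c := by rintro rfl; exact hF hy
  have e3 : z ≠ c := by rintro rfl; exact hF hz
  have h4 : 2 < (dirs D F c).card := by
    rw [Finset.two_lt_card]
    refine ⟨drn D c x, mem_dirs.2 ⟨x, hx, e1, rfl⟩, drn D c y, mem_dirs.2 ⟨y, hy, e2, rfl⟩,
      drn D c z, mem_dirs.2 ⟨z, hz, e3, rfl⟩, ?_, ?_, ?_⟩
    · intro h; exact (drn_eq_iff hT e1 e2).1 h h1
    · intro h; exact (drn_eq_iff hT e1 e3).1 h h3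
    · intro h; exact (drn_eq_iff hT e2 e3).1 h h2
  exact h4

lemma Sk.F_sub {F V : Finset X} (h : Sk D F V) : F ⊆ V := fun f hf =>
  h.meds f hf f hf f hf f ⟨btw_left f f, btw_left f f, btw_left f f⟩

/-- Medians of points of the hull. -/
lemma Sk.med_or (hT : IsTree D) {F V : Finset X} (h : Sk D F V) {x y z c : X}
    (hx : x ∈ hull D F) (hy : y ∈ hull D F) (hz : z ∈ hull D F) (hc : IsMedian D x y z c) :
    c ∈ V ∨ c = x ∨ c = y ∨ c = z := by
  by_cases ex : x = c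
  · exact Or.inr (Or.inl ex.symm)
  by_cases ey : y = c
  · exact Or.inr (Or.inr (Or.inl ey.symm))
  by_cases ez : z = c
  · exact Or.inr (Or.inr (Or.inr ez.symm))
  left
  obtain ⟨a, ha, hxa⟩ := hull_beyond hT hx c
  obtain ⟨b, hb, hyb⟩ := hull_beyond hT hy c
  obtain ⟨e, he, hze⟩ := hull_beyond hT hz c
  have key : ∀ {p q a b : X}, p ≠ c → q ≠ c → Btw D p c q → Btw D c p a →
      Btw D c q b → Btw D a c b := by
    intro p q a b hp hq h ha hb
    have h1 : Btw D a c q := (lg_btw hT ha.symm h hp).2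
    exact (lg_btw hT h1 hb hq.symm).1
  exact h.meds a ha b hb e he c ⟨key ex ey hc.1 hxa hyb, key ey ez hc.2.1 hyb hze,
    key ex ez hc.2.2 hxa hze⟩

lemma Sk.med_mem (hT : IsTree D) {F V : Finset X} (h : Sk D F V) {x y z c : X}
    (hx : x ∈ V) (hy : y ∈ V) (hz : z ∈ V) (hc : IsMedian D x y z c) : c ∈ V := by
  rcases h.med_or hT (h.sub x hx) (h.sub y hy) (h.sub z hz) hc with h1 | rfl | rfl | rfl
  · exact h1
  · exact hx
  · exact hy
  · exact hz

lemma Sk.mono {F V W : Finset X} (h : Sk D F V) (hVW : V ⊆ W) (hW : ∀ x ∈ W, x ∈ hull D F) :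
    Sk D F W :=
  ⟨fun x hx y hy z hz c hc => hVW (h.meds x hx y hy z hz c hc), hW⟩

lemma exists_Sk (hT : IsTree D) (F W : Finset X) (hW : ∀ x ∈ W, x ∈ hull D F) :
    ∃ V, Sk D F V ∧ W ⊆ V := by
  classical
  refine ⟨(F ×ˢ (F ×ˢ F)).image (fun u => med hT u.1 u.2.1 u.2.2) ∪ W, ⟨?_, ?_⟩,
    Finset.subset_union_right⟩
  · intro x hx y hy z hz c hc
    refine Finset.mem_union_left _ (Finset.mem_image.2 ⟨(x, y, z), ?_, ?_⟩)
    · simp [hx, hy, hz]
    · exact med_unique hT (med_spec hT x y z) hc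
  · intro x hx
    rcases Finset.mem_union.1 hx with h | h
    · obtain ⟨⟨a, b, c⟩, h1, rfl⟩ := Finset.mem_image.1 h
      simp only [Finset.mem_product] at h1
      exact ⟨a, h1.1, b, h1.2.1, (med_spec hT a b c).1⟩
    · exact hW x h

end LTree.Idx
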