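import Pool.Agent.Work.MP_0c526b_al.Idx.Words
import Pool.Agent.Work.MP_0c526b_al.Idx.Basics

/-!
# Module B2: basic properties of the set of times
-/

set_option autoImplicit false

namespace LTree.Idx

open LTree

variable {Λ : Type*} [AddCommGroup Λ] [LinearOrder Λ] [IsOrderedAddMonoid Λ] {X : Type*}
variable {D : Dist Λ X} {G : Type*} [Group G] [MulAction G X]

section JJ
variable {hT : IsTree D} {F Sg : Finset X} {L : Set (Letter X G)} {p q : X} {g : G}
  {w0 : List (Letter X G)}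

/-- A word valid at two times is valid in between. -/
lemma ok_between (hG : FreeAct D G) {a b c : Λ} (h0 : 0 ≤ a) (h1 : a ≤ b) (h2 : b ≤ c)
    (h3 : c ≤ D.d p q) {w : List (Letter X G)} (ha : ok D a w (pt hT p q a))
    (hc : mem D w (pt hT p q c)) : ok D b w (pt hT p q b) := by
  refine ok_move hG ha (mem_convex hT hG (ok_mem ha) hc (pt_mid hT h0 h1 h2 h3)) ?_
  rw [pt_dist hT h0 h1 (h2.trans h3)]

theorem JJ_zero : (0 : Λ) ∈ JJ hT L p q g := Relation.ReflTransGen.refl

theorem JJ_nonneg {t : Λ} (h : t ∈ JJ hT L p q g) : 0 ≤ t ∧ t ≤ D.d p q := by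
  rcases Relation.ReflTransGen.cases_tail h with h | ⟨b, -, h⟩
  · rw [h]
    exact ⟨le_refl _, D.nonneg p q⟩
  · exact ⟨h.1.trans h.2.1, h.2.2.1⟩

theorem JJ_down (hG : FreeAct D G) {s t : Λ} (h : t ∈ JJ hT L p q g) (h0 : 0 ≤ s) (h1 : s ≤ t) :
    s ∈ JJ hT L p q g := by
  have key : ∀ t, Relation.ReflTransGen (Good hT L p q g) 0 t → ∀ s, 0 ≤ s → s ≤ t →
      s ∈ JJ hT L p q g := by
    intro t ht
    induction ht with
    | refl =>
      intro s h0 h1
      rw [le_antisymm h1 h0]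
      exact JJ_zero
    | tail hab hbc ih =>
      rename_i b c
      intro s h0 h1
      rcases le_total s b with h2 | h2
      · exact ih s h0 h2
      · obtain ⟨hb0, hbc', hc, w, hw, hv, hb, hc'⟩ := hbc
        refine Relation.ReflTransGen.tail hab ⟨hb0, h2, h1.trans hc, w, hw, hv, hb, ?_⟩
        exact ok_between hG hb0 h2 h1 hc hb (ok_mem hc')
  exact key t h s h0 h1

/-- A word valid at a time of `J` and applicable at a later time. -/
theorem JJ_extend (hG : FreeAct D G) {s t : Λ} (h : s ∈ JJ hT L p q g) (h1 : s ≤ t)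
    (h2 : t ≤ D.d p q) {w : List (Letter X G)} (hw : ∀ l ∈ w, l ∈ L) (hv : val w = g)
    (hs : ok D s w (pt hT p q s)) (ht : mem D w (pt hT p q t)) : t ∈ JJ hT L p q g :=
  Relation.ReflTransGen.tail h ⟨(JJ_nonneg h).1, h1, h2, w, hw, hv, hs,
    ok_between hG (JJ_nonneg h).1 h1 (le_refl _) h2 hs ht⟩

theorem JJ_word (h : Cl hT F Sg L p q g w0) {t : Λ} (ht : t ∈ JJ hT L p q g) :
    ∃ w : List (Letter X G), (∀ l ∈ w, l ∈ L) ∧ val w = g ∧ ok D t w (pt hT p q t) := by
  rcases Relation.ReflTransGen.cases_tail ht with e | ⟨b, -, hb⟩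
  · refine ⟨w0, h.w0L, h.w0val, ?_⟩
    rw [e, pt_zero]
    exact h.w0ok
  · obtain ⟨-, -, -, w, hw, hv, -, hc⟩ := hb
    exact ⟨w, hw, hv, hc⟩

/-- A word crossing from `t` (or from beyond a bound `b`) to a later time: if `t < t'` in `J` and
`P` is a property of times which holds at `t'`, fails at `t`, and is inherited by larger times, then
some word is valid at a time `a ≥ t` where `P` fails and at a time `b ∈ J` where `P` holds. -/
theorem JJ_cross (hG : FreeAct D G) (P : Λ → Prop) (hP : ∀ a b, a ≤ b → P a → P b) {t t' : Λ}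
    (ht : t ∈ JJ hT L p q g) (ht' : t' ∈ JJ hT L p q g) (h : ¬ P t) (h' : P t') :
    ∃ a b, t ≤ a ∧ a ≤ b ∧ b ≤ t' ∧ a ∈ JJ hT L p q g ∧ b ∈ JJ hT L p q g ∧ ¬ P a ∧ P b ∧
      ∃ w : List (Letter X G), (∀ l ∈ w, l ∈ L) ∧ val w = g ∧ ok D a w (pt hT p q a) ∧
        ok D b w (pt hT p q b) := by
  have key : ∀ c, Relation.ReflTransGen (Good hT L p q g) 0 c → P c →
      ∃ a b, t ≤ a ∧ a ≤ b ∧ b ≤ c ∧ a ∈ JJ hT L p q g ∧ b ∈ JJ hT L p q g ∧ ¬ P a ∧ P b ∧
      ∃ w : List (Letter X G), (∀ l ∈ w, l ∈ L) ∧ val w = g ∧ ok D a w (pt hT p q a) ∧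
        ok D b w (pt hT p q b) := by
    intro c hc
    induction hc with
    | refl =>
      intro h0
      exact absurd (hP 0 t (JJ_nonneg ht).1 h0) h
    | tail hab hbc ih =>
      rename_i b c
      intro hPc
      obtain ⟨hb0, hbc', hc, w, hw, hv, hb, hc'⟩ := hbc
      by_cases hPb : P b
      · obtain ⟨a', b', h1, h2, h3, h4⟩ := ih hPb
        exact ⟨a', b', h1, h2, h3.trans hbc', h4⟩
      · have htc : t ≤ c := by
          by_contra h1
          exact h (hP c t (le_of_not_ge h1) hPc)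
        have hbJ : b ∈ JJ hT L p q g := hab
        have hcJ : c ∈ JJ hT L p q g :=
          Relation.ReflTransGen.tail hab ⟨hb0, hbc', hc, w, hw, hv, hb, hc'⟩
        rcases le_total t b with h1 | h1
        · exact ⟨b, c, h1, hbc', le_refl _, hbJ, hcJ, hPb, hPc, w, hw, hv, hb, hc'⟩
        · exact ⟨t, c, le_refl _, htc, le_refl _, ht, hcJ, h, hPc, w, hw, hv,
            ok_between hG hb0 h1 htc hc hb (ok_mem hc'), hc'⟩
  exact key t' ht' h'

/-- The invariance group is a convex subgroup. -/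
theorem Cc_zero (J : Set Λ) : Cc J (0 : Λ) := by
  intro t ht
  rwa [abs_zero, add_zero]

theorem Cc_add {c c' : Λ} (h : Cc (JJ hT L p q g) c) (h' : Cc (JJ hT L p q g) c')
    (hG : FreeAct D G) : Cc (JJ hT L p q g) (c + c') := by
  intro t ht
  have h1 := h' _ (h t ht)
  refine JJ_down hG h1 (add_nonneg (JJ_nonneg ht).1 (abs_nonneg _)) ?_
  rw [add_assoc]
  exact add_le_add_right (abs_add_le c c') t

theorem Cc_neg {J : Set Λ} {c : Λ} (h : Cc J c) : Cc J (-c) := by
  intro t ht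
  rw [abs_neg]
  exact h t ht

theorem Cc_convex {c c' : Λ} (h : Cc (JJ hT L p q g) c) (h' : |c'| ≤ |c|) (hG : FreeAct D G) :
    Cc (JJ hT L p q g) c' := by
  intro t ht
  exact JJ_down hG (h t ht) (add_nonneg (JJ_nonneg ht).1 (abs_nonneg _))
    (add_le_add_right h' t)

end JJ

end LTree.Idx
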