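import Pool.Agent.Work.MP_0c526b_al.Idx.Gate
import Pool.Agent.Work.MP_0c526b_al.Idx.Words
import Pool.Agent.Work.MP_0c526b_al.Idx.JJ

/-!
# Reaching a route, and translations
-/

set_option autoImplicit false

namespace LTree.Idx

open LTree

variable {Λ : Type*} [AddCommGroup Λ] [LinearOrder Λ] [IsOrderedAddMonoid Λ] {X : Type*}
variable {D : Dist Λ X} {G : Type*} [Group G] [MulAction G X]

/-- A prefix `Q` leading the trajectory `k • x(t)`, `tf ≤ t ≤ T`, to the route `[v,f]`. -/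
structure RD (hT : IsTree D) (F Sg : Finset X) (L : Set (Letter X G)) (p q : X) (k : G)
    (J : Set Λ) (v f : X) (tf T : Λ) (Q : List (Letter X G)) : Prop where
  vS : v ∈ Sg
  fF : f ∈ F
  tf0 : 0 ≤ tf
  tfT : tf < T
  Tq : T ≤ D.d p q
  tfJ : tf ∈ J
  TJ : T ∉ J
  QL : ∀ l ∈ Q, l ∈ L
  ok0 : ok D tf Q (k • pt hT p q tf)
  ok1 : ok D T Q (k • pt hT p q T)
  len : T - tf ≤ D.d v f
  route : ∀ t, tf ≤ t → t ≤ T → val Q • (k • pt hT p q t) = pt hT v f (t - tf)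

/-- Distances of times on a translate. -/
lemma smul_pt_dist (hT : IsTree D) (hG : FreeAct D G) {p q : X} (k : G) {s t : Λ} (h0 : 0 ≤ s)
    (h1 : s ≤ t) (h2 : t ≤ D.d p q) : D.d (k • pt hT p q s) (k • pt hT p q t) = t - s := by
  rw [hG.iso, pt_dist hT h0 h1 h2]

/-- A word valid at `s` and applicable at `u` is valid in between. -/
lemma ok_mid_smul (hT : IsTree D) (hG : FreeAct D G) {p q : X} (k : G) {w : List (Letter X G)}
    {s t u : Λ} (h0 : 0 ≤ s) (h1 : s ≤ t) (h2 : t ≤ u) (h3 : u ≤ D.d p q)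
    (hs : ok D s w (k • pt hT p q s)) (hu : mem D w (k • pt hT p q u)) :
    ok D t w (k • pt hT p q t) := by
  have hm : mem D w (k • pt hT p q t) :=
    mem_convex hT hG (ok_mem hs) hu (hG.btw k (pt_mid hT h0 h1 h2 h3))
  refine ok_move hG hs hm ?_
  rw [smul_pt_dist hT hG k h0 h1 (h2.trans h3)]

section Reach
variable {hT : IsTree D} {F Sg : Finset X} {L : Set (Letter X G)} {p q : X} {g : G}
  {w0 : List (Letter X G)}

/-- The first letter of `w` which cannot be applied at any time outside of `J`. -/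
lemma first_bad (hG : FreeAct D G) {k : G} {J : Set Λ} {t0 : Λ} (h0 : 0 ≤ t0)
    (w : List (Letter X G)) : ∀ (Q0 : List (Letter X G)) (T0 : Λ), t0 ≤ T0 → T0 ≤ D.d p q →
      T0 ∉ J → ok D t0 (Q0 ++ w) (k • pt hT p q t0) → mem D Q0 (k • pt hT p q T0) →
      (∃ T, t0 ≤ T ∧ T ≤ D.d p q ∧ T ∉ J ∧ mem D (Q0 ++ w) (k • pt hT p q T)) ∨
      ∃ Q l w', Q0 ++ w = Q ++ l :: w' ∧ ∃ T, t0 ≤ T ∧ T ≤ D.d p q ∧ T ∉ J ∧
        mem D Q (k • pt hT p q T) ∧
        ∀ T', t0 ≤ T' → T' ≤ D.d p q → T' ∉ J →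
          ¬ Btw D l.a (val Q • (k • pt hT p q T')) l.b := by
  induction w with
  | nil =>
    intro Q0 T0 h1 h2 h3 _ h5
    exact Or.inl ⟨T0, h1, h2, h3, by simpa using h5⟩
  | cons l w ih =>
    intro Q0 T0 h1 h2 h3 h4 h5
    by_cases hbad : ∀ T', t0 ≤ T' → T' ≤ D.d p q → T' ∉ J →
          ¬ Btw D l.a (val Q0 • (k • pt hT p q T')) l.b
    · exact Or.inr ⟨Q0, l, w, rfl, T0, h1, h2, h3, h5, hbad⟩
    · push Not at hbad
      obtain ⟨T', a1, a2, a3, a4⟩ := hbad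
      have e : Q0 ++ l :: w = (Q0 ++ [l]) ++ w := by simp
      rw [e] at h4 ⊢
      have h6 : mem D (Q0 ++ [l]) (k • pt hT p q t0) := ok_mem ((ok_append _ _ _ _).1 h4).1
      have h7 := (mem_append _ _ _).1 h6
      have hmin : mem D (Q0 ++ [l]) (k • pt hT p q (min T0 T')) := by
        rw [mem_append]
        have c0 : t0 ≤ min T0 T' := le_min h1 a1
        refine ⟨mem_convex hT hG h7.1 h5 (hG.btw k (pt_mid hT h0 c0 (min_le_left _ _) h2)), ?_, ?_⟩
        · exact btw_conv hT h7.2.1 a4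
            (hG.btw _ (hG.btw k (pt_mid hT h0 c0 (min_le_right _ _) a2)))
        · trivial
      refine ih (Q0 ++ [l]) (min T0 T') (le_min h1 a1) ((min_le_left _ _).trans h2) ?_ h4 hmin
      rcases min_choice T0 T' with h | h <;> rw [h] <;> assumption

theorem reach (h : Cl hT F Sg L p q g w0) (hp : p ∈ hull D F) (hq : q ∈ hull D F)
    (gp : g • p ∈ hull D F) (gq : g • q ∈ hull D F)
    (hnm : ∀ t ∈ JJ hT L p q g, ∃ t' ∈ JJ hT L p q g, t < t') {k : G} (hk : k = 1 ∨ k = g)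
    {t0 : Λ} (ht0 : t0 ∈ JJ hT L p q g) :
    ∃ v f tf T Q, RD hT F Sg L p q k (JJ hT L p q g) v f tf T Q ∧ t0 ≤ tf := by
  have hG := h.hG
  have hb := JJ_nonneg ht0
  -- the end of the segment is not in `J`
  have hend : D.d p q ∉ JJ hT L p q g := by
    intro hc
    obtain ⟨t', h1, h2⟩ := hnm _ hc
    exact absurd (JJ_nonneg h1).2 (not_le.2 h2)
  -- the word
  obtain ⟨w, w1, w2⟩ : ∃ w : List (Letter X G), (∀ l ∈ w, l ∈ L) ∧
      ok D t0 w (k • pt hT p q t0) ∧ ∀ T, t0 ≤ T → T ≤ D.d p q → T ∉ JJ hT L p q g →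
        ¬ mem D w (k • pt hT p q T) := by
    obtain ⟨w, w1, w2, w3⟩ := JJ_word h ht0
    rcases hk with rfl | rfl
    · refine ⟨w, w1, by simpa using w3, ?_⟩
      intro T a1 a2 a3 a4
      rw [one_smul] at a4
      exact a3 (JJ_extend hG ht0 a1 a2 w1 w2 w3 a4)
    · refine ⟨rev w, rev_in h.al.inv w1, ?_, ?_⟩
      · rw [← w2, ok_rev hG]; exact w3
      · intro T a1 a2 a3 a4
        rw [← w2, mem_rev hG] at a4
        exact a3 (JJ_extend hG ht0 a1 a2 w1 w2 w3 a4)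
  obtain ⟨w2, w3⟩ := w2
  have hfb := first_bad (hT := hT) (p := p) (q := q) (k := k) (J := JJ hT L p q g) hG hb.1 w []
    (D.d p q) hb.2 le_rfl hend (by simpa using w2) trivial
  rcases hfb with ⟨T, a1, a2, a3, a4⟩ | ⟨Q, l, w', e, T, a1, a2, a3, a4, a5⟩
  · exact absurd (by simpa using a4) (w3 T a1 a2 a3)
  rw [List.nil_append] at e
  subst e
  have hQL : ∀ m ∈ Q, m ∈ L := fun m hm => w1 m (by simp [hm])
  have hlL : l ∈ L := w1 l (by simp)
  have o1 := (ok_append _ _ _ _).1 w2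
  -- the point at time `T`
  have hkT : k • pt hT p q T ∈ hull D F := by
    have hT' : pt hT p q T ∈ hull D F :=
      hull_convex hT hp hq (pt_btw hT (hb.1.trans a1) a2)
    rcases hk with rfl | rfl
    · rwa [one_smul]
    · exact hull_convex hT gp gq (hG.btw _ (pt_btw hT (hb.1.trans a1) a2))
  have hQh : ∀ m ∈ Q, m.h • m.a ∈ hull D F ∧ m.h • m.b ∈ hull D F := fun m hm =>
    ⟨h.al.sk.sub _ (h.al.ha _ (h.al.inv m (hQL m hm))),
      h.al.sk.sub _ (h.al.hb _ (h.al.inv m (hQL m hm)))⟩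
  have hy1 : val Q • (k • pt hT p q T) ∈ hull D F := mem_hull hT hG hQh hkT a4
  obtain ⟨f, hf, v, b1, b2, b3, b4, b5⟩ := gate_exit hT hy1 o1.2.1.1 (a5 T a1 a2 a3)
  -- distances
  have hdist : ∀ {s t : Λ}, 0 ≤ s → s ≤ t → t ≤ D.d p q →
      D.d (val Q • (k • pt hT p q s)) (val Q • (k • pt hT p q t)) = t - s := by
    intro s t h1 h2 h3
    rw [hG.iso, smul_pt_dist hT hG k h1 h2 h3]
  have hd1 := hdist hb.1 a1 a2
  set y0 := val Q • (k • pt hT p q t0) with hy0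
  set tf := t0 + D.d y0 v with htf
  have n1 := D.nonneg y0 v
  have n2 : 0 < D.d v (val Q • (k • pt hT p q T)) :=
    lt_of_le_of_ne (D.nonneg _ _) (fun hc => b4 (D.eq_of_d _ _ hc.symm))
  have c1 : t0 ≤ tf := by rw [htf]; exact le_add_of_nonneg_right n1
  have hb2 : D.d y0 v + D.d v (val Q • (k • pt hT p q T)) = T - t0 := by
    rw [← hd1]; exact b2
  have c2 : tf < T := by grind
  have c3 : tf ≤ D.d p q := c2.le.trans a2
  have hmid : ∀ {t : Λ}, t0 ≤ t → t ≤ T →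
      Btw D y0 (val Q • (k • pt hT p q t)) (val Q • (k • pt hT p q T)) := fun h1 h2 =>
    hG.btw _ (hG.btw _ (pt_mid hT hb.1 h1 h2 a2))
  have hv : val Q • (k • pt hT p q tf) = v := by
    refine btw_unique hT (hmid c1 c2.le) b2 ?_
    rw [hdist hb.1 c1 c3, htf]
    abel
  have hTf : tf ∈ JJ hT L p q g := by
    by_contra hc
    refine a5 tf c1 c3 hc ?_
    rw [hv]
    exact b1.1
  have hrt : ∀ t, tf ≤ t → t ≤ T → val Q • (k • pt hT p q t) = pt hT v f (t - tf) := by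
    intro t h1 h2
    have e1 : Btw D v (val Q • (k • pt hT p q t)) (val Q • (k • pt hT p q T)) := by
      rw [← hv]
      exact hG.btw _ (hG.btw _ (pt_mid hT (hb.1.trans c1) h1 h2 a2))
    have e2 : Btw D v (val Q • (k • pt hT p q t)) f := (btw_trans' b3 e1).1
    have e3 : D.d v (val Q • (k • pt hT p q t)) = t - tf := by
      rw [← hv]
      exact hdist (hb.1.trans c1) h1 (h2.trans a2)
    rw [← e3, pt_of_btw hT e2]
  have hok0 : ok D tf Q (k • pt hT p q tf) :=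
    ok_mid_smul hT hG k hb.1 c1 c2.le a2 o1.1 a4
  have hok1 : ok D T Q (k • pt hT p q T) :=
    ok_mid_smul hT hG k hb.1 a1 le_rfl a2 o1.1 a4
  refine ⟨v, f, tf, T, Q, ⟨gate_mem hT h.al hlL hf b1, hf, hb.1.trans c1, c2, a2, hTf, a3, hQL,
    hok0, hok1, ?_, hrt⟩, c1⟩
  have e4 : D.d v (val Q • (k • pt hT p q T)) = T - tf := by
    rw [← hv]
    exact hdist (hb.1.trans c1) c2.le a2
  have e5 := D.nonneg (val Q • (k • pt hT p q T)) f
  unfold Btw at b3
  grind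

/-- The prefix of a reach is valid at all times. -/
lemma RD.ok_at (hG : FreeAct D G) {k : G} {J : Set Λ} {v f : X} {tf T : Λ}
    {Q : List (Letter X G)} (r : RD hT F Sg L p q k J v f tf T Q) {t : Λ} (h1 : tf ≤ t)
    (h2 : t ≤ T) : ok D t Q (k • pt hT p q t) :=
  ok_mid_smul hT hG k r.tf0 h1 h2 r.Tq r.ok0 (ok_mem r.ok1)

theorem translation (h : Cl hT F Sg L p q g w0) (hp : p ∈ hull D F) (hq : q ∈ hull D F)
    (gp : g • p ∈ hull D F) (gq : g • q ∈ hull D F)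
    (hnm : ∀ t ∈ JJ hT L p q g, ∃ t' ∈ JJ hT L p q g, t < t') {k : G} (hk : k = 1 ∨ k = g)
    {t0 : Λ} (ht0 : t0 ∈ JJ hT L p q g) :
    ∃ τ u T U, 0 < τ ∧ t0 ≤ u - τ ∧ u ∈ JJ hT L p q g ∧ T ∉ JJ hT L p q g ∧ u ≤ T ∧
      T ≤ D.d p q ∧ (∀ l ∈ U, l ∈ L) ∧ ok D u U (k • pt hT p q u) ∧ ok D T U (k • pt hT p q T) ∧
      ∀ t, u ≤ t → t ≤ T → val U • (k • pt hT p q t) = k • pt hT p q (t - τ) := by
  classical
  have hG := h.hG
  -- a state: gate, time, end time, prefix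
  let St := X × X × Λ × Λ × List (Letter X G)
  let P : St → Prop := fun s => RD hT F Sg L p q k (JJ hT L p q g) s.1 s.2.1 s.2.2.1 s.2.2.2.1
    s.2.2.2.2 ∧ t0 ≤ s.2.2.1
  have hstep : ∀ s : {s : St // P s}, ∃ s' : {s : St // P s}, s.1.2.2.1 < s'.1.2.2.1 := by
    rintro ⟨⟨v, f, tf, T, Q⟩, r, hr⟩
    obtain ⟨t', h1, h2⟩ := hnm tf r.tfJ
    obtain ⟨v', f', tf', T', Q', r', hr'⟩ := reach h hp hq gp gq hnm hk h1
    refine ⟨⟨(v', f', tf', T', Q'), r', ?_⟩, lt_of_lt_of_le h2 hr'⟩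
    exact hr.trans (h2.le.trans hr')
  obtain ⟨v, f, tf, T, Q, r, hr⟩ := reach h hp hq gp gq hnm hk ht0
  choose nx hnx using hstep
  let s : ℕ → {s : St // P s} := fun n => nx^[n] ⟨(v, f, tf, T, Q), r, hr⟩
  have hs : ∀ n, (s n).1.2.2.1 < (s (n + 1)).1.2.2.1 := by
    intro n
    have e : s (n + 1) = nx (s n) := Function.iterate_succ_apply' _ _ _
    rw [e]; exact hnx _
  have hmono : StrictMono fun n => (s n).1.2.2.1 := strictMono_nat_of_lt_succ hs
  -- pigeonhole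
  have hpig : ∃ i j, i < j ∧ ((s i).1.1, (s i).1.2.1) = ((s j).1.1, (s j).1.2.1) := by
    by_contra hc
    push Not at hc
    have hinj : Function.Injective fun n => ((s n).1.1, (s n).1.2.1) := by
      intro i j hij
      rcases lt_trichotomy i j with h' | h' | h'
      · exact absurd hij (hc i j h')
      · exact h'
      · exact absurd hij.symm (hc j i h')
    have hmaps : ∀ n, ((s n).1.1, (s n).1.2.1) ∈ ((Sg ×ˢ F : Finset (X × X)) : Set (X × X)) := by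
      intro n
      exact Finset.mem_coe.2 (Finset.mem_product.2 ⟨(s n).2.1.vS, (s n).2.1.fF⟩)
    exact Set.infinite_of_injective_forall_mem hinj hmaps (Finset.finite_toSet _)
  obtain ⟨i, j, hij, hE⟩ := hpig
  have hlt := hmono hij
  obtain ⟨si, hsi⟩ : ∃ x, x = s i := ⟨_, rfl⟩
  obtain ⟨sj, hsj⟩ : ∃ x, x = s j := ⟨_, rfl⟩
  simp only [← hsi, ← hsj] at hE hlt
  obtain ⟨⟨v1, f1, t1, T1, Q1⟩, r1, hr1⟩ := si
  obtain ⟨⟨v2, f2, t2, T2, Q2⟩, r2, hr2⟩ := sj
  simp only [Prod.mk.injEq] at hE hlt r1 r2 hr1 hr2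
  obtain ⟨e1, e2⟩ := hE
  subst e1 e2
  -- now `t1 < t2` with the same gate
  have hτ : 0 < t2 - t1 := sub_pos.2 hlt
  have hTJ : min T2 (T1 + (t2 - t1)) ∉ JJ hT L p q g := by
    rcases min_choice T2 (T1 + (t2 - t1)) with e | e <;> rw [e]
    · exact r2.TJ
    · intro hc
      exact r1.TJ (JJ_down hG hc (r1.tf0.trans r1.tfT.le) (le_add_of_nonneg_right hτ.le))
  have huT : t2 ≤ min T2 (T1 + (t2 - t1)) := by
    refine le_min r2.tfT.le ?_
    have := r1.tfT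
    grind
  have hTq : min T2 (T1 + (t2 - t1)) ≤ D.d p q := (min_le_left _ _).trans r2.Tq
  have hsame : ∀ t, t2 ≤ t → t ≤ min T2 (T1 + (t2 - t1)) →
      val Q2 • (k • pt hT p q t) = val Q1 • (k • pt hT p q (t - (t2 - t1))) := by
    intro t a b
    rw [r2.route t a (b.trans (min_le_left _ _)), r1.route (t - (t2 - t1)) (by grind) (by
      have := b.trans (min_le_right _ _); grind)]
    congr 1
    abel
  have hok : ∀ t, t2 ≤ t → t ≤ min T2 (T1 + (t2 - t1)) →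
      ok D t (Q2 ++ rev Q1) (k • pt hT p q t) := by
    intro t a b
    rw [ok_append]
    refine ⟨r2.ok_at hG a (b.trans (min_le_left _ _)), ?_⟩
    rw [hsame t a b, ok_rev hG]
    refine ok_mono (s := t - (t2 - t1)) (by grind) (r1.ok_at hG (by grind) ?_)
    have := b.trans (min_le_right _ _); grind
  refine ⟨t2 - t1, t2, min T2 (T1 + (t2 - t1)), Q2 ++ rev Q1, hτ, ?_, r2.tfJ, hTJ, huT, hTq, ?_,
    hok _ le_rfl huT, hok _ huT le_rfl, ?_⟩
  · rw [sub_sub_cancel]; exact hr1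
  · intro l hl
    rcases List.mem_append.1 hl with hl | hl
    · exact r2.QL l hl
    · exact rev_in h.al.inv r1.QL l hl
  · intro t a b
    rw [val_append, mul_smul, val_rev, hsame t a b, inv_smul_smul]

end Reach

end LTree.Idx
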