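import Pool.Agent.Work.MP_0c526b_al.Idx.CaseTwoAux
import Pool.Agent.Work.MP_0c526b_al.Idx.Reach

/-!
# Case two
-/

set_option autoImplicit false

namespace LTree.Idx

open LTree

variable {Λ : Type*} [AddCommGroup Λ] [LinearOrder Λ] [IsOrderedAddMonoid Λ] {X : Type*}
variable {D : Dist Λ X} {G : Type*} [Group G] [MulAction G X]
variable {hT : IsTree D} {F Sg : Finset X} {L : Set (Letter X G)} {p q : X} {g : G}
variable {w0 : List (Letter X G)}

theorem caseTwo (h : Cl hT F Sg L p q g w0) (hp : p ∈ hull D F) (hq : q ∈ hull D F)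
    (gp : g • p ∈ hull D F) (gq : g • q ∈ hull D F)
    (hnm : ∀ t ∈ JJ hT L p q g, ∃ t' ∈ JJ hT L p q g, t < t')
    {s : Λ} (hs : s ∈ JJ hT L p q g)
    (hC : ∀ t ∈ JJ hT L p q g, s ≤ t → Cc (JJ hT L p q g) (t - s)) : False :=
  caseTwo_of h hs hC (fun _ hk => translation h hp hq gp gq hnm hk hs)

end LTree.Idx
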