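import Pool.Agent.Work.MP_0c526b_al.Idx.CaseOne
import Pool.Agent.Work.MP_0c526b_al.Idx.CaseTwo

/-!
# B8: the closing lemma
-/

set_option autoImplicit false

namespace LTree.Idx

open LTree

variable {Λ : Type*} [AddCommGroup Λ] [LinearOrder Λ] [IsOrderedAddMonoid Λ] {X : Type*}
variable {D : Dist Λ X} {G : Type*} [Group G] [MulAction G X]
variable {hT : IsTree D} {F Sg : Finset X} {L : Set (Letter X G)} {p q : X} {g : G}
variable {w0 : List (Letter X G)}

theorem closing (h : Cl hT F Sg L p q g w0) (hp : p ∈ hull D F) (hq : q ∈ hull D F)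
    (gp : g • p ∈ hull D F) (gq : g • q ∈ hull D F) :
    ∃ μ, 0 ≤ μ ∧ μ ≤ D.d p q ∧
      (∃ w : List (Letter X G), (∀ l ∈ w, l ∈ L) ∧ val w = g ∧ ok D μ w (pt hT p q μ)) ∧
      ∀ t, μ < t → ¬ Good hT L p q g μ t := by
  by_cases hmax : ∃ μ ∈ JJ hT L p q g, ∀ t ∈ JJ hT L p q g, t ≤ μ
  · obtain ⟨μ, hμ, hle⟩ := hmax
    have hb := JJ_nonneg hμ
    refine ⟨μ, hb.1, hb.2, JJ_word h hμ, ?_⟩
    intro t ht hgood
    have : t ∈ JJ hT L p q g := Relation.ReflTransGen.tail hμ hgood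
    exact absurd (hle t this) (not_le.2 ht)
  · exfalso
    push Not at hmax
    by_cases hI : ∀ s ∈ JJ hT L p q g, ∃ t ∈ JJ hT L p q g, s < t ∧
        ¬ Cc (JJ hT L p q g) (t - s)
    · exact caseOne h hp hq gp gq hI
    · push Not at hI
      obtain ⟨s, hs, hC⟩ := hI
      refine caseTwo h hp hq gp gq hmax hs ?_
      intro t ht hst
      rcases hst.eq_or_lt with e | e
      · rw [← e, sub_self]; exact Cc_zero _
      · exact hC t ht e

end LTree.Idx
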