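import Pool.Agent.Work.MP_0c526b_al.Idx.FoldAux
import Pool.Agent.Work.MP_0c526b_al.Idx.Closing

/-!
# A7: the fold step
-/

set_option autoImplicit false

namespace LTree.Idx

open LTree

variable {Λ : Type*} [AddCommGroup Λ] [LinearOrder Λ] [IsOrderedAddMonoid Λ] {X : Type*}
variable {D : Dist Λ X} {G : Type*} [Group G] [MulAction G X]

theorem fold_step (hT : IsTree D) (hG : FreeAct D G) {F : Finset X} {T : Set (Letter X G)}
    (hS : Sys D F T) {c : ℤ} (hc : Claim D F T c) {p q : X} {g : G} (hp : p ∈ hull D F)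
    (hq : q ∈ hull D F) (gp : g • p ∈ hull D F) (gq : g • q ∈ hull D F)
    (h0 : Conn D T p g) :
    ∃ q', Btw D p q' q ∧
      Claim D F (insert ⟨q', q, g, false⟩ (insert ⟨p, q', g, false⟩ T)) c := by
  obtain ⟨Sg, hA⟩ := fx_exists_Alph hT hS hp hq gp gq
  obtain ⟨w0, hw0, hm0, hv0⟩ := id h0
  have hCl : Cl hT F Sg {l | l ∈ lett T ∨ l = ⟨p, q, g, true⟩ ∨
      l = (⟨p, q, g, true⟩ : Letter X G).inv} p q g w0 :=
    { hG := hG
      al := hA
      he := Or.inr (Or.inl rfl)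
      w0L := fun l hl => Or.inl (hw0 l hl)
      w0ok := ok_of_mem hm0 (fun l hl => fx_lett_flag hS.flag (hw0 l hl))
      w0val := hv0 }
  obtain ⟨μ, hμ0, hμ1, ⟨w, hw, hwv, hwok⟩, hmax⟩ := closing hCl hp hq gp gq
  have hb : Btw D p (pt hT p q μ) q := pt_btw hT hμ0 hμ1
  have hd : D.d p (pt hT p q μ) = μ := d_pt hT hμ0 hμ1
  generalize hq' : pt hT p q μ = q' at hwok hb hd
  have hq'h : q' ∈ hull D F := hull_convex hT hp hq hb
  have gq'h : g • q' ∈ hull D F := hull_convex hT gp gq (hG.btw g hb)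
  have c1 : Claim D F (insert ⟨p, q', g, false⟩ T) c :=
    fold_closed hT hG hS hc hp hq gp gq hb h0 ⟨w, hw, hwv, by rw [hd]; exact hwok⟩
  have hS1 : Sys D F (insert ⟨p, q', g, false⟩ T) := fx_sys_insert hS hp hq'h gp gq'h
  have hl : (⟨p, q', g, false⟩ : Letter X G) ∈ lett (insert (⟨p, q', g, false⟩ : Letter X G) T) :=
    Or.inl (Or.inl rfl)
  have hmem : mem D [(⟨p, q', g, false⟩ : Letter X G)] q' := ⟨btw_right _ _, trivial⟩
  have hval : val [(⟨p, q', g, false⟩ : Letter X G)] = g := by simp [val]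
  have hconn : Conn D (insert (⟨p, q', g, false⟩ : Letter X G) T) q' g :=
    ⟨[⟨p, q', g, false⟩], by
      intro l h
      rw [List.mem_singleton] at h
      rw [h]; exact hl, hmem, hval⟩
  refine ⟨q', hb, ?_⟩
  by_cases e : q' = q
  · subst e
    refine fold_closed hT hG hS1 c1 hq'h hq'h gq'h gq'h (btw_left _ _) hconn
      ⟨[⟨p, q', g, false⟩], ?_, hval, ?_⟩
    · intro l h
      rw [List.mem_singleton] at h
      rw [h]; exact Or.inl hl
    · refine ok_of_mem hmem ?_
      intro l h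
      rw [List.mem_singleton] at h
      rw [h]
  · refine fold_open hT hG hS1 c1 hq'h hq gq'h gq hconn e ?_
    rintro ⟨w1, m, hw1, hv1, hm, hbm, m1, m2⟩
    obtain ⟨w', hw', hv', ok1, ok2⟩ := flag_word hT hG hS.flag hb hbm hm hw1 m1 m2
    obtain ⟨hpm, h3⟩ := btw_trans hb hbm
    have hlt : μ < D.d p m := by
      have h1 := D.nonneg q' m
      have h2 : D.d q' m ≠ 0 := fun h => hm (D.eq_of_d _ _ h).symm
      unfold Btw at h3
      grind
    have hle : D.d p m ≤ D.d p q := by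
      have := D.nonneg m q
      unfold Btw at hpm
      grind
    refine hmax (D.d p m) hlt ⟨hμ0, hlt.le, hle, w', hw', by rw [hv', hv1], ?_, ?_⟩
    · rw [hq', ← hd]; exact ok1
    · rw [pt_of_btw hT hpm]; exact ok2

end LTree.Idx
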