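import Pool.Agent.Work.MP_0c526b_al.Idx.Count
import Pool.Agent.Work.MP_0c526b_al.Idx.Fold

/-!
# C1: systems with bounded index
-/

set_option autoImplicit false

namespace LTree.Idx

open LTree

variable {Λ : Type*} [AddCommGroup Λ] [LinearOrder Λ] [IsOrderedAddMonoid Λ] {X : Type*}
variable {D : Dist Λ X} {G : Type*} [Group G] [MulAction G X]

theorem Claim_zero (hT : IsTree D) {F : Finset X} (hF : F.Nonempty) :
    Claim D F (∅ : Set (Letter X G)) (-2) := by
  intro V0 E0 hV0 _ hE0
  obtain ⟨V, hV, hsub⟩ := exists_Sk hT F V0 hV0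
  refine ⟨V, ∅, hsub, ?_, Set.finite_empty, hV, ?_, (Phi_empty hT hF hV).le⟩
  · intro e he
    exact absurd (hE0 e he).1 (Set.notMem_empty _)
  · intro e he
    exact absurd he (Set.notMem_empty _)

/-- Adding a point family raises the bound by at most 2. -/
theorem Claim_point (hT : IsTree D) (hG : FreeAct D G) {F : Finset X} {T : Set (Letter X G)}
    (hS : Sys D F T) {c : ℤ} (hc : Claim D F T c) {x : X} {g : G} (hx : x ∈ hull D F)
    (gx : g • x ∈ hull D F) : Claim D F (insert ⟨x, x, g, false⟩ T) (c + 2) := by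
  classical
  intro V0 E0 hV0 hfin hE0
  obtain ⟨V, E, hVV, hEE, hEfin, hV, hEd, hPhi⟩ := hc (V0 ∪ {x, g • x})
    {e | e ∈ E0 ∧ EdgeOf D T e} (by
      intro y hy
      rcases Finset.mem_union.1 hy with h | h
      · exact hV0 y h
      · rcases Finset.mem_insert.1 h with h | h
        · rw [h]; exact hx
        · rw [Finset.mem_singleton.1 h]; exact gx) (hfin.subset fun e he => he.1)
    (fun e he => he.2)
  set e1 : Edge X G := ⟨x, x, g, x⟩ with he1
  have hxV : x ∈ V := hVV (Finset.mem_union_right _ (Finset.mem_insert_self _ _))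
  have gxV : g • x ∈ V := hVV (Finset.mem_union_right _ (Finset.mem_insert_of_mem
    (Finset.mem_singleton_self _)))
  refine ⟨V, insert e1 E, (Finset.subset_union_left).trans hVV, ?_, hEfin.insert _, hV, ?_, ?_⟩
  · intro e he
    obtain ⟨h1, h2⟩ := hE0 e he
    rcases h1 with h1 | h1
    · have ha : e.a = x := congrArg Letter.a h1
      have hb : e.b = x := congrArg Letter.b h1
      have hh : e.h = g := congrArg Letter.h h1
      rw [ha, hb] at h2
      have hxx : e.x = x := (eq_of_btw_self h2)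
      left
      cases e
      simp only at ha hb hh hxx
      subst ha hh
      rw [he1, hb, hxx]
    · right
      exact hEE ⟨he, h1, h2⟩
  · intro e he
    rcases he with he | he
    · rw [he]
      exact ⟨⟨Set.mem_insert _ _, btw_left _ _⟩, hxV, gxV⟩
    · obtain ⟨h1, h2⟩ := hEd e he
      exact ⟨⟨Set.mem_insert_of_mem _ h1.1, h1.2⟩, h2⟩
  · have h := Phi_insert hT hG hV (E := E) e1 hxV gxV hx hx gx gx (btw_left _ _)
    have h2 : (0 : ℤ) ≤ ((e1.dset D).ncard : ℤ) := Int.natCast_nonneg _
    linarith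

/-- The final system. -/
theorem final_system (hT : IsTree D) (hG : FreeAct D G) (S W : Finset G) (x0 : X) (F : Finset X)
    (hF : ∀ y, y ∈ F ↔ ∃ w ∈ W, y = w • x0) (h1 : (1 : G) ∈ W) (hSW : S ⊆ W) :
    ∃ T : Set (Letter X G), Sys D F T ∧ Claim D F T (2 * (S.card : ℤ) - 2) ∧
      (∀ l ∈ T, l.h ∈ S) ∧ (∀ s ∈ S, ⟨x0, x0, s, false⟩ ∈ T) ∧
      ∀ s ∈ S, ∀ w ∈ W, s * w ∈ W → ∃ l ∈ T, l.h = s ∧ Btw D l.a (w • x0) l.b := by
  classical
  have hW : ∀ w ∈ W, w • x0 ∈ hull D F := fun w hw => subset_hull ((hF _).2 ⟨w, hw, rfl⟩)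
  have hx0F : x0 ∈ F := (hF _).2 ⟨1, h1, (one_smul G x0).symm⟩
  have hx0 : x0 ∈ hull D F := subset_hull hx0F
  -- the point families
  have step1 : ∀ S' : Finset G, S' ⊆ S → ∃ T : Set (Letter X G), Sys D F T ∧
      Claim D F T (2 * (S'.card : ℤ) - 2) ∧ (∀ l ∈ T, l.h ∈ S) ∧
      (∀ s ∈ S', ⟨x0, x0, s, false⟩ ∈ T) := by
    intro S'
    induction S' using Finset.induction_on with
    | empty =>
      intro _
      refine ⟨∅, ⟨Set.finite_empty, ?_, ?_, ?_, ?_, ?_⟩, ?_, ?_, ?_⟩
      · intro l hl; exact absurd hl (Set.notMem_empty _)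
      · intro l hl; exact absurd hl (Set.notMem_empty _)
      · intro l hl; exact absurd hl (Set.notMem_empty _)
      · intro l hl; exact absurd hl (Set.notMem_empty _)
      · intro l hl; exact absurd hl (Set.notMem_empty _)
      · have := Claim_zero (G := G) hT (F := F) ⟨x0, hx0F⟩
        simpa using this
      · intro l hl; exact absurd hl (Set.notMem_empty _)
      · intro s hs; exact absurd hs (Finset.notMem_empty _)
    | insert s S' hs ih =>
      intro hsub
      obtain ⟨T, hT1, hT2, hT3, hT4⟩ := ih ((Finset.subset_insert _ _).trans hsub)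
      have hsS : s ∈ S := hsub (Finset.mem_insert_self _ _)
      have gx : s • x0 ∈ hull D F := hW s (hSW hsS)
      refine ⟨insert ⟨x0, x0, s, false⟩ T, ⟨hT1.fin.insert _, ?_, ?_, ?_, ?_, ?_⟩, ?_, ?_, ?_⟩
      · rintro l (rfl | hl)
        · rfl
        · exact hT1.flag l hl
      · rintro l (rfl | hl)
        · exact hx0
        · exact hT1.ha l hl
      · rintro l (rfl | hl)
        · exact hx0
        · exact hT1.hb l hl
      · rintro l (rfl | hl)
        · exact gx
        · exact hT1.ga l hl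
      · rintro l (rfl | hl)
        · exact gx
        · exact hT1.gb l hl
      · have h := Claim_point hT hG hT1 hT2 hx0 gx
        have e : (2 * ((insert s S').card : ℤ) - 2) = 2 * (S'.card : ℤ) - 2 + 2 := by
          rw [Finset.card_insert_of_notMem hs]
          push_cast
          ring
        rw [e]
        exact h
      · rintro l (rfl | hl)
        · exact hsS
        · exact hT3 l hl
      · intro s' hs'
        rcases Finset.mem_insert.1 hs' with h | h
        · rw [h]; exact Set.mem_insert _ _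
        · exact Set.mem_insert_of_mem _ (hT4 s' h)
  obtain ⟨T0, hT0, hC0, hh0, hp0⟩ := step1 S (Finset.Subset.refl _)
  -- the segments
  have step2 : ∀ P : Finset (G × G), (∀ u ∈ P, u.1 ∈ S ∧ u.2 ∈ W ∧ u.1 * u.2 ∈ W) →
      ∃ T : Set (Letter X G), Sys D F T ∧ Claim D F T (2 * (S.card : ℤ) - 2) ∧
      (∀ l ∈ T, l.h ∈ S) ∧ (∀ s ∈ S, ⟨x0, x0, s, false⟩ ∈ T) ∧
      ∀ u ∈ P, ∃ l ∈ T, l.h = u.1 ∧ Btw D l.a (u.2 • x0) l.b := by
    intro P
    induction P using Finset.induction_on with
    | empty =>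
      intro _
      exact ⟨T0, hT0, hC0, hh0, hp0, fun u hu => absurd hu (Finset.notMem_empty _)⟩
    | insert u P hu ih =>
      intro hP
      obtain ⟨T, hT1, hT2, hT3, hT4, hT5⟩ := ih (fun v hv => hP v (Finset.mem_insert_of_mem hv))
      obtain ⟨hs, hw, hsw⟩ := hP u (Finset.mem_insert_self _ _)
      obtain ⟨s, w⟩ := u
      simp only at hs hw hsw
      have gp : s • x0 ∈ hull D F := hW s (hSW hs)
      have hq : w • x0 ∈ hull D F := hW w hw
      have gq : s • w • x0 ∈ hull D F := by
        rw [← mul_smul]; exact hW _ hsw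
      have h0 : Conn D T x0 s := by
        refine ⟨[⟨x0, x0, s, false⟩], ?_, ?_, ?_⟩
        · intro l hl
          rw [List.mem_singleton.1 hl]
          exact Or.inl (hT4 s hs)
        · exact ⟨btw_left _ _, trivial⟩
        · simp [val]
      obtain ⟨q', hq', hC⟩ := fold_step hT hG hT1 hT2 hx0 hq gp gq h0
      have hq'h : q' ∈ hull D F := hull_convex hT hx0 hq hq'
      have gq'h : s • q' ∈ hull D F := hull_convex hT gp gq (hG.btw s hq')
      refine ⟨_, ⟨(hT1.fin.insert _).insert _, ?_, ?_, ?_, ?_, ?_⟩, hC, ?_, ?_, ?_⟩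
      · rintro l (rfl | rfl | hl)
        · rfl
        · rfl
        · exact hT1.flag l hl
      · rintro l (rfl | rfl | hl)
        · exact hq'h
        · exact hx0
        · exact hT1.ha l hl
      · rintro l (rfl | rfl | hl)
        · exact hq
        · exact hq'h
        · exact hT1.hb l hl
      · rintro l (rfl | rfl | hl)
        · exact gq'h
        · exact gp
        · exact hT1.ga l hl
      · rintro l (rfl | rfl | hl)
        · exact gq
        · exact gq'h
        · exact hT1.gb l hl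
      · rintro l (rfl | rfl | hl)
        · exact hs
        · exact hs
        · exact hT3 l hl
      · intro s' hs'
        exact Set.mem_insert_of_mem _ (Set.mem_insert_of_mem _ (hT4 s' hs'))
      · intro v hv
        rcases Finset.mem_insert.1 hv with h | h
        · subst h
          exact ⟨_, Set.mem_insert _ _, rfl, btw_right _ _⟩
        · obtain ⟨l, hl1, hl2⟩ := hT5 v h
          exact ⟨l, Set.mem_insert_of_mem _ (Set.mem_insert_of_mem _ hl1), hl2⟩
  obtain ⟨T, hT1, hT2, hT3, hT4, hT5⟩ := step2 ((S ×ˢ W).filter (fun u => u.1 * u.2 ∈ W)) (by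
    intro u hu
    obtain ⟨h2, h3⟩ := Finset.mem_filter.1 hu
    obtain ⟨h4, h5⟩ := Finset.mem_product.1 h2
    exact ⟨h4, h5, h3⟩)
  refine ⟨T, hT1, hT2, hT3, hT4, fun s hs w hw hsw => ?_⟩
  exact hT5 (s, w) (Finset.mem_filter.2 ⟨Finset.mem_product.2 ⟨hs, hw⟩, hsw⟩)

end LTree.Idx
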