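import Pool.Agent.Work.MP_0c526b_al.Idx.Words

/-!
# Balls of the group (first half of module C3)
-/

set_option autoImplicit false

namespace LTree.Idx

open LTree

variable {Λ : Type*} [AddCommGroup Λ] [LinearOrder Λ] [IsOrderedAddMonoid Λ] {X : Type*}
variable {D : Dist Λ X} {G : Type*} [Group G] [MulAction G X]


/-- Balls with respect to the generating set `S`. -/
noncomputable def ball (S : Finset G) : ℕ → Finset G := by
  classical
  exact fun n => Nat.rec {1} (fun _ B => B ∪ (S ×ˢ B).image (fun u => u.1 * u.2) ∪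
    (S ×ˢ B).image (fun u => u.1⁻¹ * u.2)) n

lemma mem_ball_zero (S : Finset G) (g : G) : g ∈ ball S 0 ↔ g = 1 := by
  unfold ball
  simp

lemma mem_ball_succ (S : Finset G) (n : ℕ) (g : G) : g ∈ ball S (n + 1) ↔ g ∈ ball S n ∨
    (∃ s ∈ S, ∃ w ∈ ball S n, g = s * w) ∨ ∃ s ∈ S, ∃ w ∈ ball S n, g = s⁻¹ * w := by
  classical
  have e : ball S (n + 1) = ball S n ∪ (S ×ˢ ball S n).image (fun u => u.1 * u.2) ∪
    (S ×ˢ ball S n).image (fun u => u.1⁻¹ * u.2) := by
    unfold ball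
    simp only
  rw [e]
  simp only [Finset.mem_union, Finset.mem_image, Finset.mem_product, Prod.exists]
  constructor
  · rintro ((h | ⟨s, w, ⟨hs, hw⟩, rfl⟩) | ⟨s, w, ⟨hs, hw⟩, rfl⟩)
    · exact Or.inl h
    · exact Or.inr (Or.inl ⟨s, hs, w, hw, rfl⟩)
    · exact Or.inr (Or.inr ⟨s, hs, w, hw, rfl⟩)
  · rintro (h | ⟨s, hs, w, hw, rfl⟩ | ⟨s, hs, w, hw, rfl⟩)
    · exact Or.inl (Or.inl h)
    · exact Or.inl (Or.inr ⟨s, w, ⟨hs, hw⟩, rfl⟩)
    · exact Or.inr ⟨s, w, ⟨hs, hw⟩, rfl⟩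

lemma ball_mono (S : Finset G) {m n : ℕ} (h : m ≤ n) : ball S m ⊆ ball S n := by
  induction n, h using Nat.le_induction with
  | base => exact Finset.Subset.refl _
  | succ n _ ih =>
    intro g hg
    exact (mem_ball_succ S n g).2 (Or.inl (ih hg))

lemma one_mem_ball (S : Finset G) (n : ℕ) : (1 : G) ∈ ball S n :=
  ball_mono S (Nat.zero_le n) ((mem_ball_zero S 1).2 rfl)

lemma subset_ball (S : Finset G) (n : ℕ) : S ⊆ ball S (n + 1) := by
  intro s hs
  exact (mem_ball_succ S n s).2 (Or.inr (Or.inl ⟨s, hs, 1, one_mem_ball S n, (mul_one s).symm⟩))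

lemma conn_mul {T : Set (Letter X G)} {y : X} {g h : G} {l : Letter X G} (hl : l ∈ lett T)
    (hh : l.h = h) (hg : Conn D T y g) (hb : Btw D l.a (g • y) l.b) : Conn D T y (h * g) := by
  obtain ⟨w, hw, hm, hv⟩ := hg
  refine ⟨w ++ [l], ?_, ?_, ?_⟩
  · intro l' hl'
    rcases List.mem_append.1 hl' with h1 | h1
    · exact hw l' h1
    · rw [List.mem_singleton.1 h1]
      exact hl
  · rw [mem_append]
    refine ⟨hm, ?_⟩
    rw [hv]
    exact ⟨hb, trivial⟩
  · rw [val_append, hv]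
    simp only [val, one_mul]
    rw [hh]

/-- The points of the ball are connected to the base point. -/
lemma conn_ball (hG : FreeAct D G) (S : Finset G) (x0 : X) (N : ℕ) (T : Set (Letter X G))
    (hl : ∀ s ∈ S, ∀ w ∈ ball S N, s * w ∈ ball S N → ∃ l ∈ T, l.h = s ∧
      Btw D l.a (w • x0) l.b) : ∀ k, k ≤ N → ∀ w ∈ ball S k, Conn D T x0 w := by
  intro k
  induction k with
  | zero =>
    intro _ w hw
    rw [mem_ball_zero] at hw
    exact ⟨[], by simp, trivial, by rw [hw]; rfl⟩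
  | succ k ih =>
    intro hk w hw
    have ih' := ih (by omega)
    have hW : w ∈ ball S (N) := ball_mono S hk hw
    rcases (mem_ball_succ S k w).1 hw with h | ⟨s, hs, w', hw', rfl⟩ | ⟨s, hs, w', hw', rfl⟩
    · exact ih' w h
    · have hW' : w' ∈ ball S (N) := ball_mono S (by omega) hw'
      obtain ⟨l, hlT, hlh, hlb⟩ := hl s hs w' hW' hW
      exact conn_mul (Or.inl hlT) hlh (ih' w' hw') hlb
    · have hW' : s * (s⁻¹ * w') ∈ ball S (N) := by
        rw [mul_inv_cancel_left]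
        exact ball_mono S (by omega) hw'
      obtain ⟨l, hlT, hlh, hlb⟩ := hl s hs (s⁻¹ * w') hW hW'
      refine conn_mul (l := l.inv) (Or.inr ⟨l, hlT, rfl⟩) ?_ (ih' w' hw') ?_
      · change l.h⁻¹ = s⁻¹
        rw [hlh]
      · change Btw D (l.h • l.a) (w' • x0) (l.h • l.b)
        have h1 := hG.btw l.h hlb
        have h2 : l.h • (s⁻¹ * w') • x0 = w' • x0 := by
          rw [hlh, ← mul_smul, mul_inv_cancel_left]
        rwa [h2] at h1

theorem ball_exhaust (S : Finset G) (hS : Subgroup.closure (S : Set G) = ⊤) (A : Finset G) :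
    ∃ n, ∀ m, n ≤ m → A ⊆ ball S m := by
  classical
  have key : ∀ g : G, ∃ n, g ∈ ball S n := by
    intro g
    have hg : g ∈ Subgroup.closure (S : Set G) := by rw [hS]; trivial
    induction hg using Subgroup.closure_induction_left with
    | one => exact ⟨0, one_mem_ball S 0⟩
    | mul_left s hs y _ ih =>
      obtain ⟨n, hn⟩ := ih
      exact ⟨n + 1, (mem_ball_succ S n _).2 (Or.inr (Or.inl ⟨s, hs, y, hn, rfl⟩))⟩
    | inv_mul_cancel s hs y _ ih =>
      obtain ⟨n, hn⟩ := ih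
      exact ⟨n + 1, (mem_ball_succ S n _).2 (Or.inr (Or.inr ⟨s, hs, y, hn, rfl⟩))⟩
  choose f hf using key
  refine ⟨A.sup f, fun m hm a ha => ?_⟩
  exact ball_mono S ((Finset.le_sup ha).trans hm) (hf a)

end LTree.Idx
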