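import Pool.Agent.Work.MP_0c526b_al.Idx.Rank

/-!
# C7: the index theorem and the rank bounds
-/

set_option autoImplicit false

namespace LTree.Idx

open LTree

variable {Λ : Type*} [AddCommGroup Λ] [LinearOrder Λ] [IsOrderedAddMonoid Λ] {X : Type*}
variable {D : Dist Λ X} {G : Type*} [Group G] [MulAction G X]

/-- One direction at the base point. -/
lemma one_dir (hG : FreeAct D G) (x0 : X) {g : G} (hg : g ≠ 1) :
    ∃ (A : Finset G) (F0 : Finset X), (∀ y, y ∈ F0 ↔ ∃ w ∈ A, y = w • x0) ∧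
      1 ≤ (dirs D F0 x0).card := by
  classical
  refine ⟨{g}, {g • x0}, fun y => by simp, ?_⟩
  exact Finset.card_pos.2 ⟨drn D x0 (g • x0), mem_dirs.2 ⟨g • x0, Finset.mem_singleton_self _,
    hG.ne hg x0, rfl⟩⟩

/-- Two directions at a point of an axis. -/
lemma two_dir (hT : IsTree D) (hG : FreeAct D G) {g : G} (hg : g ≠ 1) {p : X}
    (hp : p ∈ axis D g) :
    ∃ (A : Finset G) (F0 : Finset X), (∀ y, y ∈ F0 ↔ ∃ w ∈ A, y = w • p) ∧
      2 ≤ (dirs D F0 p).card := by
  classical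
  have hg' : g⁻¹ ≠ 1 := inv_ne_one.2 hg
  refine ⟨{g, g⁻¹}, {g • p, g⁻¹ • p}, fun y => by simp, ?_⟩
  have h1 : drn D p (g • p) ∈ dirs D {g • p, g⁻¹ • p} p :=
    mem_dirs.2 ⟨g • p, by simp, hG.ne hg p, rfl⟩
  have h2 : drn D p (g⁻¹ • p) ∈ dirs D {g • p, g⁻¹ • p} p :=
    mem_dirs.2 ⟨g⁻¹ • p, by simp, hG.ne hg' p, rfl⟩
  have b0 : Btw D p (g • p) (g • g • p) := by
    have hp' : D.d p (g • g • p) = D.d p (g • p) + D.d p (g • p) := hp
    have i := hG.iso g p (g • p)
    unfold Btw; grind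
  have b1 : Btw D (g • p) p (g⁻¹ • p) := by
    have := hG.btw g⁻¹ b0
    rw [inv_smul_smul, inv_smul_smul] at this
    exact this.symm
  have hne : drn D p (g • p) ≠ drn D p (g⁻¹ • p) := fun h =>
    (drn_eq_iff hT (hG.ne hg p) (hG.ne hg' p)).1 h b1
  exact Finset.one_lt_card.2 ⟨_, h1, _, h2, hne⟩

/-- Number of orbits of the medians of an orbit. -/
theorem final_orbits (hT : IsTree D) (hG : FreeAct D G) (S : Finset G)
    (hS : Subgroup.closure (S : Set G) = ⊤) (x0 : X) (hne : ∃ g : G, g ≠ 1) :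
    ∃ F : Finset X, F.card ≤ 2 * S.card ∧
      ∀ c ∈ hullPts D G x0, ∃ g : G, ∃ f ∈ F, c = g • f := by
  obtain ⟨g, hg⟩ := hne
  obtain ⟨A, F0, hF0, hδ⟩ := one_dir hG x0 hg
  obtain ⟨F, hF, hF'⟩ := orbits_le hT hG S hS x0 1 A F0 hF0 hδ
  exact ⟨F, by omega, hF'⟩

theorem final_rank (hT : IsTree D) (hG : FreeAct D G) (S : Finset G)
    (hS : Subgroup.closure (S : Set G) = ⊤) (x0 : X) (n : ℕ)
    (v : Fin n → lengths D G x0) (hv : LinearIndependent ℤ v) : n ≤ 3 * S.card - 1 := by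
  by_cases hne : ∃ g : G, g ≠ 1
  · obtain ⟨g, hg⟩ := hne
    obtain ⟨A, F0, hF0, hδ⟩ := one_dir hG x0 hg
    have := lengths_rank hT hG S hS x0 1 A F0 hF0 hδ n v hv
    omega
  · push Not at hne
    have h0 : ∀ t : lengths D G x0, t = 0 := by
      intro t
      apply Subtype.ext
      have hle : lengths D G x0 ≤ ⊥ := by
        unfold lengths
        refine Submodule.span_le.2 ?_
        rintro t ⟨p, hp, q, hq, rfl⟩
        have key : ∀ c ∈ hullPts D G x0, c = x0 := by
          rintro c ⟨a, b, e, h1, -, -⟩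
          rw [hne a, hne b, one_smul] at h1
          exact eq_of_btw_self h1
        rw [key p hp, key q hq, D.d_self]
        exact Submodule.zero_mem _
      exact hle t.2
    rcases Nat.eq_zero_or_pos n with rfl | hn
    · exact Nat.zero_le _
    · exact absurd (h0 (v ⟨0, hn⟩)) (hv.ne_zero _)

/-- Rank of the abelian subgroups. -/
theorem final_abelian (hT : IsTree D) (hG : FreeAct D G) (S : Finset G)
    (hS : Subgroup.closure (S : Set G) = ⊤) [Nonempty X] (A : Subgroup G)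
    (hA : ∀ a ∈ A, ∀ b ∈ A, a * b = b * a) (n : ℕ) (a : Fin n → G) (ha : ∀ i, a i ∈ A)
    (hi : ∀ z : Fin n → ℤ, (List.ofFn fun i => a i ^ z i).prod = 1 → z = 0) :
    n ≤ 3 * S.card - 2 := by
  classical
  rcases Nat.eq_zero_or_pos n with rfl | hn
  · exact Nat.zero_le _
  have ha0 : a ⟨0, hn⟩ ≠ 1 := by
    intro h
    have h1 : (List.ofFn fun i => a i ^ (Pi.single (⟨0, hn⟩ : Fin n) (1 : ℤ) : Fin n → ℤ) i).prod
        = 1 := by
      refine List.prod_eq_one ?_
      intro x hx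
      obtain ⟨i, rfl⟩ := List.mem_ofFn.1 hx
      by_cases hi' : i = ⟨0, hn⟩
      · subst hi'; rw [h, one_zpow]
      · rw [Pi.single_eq_of_ne hi', zpow_zero]
    have h2 := congrFun (hi _ h1) ⟨0, hn⟩
    rw [Pi.single_eq_same] at h2
    exact one_ne_zero h2
  obtain ⟨p, hp⟩ := axis_nonempty hT hG ha0
  obtain ⟨B, F0, hF0, hδ⟩ := two_dir hT hG ha0 hp
  obtain ⟨τ, hτ, hL⟩ := exists_hom hT hG p A hA
  let v : Fin n → lengths D G p := fun i => ⟨(τ ⟨a i, ha i⟩).toAdd, hL _⟩
  have hv : LinearIndependent ℤ v := by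
    rw [Fintype.linearIndependent_iff]
    intro z hz
    have h1 : ((∑ i, z i • v i : lengths D G p) : Λ) = 0 := by rw [hz]; rfl
    have h2 : (τ (List.ofFn fun i => (⟨a i, ha i⟩ : A) ^ z i).prod).toAdd = 0 := by
      rw [map_list_prod, List.map_ofFn, toAdd_list_sum, List.map_ofFn, List.sum_ofFn]
      rw [← h1, Submodule.coe_sum]
      refine Finset.sum_congr rfl fun i _ => ?_
      simp [v]
    have h3 : (List.ofFn fun i => (⟨a i, ha i⟩ : A) ^ z i).prod = 1 := by
      apply hτ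
      rw [map_one]
      exact Multiplicative.toAdd.injective h2
    have h4 : (List.ofFn fun i => a i ^ z i).prod = 1 := by
      have h5 := congrArg A.subtype h3
      rw [map_list_prod, List.map_ofFn, map_one] at h5
      rw [← h5]
      rfl
    intro i
    exact congrFun (hi z h4) i
  have := lengths_rank hT hG S hS p 2 B F0 hF0 hδ n v hv
  omega

/-- Free abelian components. -/
theorem final_free (hfree : ∀ x : Λ, x ≠ 0 → Module.Free ℤ (component x)) (hT : IsTree D)
    (hG : FreeAct D G) (S : Finset G) (hS : Subgroup.closure (S : Set G) = ⊤) [Nonempty X]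
    (A : Subgroup G) (hA : ∀ a ∈ A, ∀ b ∈ A, a * b = b * a) :
    ∃ n : ℕ, n ≤ 3 * S.card - 2 ∧ Nonempty (A ≃* Multiplicative (Fin n → ℤ)) := by
  classical
  by_cases h1 : ∃ a ∈ A, a ≠ 1
  · obtain ⟨a, haA, ha⟩ := h1
    obtain ⟨p, hp⟩ := axis_nonempty hT hG ha
    obtain ⟨B, F0, hF0, hδ⟩ := two_dir hT hG ha hp
    obtain ⟨F, hF, hF'⟩ := orbits_le hT hG S hS p 2 B F0 hF0 hδ
    obtain ⟨h1, h2⟩ := lengths_fg hT hG hfree S hS p F hF'
    obtain ⟨τ, hτ, hL⟩ := exists_hom hT hG p A hA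
    have h3 : Module.finrank ℤ (lengths D G p) ≤ 3 * S.card - 2 := by omega
    exact abelian_free h1 h3 τ hτ hL
  · push Not at h1
    refine ⟨0, Nat.zero_le _, ⟨?_⟩⟩
    have : Subsingleton A := ⟨fun x y => Subtype.ext ((h1 x x.2).trans (h1 y y.2).symm)⟩
    exact
      { toFun := fun _ => 1
        invFun := fun _ => 1
        left_inv := fun _ => Subsingleton.elim _ _
        right_inv := fun x => by
          apply Multiplicative.toAdd.injective
          exact Subsingleton.elim _ _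
        map_mul' := fun _ _ => (one_mul 1).symm }

end LTree.Idx
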