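import Pool.Agent.Work.MP_0c526b_al.Idx.Count
import Pool.Agent.Work.MP_0c526b_al.Idx.Germ

/-!
# C2: counting the classes of points
-/

set_option autoImplicit false

namespace LTree.Idx

open LTree

variable {Λ : Type*} [AddCommGroup Λ] [LinearOrder Λ] [IsOrderedAddMonoid Λ] {X : Type*}
variable {D : Dist Λ X} {G : Type*} [Group G] [MulAction G X]

theorem count_classes (hT : IsTree D) (hG : FreeAct D G) {F : Finset X} {T : Set (Letter X G)}
    (hS : Sys D F T) {c : ℤ} (hc : Claim D F T c) {x0 : X} (hx0 : x0 ∈ F)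
    (hconn : ∀ f ∈ F, ∃ g : G, Conn D T x0 g ∧ f = g • x0) (P : Finset X)
    (hP : ∀ y ∈ P, y ∈ hull D F ∧ 3 ≤ (dirs D F y).card)
    (hPP : ∀ y ∈ P, ∀ z ∈ P, y ≠ z → ¬ ∃ g : G, Conn D T y g ∧ z = g • y)
    (hP0 : ∀ y ∈ P, ¬ ∃ g : G, Conn D T y g ∧ x0 = g • y) :
    (P.card : ℤ) + ((dirs D F x0).card : ℤ) ≤ c + 2 := by
  classical
  have : Nonempty X := ⟨x0⟩
  -- the edges connecting the points of `F` to `x0`
  have h1 : ∀ f ∈ F, ∃ E : Set (Edge X G), E.Finite ∧ (∀ e ∈ E, EdgeOf D T e) ∧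
      Relation.EqvGen (rV E) x0 f := by
    intro f hf
    obtain ⟨g, hg, rfl⟩ := hconn f hf
    exact word_rV hG hS.flag hg
  choose! Ef hE1 hE2 hE3 using h1
  obtain ⟨V, E, hV0, hE0, hEfin, hSk, hEV, hPhi⟩ := hc (P ∪ F) (⋃ f ∈ F, Ef f)
    (by
      intro x hx
      rcases Finset.mem_union.1 hx with h | h
      · exact (hP x h).1
      · exact subset_hull h)
    (Set.Finite.biUnion F.finite_toSet hE1)
    (by
      intro e he
      simp only [Set.mem_iUnion] at he
      obtain ⟨f, hf, he⟩ := he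
      exact hE2 f hf e he)
  have hmono : ∀ {E E' : Set (Edge X G)} {x y : X}, E ⊆ E' → Relation.EqvGen (rV E) x y →
      Relation.EqvGen (rV E') x y := by
    intro E E' x y h h'
    have h1 : rV E ≤ rV E' := fun a b ⟨e, he, h1, h2⟩ => ⟨e, h he, h1, h2⟩
    exact Relation.EqvGen.mono h1 _ _ h'
  have hF0 : ∀ f ∈ F, Relation.EqvGen (rV E) x0 f := by
    intro f hf
    refine hmono (fun e he => hE0 ?_) (hE3 f hf)
    simp only [Set.mem_iUnion]
    exact ⟨f, hf, he⟩
  have hEof : ∀ e ∈ E, EdgeOf D T e := fun e he => (hEV e he).1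
  -- representatives
  let cls : X → Quot (rV E) := Quot.mk _
  have hcls : ∀ {x y : X}, cls x = cls y ↔ Relation.EqvGen (rV E) x y := by
    intro x y
    exact ⟨fun h => Quot.eqvGen_exact h, fun h => Quot.eqvGen_sound h⟩
  have hPne : ∀ y ∈ P, cls y ≠ cls x0 := by
    intro y hy h
    exact hP0 y hy (rV_word hG hS.flag hEof (hcls.1 h))
  have hPinj : ∀ y ∈ P, ∀ z ∈ P, cls y = cls z → y = z := by
    intro y hy z hz h
    by_contra hne
    exact hPP y hy z hz hne (rV_word hG hS.flag hEof (hcls.1 h))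
  have hx0V : x0 ∈ V := hV0 (Finset.mem_union_right _ hx0)
  have hPV : ∀ y ∈ P, y ∈ V := fun y hy => hV0 (Finset.mem_union_left _ hy)
  have hrep : ∀ q ∈ V.image cls, ∃ x ∈ V, cls x = q ∧ (q = cls x0 → x = x0) ∧
      (∀ y ∈ P, q = cls y → x = y) := by
    intro q hq
    by_cases h0 : q = cls x0
    · refine ⟨x0, hx0V, h0.symm, fun _ => rfl, fun y hy h => ?_⟩
      exact absurd (h.symm.trans h0) (hPne y hy)
    by_cases h1 : ∃ y ∈ P, q = cls y
    · obtain ⟨y, hy, h1⟩ := h1
      refine ⟨y, hPV y hy, h1.symm, fun h => absurd h h0, fun z hz h => ?_⟩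
      exact hPinj y hy z hz (h1.symm.trans h)
    · obtain ⟨x, hx, rfl⟩ := Finset.mem_image.1 hq
      exact ⟨x, hx, rfl, fun h => absurd h h0, fun y hy h => absurd ⟨y, hy, h⟩ h1⟩
  choose! rep hr1 hr2 hr3 hr4 using hrep
  let I := (V.image cls).image rep
  have hIcard : I.card = ncl (rV E) V := by
    have h1 : I.card = (V.image cls).card := by
      refine Finset.card_image_of_injOn ?_
      intro q hq q' hq' h
      have e1 := hr2 q hq
      have e2 := hr2 q' hq'
      rw [← e1, ← e2, h]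
    rw [h1]
    unfold ncl
    rfl
  have hIV : ∀ x ∈ I, x ∈ V := by
    intro x hx
    obtain ⟨q, hq, rfl⟩ := Finset.mem_image.1 hx
    exact hr1 q hq
  have hx0I : x0 ∈ I := by
    refine Finset.mem_image.2 ⟨cls x0, Finset.mem_image_of_mem _ hx0V, ?_⟩
    exact hr3 _ (Finset.mem_image_of_mem _ hx0V) rfl
  have hPI : P ⊆ I := by
    intro y hy
    refine Finset.mem_image.2 ⟨cls y, Finset.mem_image_of_mem _ (hPV y hy), ?_⟩
    exact hr4 _ (Finset.mem_image_of_mem _ (hPV y hy)) y hy rfl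
  have hIinj : ∀ x ∈ I, ∀ y ∈ I, Relation.EqvGen (rV E) x y → x = y := by
    intro x hx y hy h
    obtain ⟨q, hq, rfl⟩ := Finset.mem_image.1 hx
    obtain ⟨q', hq', rfl⟩ := Finset.mem_image.1 hy
    have h1 := hcls.2 h
    rw [hr2 q hq, hr2 q' hq'] at h1
    rw [h1]
  -- the directions at the representatives
  have hcount : ∑ x ∈ I, (dirs D F x).card ≤ ncl (rH D E) (HV D F V) := by
    rw [← Finset.card_sigma]
    refine le_ncl (HV D F V) (I.sigma fun x => dirs D F x) (fun u => (u.1, u.2)) ?_ ?_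
    · rintro ⟨x, d⟩ hu
      rw [Finset.mem_sigma] at hu
      unfold HV
      rw [Finset.mem_biUnion]
      exact ⟨x, hIV x hu.1, Finset.mem_image_of_mem _ hu.2⟩
    · rintro ⟨x, d⟩ hu ⟨y, d'⟩ hu' h
      rw [Finset.mem_sigma] at hu hu'
      obtain ⟨-, h2, h3⟩ := rH_same hG h
      have e := hIinj x hu.1 y hu'.1 h2
      have e' := h3 e
      subst e
      subst e'
      rfl
  have hlow : ∀ x ∈ I, x ≠ x0 → x ∉ P → 2 ≤ (dirs D F x).card := by
    intro x hx hne _
    refine two_le_dirs hT (hSk.sub x (hIV x hx)) ?_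
    intro hxF
    exact hne (hIinj x hx x0 hx0I (Relation.EqvGen.symm _ _ (hF0 x hxF)))
  have hx0P : x0 ∉ P := fun h => hPne x0 h rfl
  have hsub : insert x0 P ⊆ I := Finset.insert_subset hx0I hPI
  have hsum : (dirs D F x0).card + 3 * P.card + 2 * (I \ insert x0 P).card ≤
      ∑ x ∈ I, (dirs D F x).card := by
    rw [← Finset.sum_sdiff hsub, Finset.sum_insert hx0P]
    have e1 : 2 * (I \ insert x0 P).card ≤ ∑ x ∈ I \ insert x0 P, (dirs D F x).card := by
      rw [mul_comm, ← smul_eq_mul]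
      refine Finset.card_nsmul_le_sum _ _ _ fun x hx => ?_
      rw [Finset.mem_sdiff, Finset.mem_insert, not_or] at hx
      exact hlow x hx.1 hx.2.1 hx.2.2
    have e2 : 3 * P.card ≤ ∑ x ∈ P, (dirs D F x).card := by
      rw [mul_comm, ← smul_eq_mul]
      exact Finset.card_nsmul_le_sum _ _ _ fun x hx => (hP x hx).2
    omega
  have hcard : (I \ insert x0 P).card + (P.card + 1) = I.card := by
    rw [← Finset.card_insert_of_notMem hx0P]
    exact Finset.card_sdiff_add_card_eq_card hsub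
  unfold Phi at hPhi
  rw [← hIcard] at hPhi
  omega

end LTree.Idx
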