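import Pool.Agent.Work.MP_0c526b_al.Idx.Final

/-!
# The index inequality
-/

set_option autoImplicit false

namespace LTree.Idx

open LTree

variable {Λ : Type*} [AddCommGroup Λ] [LinearOrder Λ] [IsOrderedAddMonoid Λ] {X : Type*}
variable {D : Dist Λ X} {G : Type*} [Group G] [MulAction G X]

/-- The count of the directions, with the valences of the points of `P`. -/
theorem count_sum (hT : IsTree D) (hG : FreeAct D G) {F : Finset X} {T : Set (Letter X G)}
    (hS : Sys D F T) {c : ℤ} (hc : Claim D F T c) {x0 : X} (hx0 : x0 ∈ F)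
    (hconn : ∀ f ∈ F, ∃ g : G, Conn D T x0 g ∧ f = g • x0) (P : Finset X)
    (hP : ∀ y ∈ P, y ∈ hull D F)
    (hPP : ∀ y ∈ P, ∀ z ∈ P, y ≠ z → ¬ ∃ g : G, Conn D T y g ∧ z = g • y)
    (hP0 : ∀ y ∈ P, ¬ ∃ g : G, Conn D T y g ∧ x0 = g • y) :
    ∑ y ∈ P, (((dirs D F y).card : ℤ) - 2) + ((dirs D F x0).card : ℤ) ≤ c + 2 := by
  classical
  have : Nonempty X := ⟨x0⟩
  -- the edges connecting the points of `F` to `x0`
  have h1 : ∀ f ∈ F, ∃ E : Set (Edge X G), E.Finite ∧ (∀ e ∈ E, EdgeOf D T e) ∧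
      Relation.EqvGen (rV E) x0 f := by
    intro f hf
    obtain ⟨g, hg, rfl⟩ := hconn f hf
    exact word_rV hG hS.flag hg
  choose! Ef hE1 hE2 hE3 using h1
  obtain ⟨V, E, hV0, hE0, hEfin, hSk, hEV, hPhi⟩ := hc (P ∪ F) (⋃ f ∈ F, Ef f)
    (by
      intro x hx
      rcases Finset.mem_union.1 hx with h | h
      · exact hP x h
      · exact subset_hull h)
    (Set.Finite.biUnion F.finite_toSet hE1)
    (by
      intro e he
      simp only [Set.mem_iUnion] at he
      obtain ⟨f, hf, he⟩ := he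
      exact hE2 f hf e he)
  have hmono : ∀ {E E' : Set (Edge X G)} {x y : X}, E ⊆ E' → Relation.EqvGen (rV E) x y →
      Relation.EqvGen (rV E') x y := by
    intro E E' x y h h'
    have h1 : rV E ≤ rV E' := fun a b ⟨e, he, h1, h2⟩ => ⟨e, h he, h1, h2⟩
    exact Relation.EqvGen.mono h1 _ _ h'
  have hF0 : ∀ f ∈ F, Relation.EqvGen (rV E) x0 f := by
    intro f hf
    refine hmono (fun e he => hE0 ?_) (hE3 f hf)
    simp only [Set.mem_iUnion]
    exact ⟨f, hf, he⟩
  have hEof : ∀ e ∈ E, EdgeOf D T e := fun e he => (hEV e he).1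
  -- representatives
  let cls : X → Quot (rV E) := Quot.mk _
  have hcls : ∀ {x y : X}, cls x = cls y ↔ Relation.EqvGen (rV E) x y := by
    intro x y
    exact ⟨fun h => Quot.eqvGen_exact h, fun h => Quot.eqvGen_sound h⟩
  have hPne : ∀ y ∈ P, cls y ≠ cls x0 := by
    intro y hy h
    exact hP0 y hy (rV_word hG hS.flag hEof (hcls.1 h))
  have hPinj : ∀ y ∈ P, ∀ z ∈ P, cls y = cls z → y = z := by
    intro y hy z hz h
    by_contra hne
    exact hPP y hy z hz hne (rV_word hG hS.flag hEof (hcls.1 h))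
  have hx0V : x0 ∈ V := hV0 (Finset.mem_union_right _ hx0)
  have hPV : ∀ y ∈ P, y ∈ V := fun y hy => hV0 (Finset.mem_union_left _ hy)
  have hrep : ∀ q ∈ V.image cls, ∃ x ∈ V, cls x = q ∧ (q = cls x0 → x = x0) ∧
      (∀ y ∈ P, q = cls y → x = y) := by
    intro q hq
    by_cases h0 : q = cls x0
    · refine ⟨x0, hx0V, h0.symm, fun _ => rfl, fun y hy h => ?_⟩
      exact absurd (h.symm.trans h0) (hPne y hy)
    by_cases h1 : ∃ y ∈ P, q = cls y
    · obtain ⟨y, hy, h1⟩ := h1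
      refine ⟨y, hPV y hy, h1.symm, fun h => absurd h h0, fun z hz h => ?_⟩
      exact hPinj y hy z hz (h1.symm.trans h)
    · obtain ⟨x, hx, rfl⟩ := Finset.mem_image.1 hq
      exact ⟨x, hx, rfl, fun h => absurd h h0, fun y hy h => absurd ⟨y, hy, h⟩ h1⟩
  choose! rep hr1 hr2 hr3 hr4 using hrep
  let I := (V.image cls).image rep
  have hIcard : I.card = ncl (rV E) V := by
    have h1 : I.card = (V.image cls).card := by
      refine Finset.card_image_of_injOn ?_
      intro q hq q' hq' h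
      have e1 := hr2 q hq
      have e2 := hr2 q' hq'
      rw [← e1, ← e2, h]
    rw [h1]
    unfold ncl
    rfl
  have hIV : ∀ x ∈ I, x ∈ V := by
    intro x hx
    obtain ⟨q, hq, rfl⟩ := Finset.mem_image.1 hx
    exact hr1 q hq
  have hx0I : x0 ∈ I := by
    refine Finset.mem_image.2 ⟨cls x0, Finset.mem_image_of_mem _ hx0V, ?_⟩
    exact hr3 _ (Finset.mem_image_of_mem _ hx0V) rfl
  have hPI : P ⊆ I := by
    intro y hy
    refine Finset.mem_image.2 ⟨cls y, Finset.mem_image_of_mem _ (hPV y hy), ?_⟩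
    exact hr4 _ (Finset.mem_image_of_mem _ (hPV y hy)) y hy rfl
  have hIinj : ∀ x ∈ I, ∀ y ∈ I, Relation.EqvGen (rV E) x y → x = y := by
    intro x hx y hy h
    obtain ⟨q, hq, rfl⟩ := Finset.mem_image.1 hx
    obtain ⟨q', hq', rfl⟩ := Finset.mem_image.1 hy
    have h1 := hcls.2 h
    rw [hr2 q hq, hr2 q' hq'] at h1
    rw [h1]
  -- the directions at the representatives
  have hcount : ∑ x ∈ I, (dirs D F x).card ≤ ncl (rH D E) (HV D F V) := by
    rw [← Finset.card_sigma]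
    refine le_ncl (HV D F V) (I.sigma fun x => dirs D F x) (fun u => (u.1, u.2)) ?_ ?_
    · rintro ⟨x, d⟩ hu
      rw [Finset.mem_sigma] at hu
      unfold HV
      rw [Finset.mem_biUnion]
      exact ⟨x, hIV x hu.1, Finset.mem_image_of_mem _ hu.2⟩
    · rintro ⟨x, d⟩ hu ⟨y, d'⟩ hu' h
      rw [Finset.mem_sigma] at hu hu'
      obtain ⟨-, h2, h3⟩ := rH_same hG h
      have e := hIinj x hu.1 y hu'.1 h2
      have e' := h3 e
      subst e
      subst e'
      rfl
  have hlow : ∀ x ∈ I, x ≠ x0 → x ∉ P → 2 ≤ (dirs D F x).card := by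
    intro x hx hne _
    refine two_le_dirs hT (hSk.sub x (hIV x hx)) ?_
    intro hxF
    exact hne (hIinj x hx x0 hx0I (Relation.EqvGen.symm _ _ (hF0 x hxF)))
  have hx0P : x0 ∉ P := fun h => hPne x0 h rfl
  have hsub : insert x0 P ⊆ I := Finset.insert_subset hx0I hPI
  have hsum : (dirs D F x0).card + ∑ x ∈ P, (dirs D F x).card + 2 * (I \ insert x0 P).card ≤
      ∑ x ∈ I, (dirs D F x).card := by
    rw [← Finset.sum_sdiff hsub, Finset.sum_insert hx0P]
    have e1 : 2 * (I \ insert x0 P).card ≤ ∑ x ∈ I \ insert x0 P, (dirs D F x).card := by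
      rw [mul_comm, ← smul_eq_mul]
      refine Finset.card_nsmul_le_sum _ _ _ fun x hx => ?_
      rw [Finset.mem_sdiff, Finset.mem_insert, not_or] at hx
      exact hlow x hx.1 hx.2.1 hx.2.2
    omega
  have hcard : (I \ insert x0 P).card + (P.card + 1) = I.card := by
    rw [← Finset.card_insert_of_notMem hx0P]
    exact Finset.card_sdiff_add_card_eq_card hsub
  unfold Phi at hPhi
  rw [← hIcard] at hPhi
  rw [Finset.sum_sub_distrib, Finset.sum_const, nsmul_eq_mul, ← Nat.cast_sum]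
  push_cast
  have h8 : ((∑ x ∈ P, (dirs D F x).card : ℕ) : ℤ) = ∑ x ∈ P, ((dirs D F x).card : ℤ) := by
    push_cast; rfl
  omega

/-- **Index inequality.** -/
theorem index_le (hT : IsTree D) (hG : FreeAct D G) (S : Finset G)
    (hS : Subgroup.closure (S : Set G) = ⊤) (x0 : X) (P : Finset X) (hx0P : x0 ∈ P)
    (hPP : ∀ p ∈ P, ∀ q ∈ P, ∀ g : G, q = g • p → q = p) (A : X → Finset G)
    (hA : ∀ p ∈ P, ∀ g ∈ A p, g • x0 ≠ p)
    (hAA : ∀ p ∈ P, ∀ g ∈ A p, ∀ h ∈ A p, g ≠ h → Btw D (g • x0) p (h • x0)) :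
    ∑ p ∈ P, (((A p).card : ℤ) - 2) ≤ 2 * (S.card : ℤ) - 2 := by
  classical
  obtain ⟨n, hn⟩ := ball_exhaust S hS (P.biUnion A)
  set F : Finset X := (ball S (n + 1)).image (fun w => w • x0) with hF
  have hFm : ∀ y, y ∈ F ↔ ∃ w ∈ ball S (n + 1), y = w • x0 := by
    intro y
    rw [hF, Finset.mem_image]
    constructor
    · rintro ⟨w, hw, rfl⟩; exact ⟨w, hw, rfl⟩
    · rintro ⟨w, hw, rfl⟩; exact ⟨w, hw, rfl⟩
  obtain ⟨T, hSys, hc, _, _, hconn⟩ := ball_system hT hG S x0 n F hFm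
  have hsub := hn (n + 1) (Nat.le_succ n)
  have hx0 : x0 ∈ F := (hFm x0).2 ⟨1, one_mem_ball S _, (one_smul G x0).symm⟩
  have hAF : ∀ p ∈ P, ∀ g ∈ A p, g • x0 ∈ F := fun p hp g hg => (hFm _).2 ⟨g, hsub
    (Finset.mem_biUnion.2 ⟨p, hp, hg⟩), rfl⟩
  have hdirs : ∀ p ∈ P, (A p).card ≤ (dirs D F p).card := by
    intro p hp
    refine Finset.card_le_card_of_injOn (fun g => drn D p (g • x0)) ?_ ?_
    · intro g hg
      exact mem_dirs.2 ⟨g • x0, hAF p hp g hg, hA p hp g hg, rfl⟩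
    · intro g hg h hh e
      by_contra hne
      exact (drn_eq_iff hT (hA p hp g hg) (hA p hp h hh)).1 e (hAA p hp g hg h hh hne)
  let Q : Finset X := (P.erase x0).filter (fun p => 3 ≤ (A p).card)
  have hQP : ∀ p ∈ Q, p ∈ P := fun p hp =>
    Finset.mem_of_mem_erase (Finset.mem_filter.1 hp).1
  have hQ0 : ∀ p ∈ Q, p ≠ x0 := fun p hp => Finset.ne_of_mem_erase (Finset.mem_filter.1 hp).1
  have key := count_sum hT hG hSys hc hx0 hconn Q
    (fun y hy => by
      have h3 := (Finset.mem_filter.1 hy).2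
      obtain ⟨g, hg, h, hh, hne⟩ := Finset.one_lt_card.1 (show 1 < (A y).card by omega)
      exact ⟨_, hAF y (hQP y hy) g hg, _, hAF y (hQP y hy) h hh,
        hAA y (hQP y hy) g hg h hh hne⟩)
    (fun y hy z hz hne => by
      rintro ⟨g, _, hg⟩
      exact hne (hPP y (hQP y hy) z (hQP z hz) g hg).symm)
    (fun y hy => by
      rintro ⟨g, _, hg⟩
      exact hQ0 y hy (hPP y (hQP y hy) x0 hx0P g hg).symm)
  have h1 : ∑ p ∈ P, (((A p).card : ℤ) - 2) ≤
      ∑ p ∈ Q, (((dirs D F p).card : ℤ) - 2) + (((dirs D F x0).card : ℤ) - 2) := by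
    rw [← Finset.add_sum_erase _ _ hx0P]
    rw [← Finset.sum_filter_add_sum_filter_not (P.erase x0) (fun p => 3 ≤ (A p).card)]
    have e1 : ∑ p ∈ (P.erase x0).filter (fun p => 3 ≤ (A p).card), (((A p).card : ℤ) - 2) ≤
        ∑ p ∈ Q, (((dirs D F p).card : ℤ) - 2) := by
      refine Finset.sum_le_sum fun p hp => ?_
      have := hdirs p (hQP p hp)
      omega
    have e2 : ∑ p ∈ (P.erase x0).filter (fun p => ¬ 3 ≤ (A p).card), (((A p).card : ℤ) - 2) ≤
        0 := by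
      refine Finset.sum_nonpos fun p hp => ?_
      have := (Finset.mem_filter.1 hp).2
      omega
    have e3 := hdirs x0 hx0P
    omega
  omega

end LTree.Idx
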