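import Pool.Agent.Work.MP_0c526b_al.Idx.BallDef
import Pool.Agent.Work.MP_0c526b_al.Idx.System

/-!
# Systems of the balls (module C3)
-/

set_option autoImplicit false

namespace LTree.Idx

open LTree

variable {Λ : Type*} [AddCommGroup Λ] [LinearOrder Λ] [IsOrderedAddMonoid Λ] {X : Type*}
variable {D : Dist Λ X} {G : Type*} [Group G] [MulAction G X]

theorem ball_system (hT : IsTree D) (hG : FreeAct D G) (S : Finset G) (x0 : X) (n : ℕ)
    (F : Finset X) (hF : ∀ y, y ∈ F ↔ ∃ w ∈ ball S (n + 1), y = w • x0) :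
    ∃ T : Set (Letter X G), Sys D F T ∧ Claim D F T (2 * (S.card : ℤ) - 2) ∧
      (∀ l ∈ T, l.h ∈ S) ∧ (∀ s ∈ S, ⟨x0, x0, s, false⟩ ∈ T) ∧
      ∀ f ∈ F, ∃ g : G, Conn D T x0 g ∧ f = g • x0 := by
  obtain ⟨T, hS, hc, hh, hx, hl⟩ := final_system hT hG S (ball S (n + 1)) x0 F hF
    (one_mem_ball S _) (subset_ball S n)
  refine ⟨T, hS, hc, hh, hx, ?_⟩
  intro f hf
  obtain ⟨w, hw, hfw⟩ := (hF f).1 hf
  exact ⟨w, conn_ball hG S x0 (n + 1) T hl (n + 1) le_rfl w hw, hfw⟩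

end LTree.Idx
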