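import Pool.Agent.Work.MP_0c526b_al.Idx.Basics

/-!
# Gates and coordinates
-/

set_option autoImplicit false

namespace LTree.Idx

open LTree

variable {Λ : Type*} [AddCommGroup Λ] [LinearOrder Λ] [IsOrderedAddMonoid Λ] {X : Type*}
variable {D : Dist Λ X} {G : Type*} [Group G] [MulAction G X]

/-- Segments are convex. -/
lemma btw_conv (hT : IsTree D) {a b y z m : X} (hy : Btw D a y b) (hz : Btw D a z b)
    (hm : Btw D y m z) : Btw D a m b := by
  have hd := btw_dist hT hy hz
  by_cases c : D.d a y ≤ D.d a z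
  · have c1 : Btw D a y z := by
      unfold Btw at *
      grind
    exact (btw_trans' hz (btw_trans c1 hm).1).1
  · have s1 := D.symm y z
    have c1 : Btw D a z y := by
      unfold Btw at *
      grind
    exact (btw_trans' hy (btw_trans c1 hm.symm).1).1

/-- A trajectory leaves a segment at a median. -/
theorem gate_exit (hT : IsTree D) {F : Finset X} {a b y0 y1 : X} (hy1 : y1 ∈ hull D F)
    (h0 : Btw D a y0 b) (h1 : ¬ Btw D a y1 b) :
    ∃ f ∈ F, ∃ v, IsMedian D a b f v ∧ Btw D y0 v y1 ∧ Btw D v y1 f ∧ v ≠ y1 ∧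
      ∀ z, Btw D y0 z y1 → (Btw D a z b ↔ Btw D y0 z v) := by
  obtain ⟨v, v1, v2, v3⟩ := exists_median hT a b y1
  have hv : v ≠ y1 := by
    rintro rfl
    exact h1 v1
  obtain ⟨f, hf, hfb⟩ := hull_beyond hT hy1 v
  have e1 : Btw D a v f := (lg_btw hT v3 hfb hv).1
  have e2 : Btw D b v f := (lg_btw hT v2 hfb hv).1
  have key : ∀ {a b : X}, Btw D a y0 b → Btw D a v b → Btw D a v y1 → Btw D b v y1 →
      Btw D y0 v y1 := by
    intro a b h0 v1 v3 v2
    by_cases c : D.d a y0 ≤ D.d a v
    · have hd := btw_dist hT h0 v1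
      have c1 : Btw D a y0 v := by
        unfold Btw at *
        grind
      exact (btw_trans' v3 c1).2
    · have hd := btw_dist hT h0 v1
      have s1 := D.symm y0 b
      have s2 := D.symm v b
      have s3 := D.symm a b
      have s4 := D.symm y0 v
      have c1 : Btw D b y0 v := by
        unfold Btw at *
        grind
      exact (btw_trans' v2 c1).2
  have h2 : Btw D y0 v y1 := key h0 v1 v3 v2
  refine ⟨f, hf, v, ⟨v1, e2, e1⟩, h2, hfb, hv, ?_⟩
  intro z hz
  constructor
  · intro hz'
    by_contra hc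
    have hd := btw_dist hT hz h2
    have s1 := D.symm z v
    have s2 := D.symm y1 z
    have s3 := D.symm y1 v
    have c1 : Btw D v z y1 := by
      unfold Btw at *
      have n1 := D.nonneg z v
      grind
    have c2 : Btw D a v z := (btw_trans v3 c1).2
    have c3 : Btw D b v z := (btw_trans v2 c1).2
    have n1 := D.nonneg v z
    have s4 := D.symm b v
    have s5 := D.symm b z
    have e : D.d v z = 0 := by
      unfold Btw at *
      grind
    have e' : v = z := D.eq_of_d _ _ e
    subst e'
    exact hc (btw_right _ _)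
  · intro hz'
    exact btw_conv hT h0 v1 hz'

/-- Gates of an alphabet are in the skeleton. -/
theorem gate_mem (hT : IsTree D) {F Sg : Finset X} {L : Set (Letter X G)} (hA : Alph D F Sg L)
    {l : Letter X G} (hl : l ∈ L) {f v : X} (hf : f ∈ F) (hv : IsMedian D l.a l.b f v) :
    v ∈ Sg :=
  hA.sk.med_mem hT (hA.ha l hl) (hA.hb l hl) (hA.sk.F_sub hf) hv

end LTree.Idx
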