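import Pool.Agent.Work.MP_0c526b_al.Idx.Connect
import Pool.Agent.Work.MP_0c526b_al.Idx.Gate
import Pool.Agent.Work.MP_0c526b_al.Idx.JJ

/-!
# The closing lemma, case without a top coset
-/

set_option autoImplicit false
set_option linter.unusedVariables false
set_option linter.unusedSectionVars false

namespace LTree.Idx

open LTree

variable {Λ : Type*} [AddCommGroup Λ] [LinearOrder Λ] [IsOrderedAddMonoid Λ] {X : Type*}
variable {D : Dist Λ X} {G : Type*} [Group G] [MulAction G X]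

/-! ### Items -/

/-- The word of a list of items. -/
def wd : List (List (Letter X G) × Bool) → List (Letter X G)
  | [] => []
  | i :: l => i.1 ++ wd l

lemma wd_append (A B : List (List (Letter X G) × Bool)) : wd (A ++ B) = wd A ++ wd B := by
  induction A with
  | nil => rfl
  | cons i A ih => simp [wd, ih]

/-- Robust words: valid from `k • x(t)` as soon as the beginning or the end is in the hull. -/
def Rob (D : Dist Λ X) (F : Finset X) (x : Λ → X) (T t0 : Λ) (k : G)
    (u : List (Letter X G)) : Prop :=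
  ∀ t, t0 ≤ t → t ≤ T → (k • x t ∈ hull D F → mem D u (k • x t)) ∧
    (val u • (k • x t) ∈ hull D F → mem D u (k • x t))

/-- Validity of the flags of a list of items. -/
def Vald (D : Dist Λ X) (F : Finset X) (x : Λ → X) (T t0 : Λ) :
    List (List (Letter X G) × Bool) → G → Prop
  | [], _ => True
  | i :: l, k => (i.2 = true → Rob D F x T t0 k i.1) ∧ (i.2 = false → ∃ a, i.1 = [a]) ∧
      Vald D F x T t0 l (val i.1 * k)

lemma Vald_append {F : Finset X} {x : Λ → X} {T t0 : Λ} (A B : List (List (Letter X G) × Bool))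
    (k : G) : Vald D F x T t0 (A ++ B) k ↔
      Vald D F x T t0 A k ∧ Vald D F x T t0 B (val (wd A) * k) := by
  induction A generalizing k with
  | nil => simp [Vald, wd, val]
  | cons i A ih =>
    simp only [List.cons_append, Vald, ih, wd, val_append, mul_assoc]
    tauto

lemma Vald_mono {F : Finset X} {x : Λ → X} {T t0 t1 : Λ} (h : t0 ≤ t1)
    {A : List (List (Letter X G) × Bool)} {k : G} (hA : Vald D F x T t0 A k) :
    Vald D F x T t1 A k := by
  induction A generalizing k with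
  | nil => trivial
  | cons i A ih =>
    obtain ⟨h1, h2, h3⟩ := hA
    exact ⟨fun hi t ht => h1 hi t (h.trans ht), h2, ih h3⟩

/-- Number of unflagged items. -/
def cnt (A : List (List (Letter X G) × Bool)) : ℕ := A.countP (fun i => !i.2)


lemma c1_btw_smul (hG : FreeAct D G) (k : G) {x y z : X} (h : Btw D x y z) :
    Btw D (k • x) (k • y) (k • z) := hG.btw k h

/-- The first item which cannot be applied beyond. `P` is the property of a time to be beyond. -/
theorem c1_first_bad (hT : IsTree D) (hG : FreeAct D G) {F : Finset X} {L : Set (Letter X G)}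
    (hL : ∀ l ∈ L, l.h • l.a ∈ hull D F ∧ l.h • l.b ∈ hull D F) {x : Λ → X} {T t0 f : Λ}
    (hx : ∀ s t u, t0 ≤ s → s ≤ t → t ≤ u → u ≤ T → Btw D (x s) (x t) (x u))
    (hf : t0 ≤ f) (P : Λ → Prop) (hPf : ∀ a, P a → f ≤ a) :
    ∀ (A : List (List (Letter X G) × Bool)) (k : G) (t2 : Λ), P t2 → t2 ≤ T →
      k • x f ∈ hull D F → k • x t2 ∈ hull D F → (∀ i ∈ A, ∀ l ∈ i.1, l ∈ L) →
      Vald D F x T t0 A k →
      mem D (wd A) (k • x f) → (¬ ∃ t', P t' ∧ t' ≤ T ∧ mem D (wd A) (k • x t')) →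
      ∃ pre l A' t3, A = pre ++ ([l], false) :: A' ∧ P t3 ∧ t3 ≤ t2 ∧
        mem D (wd pre) (k • x t3) ∧ (val (wd pre) * k) • x t3 ∈ hull D F ∧
        ∀ t, P t → t ≤ t3 → ¬ mem D [l] ((val (wd pre) * k) • x t) := by
  intro A
  induction A with
  | nil =>
    intro k t2 h2 hT2 _ _ _ _ _ hn
    exact absurd ⟨t2, h2, hT2, trivial⟩ hn
  | cons i A ih =>
    intro k t2 h2 hT2 hkf hk hAL hv hm hn
    rw [wd, mem_append] at hm
    obtain ⟨hv1, hv2, hv3⟩ := hv
    by_cases hc : ∃ t', P t' ∧ t' ≤ t2 ∧ mem D i.1 (k • x t')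
    · obtain ⟨t', hP', ht', hm'⟩ := hc
      have hiL : ∀ l ∈ i.1, l.h • l.a ∈ hull D F ∧ l.h • l.b ∈ hull D F :=
        fun l hl => hL l (hAL i (List.mem_cons_self) l hl)
      have hk' : k • x t' ∈ hull D F :=
        hull_convex hT hkf hk (c1_btw_smul hG k (hx f t' t2 hf (hPf _ hP') ht' hT2))
      have hkf2 : (val i.1 * k) • x f ∈ hull D F := by
        rw [mul_smul]; exact mem_hull hT hG hiL hkf hm.1
      have hk2 : (val i.1 * k) • x t' ∈ hull D F := by
        rw [mul_smul]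
        exact mem_hull hT hG hiL hk' hm'
      have hmf : mem D (wd A) ((val i.1 * k) • x f) := by rw [mul_smul]; exact hm.2
      have hn' : ¬ ∃ t'', P t'' ∧ t'' ≤ T ∧ mem D (wd A) ((val i.1 * k) • x t'') := by
        rintro ⟨t'', hP'', ht'', hm''⟩
        apply hn
        rcases le_total t' t'' with hle | hle
        · refine ⟨t', hP', ht'.trans hT2, ?_⟩
          rw [wd, mem_append]
          refine ⟨hm', ?_⟩
          rw [← mul_smul]
          exact mem_convex hT hG hmf hm'' (c1_btw_smul hG _ (hx f t' t'' hf (hPf _ hP') hle ht''))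
        · refine ⟨t'', hP'', ht'', ?_⟩
          rw [wd, mem_append]
          refine ⟨mem_convex hT hG hm.1 hm' (c1_btw_smul hG _ (hx f t'' t' hf (hPf _ hP'') hle
            (ht'.trans hT2))), ?_⟩
          rw [← mul_smul]; exact hm''
      obtain ⟨pre, l, A', t3, h1, h2', h3, h4, h5, h6⟩ := ih (val i.1 * k) t' hP' (ht'.trans hT2)
        hkf2 hk2 (fun j hj => hAL j (List.mem_cons_of_mem _ hj)) hv3 hmf hn'
      refine ⟨i :: pre, l, A', t3, by rw [h1]; rfl, h2', h3.trans ht', ?_, ?_, ?_⟩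
      · rw [wd, mem_append]
        refine ⟨mem_convex hT hG hm.1 hm' (c1_btw_smul hG _ (hx f t3 t' hf (hPf _ h2') h3
            (ht'.trans hT2))), ?_⟩
        rw [← mul_smul]; exact h4
      · rw [wd, val_append, mul_assoc]; exact h5
      · intro t ht ht3
        rw [wd, val_append, mul_assoc]; exact h6 t ht ht3
    · have hi : i.2 = false := by
        by_contra hi
        have hi' : i.2 = true := by simpa using hi
        exact hc ⟨t2, h2, le_refl _, (hv1 hi' t2 (hf.trans (hPf _ h2)) hT2).1 hk⟩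
      obtain ⟨l, hl⟩ := hv2 hi
      refine ⟨[], l, A, t2, ?_, h2, le_refl _, trivial, ?_, ?_⟩
      · rw [List.nil_append, ← hl, ← hi]
      · simpa [wd, val] using hk
      · intro t ht ht2 hm'
        apply hc
        refine ⟨t, ht, ht2, ?_⟩
        rw [hl]
        simpa [wd, val] using hm'

/-- If the end of a word is in the hull, so is the beginning. -/
lemma c1_start_hull (hT : IsTree D) (hG : FreeAct D G) {F : Finset X} {L : Set (Letter X G)}
    (hinv : ∀ l ∈ L, l.inv ∈ L)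
    (hL : ∀ l ∈ L, l.h • l.a ∈ hull D F ∧ l.h • l.b ∈ hull D F) {u : List (Letter X G)}
    (hu : ∀ l ∈ u, l ∈ L) {y : X} (hm : mem D u y) (h : val u • y ∈ hull D F) :
    y ∈ hull D F := by
  have h1 := mem_hull hT hG (fun l hl => hL l (rev_in hinv hu l hl)) h ((mem_rev hG u y).2 hm)
  rwa [val_rev, inv_smul_smul] at h1

/-- The last item which cannot be applied beyond. -/
theorem c1_last_bad (hT : IsTree D) (hG : FreeAct D G) {F : Finset X} {L : Set (Letter X G)}
    (hinv : ∀ l ∈ L, l.inv ∈ L)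
    (hL : ∀ l ∈ L, l.h • l.a ∈ hull D F ∧ l.h • l.b ∈ hull D F) {x : Λ → X} {T t0 f : Λ}
    (hx : ∀ s t u, t0 ≤ s → s ≤ t → t ≤ u → u ≤ T → Btw D (x s) (x t) (x u))
    (hf : t0 ≤ f) (P : Λ → Prop) (hPf : ∀ a, P a → f ≤ a) (k : G) :
    ∀ (A : List (List (Letter X G) × Bool)) (t2 : Λ), P t2 → t2 ≤ T →
      (val (wd A) * k) • x f ∈ hull D F → (val (wd A) * k) • x t2 ∈ hull D F →
      (∀ i ∈ A, ∀ l ∈ i.1, l ∈ L) → Vald D F x T t0 A k →
      mem D (wd A) (k • x f) → (¬ ∃ t', P t' ∧ t' ≤ T ∧ mem D (wd A) (k • x t')) →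
      ∃ B l post t3, A = B ++ ([l], false) :: post ∧ P t3 ∧ t3 ≤ t2 ∧
        mem D (wd post) ((l.h * (val (wd B) * k)) • x t3) ∧
        (l.h * (val (wd B) * k)) • x t3 ∈ hull D F ∧
        ∀ t, P t → t ≤ t3 → ¬ mem D [l] ((val (wd B) * k) • x t) := by
  intro A
  induction A using List.reverseRecOn with
  | nil =>
    intro t2 h2 hT2 _ _ _ _ _ hn
    exact absurd ⟨t2, h2, hT2, trivial⟩ hn
  | append_singleton A i ih =>
    intro t2 h2 hT2 hkf hk hAL hv hm hn
    have hwi : wd (A ++ [i]) = wd A ++ i.1 := by rw [wd_append]; simp [wd]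
    rw [hwi, val_append, mul_assoc] at hkf hk
    rw [hwi, mem_append] at hm
    rw [hwi] at hn
    rw [Vald_append] at hv
    obtain ⟨hvA, hv1, hv2, -⟩ := hv
    have hiL : ∀ l ∈ i.1, l ∈ L := hAL i (by simp)
    have hmi : mem D i.1 ((val (wd A) * k) • x f) := by rw [mul_smul]; exact hm.2
    by_cases hc : ∃ t', P t' ∧ t' ≤ t2 ∧ mem D i.1 ((val (wd A) * k) • x t')
    · obtain ⟨t', hP', ht', hm'⟩ := hc
      have hk' : (val i.1 * (val (wd A) * k)) • x t' ∈ hull D F :=
        hull_convex hT hkf hk (c1_btw_smul hG _ (hx f t' t2 hf (hPf _ hP') ht' hT2))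
      have hk2 : (val (wd A) * k) • x t' ∈ hull D F := by
        refine c1_start_hull hT hG hinv hL hiL hm' ?_
        rw [← mul_smul]; exact hk'
      have hkf2 : (val (wd A) * k) • x f ∈ hull D F := by
        refine c1_start_hull hT hG hinv hL hiL hmi ?_
        rw [← mul_smul]; exact hkf
      have hn' : ¬ ∃ t'', P t'' ∧ t'' ≤ T ∧ mem D (wd A) (k • x t'') := by
        rintro ⟨t'', hP'', ht'', hm''⟩
        apply hn
        rcases le_total t' t'' with hle | hle
        · refine ⟨t', hP', ht'.trans hT2, ?_⟩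
          rw [mem_append]
          refine ⟨mem_convex hT hG hm.1 hm'' (c1_btw_smul hG _ (hx f t' t'' hf (hPf _ hP') hle
            ht'')), ?_⟩
          rw [← mul_smul]; exact hm'
        · refine ⟨t'', hP'', ht'', ?_⟩
          rw [mem_append]
          refine ⟨hm'', ?_⟩
          rw [← mul_smul]
          exact mem_convex hT hG hmi hm' (c1_btw_smul hG _ (hx f t'' t' hf (hPf _ hP'') hle
            (ht'.trans hT2)))
      obtain ⟨B, l, post, t3, h1, h2', h3, h4, h5, h6⟩ := ih t' hP' (ht'.trans hT2)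
        hkf2 hk2 (fun j hj => hAL j (by simp [hj])) hvA hm.1 hn'
      refine ⟨B, l, post ++ [i], t3, by rw [h1]; simp, h2', h3.trans ht', ?_, h5, h6⟩
      rw [wd_append, mem_append]
      refine ⟨h4, ?_⟩
      have e : val (wd post) • (l.h * (val (wd B) * k)) • x t3 = (val (wd A) * k) • x t3 := by
        rw [h1, wd_append, val_append, wd, val_append]
        simp only [val, one_mul, mul_smul]
      rw [e]
      have : wd [i] = i.1 := by simp [wd]
      rw [this]
      exact mem_convex hT hG hmi hm' (c1_btw_smul hG _ (hx f t3 t' hf (hPf _ h2') h3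
            (ht'.trans hT2)))
    · have hi : i.2 = false := by
        by_contra hi
        have hi' : i.2 = true := by simpa using hi
        refine hc ⟨t2, h2, le_refl _, (hv1 hi' t2 (hf.trans (hPf _ h2)) hT2).2 ?_⟩
        rw [← mul_smul]; exact hk
      obtain ⟨l, hl⟩ := hv2 hi
      refine ⟨A, l, [], t2, ?_, h2, le_refl _, trivial, ?_, ?_⟩
      · rw [← hl, ← hi]
      · rw [hl] at hk; simpa [val] using hk
      · intro t ht ht2 hm'
        apply hc
        refine ⟨t, ht, ht2, ?_⟩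
        rw [hl]; exact hm'

/-- The route of a letter which fails beyond. -/
theorem c1_exit_route (hT : IsTree D) (hG : FreeAct D G) {F Sg : Finset X}
    {L : Set (Letter X G)} (hA : Alph D F Sg L) {x : Λ → X} {T t0 f : Λ}
    (hxd : ∀ s t, t0 ≤ s → s ≤ t → t ≤ T → D.d (x s) (x t) = t - s)
    (hx : ∀ s t u, t0 ≤ s → s ≤ t → t ≤ u → u ≤ T → Btw D (x s) (x t) (x u))
    (hf : t0 ≤ f) (P : Λ → Prop) (hPf : ∀ a, P a → f ≤ a) {l : Letter X G} (hl : l ∈ L) {k : G}
    {t3 : Λ} (h3 : P t3) (hT3 : t3 ≤ T) (hk : k • x t3 ∈ hull D F) (hm : mem D [l] (k • x f))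
    (hb : ∀ t, P t → t ≤ t3 → ¬ mem D [l] (k • x t)) :
    ∃ v ∈ Sg, ∃ f1 ∈ F, ∃ fi, f ≤ fi ∧ fi < t3 ∧ ¬ P fi ∧ t3 - fi ≤ D.d v f1 ∧
      ∀ t, fi ≤ t → t ≤ t3 → k • x t = pt hT v f1 (t - fi) := by
  have hft : f ≤ t3 := hPf _ h3
  have hn : ¬ Btw D l.a (k • x t3) l.b := fun h => hb t3 h3 (le_refl _) ⟨h, trivial⟩
  obtain ⟨f1, hf1, v, hv, hv1, hv2, hv3, hv4⟩ := gate_exit hT hk hm.1 hn
  have hd : D.d (k • x f) (k • x t3) = t3 - f := by rw [hG.iso, hxd f t3 hf hft hT3]
  have hn0 := D.nonneg (k • x f) v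
  have hn1 := D.nonneg v (k • x t3)
  have hsum : D.d (k • x f) v + D.d v (k • x t3) = t3 - f := by rw [← hd]; exact hv1
  set fi := f + D.d (k • x f) v with hfi
  have h1 : f ≤ fi := by rw [hfi]; exact le_add_of_nonneg_right hn0
  have h2 : fi ≤ t3 := by grind
  have e1 : k • x fi = v := by
    refine btw_unique hT (c1_btw_smul hG k (hx f fi t3 hf h1 h2 hT3)) hv1 ?_
    rw [hG.iso, hxd f fi hf h1 (h2.trans hT3), hfi]; abel
  have h2' : fi < t3 := by
    refine lt_of_le_of_ne h2 ?_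
    intro e
    apply hv3
    rw [← e1, e]
  refine ⟨v, gate_mem hT hA hl hf1 hv, f1, hf1, fi, h1, h2', ?_, ?_, ?_⟩
  · intro hP
    refine hb fi hP h2 ⟨?_, trivial⟩
    rw [e1]; exact hv.1
  · have h4 := hv2
    unfold Btw at h4
    have h5 := D.nonneg (k • x t3) f1
    grind
  · intro t ht ht3
    have hb1 : Btw D v (k • x t) (k • x t3) := by
      rw [← e1]; exact c1_btw_smul hG k (hx fi t t3 (hf.trans h1) ht ht3 hT3)
    have hb2 : Btw D v (k • x t) f1 := (btw_trans' hv2 hb1).1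
    have hd2 : D.d v (k • x t) = t - fi := by
      rw [← e1, hG.iso, hxd fi t (hf.trans h1) ht (ht3.trans hT3)]
    rw [← hd2, pt_of_btw hT hb2]

lemma c1_btw_of_le (hT : IsTree D) {v c m a : X} (hc : Btw D v c a) (hm : Btw D v m a)
    (h : D.d v c ≤ D.d v m) : Btw D v c m := by
  have h1 := btw_dist hT hc hm
  unfold Btw
  rw [h1, abs_sub_comm, abs_of_nonneg (sub_nonneg.2 h)]
  abel

/-- Common points of `[v,a]` and `[v,b]` are before the median. -/
lemma c1_med_max (hT : IsTree D) {v a b c m : X} (ha : Btw D v c a) (hb : Btw D v c b)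
    (hm : IsMedian D v a b m) : Btw D v c m := by
  rcases le_total (D.d v c) (D.d v m) with h | h
  · exact c1_btw_of_le hT ha hm.1 h
  · have h1 : Btw D v m c := c1_btw_of_le hT hm.1 ha h
    have h2 : Btw D m c a := (btw_trans' ha h1).2
    have h3 : Btw D m c b := (btw_trans' hb h1).2
    have h4 : Btw D a m c := (btw_trans' hm.2.1.symm h3.symm).2.symm
    have : m = c := by
      apply D.eq_of_d
      unfold Btw at h2 h4
      have s1 := D.symm a m
      have s2 := D.symm a c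
      have n1 := D.nonneg m c
      grind
    rw [this]; exact btw_right _ _

/-- A trajectory on a route beyond `C` stays on the route up to `ε`, as long as it is in the
hull. -/
theorem c1_stay (hT : IsTree D) (hG : FreeAct D G) {F Sg : Finset X}
    {L : Set (Letter X G)} (hA : Alph D F Sg L) {x : Λ → X} {T t0 : Λ}
    (hxd : ∀ s t, t0 ≤ s → s ≤ t → t ≤ T → D.d (x s) (x t) = t - s)
    (hx : ∀ s t u, t0 ≤ s → s ≤ t → t ≤ u → u ≤ T → Btw D (x s) (x t) (x u))
    {C : Λ → Prop} (hC : ∀ c c', C c → |c'| ≤ |c| → C c') {ε : Λ}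
    (hgap : ∀ σ ∈ Sg, ∀ σ' ∈ Sg, ¬ C (D.d σ σ') → ε ≤ D.d σ σ') {v f1 : X} {fi t3 : Λ} {k : G}
    (hv : v ∈ Sg) (hf1 : f1 ∈ F) (h0 : t0 ≤ fi) (h1 : fi < t3) (h2 : t3 ≤ T)
    (h3 : ¬ C (t3 - fi)) (hlen : t3 - fi ≤ D.d v f1)
    (hr : ∀ t, fi ≤ t → t ≤ t3 → k • x t = pt hT v f1 (t - fi)) (hε : T - fi ≤ ε) {t : Λ}
    (ht : fi ≤ t) (htT : t ≤ T) (hk : k • x t ∈ hull D F) :
    t - fi ≤ D.d v f1 ∧ k • x t = pt hT v f1 (t - fi) := by
  have e1 : k • x fi = v := by rw [hr fi (le_refl _) h1.le, sub_self, pt_zero]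
  have hFS : F ⊆ Sg := hA.sk.F_sub
  rcases le_total t t3 with hle | hle
  · exact ⟨(sub_le_sub_right hle fi).trans hlen, hr t ht hle⟩
  have e3 : k • x t3 = pt hT v f1 (t3 - fi) := hr t3 h1.le (le_refl _)
  have h03 : 0 ≤ t3 - fi := sub_nonneg.2 h1.le
  have b3 : Btw D v (k • x t3) f1 := by rw [e3]; exact pt_btw hT h03 hlen
  have d3 : D.d v (k • x t3) = t3 - fi := by rw [e3]; exact d_pt hT h03 hlen
  have b4 : Btw D v (k • x t3) (k • x t) := by
    rw [← e1]; exact c1_btw_smul hG k (hx fi t3 t h0 h1.le hle htT)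
  have d4 : D.d v (k • x t) = t - fi := by
    rw [← e1, hG.iso, hxd fi t h0 ht htT]
  have hm := med_spec hT v f1 (k • x t)
  generalize med hT v f1 (k • x t) = m at hm
  have hvh : v ∈ hull D F := hA.sk.sub v hv
  have hfh : f1 ∈ hull D F := subset_hull hf1
  -- the point at time `t3` is between `v` and `m`
  have b5 : Btw D v (k • x t3) m := c1_med_max hT b3 b4 hm
  have hmS : m ∈ Sg ∨ m = k • x t := by
    rcases hA.sk.med_or hT hvh hfh hk hm with h | h | h | h
    · exact Or.inl h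
    · exact Or.inl (by rw [h]; exact hv)
    · exact Or.inl (by rw [h]; exact hFS hf1)
    · exact Or.inr h
  by_cases hmt : m = k • x t
  · have hb : Btw D v (k • x t) f1 := by rw [← hmt]; exact hm.1
    refine ⟨?_, ?_⟩
    · have h7 := hb
      unfold Btw at h7
      have h8 := D.nonneg (k • x t) f1
      rw [d4] at h7
      rw [← h7]
      exact le_add_of_nonneg_right h8
    · rw [← d4, pt_of_btw hT hb]
  · exfalso
    have hmS' : m ∈ Sg := hmS.resolve_right hmt
    have hlt : D.d v m < t - fi := by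
      have h6 := hm.2.2
      have h7 : 0 < D.d m (k • x t) :=
        lt_of_le_of_ne (D.nonneg _ _) (fun h => hmt (D.eq_of_d _ _ h.symm))
      unfold Btw at h6
      rw [d4] at h6
      rw [← h6]
      exact lt_add_of_pos_right _ h7
    have h8 := D.nonneg v m
    have hle3 : t3 - fi ≤ D.d v m := by
      have h9 := D.nonneg (k • x t3) m
      have h10 := b5
      unfold Btw at h10
      rw [d3] at h10
      rw [← h10]
      exact le_add_of_nonneg_right h9
    have h11 : ¬ C (D.d v m) := by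
      intro hc
      refine h3 (hC _ _ hc ?_)
      rw [abs_of_nonneg h03, abs_of_nonneg h8]
      exact hle3
    have h5 := hgap v hv m hmS' h11
    have h12 : t - fi ≤ T - fi := sub_le_sub_right htT fi
    exact absurd (h5.trans_lt (hlt.trans_le (h12.trans hε))) (lt_irrefl _)

/-- The last point of a segment on the way to a point. -/
lemma c1_seg_last (hT : IsTree D) {a b y0 y1 : X} (h0 : Btw D a y0 b) :
    ∃ m, Btw D a m b ∧ Btw D y0 m y1 ∧ ∀ z, Btw D m z y1 → Btw D a z b → z = m := by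
  obtain ⟨m, h1, h2, h3⟩ := exists_median hT a b y1
  refine ⟨m, h1, ?_, ?_⟩
  · rcases le_total (D.d a y0) (D.d a m) with h | h
    · have h4 : Btw D a y0 m := by
        have h5 := btw_dist hT h0 h1
        unfold Btw
        rw [h5]
        grind
      exact (btw_trans' h3 h4).2
    · have h4 : Btw D b y0 m := by
        have h5 := btw_dist hT h0 h1
        unfold Btw at h0 h1 ⊢
        have s1 := D.symm b y0
        have s2 := D.symm b m
        grind
      exact (btw_trans' h2 h4).2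
  · intro z hz hz'
    have h5 := btw_dist hT hz' h1
    have t1 := D.tri b z y1
    have t2 := D.tri a z y1
    have n1 := D.nonneg m z
    have s1 := D.symm b z
    have s2 := D.symm z m
    have s3 := D.symm b m
    have s4 := D.symm b y1
    apply D.eq_of_d
    unfold Btw at *
    rcases le_total (D.d a z) (D.d a m) with h | h
    · grind
    · grind

/-- The last time at which a word can be applied. -/
theorem c1_last_time (hT : IsTree D) (hG : FreeAct D G) {x : Λ → X} {t0 : Λ} (w : List (Letter X G)) :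
    ∀ (T : Λ) (k : G), (∀ s t, t0 ≤ s → s ≤ t → t ≤ T → D.d (x s) (x t) = t - s) →
      (∀ s t u, t0 ≤ s → s ≤ t → t ≤ u → u ≤ T → Btw D (x s) (x t) (x u)) → t0 ≤ T →
      mem D w (k • x t0) → ¬ mem D w (k • x T) →
      ∃ f, t0 ≤ f ∧ f < T ∧ mem D w (k • x f) ∧ ∀ t, f < t → t ≤ T → ¬ mem D w (k • x t) := by
  induction w with
  | nil => intro T k _ _ _ _ h; exact absurd trivial h
  | cons l w ih =>
    intro T k hxd hx h0 hm hn
    by_cases hc : Btw D l.a (k • x T) l.b
    · have hn' : ¬ mem D w ((l.h * k) • x T) := by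
        intro h
        rw [mul_smul] at h
        exact hn ⟨hc, h⟩
      obtain ⟨f, h1, h2, h3, h4⟩ := ih T (l.h * k) hxd hx h0 (by rw [mul_smul]; exact hm.2) hn'
      refine ⟨f, h1, h2, ⟨?_, ?_⟩, ?_⟩
      · exact btw_convex hT hm.1 hc (hG.btw k (hx t0 f T (le_refl _) h1 h2.le (le_refl _)))
      · rw [← mul_smul]; exact h3
      · intro t ht ht' h5
        apply h4 t ht ht'
        rw [mul_smul]; exact h5.2
    · obtain ⟨m, m1, m2, m3⟩ := c1_seg_last hT (y1 := k • x T) hm.1
      have hd : D.d (k • x t0) (k • x T) = T - t0 := by rw [hG.iso, hxd t0 T (le_refl _) h0 (le_refl _)]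
      have hn0 := D.nonneg (k • x t0) m
      have hn1 := D.nonneg m (k • x T)
      have hsum : D.d (k • x t0) m + D.d m (k • x T) = T - t0 := by rw [← hd]; exact m2
      set f' := t0 + D.d (k • x t0) m with hf'
      have h1 : t0 ≤ f' := by rw [hf']; exact le_add_of_nonneg_right hn0
      have h2 : f' ≤ T := by grind
      have e1 : k • x f' = m := by
        refine btw_unique hT (hG.btw k (hx t0 f' T (le_refl _) h1 h2 (le_refl _))) m2 ?_
        rw [hG.iso, hxd t0 f' (le_refl _) h1 h2, hf']; abel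
      have h2' : f' < T := by
        refine lt_of_le_of_ne h2 ?_
        intro e
        apply hc
        rw [← e, e1]; exact m1
      have hl : ∀ t, f' < t → t ≤ T → ¬ Btw D l.a (k • x t) l.b := by
        intro t ht ht' h5
        have h6 : Btw D m (k • x t) (k • x T) := by
          rw [← e1]; exact hG.btw k (hx f' t T h1 ht.le ht' (le_refl _))
        have h7 := m3 _ h6 h5
        have h8 : D.d (k • x f') (k • x t) = t - f' := by
          rw [hG.iso, hxd f' t h1 ht.le ht']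
        rw [h7, e1] at h8
        have h9 : D.d m m = 0 := D.d_self m
        rw [h9] at h8
        exact absurd (sub_eq_zero.1 h8.symm) ht.ne'
      by_cases hw : mem D w ((l.h * k) • x f')
      · refine ⟨f', h1, h2', ⟨by rw [e1]; exact m1, by rw [← mul_smul]; exact hw⟩, ?_⟩
        intro t ht ht' h5
        exact hl t ht ht' h5.1
      · obtain ⟨f, g1, g2, g3, g4⟩ := ih f' (l.h * k)
          (fun s t a b c => hxd s t a b (c.trans h2)) (fun s t u a b c d => hx s t u a b c (d.trans h2))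
          h1 (by rw [mul_smul]; exact hm.2) hw
        refine ⟨f, g1, g2.trans h2', ⟨?_, by rw [← mul_smul]; exact g3⟩, ?_⟩
        · refine btw_convex hT hm.1 (z := k • x f') (by rw [e1]; exact m1) ?_
          exact hG.btw k (hx t0 f f' (le_refl _) g1 g2.le h2)
        · intro t ht ht' h5
          rcases le_or_gt t f' with h6 | h6
          · exact g4 t ht h6 (by rw [mul_smul]; exact h5.2)
          · exact hl t h6 ht' h5.1


/-! ### The reduction -/

section Main
variable {hT : IsTree D} {F Sg : Finset X} {L : Set (Letter X G)} {p q : X} {g : G}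
  {w0 : List (Letter X G)}

/-- A split of an element outside a convex subgroup. -/
lemma c1_split (h : Cl hT F Sg L p q g w0)
    (hI : ∀ s ∈ JJ hT L p q g, ∃ t ∈ JJ hT L p q g, s < t ∧ ¬ Cc (JJ hT L p q g) (t - s)) {δ : Λ}
    (h0 : 0 < δ) (hδ : ¬ Cc (JJ hT L p q g) δ) :
    ∃ ε, 0 < ε ∧ ¬ Cc (JJ hT L p q g) ε ∧ 0 < δ - ε ∧ ¬ Cc (JJ hT L p q g) (δ - ε) := by
  have hδ' := hδ
  unfold Cc at hδ'
  push Not at hδ'
  obtain ⟨r, hr, hr'⟩ := hδ'
  rw [abs_of_pos h0] at hr'
  obtain ⟨t, ht, hrt, hC⟩ := hI r hr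
  obtain ⟨t', ht', htt', hC'⟩ := hI t ht
  have hlt : t' < r + δ := by
    by_contra hcon
    exact hr' (JJ_down h.hG ht' (add_nonneg (JJ_nonneg hr).1 h0.le) (not_lt.1 hcon))
  refine ⟨t - r, sub_pos.2 hrt, hC, ?_, ?_⟩
  · have : t < r + δ := htt'.trans hlt
    grind
  · intro hc
    apply hC'
    refine Cc_convex hc ?_ h.hG
    rw [abs_of_pos (sub_pos.2 htt'), abs_of_pos]
    · grind
    · have : t < r + δ := htt'.trans hlt
      grind

/-- The step: an unflagged item disappears. -/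
theorem caseOne_step (h : Cl hT F Sg L p q g w0) (hp : p ∈ hull D F) (hq : q ∈ hull D F)
    (gp : g • p ∈ hull D F) (gq : g • q ∈ hull D F)
    (hI : ∀ s ∈ JJ hT L p q g, ∃ t ∈ JJ hT L p q g, s < t ∧ ¬ Cc (JJ hT L p q g) (t - s))
    {ts εs s T : Λ} (hε0 : 0 < εs)
    (hgap : ∀ σ ∈ Sg, ∀ σ' ∈ Sg, ¬ Cc (JJ hT L p q g) (D.d σ σ') → εs ≤ D.d σ σ')
    (hstab : ∀ v ∈ Sg, ∀ v' ∈ Sg, ∀ f ∈ F, ∀ f' ∈ F, ∀ κ, Cc (JJ hT L p q g) κ →
        ∀ t ∈ JJ hT L p q g, ∀ ε, 0 < ε → ¬ Cc (JJ hT L p q g) ε →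
          Cn hT L (Cc (JJ hT L p q g)) t ε κ v f v' f' →
          ∃ c, Cc (JJ hT L p q g) c ∧ Cn hT L (Cc (JJ hT L p q g)) (ts + c) εs κ v f v' f')
    (hs : s ∈ JJ hT L p q g) (hts : ∀ c, Cc (JJ hT L p q g) c → ts + c ≤ s)
    (hTs : T ≤ s + εs) (hTl : T ≤ D.d p q) (hTJ : T ∉ JJ hT L p q g)
    (hltT : ∀ t ∈ JJ hT L p q g, t < T) {t0 : Λ} (h0 : t0 ∈ JJ hT L p q g) (hst : s ≤ t0)
    {A : List (List (Letter X G) × Bool)} (hAL : ∀ i ∈ A, ∀ l ∈ i.1, l ∈ L)
    (hAv : val (wd A) = g) (hAok : ok D t0 (wd A) (pt hT p q t0))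
    (hAV : Vald D F (pt hT p q) T t0 A 1) :
    ∃ t1 ∈ JJ hT L p q g, s ≤ t1 ∧ ∃ A' : List (List (Letter X G) × Bool),
      (∀ i ∈ A', ∀ l ∈ i.1, l ∈ L) ∧ val (wd A') = g ∧ ok D t1 (wd A') (pt hT p q t1) ∧
      Vald D F (pt hT p q) T t1 A' 1 ∧ cnt A' < cnt A := by
  classical
  have hG := h.hG
  set J := JJ hT L p q g with hJ
  set x : Λ → X := pt hT p q with hx
  have hC : Connect.Cvx (Cc J) :=
    { zero := Cc_zero J
      add := fun h1 h2 => Cc_add h1 h2 h.hG
      neg := fun h1 => Cc_neg h1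
      convex := fun h1 h2 => Cc_convex h1 h2 h.hG }
  have h00 : 0 ≤ t0 := (JJ_nonneg h0).1
  have hwL : ∀ l ∈ wd A, l ∈ L := by
    clear hAv hAok hAV
    induction A with
    | nil => intro l hl; exact absurd hl (by simp [wd])
    | cons i A ih =>
      intro l hl
      rw [wd] at hl
      rcases List.mem_append.1 hl with hl | hl
      · exact hAL i List.mem_cons_self l hl
      · exact ih (fun j hj => hAL j (List.mem_cons_of_mem _ hj)) l hl
  have hxd : ∀ a b, t0 ≤ a → a ≤ b → b ≤ T → D.d (x a) (x b) = b - a :=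
    fun a b h1 h2 h3 => pt_dist hT (h00.trans h1) h2 (h3.trans hTl)
  have hxb : ∀ a b c, t0 ≤ a → a ≤ b → b ≤ c → c ≤ T → Btw D (x a) (x b) (x c) :=
    fun a b c h1 h2 h3 h4 => pt_mid hT (h00.trans h1) h2 h3 (h4.trans hTl)
  have hLL : ∀ l ∈ L, l.h • l.a ∈ hull D F ∧ l.h • l.b ∈ hull D F := by
    intro l hl
    exact ⟨h.al.sk.sub _ (h.al.ha _ (h.al.inv l hl)), h.al.sk.sub _ (h.al.hb _ (h.al.inv l hl))⟩
  have hxh : ∀ a, 0 ≤ a → a ≤ T → x a ∈ hull D F := fun a h1 h2 =>
    hull_convex hT hp hq (pt_btw hT h1 (h2.trans hTl))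
  have hgxh : ∀ a, 0 ≤ a → a ≤ T → g • x a ∈ hull D F := fun a h1 h2 =>
    hull_convex hT gp gq (hG.btw g (pt_btw hT h1 (h2.trans hTl)))
  have ht0T : t0 < T := hltT t0 h0
  -- the word cannot be applied at `T`
  have hnT : ¬ mem D (wd A) (x T) := fun hm => hTJ (JJ_extend hG h0 ht0T.le hTl hwL hAv hAok hm)
  obtain ⟨f, hf0, hfT, hfm, hfn⟩ := c1_last_time hT hG (wd A) T 1 hxd hxb ht0T.le
    (by rw [one_smul]; exact ok_mem hAok) (by rw [one_smul]; exact hnT)
  rw [one_smul] at hfm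
  have hfJ : f ∈ J := JJ_extend hG h0 hf0 (hfT.le.trans hTl) hwL hAv hAok hfm
  have hf00 : 0 ≤ f := h00.trans hf0
  obtain ⟨t2, ht2J, hft2, hCt2⟩ := hI f hfJ
  have ht2T : t2 ≤ T := (hltT t2 ht2J).le
  -- the property of being beyond
  set P : Λ → Prop := fun t => f < t ∧ ¬ Cc J (t - f) with hP
  have hPf : ∀ a, P a → f ≤ a := fun a ha => ha.1.le
  have hPm : ∀ a b, a ≤ b → P a → P b := by
    intro a b hab ha
    refine ⟨ha.1.trans_le hab, fun hc => ha.2 (hC.convex hc ?_)⟩
    rw [abs_of_pos (sub_pos.2 ha.1), abs_of_pos (sub_pos.2 (ha.1.trans_le hab))]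
    exact sub_le_sub_right hab f
  have hPn : ∀ a, f ≤ a → ¬ P a → Cc J (a - f) := by
    intro a ha hn
    by_contra hc
    rcases ha.eq_or_lt with e | e
    · rw [← e, sub_self] at hc; exact hc hC.zero
    · exact hn ⟨e, hc⟩
  have hP2 : P t2 := ⟨hft2, hCt2⟩
  obtain ⟨pre, l, A1, t3, hA1, hP3, h32, hpre3, hk3, hb3⟩ := c1_first_bad hT hG hLL hxb hf0 P hPf A 1
    t2 hP2 ht2T (by rw [one_smul]; exact hxh f hf00 hfT.le)
    (by rw [one_smul]; exact hxh t2 (hf00.trans hft2.le) ht2T) hAL hAV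
    (by rw [one_smul]; exact hfm) (by
      rintro ⟨t', h1, h2, h3⟩
      exact hfn t' h1.1 h2 h3)
  rw [one_smul] at hpre3
  rw [mul_one] at hk3 hb3
  set ki := val (wd pre) with hki
  have ht3T : t3 ≤ T := h32.trans ht2T
  have hlL : l ∈ L := hAL ([l], false) (by rw [hA1]; simp) l (by simp)
  -- decomposition of the word
  have hm1 : mem D (wd pre) (x f) ∧ mem D (wd (([l], false) :: A1)) (ki • x f) := by
    rw [hA1, wd_append, mem_append] at hfm
    exact hfm
  have hlm : mem D [l] (ki • x f) := by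
    have := hm1.2
    rw [wd, mem_append] at this
    exact this.1
  obtain ⟨v, hv, f1, hf1, fi, hffi, hfi3, hPfi, hlen, hroute⟩ := c1_exit_route hT hG h.al hxd hxb hf0 P
    hPf hlL hP3 ht3T hk3 hlm hb3
  -- the last bad item
  have hAVs := hAV
  rw [hA1, Vald_append, mul_one] at hAVs
  have hval : val (wd (([l], false) :: A1)) * ki = g := by
    rw [← hAv, hA1, wd_append, val_append]
  obtain ⟨B, l', post, t4, hB, hP4, h42, hpost4, hk4, hb4⟩ := c1_last_bad hT hG h.al.inv hLL hxb hf0 P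
    hPf ki (([l], false) :: A1) t2 hP2 ht2T (by rw [hval]; exact hgxh f hf00 hfT.le)
    (by rw [hval]; exact hgxh t2 (hf00.trans hft2.le) ht2T)
    (fun i hi => hAL i (by rw [hA1]; exact List.mem_append_right _ hi)) hAVs.2 hm1.2 (by
      rintro ⟨t', h1, h2, h3⟩
      rw [wd, mem_append] at h3
      rcases le_total t' t3 with hle | hle
      · exact hb3 t' h1 hle h3.1
      · refine hb3 t3 hP3 (le_refl _) (mem_convex hT hG hlm h3.1 ?_)
        exact hG.btw ki (hxb f t3 t' hf0 hP3.1.le hle h2))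
  set ke := l'.h * (val (wd B) * ki) with hke
  have ht4T : t4 ≤ T := h42.trans ht2T
  have hl'L : l' ∈ L := hAL ([l'], false) (by rw [hA1, hB]; simp) l' (by simp)
  have hm2 : mem D [l'] ((val (wd B) * ki) • x f) ∧ mem D (wd post) (ke • x f) := by
    have h1 := hm1.2
    rw [hB, wd_append, mem_append, wd, mem_append] at h1
    rw [mul_smul]
    refine ⟨h1.2.1, ?_⟩
    have h2 := h1.2.2
    simp only [val, one_mul] at h2
    rw [hke, mul_smul, mul_smul]
    exact h2
  obtain ⟨v', hv', f1', hf1', fj, hffj, hfj4, hPfj, hlen', hroute'⟩ := c1_exit_route hT hG h.al hxd hxb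
    hf0 P hPf (h.al.inv l' hl'L) (k := ke) hP4 ht4T hk4 (by
      refine ⟨?_, trivial⟩
      rw [hke, mul_smul]
      exact hG.btw l'.h hm2.1.1) (by
      intro t ht ht4 hm
      refine hb4 t ht ht4 ⟨?_, trivial⟩
      have h1 := hm.1
      rw [hke, mul_smul] at h1
      have h2 := hG.btw l'.h⁻¹ h1
      simp only [Letter.inv, inv_smul_smul] at h2
      exact h2)
  have hCi : Cc J (fi - f) := hPn fi hffi hPfi
  have hCj : Cc J (fj - f) := hPn fj hffj hPfj
  have hfi0 : 0 ≤ fi := hf00.trans hffi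
  have hfj0 : 0 ≤ fj := hf00.trans hffj
  have ht3J : t3 ∈ J := JJ_down hG ht2J (hfi0.trans hfi3.le) h32
  have ht4J : t4 ∈ J := JJ_down hG ht2J (hfj0.trans hfj4.le) h42
  have hfiJ : fi ∈ J := JJ_down hG ht3J hfi0 hfi3.le
  have hfjJ : fj ∈ J := JJ_down hG ht4J hfj0 hfj4.le
  -- the crossing word
  have hmxJ : max fi fj ∈ J := by
    rcases max_choice fi fj with e | e <;> rw [e]
    · exact hfiJ
    · exact hfjJ
  have hmnJ : min t3 t4 ∈ J := by
    rcases min_choice t3 t4 with e | e <;> rw [e]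
    · exact ht3J
    · exact ht4J
  have hPmx : ¬ P (max fi fj) := by
    rcases max_choice fi fj with e | e <;> rw [e]
    · exact hPfi
    · exact hPfj
  have hPmn : P (min t3 t4) := by
    rcases min_choice t3 t4 with e | e <;> rw [e]
    · exact hP3
    · exact hP4
  obtain ⟨a, b, hmxa, hab, hbmn, haJ, hbJ, hPa, hPb, wc, hwcL, hwcv, hwca, hwcb⟩ :=
    JJ_cross hG P hPm hmxJ hmnJ hPmx hPmn
  have hfia : fi ≤ a := (le_max_left _ _).trans hmxa
  have hfja : fj ≤ a := (le_max_right _ _).trans hmxa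
  have hb3 : b ≤ t3 := hbmn.trans (min_le_left _ _)
  have hb4 : b ≤ t4 := hbmn.trans (min_le_right _ _)
  have hfa : f ≤ a := hffi.trans hfia
  have hCa : Cc J (a - f) := hPn a hfa hPa
  have hCκ : Cc J (fi - fj) := by
    have := hC.sub hCi hCj
    rwa [sub_sub_sub_cancel_right] at this
  have hCai : Cc J (a - fi) := by
    have := hC.sub hCa hCi
    rwa [sub_sub_sub_cancel_right] at this
  have hbi : 0 < b - fi ∧ ¬ Cc J (b - fi) := by
    have := hC.sub_pos hCi (sub_pos.2 hPb.1) hPb.2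
    rwa [sub_sub_sub_cancel_right] at this
  obtain ⟨ε, hε1, hε2, hε3, hε4⟩ := c1_split h hI hbi.1 hbi.2
  -- validity of the three words along the way
  have hok0 := hAok
  rw [hA1, wd_append, ok_append] at hok0
  have hokpre : ∀ τ, f ≤ τ → τ ≤ t3 → ok D τ (wd pre) (x τ) := by
    intro τ h1 h2
    refine ok_move hG hok0.1 ?_ ?_
    · exact mem_convex hT hG hm1.1 hpre3 (hxb f τ t3 hf0 h1 h2 ht3T)
    · rw [hxd t0 τ (le_refl _) (hf0.trans h1) (h2.trans ht3T)]
  have hok1 : ok D t0 (wd post) (ke • x t0) := by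
    have h1 := hok0.2
    rw [hB, wd_append, ok_append, wd, ok_append] at h1
    have h2 := h1.2.2
    simp only [val, one_mul] at h2
    rw [hke, mul_smul, mul_smul]
    exact h2
  have hokpost : ∀ τ, f ≤ τ → τ ≤ t4 → ok D τ (wd post) (ke • x τ) := by
    intro τ h1 h2
    refine ok_move hG hok1 ?_ ?_
    · exact mem_convex hT hG hm2.2 hpost4 (hG.btw ke (hxb f τ t4 hf0 h1 h2 ht4T))
    · rw [hG.iso, hxd t0 τ (le_refl _) (hf0.trans h1) (h2.trans ht4T)]
  have hvpost : val (wd post) * ke = g := by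
    rw [← hval, hB, wd_append, val_append, wd, val_append]
    simp only [val, one_mul, hke, mul_assoc]
  have hpreL : ∀ l ∈ wd pre, l ∈ L := fun l hl => hwL l (by rw [hA1, wd_append]; simp [hl])
  have hpostL : ∀ l ∈ wd post, l ∈ L := fun l hl => hwL l (by
    rw [hA1, hB, wd_append, wd_append, wd]; simp [hl])
  -- the connecting word
  have hcn : Cn hT L (Cc J) fi ε (fi - fj) v f1 v' f1' := by
    refine ⟨rev (wd pre) ++ (wc ++ rev (wd post)), ?_, a - fi, b - fi, sub_nonneg.2 hfia, hCai, ?_,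
      (sub_le_sub_right hb3 fi).trans hlen, ?_, hε3, hε4, ?_⟩
    · intro l hl
      rcases List.mem_append.1 hl with hl | hl
      · exact rev_in h.al.inv hpreL l hl
      · rcases List.mem_append.1 hl with hl | hl
        · exact hwcL l hl
        · exact rev_in h.al.inv hpostL l hl
    · rw [sub_add_sub_cancel]; exact sub_nonneg.2 hfja
    · rw [sub_add_sub_cancel]; exact (sub_le_sub_right hb4 fj).trans hlen'
    · intro r hr1 hr2
      obtain ⟨τ, rfl⟩ : ∃ τ, r = τ - fi := ⟨r + fi, by abel⟩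
      have h1 : a ≤ τ := by grind
      have h2 : τ ≤ b := by grind
      have e1 : pt hT v f1 (τ - fi) = ki • x τ := (hroute τ (hfia.trans h1) (h2.trans hb3)).symm
      have e2 : pt hT v' f1' (τ - fi + (fi - fj)) = ke • x τ := by
        rw [sub_add_sub_cancel]; exact (hroute' τ (hfja.trans h1) (h2.trans hb4)).symm
      have e3 : fi + (τ - fi) = τ := by abel
      rw [e1, e2, e3]
      have hp1 := hokpre τ (hfa.trans h1) (h2.trans hb3)
      have hp2 := hokpost τ (hfa.trans h1) (h2.trans hb4)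
      have hp3 : ok D τ wc (x τ) := ok_between hG (JJ_nonneg haJ).1 h1 h2 (JJ_nonneg hbJ).2 hwca
        (ok_mem hwcb)
      have hp1' : ok D τ (rev (wd pre)) (ki • x τ) := (ok_rev hG τ _ _).2 hp1
      have hp2' : ok D τ (rev (wd post)) (g • x τ) := by
        have := (ok_rev hG τ (wd post) (ke • x τ)).2 hp2
        rwa [← mul_smul, hvpost] at this
      refine ⟨?_, ?_⟩
      · rw [ok_append, ok_append, val_rev, ← hki, inv_smul_smul, hwcv]
        exact ⟨hp1', hp3, hp2'⟩
      · rw [val_append, val_append, val_rev, val_rev, hwcv, ← hki, mul_smul, inv_smul_smul,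
          ← hvpost, inv_mul_cancel_left]
  obtain ⟨c, hcC, W2, hW2L, a2, b2, ha20, hCa2, ha2κ, hb21, hb22, hb2ε, hCb2, hW2⟩ :=
    hstab v hv v' hv' f1 hf1 f1' hf1' (fi - fj) hCκ fi hfiJ ε hε1 hε2 hcn
  -- the new time
  have hfia2 : fi + a2 ≤ min t3 t4 := by
    have h1 : 0 < min t3 t4 - fi ∧ ¬ Cc J (min t3 t4 - fi) := by
      have := hC.sub_pos hCi (sub_pos.2 hPmn.1) hPmn.2
      rwa [sub_sub_sub_cancel_right] at this
    have h2 := hC.lt hCa2 h1.1 h1.2
    grind
  set t1 := max a (fi + a2) with ht1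
  have hat1 : a ≤ t1 := le_max_left _ _
  have hit1 : fi + a2 ≤ t1 := le_max_right _ _
  have ht1m : t1 ≤ min t3 t4 := max_le (hab.trans hbmn) hfia2
  have ht13 : t1 ≤ t3 := ht1m.trans (min_le_left _ _)
  have ht14 : t1 ≤ t4 := ht1m.trans (min_le_right _ _)
  have ht10 : t0 ≤ t1 := hf0.trans (hfa.trans hat1)
  have ht1J : t1 ∈ J := JJ_down hG hmnJ (h00.trans ht10) ht1m
  have hCr : Cc J (t1 - fi) := by
    rcases max_choice a (fi + a2) with e | e
    · rw [ht1, e]; exact hCai
    · rw [ht1, e, add_sub_cancel_left]; exact hCa2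
  have hb2 : 0 < b2 ∧ ¬ Cc J b2 := hC.mono hb2ε hCb2 (sub_le_self _ hε0.le)
  have hr1 : a2 ≤ t1 - fi := by grind
  have hr2 : t1 - fi ≤ b2 := (hC.lt hCr hb2.1 hb2.2).le
  have hεb : εs ≤ b2 := (sub_pos.1 hb2ε).le
  have hsfi : s ≤ fi := hst.trans (hf0.trans hffi)
  have hsfj : s ≤ fj := hst.trans (hf0.trans hffj)
  -- the value of the new word
  have hvW2 : val W2 * ki = ke := by
    have h1 := (hW2 (t1 - fi) hr1 hr2).2
    rw [← hroute t1 (hfia.trans hat1) ht13, sub_add_sub_cancel,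
      ← hroute' t1 (hfja.trans hat1) ht14, ← mul_smul] at h1
    have h2 : (ke⁻¹ * (val W2 * ki)) • x t1 = x t1 := by
      rw [mul_smul, h1, inv_smul_smul]
    have h3 := hG.free _ _ h2
    exact (inv_mul_eq_one.1 h3).symm
  have hstay1 : ∀ t, t1 ≤ t → t ≤ T → ki • x t ∈ hull D F → t - fi ≤ D.d v f1 ∧
      ki • x t = pt hT v f1 (t - fi) := by
    intro t h1 h2 h3
    refine c1_stay hT hG h.al hxd hxb (C := Cc J) (fun c c' h5 h6 => hC.convex h5 h6) hgap hv hf1
      (hf0.trans hffi) hfi3 ht3T ?_ hlen hroute ?_ ((hfia.trans hat1).trans h1) h2 h3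
    · have := hC.sub_pos hCi (sub_pos.2 hP3.1) hP3.2
      rw [sub_sub_sub_cancel_right] at this
      exact this.2
    · grind
  have hstay2 : ∀ t, t1 ≤ t → t ≤ T → ke • x t ∈ hull D F → t - fj ≤ D.d v' f1' ∧
      ke • x t = pt hT v' f1' (t - fj) := by
    intro t h1 h2 h3
    refine c1_stay hT hG h.al hxd hxb (C := Cc J) (fun c c' h5 h6 => hC.convex h5 h6) hgap hv' hf1'
      (hf0.trans hffj) hfj4 ht4T ?_ hlen' hroute' ?_ ((hfja.trans hat1).trans h1) h2 h3
    · have := hC.sub_pos hCj (sub_pos.2 hP4.1) hP4.2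
      rw [sub_sub_sub_cancel_right] at this
      exact this.2
    · grind
  have hrange : ∀ t, t1 ≤ t → t ≤ T → a2 ≤ t - fi ∧ t - fi ≤ b2 := by
    intro t h1 h2
    constructor
    · exact hr1.trans (sub_le_sub_right h1 fi)
    · refine le_trans ?_ hεb
      grind
  refine ⟨t1, ht1J, hst.trans ht10, pre ++ (W2, true) :: post, ?_, ?_, ?_, ?_, ?_⟩
  · intro i hi l2 hl2
    rcases List.mem_append.1 hi with hi | hi
    · exact hAL i (by rw [hA1]; exact List.mem_append_left _ hi) l2 hl2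
    · rcases List.mem_cons.1 hi with hi | hi
      · rw [hi] at hl2; exact hW2L l2 hl2
      · exact hAL i (by rw [hA1, hB]; simp [hi]) l2 hl2
  · rw [wd_append, val_append, wd, val_append, mul_assoc, ← hki, hvW2, hvpost]
  · rw [wd_append, ok_append, wd, ok_append]
    refine ⟨hokpre t1 (hfa.trans hat1) ht13, ?_, ?_⟩
    · rw [← hki, hroute t1 (hfia.trans hat1) ht13]
      refine ok_mono ?_ (hW2 (t1 - fi) hr1 hr2).1
      have h1 := hts c hcC
      have h2 : s + (t1 - fi) ≤ t1 := by grind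
      exact (add_le_add_left h1 _).trans h2
    · rw [← hki, ← mul_smul, hvW2]
      exact hokpost t1 (hfa.trans hat1) ht14
  · rw [Vald_append, mul_one]
    refine ⟨Vald_mono ht10 hAVs.1, ?_, ?_, ?_⟩
    · intro _ t h1 h2
      obtain ⟨h3, h4⟩ := hrange t h1 h2
      have h5 := hW2 (t - fi) h3 h4
      refine ⟨?_, ?_⟩
      · intro h6
        rw [(hstay1 t h1 h2 h6).2]
        exact ok_mem h5.1
      · intro h6
        rw [← mul_smul, hvW2] at h6
        have h7 := (hstay2 t h1 h2 h6).2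
        have h8 : val W2 • pt hT v f1 (t - fi) = val W2 • (ki • x t) := by
          rw [h5.2, sub_add_sub_cancel, ← h7, ← mul_smul, hvW2]
        have h9 : pt hT v f1 (t - fi) = ki • x t := by
          have := congrArg (fun z => (val W2)⁻¹ • z) h8
          simpa only [inv_smul_smul] using this
        rw [← h9]
        exact ok_mem h5.1
    · intro h1; exact absurd h1 (by simp)
    · rw [← hki, hvW2]
      have h1 := hAVs.2
      rw [hB, Vald_append] at h1
      have h2 := h1.2.2.2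
      simp only [val, one_mul] at h2
      exact Vald_mono ht10 h2
  · rw [hA1, hB]
    simp only [cnt, List.countP_append, List.countP_cons]
    simp
    omega

theorem caseOne (h : Cl hT F Sg L p q g w0) (hp : p ∈ hull D F) (hq : q ∈ hull D F)
    (gp : g • p ∈ hull D F) (gq : g • q ∈ hull D F)
    (hI : ∀ s ∈ JJ hT L p q g, ∃ t ∈ JJ hT L p q g, s < t ∧ ¬ Cc (JJ hT L p q g) (t - s)) :
    False := by
  classical
  obtain ⟨ts, hts, εs, hε0, hεC, hgap, hstab⟩ := stab_conn h hI
  have hG := h.hG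
  have hεC' := hεC
  unfold Cc at hεC'
  push Not at hεC'
  obtain ⟨s0, hs0, hs0'⟩ := hεC'
  rw [abs_of_pos hε0] at hs0'
  obtain ⟨s2, hs2, hts2, hCs2⟩ := hI ts hts
  have hC : Connect.Cvx (Cc (JJ hT L p q g)) :=
    { zero := Cc_zero _
      add := fun h1 h2 => Cc_add h1 h2 h.hG
      neg := fun h1 => Cc_neg h1
      convex := fun h1 h2 => Cc_convex h1 h2 h.hG }
  have hsJ : max s0 s2 ∈ JJ hT L p q g := by
    rcases max_choice s0 s2 with e | e <;> rw [e]
    · exact hs0
    · exact hs2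
  have hlJ : D.d p q ∉ JJ hT L p q g := by
    intro hc
    obtain ⟨t, ht, hlt, -⟩ := hI _ hc
    exact absurd (JJ_nonneg ht).2 (not_le.2 hlt)
  have hseJ : max s0 s2 + εs ∉ JJ hT L p q g := by
    intro hc
    refine hs0' (JJ_down hG hc (add_nonneg (JJ_nonneg hs0).1 hε0.le) ?_)
    exact add_le_add_left (le_max_left _ _) _
  have hTJ : min (max s0 s2 + εs) (D.d p q) ∉ JJ hT L p q g := by
    rcases min_choice (max s0 s2 + εs) (D.d p q) with e | e <;> rw [e]
    · exact hseJ
    · exact hlJ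
  have hT0 : 0 ≤ min (max s0 s2 + εs) (D.d p q) :=
    le_min (add_nonneg (JJ_nonneg hsJ).1 hε0.le) (D.nonneg _ _)
  have hltT : ∀ t ∈ JJ hT L p q g, t < min (max s0 s2 + εs) (D.d p q) := by
    intro t ht
    by_contra hcon
    exact hTJ (JJ_down hG ht hT0 (not_lt.1 hcon))
  have hts' : ∀ c, Cc (JJ hT L p q g) c → ts + c ≤ max s0 s2 := by
    intro c hc
    have h1 := hC.lt hc (sub_pos.2 hts2) hCs2
    have h2 : ts + c ≤ s2 := by grind
    exact h2.trans (le_max_right _ _)
  have key : ∀ n : ℕ, ∀ t0 ∈ JJ hT L p q g, max s0 s2 ≤ t0 →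
      ∀ A : List (List (Letter X G) × Bool), (∀ i ∈ A, ∀ l ∈ i.1, l ∈ L) → val (wd A) = g →
      ok D t0 (wd A) (pt hT p q t0) →
      Vald D F (pt hT p q) (min (max s0 s2 + εs) (D.d p q)) t0 A 1 → cnt A ≤ n → False := by
    intro n
    induction n with
    | zero =>
      intro t0 h0 hst A h1 h2 h3 h4 h5
      obtain ⟨t1, -, -, A', -, -, -, -, h6⟩ := caseOne_step h hp hq gp gq hI hε0 hgap hstab hsJ hts'
        (min_le_left _ _) (min_le_right _ _) hTJ hltT h0 hst h1 h2 h3 h4
      omega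
    | succ n ih =>
      intro t0 h0 hst A h1 h2 h3 h4 h5
      obtain ⟨t1, g1, g2, A', g3, g4, g5, g6, h6⟩ := caseOne_step h hp hq gp gq hI hε0 hgap hstab hsJ
        hts' (min_le_left _ _) (min_le_right _ _) hTJ hltT h0 hst h1 h2 h3 h4
      exact ih t1 g1 g2 A' g3 g4 g5 g6 (by omega)
  obtain ⟨w, hwL, hwv, hwok⟩ := JJ_word h hsJ
  have hwd : ∀ w : List (Letter X G), wd (w.map (fun l => ([l], false))) = w := by
    intro w
    induction w with
    | nil => rfl
    | cons l w ih => simp [wd, ih]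
  have hVw : ∀ (w : List (Letter X G)) (k : G), Vald D F (pt hT p q)
      (min (max s0 s2 + εs) (D.d p q)) (max s0 s2) (w.map (fun l => ([l], false))) k := by
    intro w
    induction w with
    | nil => intro k; trivial
    | cons l w ih =>
      intro k
      exact ⟨fun h1 => absurd h1 (by simp), fun _ => ⟨l, rfl⟩, ih _⟩
  refine key _ (max s0 s2) hsJ (le_refl _) (w.map (fun l => ([l], false))) ?_ ?_ ?_ (hVw w 1)
    (le_refl _)
  · intro i hi l hl
    obtain ⟨l2, hl2, rfl⟩ := List.mem_map.1 hi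
    rw [List.mem_singleton] at hl
    rw [hl]; exact hwL l2 hl2
  · rw [hwd]; exact hwv
  · rw [hwd]; exact hwok

end Main

end LTree.Idx
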