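import Pool.Agent.Work.MP_0c526b_al.Idx.JJ

/-!
# Module B4: the closing lemma when the set of times has a top coset
-/

set_option autoImplicit false

namespace LTree.Idx

open LTree

variable {Λ : Type*} [AddCommGroup Λ] [LinearOrder Λ] [IsOrderedAddMonoid Λ] {X : Type*}
variable {D : Dist Λ X} {G : Type*} [Group G] [MulAction G X]

section Reach
variable {hT : IsTree D} {F Sg : Finset X} {L : Set (Letter X G)} {p q : X} {g : G}
  {w0 : List (Letter X G)}

/-- A word valid at the ends of an interval of times is valid at the times in between. -/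
lemma ok_betw (hG : FreeAct D G) {k : G} {u r T : Λ} {U : List (Letter X G)} (h0 : 0 ≤ u)
    (h1 : u ≤ r) (h2 : r ≤ T) (h3 : T ≤ D.d p q) (hu : ok D u U (k • pt hT p q u))
    (hU : ok D T U (k • pt hT p q T)) : ok D r U (k • pt hT p q r) := by
  have hm : mem D U (k • pt hT p q r) :=
    mem_convex hT hG (ok_mem hu) (ok_mem hU) (hG.btw k (pt_mid hT h0 h1 h2 h3))
  refine ok_move hG hu hm ?_
  rw [hG.iso, pt_dist hT h0 h1 (h2.trans h3)]

/-- The four-cycle word. -/
lemma cycle_word (hG : FreeAct D G) {τ τ' t : Λ} {U V : List (Letter X G)}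
    (hτ : 0 < τ) (hτ' : 0 < τ') (ht : t ≤ D.d p q) (h0 : 0 ≤ t - τ - τ')
    (u1 : ok D t U (pt hT p q t)) (u1' : val U • pt hT p q t = pt hT p q (t - τ))
    (v1 : ok D (t - τ) V (g • pt hT p q (t - τ)))
    (v1' : val V • g • pt hT p q (t - τ) = g • pt hT p q (t - τ - τ'))
    (u2 : ok D (t - τ') U (pt hT p q (t - τ')))
    (u2' : val U • pt hT p q (t - τ') = pt hT p q (t - τ' - τ))
    (v2 : ok D t V (g • pt hT p q t))
    (v2' : val V • g • pt hT p q t = g • pt hT p q (t - τ')) :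
    ok D t (U ++ ⟨p, q, g, true⟩ :: (V ++ (⟨p, q, g, true⟩ : Letter X G).inv ::
      (rev U ++ ⟨p, q, g, true⟩ :: rev V))) (pt hT p q t) ∧
    val (U ++ ⟨p, q, g, true⟩ :: (V ++ (⟨p, q, g, true⟩ : Letter X G).inv ::
      (rev U ++ ⟨p, q, g, true⟩ :: rev V))) = g := by
  have e0 : 0 ≤ t := by
    have : t = (t - τ - τ') + (τ + τ') := by abel
    rw [this]; positivity
  have e1 : 0 ≤ t - τ := by
    have : t - τ = (t - τ - τ') + τ' := by abel
    rw [this]; positivity
  have e2 : 0 ≤ t - τ' := by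
    have : t - τ' = (t - τ - τ') + τ := by abel
    rw [this]; positivity
  have f1 : t - τ ≤ D.d p q := (sub_le_self _ hτ.le).trans ht
  have f2 : t - τ' ≤ D.d p q := (sub_le_self _ hτ'.le).trans ht
  have f3 : t - τ - τ' ≤ D.d p q := (sub_le_self _ hτ'.le).trans f1
  have lt1 : t - τ < t := sub_lt_self _ hτ
  have lt2 : t - τ' < t := sub_lt_self _ hτ'
  have lt3 : t - τ - τ' < t := (sub_lt_self _ hτ').trans lt1
  -- the letter `e` at the point at time `r < t`
  have he : ∀ r, 0 ≤ r → r ≤ D.d p q → r < t →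
      (Btw D p (pt hT p q r) q ∧ ((true : Bool) = true → D.d p (pt hT p q r) < t)) := by
    intro r h1 h2 h3
    refine ⟨pt_btw hT h1 h2, fun _ => ?_⟩
    rw [d_pt hT h1 h2]; exact h3
  have hei : ∀ r, 0 ≤ r → r ≤ D.d p q → r < t →
      (Btw D (g • p) (g • pt hT p q r) (g • q) ∧
        ((true : Bool) = true → D.d (g • p) (g • pt hT p q r) < t)) := by
    intro r h1 h2 h3
    refine ⟨hG.btw g (pt_btw hT h1 h2), fun _ => ?_⟩
    rw [hG.iso, d_pt hT h1 h2]; exact h3
  have hcomm : t - τ' - τ = t - τ - τ' := by abel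
  constructor
  · rw [ok_append]
    refine ⟨u1, ?_⟩
    rw [u1']
    refine ⟨he _ e1 f1 lt1, ?_⟩
    change ok D t (V ++ _) (g • pt hT p q (t - τ))
    rw [ok_append]
    refine ⟨ok_mono lt1.le v1, ?_⟩
    rw [v1']
    refine ⟨hei _ h0 f3 lt3, ?_⟩
    change ok D t (rev U ++ _) (g⁻¹ • g • pt hT p q (t - τ - τ'))
    rw [inv_smul_smul, ok_append]
    constructor
    · rw [← hcomm, ← u2', ok_rev hG]
      exact ok_mono lt2.le u2
    · rw [val_rev, ← hcomm, ← u2', inv_smul_smul]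
      refine ⟨he _ e2 f2 lt2, ?_⟩
      change ok D t (rev V) (g • pt hT p q (t - τ'))
      rw [← v2', ok_rev hG]
      exact v2
  · have hval : val (U ++ ⟨p, q, g, true⟩ :: (V ++ (⟨p, q, g, true⟩ : Letter X G).inv ::
        (rev U ++ ⟨p, q, g, true⟩ :: rev V)))
        = (val V)⁻¹ * g * (val U)⁻¹ * g⁻¹ * val V * g * val U := by
      simp only [val_append, val, val_rev, Letter.inv]
    rw [hval]
    have hact : ((val V)⁻¹ * g * (val U)⁻¹ * g⁻¹ * val V * g * val U) • pt hT p q t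
        = g • pt hT p q t := by
      simp only [mul_smul]
      rw [u1', v1', inv_smul_smul, ← hcomm, ← u2', inv_smul_smul, ← v2', inv_smul_smul]
    by_contra hne
    have h1 : g⁻¹ * ((val V)⁻¹ * g * (val U)⁻¹ * g⁻¹ * val V * g * val U) ≠ 1 := by
      intro h
      exact hne (inv_mul_eq_one.mp h).symm
    apply hG.ne h1 (pt hT p q t)
    rw [mul_smul, hact, inv_smul_smul]

/-- Case two, from the two translations. -/
theorem caseTwo_of (h : Cl hT F Sg L p q g w0)
    {s : Λ} (hs : s ∈ JJ hT L p q g)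
    (hC : ∀ t ∈ JJ hT L p q g, s ≤ t → Cc (JJ hT L p q g) (t - s))
    (htr : ∀ k : G, k = 1 ∨ k = g → ∃ τ u T U, 0 < τ ∧ s ≤ u - τ ∧ u ∈ JJ hT L p q g ∧
      T ∉ JJ hT L p q g ∧ u ≤ T ∧ T ≤ D.d p q ∧ (∀ l ∈ U, l ∈ L) ∧
      ok D u U (k • pt hT p q u) ∧ ok D T U (k • pt hT p q T) ∧
      ∀ t, u ≤ t → t ≤ T → val U • (k • pt hT p q t) = k • pt hT p q (t - τ)) : False := by
  have hG := h.hG
  obtain ⟨τ, u, T, U, hτ, hsu, huJ, hTJ, huT, hTq, hUL, hUu, hUT, hUv⟩ :=
    htr 1 (Or.inl rfl)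
  obtain ⟨τ', u', T', V, hτ', hsu', huJ', hTJ', huT', hTq', hVL, hVu, hVT, hVv⟩ :=
    htr g (Or.inr rfl)
  simp only [one_smul] at hUu hUT hUv
  have hs0 : 0 ≤ s := (JJ_nonneg hs).1
  -- the shifts are in `C`
  have hCτ : Cc (JJ hT L p q g) τ := by
    have h1 : s ≤ u := hsu.trans (sub_le_self _ hτ.le)
    refine Cc_convex (hC u huJ h1) ?_ hG
    rw [abs_of_pos hτ, abs_of_nonneg (sub_nonneg.mpr h1)]
    have : τ ≤ u - s := by
      have := sub_nonneg.mpr hsu
      have h2 : u - s = τ + (u - τ - s) := by abel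
      rw [h2]; exact le_add_of_nonneg_right this
    exact this
  have hCτ' : Cc (JJ hT L p q g) τ' := by
    have h1 : s ≤ u' := hsu'.trans (sub_le_self _ hτ'.le)
    refine Cc_convex (hC u' huJ' h1) ?_ hG
    rw [abs_of_pos hτ', abs_of_nonneg (sub_nonneg.mpr h1)]
    have := sub_nonneg.mpr hsu'
    have h2 : u' - s = τ' + (u' - τ' - s) := by abel
    rw [h2]; exact le_add_of_nonneg_right this
  have h1J : u + τ' ∈ JJ hT L p q g := by
    have := hCτ' u huJ
    rwa [abs_of_pos hτ'] at this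
  have h2J : u' + τ ∈ JJ hT L p q g := by
    have := hCτ u' huJ'
    rwa [abs_of_pos hτ] at this
  obtain ⟨t1, ht1⟩ : ∃ t1, t1 = max (u + τ') (u' + τ) := ⟨_, rfl⟩
  have ht1J : t1 ∈ JJ hT L p q g := by
    rw [ht1]
    rcases max_choice (u + τ') (u' + τ) with h | h <;> rw [h]
    · exact h1J
    · exact h2J
  have ht1a : u + τ' ≤ t1 := by rw [ht1]; exact le_max_left _ _
  have ht1b : u' + τ ≤ t1 := by rw [ht1]; exact le_max_right _ _
  obtain ⟨T1, hT1⟩ : ∃ T1, T1 = min T T' := ⟨_, rfl⟩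
  have hT1J : T1 ∉ JJ hT L p q g := by
    rw [hT1]
    rcases min_choice T T' with h | h <;> rw [h]
    · exact hTJ
    · exact hTJ'
  have hT1a : T1 ≤ T := by rw [hT1]; exact min_le_left _ _
  have hT1b : T1 ≤ T' := by rw [hT1]; exact min_le_right _ _
  have hu0 : 0 ≤ u := (JJ_nonneg huJ).1
  have hu0' : 0 ≤ u' := (JJ_nonneg huJ').1
  have hT10 : 0 ≤ T1 := by
    rw [hT1]; exact le_min (hu0.trans huT) (hu0'.trans huT')
  have ht1T1 : t1 ≤ T1 := by
    by_contra hlt
    push Not at hlt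
    exact hT1J (JJ_down hG ht1J hT10 hlt.le)
  have hval : ∀ t, t1 ≤ t → t ≤ T1 →
      ok D t (U ++ ⟨p, q, g, true⟩ :: (V ++ (⟨p, q, g, true⟩ : Letter X G).inv ::
        (rev U ++ ⟨p, q, g, true⟩ :: rev V))) (pt hT p q t) ∧
      val (U ++ ⟨p, q, g, true⟩ :: (V ++ (⟨p, q, g, true⟩ : Letter X G).inv ::
        (rev U ++ ⟨p, q, g, true⟩ :: rev V))) = g := by
    intro t hta htb
    have a1 : u + τ' ≤ t := ht1a.trans hta
    have a2 : u' + τ ≤ t := ht1b.trans hta
    have b1 : u ≤ t := (le_add_of_nonneg_right hτ'.le).trans a1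
    have b2 : u' ≤ t := (le_add_of_nonneg_right hτ.le).trans a2
    have b3 : u ≤ t - τ' := le_sub_iff_add_le.mpr a1
    have b4 : u' ≤ t - τ := le_sub_iff_add_le.mpr a2
    have c1 : t ≤ T := htb.trans hT1a
    have c2 : t ≤ T' := htb.trans hT1b
    have c3 : t - τ' ≤ T := (sub_le_self _ hτ'.le).trans c1
    have c4 : t - τ ≤ T' := (sub_le_self _ hτ.le).trans c2
    have hU' : ∀ r, u ≤ r → r ≤ T → ok D r U (pt hT p q r) := by
      intro r h1 h2
      have := ok_betw (k := 1) hG hu0 h1 h2 hTq (by simpa using hUu) (by simpa using hUT)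
      simpa using this
    have hV' : ∀ r, u' ≤ r → r ≤ T' → ok D r V (g • pt hT p q r) := fun r h1 h2 =>
      ok_betw hG hu0' h1 h2 hTq' hVu hVT
    have h0 : 0 ≤ t - τ - τ' := by
      have h1 : s ≤ u' - τ' := hsu'
      have h2 : u' - τ' ≤ t - τ - τ' := sub_le_sub_right b4 _
      exact hs0.trans (h1.trans h2)
    exact cycle_word hG hτ hτ' (c1.trans hTq) h0 (hU' t b1 c1) (hUv t b1 c1)
      (hV' _ b4 c4) (hVv _ b4 c4) (hU' _ b3 c3) (hUv _ b3 c3) (hV' t b2 c2) (hVv t b2 c2)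
  have hgood : Good hT L p q g t1 T1 := by
    refine ⟨(JJ_nonneg ht1J).1, ht1T1, hT1a.trans hTq, _, ?_, (hval t1 le_rfl ht1T1).2,
      (hval t1 le_rfl ht1T1).1, (hval T1 ht1T1 le_rfl).1⟩
    have hrU := rev_in h.al.inv hUL
    have hrV := rev_in h.al.inv hVL
    have hei := h.al.inv _ h.he
    intro l hl
    simp only [List.mem_append, List.mem_cons] at hl
    rcases hl with hl | rfl | hl | rfl | hl | rfl | hl
    · exact hUL l hl
    · exact h.he
    · exact hVL l hl
    · exact hei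
    · exact hrU l hl
    · exact h.he
    · exact hrV l hl
  exact hT1J (Relation.ReflTransGen.tail ht1J hgood)

end Reach

end LTree.Idx
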