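import Pool.Agent.Work.MP_0c526b_al.Idx.Basics
import Pool.Agent.Work.MP_0c526b_al.Idx.Words

/-!
# Coordinates with respect to the skeleton
-/

set_option autoImplicit false

namespace LTree.Idx

open LTree

variable {Λ : Type*} [AddCommGroup Λ] [LinearOrder Λ] [IsOrderedAddMonoid Λ] {X : Type*}
variable {D : Dist Λ X} {G : Type*} [Group G] [MulAction G X]

/-- The group of distances of a finite set. -/
def spanD (D : Dist Λ X) (Sg : Finset X) : Submodule ℤ Λ :=
  Submodule.span ℤ {t | ∃ x ∈ Sg, ∃ y ∈ Sg, t = D.d x y}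

theorem spanD_fg (Sg : Finset X) : (spanD D Sg).FG := by
  classical
  unfold spanD
  refine Submodule.fg_span (Set.Finite.subset
    ((Sg ×ˢ Sg).image (fun u : X × X => D.d u.1 u.2)).finite_toSet ?_)
  rintro t ⟨x, hx, y, hy, rfl⟩
  exact Finset.mem_coe.2 (Finset.mem_image.2 ⟨(x, y), Finset.mem_product.2 ⟨hx, hy⟩, rfl⟩)

lemma spanD_mem {Sg : Finset X} {x y : X} (hx : x ∈ Sg) (hy : y ∈ Sg) :
    D.d x y ∈ spanD D Sg := Submodule.subset_span ⟨x, hx, y, hy, rfl⟩

omit [LinearOrder Λ] [IsOrderedAddMonoid Λ] in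
lemma pm_trans {M : Submodule ℤ Λ} {r s t : Λ} (h1 : r - s ∈ M ∨ r + s ∈ M)
    (h2 : s - t ∈ M ∨ s + t ∈ M) : r - t ∈ M ∨ r + t ∈ M := by
  rcases h1 with h1 | h1 <;> rcases h2 with h2 | h2
  · left; have := M.add_mem h1 h2; rwa [sub_add_sub_cancel] at this
  · right; have := M.add_mem h1 h2
    have e : r - s + (s + t) = r + t := by abel
    rwa [e] at this
  · right; have := M.sub_mem h1 h2
    have e : r + s - (s - t) = r + t := by abel
    rwa [e] at this
  · left; have := M.sub_mem h1 h2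
    have e : r + s - (s + t) = r - t := by abel
    rwa [e] at this

/-- Distances of a point of the hull to two points of the skeleton. -/
lemma skel_coord (hT : IsTree D) {F Sg : Finset X} (hS : Sk D F Sg) {y : X} (hy : y ∈ hull D F)
    {σ σ' : X} (hσ : σ ∈ Sg) (hσ' : σ' ∈ Sg) :
    D.d σ y - D.d σ' y ∈ spanD D Sg ∨ D.d σ y + D.d σ' y ∈ spanD D Sg := by
  obtain ⟨c, c1, c2, c3⟩ := exists_median hT σ σ' y
  have key : c ∈ Sg → D.d σ y - D.d σ' y ∈ spanD D Sg := by
    intro hc
    have e : D.d σ y - D.d σ' y = D.d σ c - D.d σ' c := by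
      unfold Btw at *
      grind
    rw [e]
    exact (spanD D Sg).sub_mem (spanD_mem hσ hc) (spanD_mem hσ' hc)
  rcases hS.med_or hT (hS.sub σ hσ) (hS.sub σ' hσ') hy ⟨c1, c2, c3⟩ with h | h | h | h
  · exact Or.inl (key h)
  · exact Or.inl (key (h ▸ hσ))
  · exact Or.inl (key (h ▸ hσ'))
  · right
    subst h
    have e : D.d σ c + D.d σ' c = D.d σ σ' := by
      have s := D.symm c σ'
      unfold Btw at *
      grind
    rw [e]
    exact spanD_mem hσ hσ'

/-- Letters preserve the distances to the skeleton up to sign modulo the group of distances. -/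
theorem word_coord (hT : IsTree D) (hG : FreeAct D G) {F Sg : Finset X}
    {L : Set (Letter X G)} (hA : Alph D F Sg L) {w : List (Letter X G)} (hw : ∀ l ∈ w, l ∈ L)
    {y : X} (hy : y ∈ hull D F) (hm : mem D w y) {σ σ' : X} (hσ : σ ∈ Sg) (hσ' : σ' ∈ Sg) :
    D.d σ y - D.d σ' (val w • y) ∈ spanD D Sg ∨ D.d σ y + D.d σ' (val w • y) ∈ spanD D Sg := by
  induction w generalizing y σ with
  | nil =>
    simp only [val, one_smul]
    exact skel_coord hT hA.sk hy hσ hσ'
  | cons l w ih =>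
    have hl : l ∈ L := hw l (by simp)
    have hli : l.inv ∈ L := hA.inv l hl
    have ha : l.h • l.a ∈ Sg := hA.ha _ hli
    have hb : l.h • l.b ∈ Sg := hA.hb _ hli
    have hy' : l.h • y ∈ hull D F :=
      hull_convex hT (hA.sk.sub _ ha) (hA.sk.sub _ hb) (hG.btw l.h hm.1)
    have h1 := skel_coord hT hA.sk hy hσ (hA.ha l hl)
    have h2 := ih (fun m hm' => hw m (by simp [hm'])) hy' hm.2 ha
    rw [hG.iso] at h2
    have h3 := pm_trans h1 h2
    simpa only [val, mul_smul] using h3

end LTree.Idx
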