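import Pool.Agent.Work.MP_0c526b_al.Idx.JJ
import Pool.Agent.Work.MP_0c526b_al.Idx.Coord

/-!
# B6: stabilisation of the connecting words
-/

set_option autoImplicit false
set_option linter.unusedVariables false
set_option linter.unusedSectionVars false

namespace LTree.Idx

open LTree

variable {Λ : Type*} [AddCommGroup Λ] [LinearOrder Λ] [IsOrderedAddMonoid Λ] {X : Type*}
variable {D : Dist Λ X} {G : Type*} [Group G] [MulAction G X]

/-- Connecting words between routes, with shift `κ`; `C` is a convex subgroup. -/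
def Cn (hT : IsTree D) (L : Set (Letter X G)) (C : Λ → Prop) (t ε κ : Λ) (v f v' f' : X) : Prop :=
  ∃ w : List (Letter X G), (∀ l ∈ w, l ∈ L) ∧ ∃ a b, 0 ≤ a ∧ C a ∧ 0 ≤ a + κ ∧ b ≤ D.d v f ∧
    b + κ ≤ D.d v' f' ∧ 0 < b - ε ∧ ¬ C (b - ε) ∧ 
    ∀ r, a ≤ r → r ≤ b → ok D (t + r) w (pt hT v f r) ∧ val w • pt hT v f r = pt hT v' f' (r + κ)

namespace Connect

/-- Convex subgroups as predicates. -/
structure Cvx (C : Λ → Prop) : Prop where
  zero : C 0
  add : ∀ {c c'}, C c → C c' → C (c + c')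
  neg : ∀ {c}, C c → C (-c)
  convex : ∀ {c c'}, C c → |c'| ≤ |c| → C c'

variable {C : Λ → Prop}

lemma Cvx.sub (hC : Cvx C) {c c' : Λ} (h : C c) (h' : C c') : C (c - c') := by
  rw [sub_eq_add_neg]
  exact hC.add h (hC.neg h')

lemma Cvx.abs (hC : Cvx C) {c : Λ} (h : C c) : C |c| := hC.convex h (by rw [abs_abs])

lemma Cvx.lt (hC : Cvx C) {c x : Λ} (h : C c) (hx : 0 < x) (hx' : ¬ C x) : c < x := by
  by_contra hcon
  push Not at hcon
  apply hx'
  apply hC.convex h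
  rw [abs_of_pos hx, abs_of_pos (hx.trans_le hcon)]
  exact hcon

lemma Cvx.sub_pos (hC : Cvx C) {c x : Λ} (h : C c) (hx : 0 < x) (hx' : ¬ C x) :
    0 < x - c ∧ ¬ C (x - c) := by
  refine ⟨_root_.sub_pos.2 (hC.lt h hx hx'), fun h2 => hx' ?_⟩
  have := hC.add h2 h
  rwa [sub_add_cancel] at this

lemma Cvx.mono (hC : Cvx C) {x y : Λ} (hx : 0 < x) (hx' : ¬ C x) (hxy : x ≤ y) :
    0 < y ∧ ¬ C y := by
  refine ⟨hx.trans_le hxy, fun h2 => hx' ?_⟩
  apply hC.convex h2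
  rw [abs_of_pos hx, abs_of_pos (hx.trans_le hxy)]
  exact hxy

variable {hT : IsTree D} {L : Set (Letter X G)}

/-- Connection at a time differing from `t` by an element of `C`. -/
def PP (hT : IsTree D) (L : Set (Letter X G)) (C : Λ → Prop) (t ε κ : Λ) (v f v' f' : X) : Prop :=
  ∃ c, C c ∧ Cn hT L C (t + c) ε κ v f v' f'

lemma Cn_mono (hC : Cvx C) {t ε κ t' ε' : Λ} {v f v' f' : X} (ht : t ≤ t') (hε : ε' ≤ ε)
    (h : Cn hT L C t ε κ v f v' f') : Cn hT L C t' ε' κ v f v' f' := by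
  obtain ⟨w, hw, a, b, h1, h2, h3, h4, h5, h6, h7, h8⟩ := h
  have h9 := hC.mono h6 h7 (sub_le_sub_left hε b)
  refine ⟨w, hw, a, b, h1, h2, h3, h4, h5, h9.1, h9.2, ?_⟩
  intro r hr hr'
  obtain ⟨h10, h11⟩ := h8 r hr hr'
  exact ⟨ok_mono (add_le_add_left ht r) h10, h11⟩

lemma PP_mono (hC : Cvx C) {t ε κ t' ε' : Λ} {v f v' f' : X} (ht : t ≤ t') (hε : ε' ≤ ε)
    (h : PP hT L C t ε κ v f v' f') : PP hT L C t' ε' κ v f v' f' := by
  obtain ⟨c, hc, h⟩ := h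
  exact ⟨c, hc, Cn_mono hC (add_le_add_left ht c) hε h⟩

lemma PP_comp (hC : Cvx C) {t ε κ κ' : Λ} {v f v' f' v'' f'' : X} (hκ : C κ) (hκ' : C κ')
    (h : PP hT L C t ε κ v f v' f') (h' : PP hT L C t ε κ' v' f' v'' f'') :
    PP hT L C t ε (κ + κ') v f v'' f'' := by
  obtain ⟨c, hc, w, hw, a, b, h1, h2, h3, h4, h5, h6, h7, h8⟩ := h
  obtain ⟨c', hc', w', hw', a', b', h1', h2', h3', h4', h5', h6', h7', h8'⟩ := h'
  have hmax : ∀ {x y : Λ}, C x → C y → C (max x y) := by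
    intro x y hx hy
    rcases max_choice x y with e | e <;> rw [e]
    · exact hx
    · exact hy
  have hb' : 0 < b' - κ - ε ∧ ¬ C (b' - κ - ε) := by
    have := hC.sub_pos hκ h6' h7'
    have e : b' - κ - ε = b' - ε - κ := by abel
    rw [e]
    exact this
  refine ⟨max c (c' + κ), hmax hc (hC.add hc' hκ), w ++ w', ?_, max a (a' - κ),
    min b (b' - κ), h1.trans (le_max_left _ _), hmax h2 (hC.sub h2' hκ), ?_,
    (min_le_left _ _).trans h4, ?_, ?_, ?_, ?_⟩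
  · intro l hl
    rcases List.mem_append.1 hl with hl | hl
    · exact hw l hl
    · exact hw' l hl
  · have : a' - κ ≤ max a (a' - κ) := le_max_right _ _
    have e : a' - κ + (κ + κ') = a' + κ' := by abel
    calc (0 : Λ) ≤ a' + κ' := h3'
      _ = a' - κ + (κ + κ') := e.symm
      _ ≤ _ := add_le_add_left this _
  · have : min b (b' - κ) ≤ b' - κ := min_le_right _ _
    calc min b (b' - κ) + (κ + κ') ≤ b' - κ + (κ + κ') := add_le_add_left this _
      _ = b' + κ' := by abel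
      _ ≤ _ := h5'
  · rcases min_choice b (b' - κ) with e | e <;> rw [e]
    · exact h6
    · exact hb'.1
  · rcases min_choice b (b' - κ) with e | e <;> rw [e]
    · exact h7
    · exact hb'.2
  · intro r hr hr'
    have hr1 : a ≤ r := (le_max_left _ _).trans hr
    have hr2 : r ≤ b := hr'.trans (min_le_left _ _)
    have hr3 : a' ≤ r + κ := sub_le_iff_le_add.1 ((le_max_right _ _).trans hr)
    have hr4 : r + κ ≤ b' := le_sub_iff_add_le.1 (hr'.trans (min_le_right _ _))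
    obtain ⟨h9, h10⟩ := h8 r hr1 hr2
    obtain ⟨h9', h10'⟩ := h8' (r + κ) hr3 hr4
    refine ⟨?_, ?_⟩
    · rw [ok_append]
      refine ⟨ok_mono ?_ h9, ?_⟩
      · exact add_le_add_left (add_le_add_right (le_max_left _ _) t) r
      · rw [h10]
        refine ok_mono ?_ h9'
        have : c' + κ ≤ max c (c' + κ) := le_max_right _ _
        calc t + c' + (r + κ) = t + (c' + κ) + r := by abel
          _ ≤ _ := add_le_add_left (add_le_add_right this t) r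
    · rw [val_append, mul_smul, h10, h10', add_assoc]

lemma PP_inv (hC : Cvx C) (hG : FreeAct D G) (hL : ∀ l ∈ L, l.inv ∈ L) {t ε κ : Λ}
    {v f v' f' : X} (hκ : C κ) (h : PP hT L C t ε κ v f v' f') :
    PP hT L C t ε (-κ) v' f' v f := by
  obtain ⟨c, hc, w, hw, a, b, h1, h2, h3, h4, h5, h6, h7, h8⟩ := h
  have hb : 0 < b + κ - ε ∧ ¬ C (b + κ - ε) := by
    have := hC.sub_pos (hC.neg hκ) h6 h7
    have e : b + κ - ε = b - ε - -κ := by abel
    rw [e]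
    exact this
  refine ⟨c - κ, hC.sub hc hκ, rev w, rev_in hL hw, a + κ, b + κ, h3, hC.add h2 hκ, ?_, h5, ?_,
    hb.1, hb.2, ?_⟩
  · rwa [add_neg_cancel_right]
  · rwa [add_neg_cancel_right]
  · intro r hr hr'
    obtain ⟨h9, h10⟩ := h8 (r - κ) (le_sub_iff_add_le.2 hr) (sub_le_iff_le_add.2 hr')
    rw [sub_add_cancel] at h10
    refine ⟨?_, ?_⟩
    · rw [← h10, ok_rev hG]
      have e : t + (c - κ) + r = t + c + (r - κ) := by abel
      rw [e]
      exact h9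
    · rw [← h10, val_rev, inv_smul_smul, sub_eq_add_neg]

lemma PP_id (hC : Cvx C) {t t' ε κ : Λ} {v f v' f' : X} (h : PP hT L C t ε κ v f v' f') :
    PP hT L C t' ε 0 v f v f := by
  obtain ⟨c, hc, w, hw, a, b, h1, h2, h3, h4, h5, h6, h7, h8⟩ := h
  refine ⟨0, hC.zero, [], by simp, 0, b, le_rfl, hC.zero, by rw [add_zero], h4,
    by rwa [add_zero], h6, h7, ?_⟩
  intro r hr hr'
  refine ⟨trivial, ?_⟩
  change (1 : G) • _ = _
  rw [one_smul, add_zero]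

/-- Twice the shift is a combination of distances. -/
lemma two_kappa (hC : Cvx C) (hG : FreeAct D G) {F Sg : Finset X} (hA : Alph D F Sg L)
    {t ε κ : Λ} {v f v' f' : X} (hv : v ∈ Sg) (hf : f ∈ F) (hv' : v' ∈ Sg) (hf' : f' ∈ F)
    (hε : 0 < ε) (hκ : C κ) (h : Cn hT L C t ε κ v f v' f') : (2 : ℤ) • κ ∈ spanD D Sg := by
  obtain ⟨w, hw, a, b, h1, h2, h3, h4, h5, h6, h7, h8⟩ := h
  have key : ∀ r, a ≤ r → r ≤ b → κ ∈ spanD D Sg ∨ (2 : ℤ) • r + κ ∈ spanD D Sg := by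
    intro r hr hr'
    obtain ⟨h9, h10⟩ := h8 r hr hr'
    have h0r : 0 ≤ r := h1.trans hr
    have hy : pt hT v f r ∈ hull D F :=
      hull_convex hT (hA.sk.sub v hv) (subset_hull hf) (pt_btw hT h0r (hr'.trans h4))
    have h11 := word_coord hT hG hA hw hy (ok_mem h9) hv hv'
    have e1 : D.d v (pt hT v f r) = r := d_pt hT h0r (hr'.trans h4)
    have e2 : D.d v' (val w • pt hT v f r) = r + κ := by
      rw [h10]
      refine d_pt hT ?_ ?_
      · exact h3.trans (add_le_add_left hr κ)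
      · exact (add_le_add_left hr' κ).trans h5
    rw [e1, e2] at h11
    rcases h11 with h11 | h11
    · left
      have : r - (r + κ) = -κ := by abel
      rw [this] at h11
      exact (Submodule.neg_mem_iff _).1 h11
    · right
      have : r + (r + κ) = (2 : ℤ) • r + κ := by rw [two_zsmul]; abel
      rwa [this] at h11
  have hb : 0 < b ∧ ¬ C b := hC.mono h6 h7 (sub_le_self b hε.le)
  have hab : a + |κ| ≤ b := (hC.lt (hC.add h2 (hC.abs hκ)) hb.1 hb.2).le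
  have hnn : (0 : Λ) ≤ |κ| := abs_nonneg κ
  rcases key a le_rfl (le_trans (le_add_of_nonneg_right hnn) hab) with h9 | h9
  · exact Submodule.smul_mem _ _ h9
  · rcases key (a + |κ|) (le_add_of_nonneg_right hnn) hab with h10 | h10
    · exact Submodule.smul_mem _ _ h10
    · have h11 := Submodule.sub_mem _ h10 h9
      have e : (2 : ℤ) • (a + |κ|) + κ - ((2 : ℤ) • a + κ) = (2 : ℤ) • |κ| := by
        rw [smul_add]
        abel
      rw [e] at h11
      rcases abs_choice κ with e2 | e2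
      · rwa [e2] at h11
      · rw [e2, smul_neg] at h11
        exact (Submodule.neg_mem_iff _).1 h11

/-- common stabilisation of finitely many monotone conditions -/
lemma exists_common {ι : Type*} (J : Set Λ) (h0 : ∃ t ∈ J, ∃ ε, 0 < ε ∧ ¬ C ε)
    (I : Finset ι) (Q : ι → Λ → Λ → Prop)
    (hmono : ∀ i t ε t' ε', t ≤ t' → ε' ≤ ε → Q i t ε → Q i t' ε')
    (h : ∀ i ∈ I, ∃ t ∈ J, ∃ ε, 0 < ε ∧ ¬ C ε ∧ Q i t ε) :
    ∃ t ∈ J, ∃ ε, 0 < ε ∧ ¬ C ε ∧ ∀ i ∈ I, Q i t ε := by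
  classical
  induction I using Finset.induction_on with
  | empty =>
    obtain ⟨t, ht, ε, h1, h2⟩ := h0
    exact ⟨t, ht, ε, h1, h2, by simp⟩
  | insert i I hi ih =>
    obtain ⟨t, ht, ε, h1, h2, h3⟩ := ih (fun j hj => h j (Finset.mem_insert_of_mem hj))
    obtain ⟨t', ht', ε', h1', h2', h3'⟩ := h i (Finset.mem_insert_self _ _)
    refine ⟨max t t', ?_, min ε ε', lt_min h1 h1', ?_, ?_⟩
    · rcases max_choice t t' with e | e <;> rw [e]
      · exact ht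
      · exact ht'
    · rcases min_choice ε ε' with e | e <;> rw [e]
      · exact h2
      · exact h2'
    · intro j hj
      rcases Finset.mem_insert.1 hj with rfl | hj
      · exact hmono _ _ _ _ _ (le_max_right _ _) (min_le_right _ _) h3'
      · exact hmono _ _ _ _ _ (le_max_left _ _) (min_le_left _ _) (h3 j hj)

/-- the shifts form a finitely generated group -/
lemma fg_half (M : Submodule ℤ Λ) (hM : M.FG) (U : Set Λ) (hU : ∀ u ∈ U, (2 : ℤ) • u ∈ M) :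
    ∃ U0 : Finset Λ, (U0 : Set Λ) ⊆ U ∧ Submodule.span ℤ U = Submodule.span ℤ (U0 : Set Λ) := by
  rw [← Submodule.fg_span_iff_fg_span_finset_subset]
  have : IsNoetherian ℤ M := isNoetherian_of_fg_of_noetherian M hM
  set N : Submodule ℤ Λ := M.comap ((2 : ℤ) • LinearMap.id) with hN
  have hUN : Submodule.span ℤ U ≤ N := by
    rw [Submodule.span_le]
    intro u hu
    exact hU u hu
  let φ : Submodule.span ℤ U →ₗ[ℤ] M :=
    { toFun := fun x => ⟨(2 : ℤ) • (x : Λ), hUN x.2⟩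
      map_add' := fun x y => by
        apply Subtype.ext
        simp
      map_smul' := fun r x => by
        apply Subtype.ext
        simp only [RingHom.id_apply, Submodule.coe_smul]
        rw [smul_comm] }
  have hφ : Function.Injective φ := by
    intro x y hxy
    have h1 : (2 : ℤ) • (x : Λ) = (2 : ℤ) • (y : Λ) := congrArg Subtype.val hxy
    apply Subtype.ext
    have h2 : (2 : ℤ) • ((x : Λ) - (y : Λ)) = 0 := by rw [smul_sub, h1, sub_self]
    rcases smul_eq_zero.1 h2 with h3 | h3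
    · exact absurd h3 (by norm_num)
    · exact sub_eq_zero.1 h3
  have : IsNoetherian ℤ (Submodule.span ℤ U) := isNoetherian_of_injective φ hφ
  exact (Submodule.fg_top _).1 (IsNoetherian.noetherian ⊤)

end Connect

open Connect

section Stab
variable {hT : IsTree D} {F Sg : Finset X} {L : Set (Letter X G)} {p q : X} {g : G}
  {w0 : List (Letter X G)}

theorem stab_conn (h : Cl hT F Sg L p q g w0)
    (hI : ∀ s ∈ JJ hT L p q g, ∃ t ∈ JJ hT L p q g, s < t ∧ ¬ Cc (JJ hT L p q g) (t - s)) :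
    ∃ ts ∈ JJ hT L p q g, ∃ εs, 0 < εs ∧ ¬ Cc (JJ hT L p q g) εs ∧
      (∀ σ ∈ Sg, ∀ σ' ∈ Sg, ¬ Cc (JJ hT L p q g) (D.d σ σ') → εs ≤ D.d σ σ') ∧
      ∀ v ∈ Sg, ∀ v' ∈ Sg, ∀ f ∈ F, ∀ f' ∈ F, ∀ κ, Cc (JJ hT L p q g) κ →
        ∀ t ∈ JJ hT L p q g, ∀ ε, 0 < ε → ¬ Cc (JJ hT L p q g) ε →
          Cn hT L (Cc (JJ hT L p q g)) t ε κ v f v' f' →
          ∃ c, Cc (JJ hT L p q g) c ∧ Cn hT L (Cc (JJ hT L p q g)) (ts + c) εs κ v f v' f' := by
  classical
  set J := JJ hT L p q g with hJ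
  have hC : Cvx (Cc J) :=
    { zero := Cc_zero J
      add := fun h1 h2 => Cc_add h1 h2 h.hG
      neg := fun h1 => Cc_neg h1
      convex := fun h1 h2 => Cc_convex h1 h2 h.hG }
  obtain ⟨t1, ht1, hlt, hnC⟩ := hI 0 JJ_zero
  have h0 : ∃ t ∈ J, ∃ ε, 0 < ε ∧ ¬ Cc J ε := ⟨0, JJ_zero, t1 - 0, sub_pos.2 hlt, hnC⟩
  have hmaxJ : ∀ {x y : Λ}, x ∈ J → y ∈ J → max x y ∈ J := by
    intro x y hx hy
    rcases max_choice x y with e | e <;> rw [e]
    · exact hx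
    · exact hy
  have hminC : ∀ {x y : Λ}, ¬ Cc J x → ¬ Cc J y → ¬ Cc J (min x y) := by
    intro x y hx hy
    rcases min_choice x y with e | e <;> rw [e]
    · exact hx
    · exact hy
  -- loops
  have hloop : ∀ v ∈ Sg, ∀ f ∈ F, ∃ t ∈ J, ∃ ε, 0 < ε ∧ ¬ Cc J ε ∧
      ∀ t1 ε1, t ≤ t1 → ε1 ≤ ε →
      ∀ κ, Cc J κ → (∃ t' ∈ J, ∃ ε', 0 < ε' ∧ ¬ Cc J ε' ∧ PP hT L (Cc J) t' ε' κ v f v f) →
        ∀ v' f' κ', PP hT L (Cc J) t1 ε1 κ' v f v' f' → PP hT L (Cc J) t1 ε1 κ v f v f := by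
    intro v hv f hf
    set U : Set Λ := {κ | Cc J κ ∧ ∃ t' ∈ J, ∃ ε', 0 < ε' ∧ ¬ Cc J ε' ∧
      PP hT L (Cc J) t' ε' κ v f v f} with hU
    obtain ⟨U0, hU0, hspan⟩ := fg_half (spanD D Sg) (spanD_fg Sg) U (by
      rintro u ⟨hu1, t', ht', ε', h1, h2, c, hc, h3⟩
      exact two_kappa hC h.hG h.al hv hf hv hf h1 hu1 h3)
    obtain ⟨t, ht, ε, hε, hε', hall⟩ := exists_common J h0 U0
      (fun κ t ε => PP hT L (Cc J) t ε κ v f v f)
      (fun κ t ε t' ε' h1 h2 h3 => PP_mono hC h1 h2 h3)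
      (fun κ hκ => (hU0 hκ).2)
    refine ⟨t, ht, ε, hε, hε', ?_⟩
    intro t1 ε1 ht1 hε1 κ hκ hex v' f' κ' hid
    have hid0 := PP_id (t' := t1) hC hid
    have hmem : κ ∈ Submodule.span ℤ (U0 : Set Λ) := by
      rw [← hspan]
      exact Submodule.subset_span ⟨hκ, hex⟩
    have key : ∀ x ∈ Submodule.span ℤ (U0 : Set Λ), Cc J x ∧ PP hT L (Cc J) t1 ε1 x v f v f := by
      intro x hx
      induction hx using Submodule.span_induction with
      | mem u hu => exact ⟨(hU0 hu).1, PP_mono hC ht1 hε1 (hall u hu)⟩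
      | zero => exact ⟨hC.zero, hid0⟩
      | add x y _ _ ihx ihy => exact ⟨hC.add ihx.1 ihy.1, PP_comp hC ihx.1 ihy.1 ihx.2 ihy.2⟩
      | smul a x _ ihx =>
        induction a using Int.induction_on with
        | zero => rw [zero_smul]; exact ⟨hC.zero, hid0⟩
        | succ n ih =>
          rw [add_smul, one_smul]
          exact ⟨hC.add ih.1 ihx.1, PP_comp hC ih.1 ihx.1 ih.2 ihx.2⟩
        | pred n ih =>
          rw [sub_smul, one_smul, sub_eq_add_neg]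
          exact ⟨hC.add ih.1 (hC.neg ihx.1), PP_comp hC ih.1 (hC.neg ihx.1) ih.2
            (PP_inv hC h.hG h.al.inv ihx.1 ihx.2)⟩
    exact (key κ hmem).2
  -- all morphisms
  have hmor : ∀ i ∈ (Sg ×ˢ F) ×ˢ (Sg ×ˢ F), ∃ t ∈ J, ∃ ε, 0 < ε ∧ ¬ Cc J ε ∧
      ∀ κ, Cc J κ → (∃ t' ∈ J, ∃ ε', 0 < ε' ∧ ¬ Cc J ε' ∧
        PP hT L (Cc J) t' ε' κ i.1.1 i.1.2 i.2.1 i.2.2) →
          PP hT L (Cc J) t ε κ i.1.1 i.1.2 i.2.1 i.2.2 := by
    rintro ⟨⟨v, f⟩, ⟨v', f'⟩⟩ hi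
    simp only [Finset.mem_product] at hi
    obtain ⟨⟨hv, hf⟩, ⟨hv', hf'⟩⟩ := hi
    dsimp only
    by_cases hex : ∃ κ, Cc J κ ∧ ∃ t' ∈ J, ∃ ε', 0 < ε' ∧ ¬ Cc J ε' ∧
        PP hT L (Cc J) t' ε' κ v f v' f'
    · obtain ⟨κ0, hκ0, t0, ht0, ε0, hε0, hε0', hP0⟩ := hex
      obtain ⟨t2, ht2, ε2, hε2, hε2', hl⟩ := hloop v hv f hf
      refine ⟨max t0 t2, hmaxJ ht0 ht2, min ε0 ε2, lt_min hε0 hε2, hminC hε0' hε2', ?_⟩
      intro κ hκ hexκ
      obtain ⟨t', ht', ε', hε', hε'', hP⟩ := hexκ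
      have hP0s : PP hT L (Cc J) (max t0 t2) (min ε0 ε2) κ0 v f v' f' :=
        PP_mono hC (le_max_left _ _) (min_le_left _ _) hP0
      -- the loop
      have hd : Cc J (κ + -κ0) := hC.add hκ (hC.neg hκ0)
      have hloop' : ∃ t' ∈ J, ∃ ε', 0 < ε' ∧ ¬ Cc J ε' ∧
          PP hT L (Cc J) t' ε' (κ + -κ0) v f v f := by
        refine ⟨max t0 t', hmaxJ ht0 ht', min ε0 ε', lt_min hε0 hε', hminC hε0' hε'', ?_⟩
        refine PP_comp hC hκ (hC.neg hκ0) (PP_mono hC (le_max_right _ _) (min_le_right _ _) hP) ?_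
        exact PP_inv hC h.hG h.al.inv hκ0 (PP_mono hC (le_max_left _ _) (min_le_left _ _) hP0)
      have h3 := hl (max t0 t2) (min ε0 ε2) (le_max_right _ _) (min_le_right _ _) _ hd hloop'
        v' f' κ0 hP0s
      have h4 := PP_comp hC hd hκ0 h3 hP0s
      rwa [neg_add_cancel_right] at h4
    · refine ⟨0, JJ_zero, t1 - 0, sub_pos.2 hlt, hnC, ?_⟩
      intro κ hκ hexκ
      exact absurd ⟨κ, hκ, hexκ⟩ hex
  -- distances
  obtain ⟨ta, hta, εa, hεa, hεa', halla⟩ := exists_common J h0 (Sg ×ˢ Sg)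
    (fun i t ε => ¬ Cc J (D.d i.1 i.2) → ε ≤ D.d i.1 i.2)
    (fun i t ε t' ε' h1 h2 h3 h4 => h2.trans (h3 h4)) (by
      rintro ⟨σ, σ'⟩ hi
      dsimp only
      by_cases hc : Cc J (D.d σ σ')
      · obtain ⟨t, ht, ε, h1, h2⟩ := h0
        exact ⟨t, ht, ε, h1, h2, fun h3 => absurd hc h3⟩
      · refine ⟨0, JJ_zero, D.d σ σ', ?_, hc, fun _ => le_rfl⟩
        rcases (D.nonneg σ σ').lt_or_eq with h3 | h3
        · exact h3
        · exact absurd (h3 ▸ hC.zero) hc)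
  obtain ⟨tb, htb, εb, hεb, hεb', hallb⟩ := exists_common J h0 ((Sg ×ˢ F) ×ˢ (Sg ×ˢ F))
    (fun i t ε => ∀ κ, Cc J κ → (∃ t' ∈ J, ∃ ε', 0 < ε' ∧ ¬ Cc J ε' ∧
        PP hT L (Cc J) t' ε' κ i.1.1 i.1.2 i.2.1 i.2.2) →
          PP hT L (Cc J) t ε κ i.1.1 i.1.2 i.2.1 i.2.2)
    (fun i t ε t' ε' h1 h2 h3 κ h4 h5 => PP_mono hC h1 h2 (h3 κ h4 h5)) hmor
  refine ⟨max ta tb, hmaxJ hta htb, min εa εb, lt_min hεa hεb, hminC hεa' hεb', ?_, ?_⟩
  · intro σ hσ σ' hσ' h3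
    exact (min_le_left _ _).trans (halla (σ, σ') (Finset.mem_product.2 ⟨hσ, hσ'⟩) h3)
  · intro v hv v' hv' f hf f' hf' κ hκ t ht ε hε hε' hcn
    have hP : PP hT L (Cc J) t ε κ v f v' f' := ⟨0, hC.zero, by rwa [add_zero]⟩
    have h3 := hallb ((v, f), (v', f')) (by simp [hv, hf, hv', hf']) κ hκ ⟨t, ht, ε, hε, hε', hP⟩
    exact PP_mono hC (le_max_right _ _) (min_le_right _ _) h3

end Stab

end LTree.Idx
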