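import Pool.Agent.Work.MP_0c526b_al.Idx.Basics

/-!
# Euler characteristic of the hull
-/

set_option autoImplicit false

namespace LTree.Idx

open LTree

variable {Λ : Type*} [AddCommGroup Λ] [LinearOrder Λ] [IsOrderedAddMonoid Λ] {X : Type*}
variable {D : Dist Λ X}

/-- The nearest point of `V` before `y` on the way from `o`. -/
lemma exists_par {V : Finset X} {o y : X} (ho : o ∈ V) (hy : y ≠ o) :
    ∃ x ∈ V, x ≠ y ∧ Btw D o x y ∧ ∀ z ∈ V, z ≠ y → Btw D o z y → D.d o z ≤ D.d o x := by
  classical
  obtain ⟨x, hx, hmax⟩ := (V.filter (fun z => z ≠ y ∧ Btw D o z y)).exists_max_image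
    (fun z => D.d o z) ⟨o, Finset.mem_filter.2 ⟨ho, hy.symm, btw_left _ _⟩⟩
  obtain ⟨h1, h2, h3⟩ := Finset.mem_filter.1 hx
  exact ⟨x, h1, h2, h3, fun z hz hzy hb => hmax z (Finset.mem_filter.2 ⟨hz, hzy, hb⟩)⟩

open Classical in
/-- `o` lies in exactly one direction at `x ≠ o`. -/
lemma card_dirs_split (hT : IsTree D) {F : Finset X} {o x : X} (ho : o ∈ hull D F) :
    (dirs D F x).card = ((dirs D F x).filter (fun d => o ∉ d)).card + (if x = o then 0 else 1) := by
  have h1 := Finset.card_filter_add_card_filter_not (s := dirs D F x) (fun d : Set X => o ∉ d)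
  rw [← h1]
  congr 1
  split_ifs with h
  · subst h
    rw [Finset.card_eq_zero, Finset.filter_eq_empty_iff]
    intro d hd hn
    obtain ⟨f, hf, hne, rfl⟩ := mem_dirs.1 hd
    rw [not_not] at hn
    exact mem_drn.1 hn (btw_left _ _)
  · rw [Finset.card_eq_one]
    refine ⟨drn D x o, ?_⟩
    ext d
    rw [Finset.mem_filter, Finset.mem_singleton, not_not]
    constructor
    · rintro ⟨hd, hn⟩
      obtain ⟨f, hf, hne, rfl⟩ := mem_dirs.1 hd
      rw [drn_eq_iff hT hne (Ne.symm h)]
      exact fun hb => mem_drn.1 hn hb.symm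
    · rintro rfl
      refine ⟨drn_mem_dirs hT ho (Ne.symm h), ?_⟩
      rw [mem_drn]
      intro hb
      have h2 := D.d_self o
      have h3 := D.nonneg o x
      have h4 := D.nonneg x o
      apply h
      apply D.eq_of_d
      unfold Btw at hb
      grind

theorem euler (hT : IsTree D) {F V : Finset X} (hF : F.Nonempty) (hV : Sk D F V) :
    ∑ x ∈ V, (dirs D F x).card + 2 = 2 * V.card := by
  classical
  obtain ⟨o, hoF⟩ := hF
  have ho : o ∈ V := hV.F_sub hoF
  have hoH : o ∈ hull D F := subset_hull hoF
  have key : (V.erase o).card =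
      (V.sigma (fun x => (dirs D F x).filter (fun d : Set X => o ∉ d))).card := by
    have hp : ∀ y ∈ V.erase o, ∃ x ∈ V, x ≠ y ∧ Btw D o x y ∧
        ∀ z ∈ V, z ≠ y → Btw D o z y → D.d o z ≤ D.d o x :=
      fun y hy => exists_par ho (Finset.mem_erase.1 hy).1
    choose! par hpV hpne hpb hpmax using hp
    refine Finset.card_bij (fun y _ => (⟨par y, drn D (par y) y⟩ : Σ _ : X, Set X)) ?_ ?_ ?_
    · intro y hy
      have hy' := Finset.mem_erase.1 hy
      rw [Finset.mem_sigma]
      refine ⟨hpV y hy, Finset.mem_filter.2 ⟨drn_mem_dirs hT (hV.sub y hy'.2)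
        (hpne y hy).symm, ?_⟩⟩
      rw [mem_drn, not_not]
      exact hpb y hy
    · intro y1 hy1 y2 hy2 he
      have he1 : par y1 = par y2 := congrArg Sigma.fst he
      have he2 : drn D (par y1) y1 = drn D (par y2) y2 := by
        have := congrArg Sigma.snd he
        simpa using this
      have hy1' := Finset.mem_erase.1 hy1
      have hy2' := Finset.mem_erase.1 hy2
      rw [← he1] at he2
      have hnb : ¬ Btw D y1 (par y1) y2 := by
        rwa [drn_eq_iff hT (hpne y1 hy1).symm (by rw [he1]; exact (hpne y2 hy2).symm)] at he2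
      have hm := med_spec hT (par y1) y1 y2
      set m := med hT (par y1) y1 y2 with hmdef
      have hmV : m ∈ V := hV.med_mem hT (hpV y1 hy1) hy1'.2 hy2'.2 hm
      have hmx : m ≠ par y1 := by
        intro e
        have := hm.2.1
        rw [e] at this
        exact hnb this
      have hpos : 0 < D.d (par y1) m := by
        rcases (D.nonneg (par y1) m).eq_or_lt with h | h
        · exact absurd (D.eq_of_d _ _ h.symm).symm hmx
        · exact h
      have main : ∀ y ∈ V.erase o, par y = par y1 → Btw D (par y1) m y → m = y := by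
        intro y hy hpy hb
        by_contra hne
        have hb1 := hpb y hy
        rw [hpy] at hb1
        have h3 : Btw D o m y := (btw_trans hb1 hb).1
        have h4 := hpmax y hy m hmV hne h3
        rw [hpy] at h4
        unfold Btw at *
        grind
      have e1 := main y1 hy1 rfl hm.1
      have e2 := main y2 hy2 he1.symm hm.2.2
      rw [← e1, ← e2]
    · rintro ⟨x, d⟩ hxd
      rw [Finset.mem_sigma, Finset.mem_filter] at hxd
      obtain ⟨hx, hd, hod⟩ := hxd
      simp only at hx hd hod
      obtain ⟨f, hf, hfx, hdf⟩ := mem_dirs.1 hd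
      obtain ⟨y, hy, hmin⟩ := (V.filter (fun z => z ≠ x ∧ drn D x z = d)).exists_min_image
        (fun z => D.d x z) ⟨f, Finset.mem_filter.2 ⟨hV.F_sub hf, hfx, hdf.symm⟩⟩
      obtain ⟨hyV, hyx, hyd⟩ := Finset.mem_filter.1 hy
      have hb : Btw D o x y := by
        rw [← hyd, mem_drn, not_not] at hod
        exact hod
      have hyo : y ≠ o := by
        rintro rfl
        apply hyx
        have h2 := D.d_self y
        have h3 := D.nonneg y x
        have h4 := D.nonneg x y
        apply D.eq_of_d
        unfold Btw at hb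
        grind
      have hyE : y ∈ V.erase o := Finset.mem_erase.2 ⟨hyo, hyV⟩
      have hpx : par y = x := by
        by_contra hne
        have h1 := hpmax y hyE x hx hyx.symm hb
        have h2 := hpb y hyE
        have hd1 := btw_dist hT hb h2
        have h5 : Btw D x (par y) y := by
          unfold Btw at *
          grind
        have h3 : drn D x (par y) = d := by
          rw [drn_eq_of_btw hT h5 hne]; exact hyd
        have h4 := hmin (par y) (Finset.mem_filter.2 ⟨hpV y hyE, hne, h3⟩)
        have h6 : D.d (par y) y ≤ 0 := by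
          unfold Btw at h5
          have := D.nonneg (par y) y
          grind
        have h7 := D.nonneg (par y) y
        exact hpne y hyE (D.eq_of_d _ _ (le_antisymm h6 h7))
      refine ⟨y, hyE, ?_⟩
      rw [hpx, hyd]
  have hsum : ∑ x ∈ V, (dirs D F x).card =
      (V.sigma (fun x => (dirs D F x).filter (fun d : Set X => o ∉ d))).card + (V.card - 1) := by
    rw [Finset.card_sigma]
    have h1 : ∑ x ∈ V, (dirs D F x).card = ∑ x ∈ V,
        (((dirs D F x).filter (fun d : Set X => o ∉ d)).card + (if x = o then 0 else 1)) :=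
      Finset.sum_congr rfl (fun x _ => card_dirs_split hT hoH)
    rw [h1, Finset.sum_add_distrib]
    congr 1
    have h2 : ∑ x ∈ V, (if x = o then 0 else 1) = ∑ x ∈ V.erase o, 1 := by
      rw [← Finset.add_sum_erase V _ ho, if_pos rfl, zero_add]
      refine Finset.sum_congr rfl ?_
      intro x hx
      rw [if_neg (Finset.mem_erase.1 hx).1]
    rw [h2, Finset.sum_const, smul_eq_mul, mul_one, Finset.card_erase_of_mem ho]
  have hc : 0 < V.card := Finset.card_pos.2 ⟨o, ho⟩
  rw [hsum, ← key, Finset.card_erase_of_mem ho]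
  omega

end LTree.Idx
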