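import Pool.Agent.Work.MP_0c526b_al.Idx.Basics
import Pool.Agent.Work.MP_0c526b_al.Idx.Euler
import Pool.Agent.Work.MP_0c526b_al.Idx.Ncl

/-!
# The count
-/

set_option autoImplicit false
set_option linter.unusedVariables false
set_option linter.unusedSectionVars false

namespace LTree.Idx

open LTree

variable {Λ : Type*} [AddCommGroup Λ] [LinearOrder Λ] [IsOrderedAddMonoid Λ] {X : Type*}
variable {D : Dist Λ X} {G : Type*} [Group G] [MulAction G X]

lemma mem_HV {F V : Finset X} {x : X} {d : Set X} :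
    (x, d) ∈ HV D F V ↔ x ∈ V ∧ d ∈ dirs D F x := by
  classical
  unfold HV
  simp only [Finset.mem_biUnion, Finset.mem_image, Prod.mk.injEq]
  constructor
  · rintro ⟨y, hy, c, hc, rfl, rfl⟩
    exact ⟨hy, hc⟩
  · rintro ⟨hx, hd⟩
    exact ⟨x, hx, d, hd, rfl, rfl⟩

lemma card_HV (F V : Finset X) : (HV D F V).card = ∑ x ∈ V, (dirs D F x).card := by
  classical
  unfold HV
  rw [Finset.card_biUnion]
  · apply Finset.sum_congr rfl
    intro x _
    apply Finset.card_image_of_injective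
    intro d d' h
    exact (Prod.mk.inj h).2
  · intro x _ y _ hxy
    rw [Function.onFun, Finset.disjoint_left]
    intro u hu hu'
    simp only [Finset.mem_image] at hu hu'
    obtain ⟨c, _, rfl⟩ := hu
    obtain ⟨c', _, h⟩ := hu'
    exact hxy (Prod.mk.inj h).1.symm

theorem Phi_empty (hT : IsTree D) {F V : Finset X} (hF : F.Nonempty) (hV : Sk D F V) :
    Phi D F V (∅ : Set (Edge X G)) = -2 := by
  unfold Phi
  rw [ncl_bot _ _ (fun x y => ?_), ncl_bot _ _ (fun x y => ?_), card_HV]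
  · have h := euler hT hF hV
    have h' : ((∑ x ∈ V, (dirs D F x).card : ℕ) : ℤ) + 2 = 2 * (V.card : ℤ) := by
      exact_mod_cast h
    linarith
  · rintro ⟨e, he, _⟩
    exact he
  · rintro ⟨e, he, _⟩
    exact he

lemma sm_inj {g : G} {d d' : Set X} (h : sm g d = sm g d') : d = d' := by
  have h1 : sm g⁻¹ (sm g d) = sm g⁻¹ (sm g d') := by rw [h]
  rwa [← sm_mul, ← sm_mul, inv_mul_cancel, sm_one, sm_one] at h1

/-- Connected directions at the same point are equal. -/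
theorem rH_same (hG : FreeAct D G) {E : Set (Edge X G)} {x y : X} {d d' : Set X}
    (h : Relation.EqvGen (rH D E) (x, d) (y, d')) :
    (∃ g : G, y = g • x ∧ d' = sm g d) ∧ Relation.EqvGen (rV E) x y ∧ (x = y → d = d') := by
  have key : ∀ u v : X × Set X, Relation.EqvGen (rH D E) u v →
      (∃ g : G, v.1 = g • u.1 ∧ v.2 = sm g u.2) ∧ Relation.EqvGen (rV E) u.1 v.1 := by
    intro u v huv
    induction huv with
    | rel u v hr =>
      obtain ⟨e, he, h1, h2, h3⟩ := hr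
      refine ⟨⟨e.h, ?_, ?_⟩, Relation.EqvGen.rel _ _ ⟨e, he, h1.symm, ?_⟩⟩
      · rw [h3, h1]
      · rw [h3]
      · rw [h3]
    | refl u => exact ⟨⟨1, (one_smul _ _).symm, (sm_one _).symm⟩, Relation.EqvGen.refl _⟩
    | symm u v _ ih =>
      obtain ⟨⟨g, h1, h2⟩, h3⟩ := ih
      refine ⟨⟨g⁻¹, ?_, ?_⟩, h3.symm _ _⟩
      · rw [h1, inv_smul_smul]
      · rw [h2, ← sm_mul, inv_mul_cancel, sm_one]
    | trans u v w _ _ ih1 ih2 =>
      obtain ⟨⟨g, h1, h2⟩, h3⟩ := ih1
      obtain ⟨⟨g', h1', h2'⟩, h3'⟩ := ih2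
      refine ⟨⟨g' * g, ?_, ?_⟩, h3.trans _ _ _ h3'⟩
      · rw [h1', h1, mul_smul]
      · rw [h2', h2, sm_mul]
  obtain ⟨⟨g, h1, h2⟩, h3⟩ := key _ _ h
  refine ⟨⟨g, h1, h2⟩, h3, ?_⟩
  intro hxy
  have h4 : g • x = x := by
    have : y = g • x := h1
    rw [← this, hxy]
  have h5 : g = 1 := hG.free g x h4
  have : d' = sm g d := h2
  rw [this, h5, sm_one]

section Insert

variable {E : Set (Edge X G)} {e : Edge X G}

lemma rV_insert (x y : X) :
    rV (insert e E) x y ↔ rV E x y ∨ (x = e.x ∧ y = e.h • e.x) := by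
  unfold rV
  constructor
  · rintro ⟨e', rfl | he', h1, h2⟩
    · exact Or.inr ⟨h1.symm, h2⟩
    · exact Or.inl ⟨e', he', h1, h2⟩
  · rintro (⟨e', he', h1, h2⟩ | ⟨h1, h2⟩)
    · exact ⟨e', Or.inr he', h1, h2⟩
    · exact ⟨e, Or.inl rfl, h1.symm, h2⟩

/-- The links of an edge in a set of directions. -/
def lnk (e : Edge X G) (S : Finset (Set X)) : X × Set X → X × Set X → Prop :=
  fun u v => ∃ d ∈ S, u = (e.x, d) ∧ v = (e.h • e.x, sm e.h d)

/-- The relation with some of the links of an edge added. -/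
def rHS (D : Dist Λ X) (E : Set (Edge X G)) (e : Edge X G) (S : Finset (Set X)) :
    X × Set X → X × Set X → Prop := fun u v => rH D E u v ∨ lnk e S u v

lemma rHS_empty : rHS D E e ∅ = rH D E := by
  funext u v
  apply propext
  constructor
  · rintro (h | ⟨d, hd, _⟩)
    · exact h
    · exact absurd hd (Finset.notMem_empty d)
  · exact Or.inl

lemma rH_insert (S : Finset (Set X)) (hS : ∀ d, d ∈ S ↔ d ∈ e.dset D) :
    rH D (insert e E) = rHS D E e S := by
  funext u v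
  apply propext
  constructor
  · rintro ⟨e', rfl | he', h1, h2, h3⟩
    · exact Or.inr ⟨u.2, (hS _).2 h2, by rw [← h1], h3⟩
    · exact Or.inl ⟨e', he', h1, h2, h3⟩
  · rintro (⟨e', he', h1, h2, h3⟩ | ⟨d, hd, rfl, rfl⟩)
    · exact ⟨e', Or.inr he', h1, h2, h3⟩
    · exact ⟨e, Or.inl rfl, rfl, (hS _).1 hd, rfl⟩

lemma rHS_cases (hG : FreeAct D G) (hc : ¬ Relation.EqvGen (rV E) e.x (e.h • e.x))
    {S : Finset (Set X)} {u v : X × Set X} (h : Relation.EqvGen (rHS D E e S) u v) :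
    Relation.EqvGen (rH D E) u v ∨ ∃ s ∈ S,
      (Relation.EqvGen (rH D E) u (e.x, s) ∧
        Relation.EqvGen (rH D E) (e.h • e.x, sm e.h s) v) ∨
      (Relation.EqvGen (rH D E) u (e.h • e.x, sm e.h s) ∧
        Relation.EqvGen (rH D E) (e.x, s) v) := by
  induction h with
  | rel u v hr =>
    rcases hr with hr | ⟨d, hd, rfl, rfl⟩
    · exact Or.inl (Relation.EqvGen.rel _ _ hr)
    · exact Or.inr ⟨d, hd, Or.inl ⟨Relation.EqvGen.refl _, Relation.EqvGen.refl _⟩⟩
  | refl u => exact Or.inl (Relation.EqvGen.refl _)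
  | symm u v _ ih =>
    rcases ih with ih | ⟨s, hs, ⟨h1, h2⟩ | ⟨h1, h2⟩⟩
    · exact Or.inl (ih.symm _ _)
    · exact Or.inr ⟨s, hs, Or.inr ⟨h2.symm _ _, h1.symm _ _⟩⟩
    · exact Or.inr ⟨s, hs, Or.inl ⟨h2.symm _ _, h1.symm _ _⟩⟩
  | trans u v w _ _ ih1 ih2 =>
    rcases ih1 with ih1 | ⟨s, hs, ⟨h1, h2⟩ | ⟨h1, h2⟩⟩
    · rcases ih2 with ih2 | ⟨s', hs', ⟨h1', h2'⟩ | ⟨h1', h2'⟩⟩
      · exact Or.inl (ih1.trans _ _ _ ih2)
      · exact Or.inr ⟨s', hs', Or.inl ⟨ih1.trans _ _ _ h1', h2'⟩⟩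
      · exact Or.inr ⟨s', hs', Or.inr ⟨ih1.trans _ _ _ h1', h2'⟩⟩
    · rcases ih2 with ih2 | ⟨s', hs', ⟨h1', h2'⟩ | ⟨h1', h2'⟩⟩
      · exact Or.inr ⟨s, hs, Or.inl ⟨h1, h2.trans _ _ _ ih2⟩⟩
      · exact absurd ((rH_same hG (h2.trans _ _ _ h1')).2.1.symm _ _) hc
      · have h3 := (rH_same hG (h2.trans _ _ _ h1')).2.2 rfl
        have h4 : s = s' := sm_inj h3
        subst h4
        exact Or.inl (h1.trans _ _ _ h2')
    · rcases ih2 with ih2 | ⟨s', hs', ⟨h1', h2'⟩ | ⟨h1', h2'⟩⟩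
      · exact Or.inr ⟨s, hs, Or.inr ⟨h1, h2.trans _ _ _ ih2⟩⟩
      · have h4 : s = s' := (rH_same hG (h2.trans _ _ _ h1')).2.2 rfl
        subst h4
        exact Or.inl (h1.trans _ _ _ h2')
      · exact absurd (rH_same hG (h2.trans _ _ _ h1')).2.1 hc

lemma ncl_rHS (hG : FreeAct D G) (hc : ¬ Relation.EqvGen (rV E) e.x (e.h • e.x))
    {F V : Finset X} (S : Finset (Set X)) (h1 : ∀ d ∈ S, (e.x, d) ∈ HV D F V)
    (h2 : ∀ d ∈ S, (e.h • e.x, sm e.h d) ∈ HV D F V) :
    ncl (rHS D E e S) (HV D F V) + S.card = ncl (rH D E) (HV D F V) := by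
  classical
  induction S using Finset.induction_on with
  | empty => rw [rHS_empty]; simp
  | insert d S hd ih =>
    have ih' := ih (fun c hc => h1 c (Finset.mem_insert_of_mem hc))
      (fun c hc => h2 c (Finset.mem_insert_of_mem hc))
    rw [← ih', Finset.card_insert_of_notMem hd]
    have key : ncl (rHS D E e (insert d S)) (HV D F V) + 1 = ncl (rHS D E e S) (HV D F V) := by
      refine ncl_add (a := (e.x, d)) (b := (e.h • e.x, sm e.h d)) ?_ _
        (h1 d (Finset.mem_insert_self _ _)) (h2 d (Finset.mem_insert_self _ _)) ?_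
      · intro u v
        constructor
        · rintro (h | ⟨c, hc', rfl, rfl⟩)
          · exact Or.inl (Or.inl h)
          · rcases Finset.mem_insert.1 hc' with rfl | hc'
            · exact Or.inr ⟨rfl, rfl⟩
            · exact Or.inl (Or.inr ⟨c, hc', rfl, rfl⟩)
        · rintro ((h | ⟨c, hc', rfl, rfl⟩) | ⟨rfl, rfl⟩)
          · exact Or.inl h
          · exact Or.inr ⟨c, Finset.mem_insert_of_mem hc', rfl, rfl⟩
          · exact Or.inr ⟨d, Finset.mem_insert_self _ _, rfl, rfl⟩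
      · intro h
        rcases rHS_cases hG hc h with h | ⟨s, hs, ⟨h3, h4⟩ | ⟨h3, h4⟩⟩
        · exact hc (rH_same hG h).2.1
        · have : d = s := (rH_same hG h3).2.2 rfl
          exact hd (this ▸ hs)
        · exact hc (rH_same hG h3).2.1
    omega

lemma ncl_rV_conn (V : Finset X) (hc : Relation.EqvGen (rV E) e.x (e.h • e.x)) :
    ncl (rV (insert e E)) V = ncl (rV E) V := by
  apply ncl_congr
  intro x y
  constructor
  · intro h
    induction h with
    | rel x y hr =>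
      rcases (rV_insert x y).1 hr with hr | ⟨rfl, rfl⟩
      · exact Relation.EqvGen.rel _ _ hr
      · exact hc
    | refl x => exact Relation.EqvGen.refl _
    | symm x y _ ih => exact ih.symm _ _
    | trans x y z _ _ ih1 ih2 => exact ih1.trans _ _ _ ih2
  · intro h
    exact Relation.EqvGen.mono (fun x y hr => (rV_insert x y).2 (Or.inl hr)) _ _ h

lemma rH_mono {E E' : Set (Edge X G)} (h : E ⊆ E') {u v : X × Set X} (huv : rH D E u v) :
    rH D E' u v := by
  obtain ⟨e', he', h1⟩ := huv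
  exact ⟨e', h he', h1⟩

lemma dset_finite (D : Dist Λ X) (e : Edge X G) : (e.dset D).Finite := by
  apply Set.Finite.subset (Set.toFinite {drn D e.x e.a, drn D e.x e.b})
  rintro d (⟨_, rfl⟩ | ⟨_, rfl⟩)
  · exact Or.inl rfl
  · exact Or.inr rfl

lemma dset_ncard (D : Dist Λ X) (e : Edge X G) : (e.dset D).ncard ≤ 2 := by
  classical
  have h : e.dset D ⊆ (({drn D e.x e.a, drn D e.x e.b} : Finset (Set X)) : Set (Set X)) := by
    rintro d (⟨_, rfl⟩ | ⟨_, rfl⟩) <;> simp
  calc (e.dset D).ncard ≤ (({drn D e.x e.a, drn D e.x e.b} : Finset (Set X)) :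
        Set (Set X)).ncard := Set.ncard_le_ncard h (Finset.finite_toSet _)
    _ = ({drn D e.x e.a, drn D e.x e.b} : Finset (Set X)).card := Set.ncard_coe_finset _
    _ ≤ 2 := Finset.card_le_two

/-- The directions of an edge and their images are directions of the hull. -/
lemma dset_mem (hT : IsTree D) (hG : FreeAct D G) {F : Finset X}
    (ha : e.a ∈ hull D F) (hb : e.b ∈ hull D F) (ga : e.h • e.a ∈ hull D F)
    (gb : e.h • e.b ∈ hull D F) {d : Set X} (hd : d ∈ e.dset D) :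
    d ∈ dirs D F e.x ∧ sm e.h d ∈ dirs D F (e.h • e.x) := by
  rcases hd with ⟨hne, rfl⟩ | ⟨hne, rfl⟩
  · refine ⟨drn_mem_dirs hT ha hne, ?_⟩
    rw [sm_drn hG]
    exact drn_mem_dirs hT ga (fun h => hne (MulAction.injective e.h h))
  · refine ⟨drn_mem_dirs hT hb hne, ?_⟩
    rw [sm_drn hG]
    exact drn_mem_dirs hT gb (fun h => hne (MulAction.injective e.h h))

end Insert

/-- Adding an edge whose end points are connected already. -/
theorem Phi_insert_conn (hT : IsTree D) (hG : FreeAct D G) {F V : Finset X} (hV : Sk D F V)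
    {E : Set (Edge X G)} (e : Edge X G) (h1 : e.x ∈ V) (h2 : e.h • e.x ∈ V)
    (ha : e.a ∈ hull D F) (hb : e.b ∈ hull D F) (ga : e.h • e.a ∈ hull D F)
    (gb : e.h • e.b ∈ hull D F) (hx : Btw D e.a e.x e.b)
    (hc : Relation.EqvGen (rV E) e.x (e.h • e.x)) :
    Phi D F V (insert e E) ≤ Phi D F V E := by
  unfold Phi
  rw [ncl_rV_conn V hc]
  have h3 : ncl (rH D (insert e E)) (HV D F V) ≤ ncl (rH D E) (HV D F V) :=
    ncl_mono (fun u v huv => Relation.EqvGen.rel _ _
      (rH_mono (Set.subset_insert _ _) huv)) _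
  have h4 : ((ncl (rH D (insert e E)) (HV D F V) : ℕ) : ℤ) ≤ ncl (rH D E) (HV D F V) := by
    exact_mod_cast h3
  linarith

/-- Adding an edge: general bound. -/
theorem Phi_insert (hT : IsTree D) (hG : FreeAct D G) {F V : Finset X} (hV : Sk D F V)
    {E : Set (Edge X G)} (e : Edge X G) (h1 : e.x ∈ V) (h2 : e.h • e.x ∈ V)
    (ha : e.a ∈ hull D F) (hb : e.b ∈ hull D F) (ga : e.h • e.a ∈ hull D F)
    (gb : e.h • e.b ∈ hull D F) (hx : Btw D e.a e.x e.b) :
    Phi D F V (insert e E) + ((e.dset D).ncard : ℤ) ≤ Phi D F V E + 2 := by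
  by_cases hc : Relation.EqvGen (rV E) e.x (e.h • e.x)
  · have h3 := Phi_insert_conn hT hG hV e h1 h2 ha hb ga gb hx hc
    have h4 : ((e.dset D).ncard : ℤ) ≤ 2 := by exact_mod_cast dset_ncard D e
    linarith
  · have h3 := ncl_add (r := rV E) (r' := rV (insert e E)) (a := e.x) (b := e.h • e.x)
      (fun x y => rV_insert x y) V h1 h2 hc
    have hS : ∀ d, d ∈ (dset_finite D e).toFinset ↔ d ∈ e.dset D := by
      intro d
      simp
    have h4 := ncl_rHS (D := D) (F := F) (V := V) hG hc (dset_finite D e).toFinset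
      (fun d hd => mem_HV.2 ⟨h1, (dset_mem hT hG ha hb ga gb ((hS d).1 hd)).1⟩)
      (fun d hd => mem_HV.2 ⟨h2, (dset_mem hT hG ha hb ga gb ((hS d).1 hd)).2⟩)
    rw [← rH_insert _ hS, ← Set.ncard_eq_toFinset_card _ (dset_finite D e)] at h4
    unfold Phi
    omega

/-- Adding an edge whose end points are connected already, but not one of its directions. -/
theorem Phi_insert_merge (hT : IsTree D) (hG : FreeAct D G) {F V : Finset X} (hV : Sk D F V)
    {E : Set (Edge X G)} (e : Edge X G) (h1 : e.x ∈ V) (h2 : e.h • e.x ∈ V)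
    (ha : e.a ∈ hull D F) (hb : e.b ∈ hull D F) (ga : e.h • e.a ∈ hull D F)
    (gb : e.h • e.b ∈ hull D F) (hx : Btw D e.a e.x e.b)
    (hc : Relation.EqvGen (rV E) e.x (e.h • e.x))
    (hd : ∃ d ∈ e.dset D, ¬ Relation.EqvGen (rH D E) (e.x, d) (e.h • e.x, sm e.h d)) :
    Phi D F V (insert e E) + 1 ≤ Phi D F V E := by
  obtain ⟨d, hd, hn⟩ := hd
  obtain ⟨m1, m2⟩ := dset_mem hT hG ha hb ga gb hd
  have h3 := ncl_add (r := rH D E) (r' := rHS D E e {d}) (a := (e.x, d))
    (b := (e.h • e.x, sm e.h d)) (by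
      intro u v
      constructor
      · rintro (h | ⟨c, hc', rfl, rfl⟩)
        · exact Or.inl h
        · rw [Finset.mem_singleton] at hc'
          subst hc'
          exact Or.inr ⟨rfl, rfl⟩
      · rintro (h | ⟨rfl, rfl⟩)
        · exact Or.inl h
        · exact Or.inr ⟨d, Finset.mem_singleton_self _, rfl, rfl⟩)
    (HV D F V) (mem_HV.2 ⟨h1, m1⟩) (mem_HV.2 ⟨h2, m2⟩) hn
  have h4 : ncl (rH D (insert e E)) (HV D F V) ≤ ncl (rHS D E e {d}) (HV D F V) := by
    apply ncl_mono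
    rintro u v (huv | ⟨c, hc', rfl, rfl⟩)
    · exact Relation.EqvGen.rel _ _ (rH_mono (Set.subset_insert _ _) huv)
    · rw [Finset.mem_singleton] at hc'
      subst hc'
      exact Relation.EqvGen.rel _ _ ⟨e, Or.inl rfl, rfl, hd, rfl⟩
  unfold Phi
  rw [ncl_rV_conn V hc]
  omega

end LTree.Idx
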