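import Pool.Agent.Work.MP_0c526b_al.Hull

/-!
# Index theorem for free actions on trees over ordered abelian groups: definitions

Paper proof: note of helper81 (kind plan) on MP_0c526b_al.
-/

set_option autoImplicit false

namespace LTree.Idx

open LTree

variable {Λ : Type*} [AddCommGroup Λ] [LinearOrder Λ] [IsOrderedAddMonoid Λ] {X : Type*}
variable {D : Dist Λ X} {G : Type*} [Group G] [MulAction G X]

/-! ### Points on segments, medians, directions -/

/-- The point of the segment `[p,q]` at distance `t` from `p` (junk value `p` outside the range). -/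
noncomputable def pt (hT : IsTree D) (p q : X) (t : Λ) : X := by
  classical
  exact if h : 0 ≤ t ∧ t ≤ D.d p q then (exists_btw hT h.1 h.2).choose else p

/-- The median of three points. -/
noncomputable def med (hT : IsTree D) (x y z : X) : X := (exists_median hT x y z).choose

/-- The direction of `y` at `x`: the component of `X` minus `x` containing `y`. -/
def drn (D : Dist Λ X) (x y : X) : Set X := {z | ¬ Btw D z x y}

/-- Translate of a set. -/
def sm (g : G) (d : Set X) : Set X := (fun z => g • z) '' d

/-- The convex hull of a finite set. -/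
def hull (D : Dist Λ X) (F : Finset X) : Set X := {y | ∃ f ∈ F, ∃ f' ∈ F, Btw D f y f'}

/-- The directions at `x` pointing to points of `F`; for `x ∈ hull D F` these are all the
directions of the hull at `x`. -/
noncomputable def dirs (D : Dist Λ X) (F : Finset X) (x : X) : Finset (Set X) := by
  classical
  exact (F.filter (fun f => f ≠ x)).image (drn D x)

/-- `V` is a finite set of points of the hull of `F` containing all medians of triples of `F`
(in particular `F` itself, and all branch points of the hull). -/
structure Sk (D : Dist Λ X) (F V : Finset X) : Prop where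
  meds : ∀ x ∈ F, ∀ y ∈ F, ∀ z ∈ F, ∀ c, IsMedian D x y z c → c ∈ V
  sub : ∀ x ∈ V, x ∈ hull D F

/-! ### Families, letters, words -/

/-- A family: the partial isometry `y ↦ h • y` defined on the segment `[a,b]`. As a letter it may be
flagged: then at time `t` it may be used only at points at distance `< t` from `a`. -/
structure Letter (X G : Type*) where
  a : X
  b : X
  h : G
  flag : Bool

/-- The inverse letter. -/
def Letter.inv (l : Letter X G) : Letter X G := ⟨l.h • l.a, l.h • l.b, l.h⁻¹, l.flag⟩

/-- The word `w` can be applied at `y` (disregarding flags). -/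
def mem (D : Dist Λ X) : List (Letter X G) → X → Prop
  | [], _ => True
  | l :: w, y => Btw D l.a y l.b ∧ mem D w (l.h • y)

/-- The word `w` can be applied at `y` at time `t`. -/
def ok (D : Dist Λ X) (t : Λ) : List (Letter X G) → X → Prop
  | [], _ => True
  | l :: w, y => (Btw D l.a y l.b ∧ (l.flag = true → D.d l.a y < t)) ∧ ok D t w (l.h • y)

/-- The value of a word in `G`. -/
def val : List (Letter X G) → G
  | [] => 1
  | l :: w => val w * l.h

/-- The inverse word. -/
def rev (w : List (Letter X G)) : List (Letter X G) := (w.map Letter.inv).reverse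

/-- A system: a set of unflagged letters (families). -/
structure Sys (D : Dist Λ X) (F : Finset X) (T : Set (Letter X G)) : Prop where
  fin : T.Finite
  flag : ∀ l ∈ T, l.flag = false
  ha : ∀ l ∈ T, l.a ∈ hull D F
  hb : ∀ l ∈ T, l.b ∈ hull D F
  ga : ∀ l ∈ T, l.h • l.a ∈ hull D F
  gb : ∀ l ∈ T, l.h • l.b ∈ hull D F

/-- Letters of a system: the families and their inverses. -/
def lett (T : Set (Letter X G)) : Set (Letter X G) := {l | l ∈ T ∨ ∃ l' ∈ T, l = l'.inv}

/-- `y` and `val w • y` are connected in the system by a word with value `g`. -/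
def Conn (D : Dist Λ X) (T : Set (Letter X G)) (y : X) (g : G) : Prop :=
  ∃ w : List (Letter X G), (∀ l ∈ w, l ∈ lett T) ∧ mem D w y ∧ val w = g

/-! ### Edges and the count -/

/-- An edge: the family `y ↦ h • y` on `[a,b]`, at the point `x` of `[a,b]`. -/
structure Edge (X G : Type*) where
  a : X
  b : X
  h : G
  x : X

/-- The edge belongs to a family of the system. -/
def EdgeOf (D : Dist Λ X) (T : Set (Letter X G)) (e : Edge X G) : Prop :=
  (⟨e.a, e.b, e.h, false⟩ : Letter X G) ∈ T ∧ Btw D e.a e.x e.b

/-- The directions carried by an edge. -/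
def Edge.dset (D : Dist Λ X) (e : Edge X G) : Set (Set X) :=
  {d | (e.a ≠ e.x ∧ d = drn D e.x e.a) ∨ (e.b ≠ e.x ∧ d = drn D e.x e.b)}

/-- Adjacency of points. -/
def rV (E : Set (Edge X G)) : X → X → Prop := fun x y => ∃ e ∈ E, e.x = x ∧ y = e.h • e.x

/-- Adjacency of directions. -/
def rH (D : Dist Λ X) (E : Set (Edge X G)) : X × Set X → X × Set X → Prop :=
  fun u v => ∃ e ∈ E, u.1 = e.x ∧ u.2 ∈ e.dset D ∧ v = (e.h • e.x, sm e.h u.2)

/-- Number of classes of a finite set under the equivalence relation generated by `r`. -/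
noncomputable def ncl {α : Type*} (r : α → α → Prop) (V : Finset α) : ℕ := by
  classical
  exact (V.image (Quot.mk r)).card

/-- The pairs (point of `V`, direction of the hull at this point). -/
noncomputable def HV (D : Dist Λ X) (F V : Finset X) : Finset (X × Set X) := by
  classical
  exact V.biUnion (fun x => (dirs D F x).image (fun d => (x, d)))

/-- The count: number of classes of directions minus twice the number of classes of points. -/
noncomputable def Phi (D : Dist Λ X) (F V : Finset X) (E : Set (Edge X G)) : ℤ :=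
  (ncl (rH D E) (HV D F V) : ℤ) - 2 * (ncl (rV E) V : ℤ)

/-- The index of the system `T` in the hull of `F` is at most `c`. -/
def Claim (D : Dist Λ X) (F : Finset X) (T : Set (Letter X G)) (c : ℤ) : Prop :=
  ∀ (V0 : Finset X) (E0 : Set (Edge X G)), (∀ x ∈ V0, x ∈ hull D F) → E0.Finite →
    (∀ e ∈ E0, EdgeOf D T e) → ∃ (V : Finset X) (E : Set (Edge X G)), V0 ⊆ V ∧ E0 ⊆ E ∧
      E.Finite ∧ Sk D F V ∧ (∀ e ∈ E, EdgeOf D T e ∧ e.x ∈ V ∧ e.h • e.x ∈ V) ∧ Phi D F V E ≤ c

/-! ### The closing lemma -/

/-- Alphabets: `Sg` is a finite skeleton containing the end points of the letters. -/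
structure Alph (D : Dist Λ X) (F Sg : Finset X) (L : Set (Letter X G)) : Prop where
  sk : Sk D F Sg
  ha : ∀ l ∈ L, l.a ∈ Sg
  hb : ∀ l ∈ L, l.b ∈ Sg
  inv : ∀ l ∈ L, l.inv ∈ L

/-- `Good s t`: some word with value `g` is valid at time `s` from `x(s)` and at time `t` from
`x(t)`, where `x(t)` runs along `[p,q]`. -/
def Good (hT : IsTree D) (L : Set (Letter X G)) (p q : X) (g : G) (s t : Λ) : Prop :=
  0 ≤ s ∧ s ≤ t ∧ t ≤ D.d p q ∧ ∃ w : List (Letter X G), (∀ l ∈ w, l ∈ L) ∧ val w = g ∧
    ok D s w (pt hT p q s) ∧ ok D t w (pt hT p q t)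

/-- The set of the times reached from `0` by good steps. -/
def JJ (hT : IsTree D) (L : Set (Letter X G)) (p q : X) (g : G) : Set Λ :=
  {t | Relation.ReflTransGen (Good hT L p q g) 0 t}

/-- The invariance group of a set of times, as a predicate. -/
def Cc (J : Set Λ) (c : Λ) : Prop := ∀ t ∈ J, t + |c| ∈ J

/-- Data of the closing lemma. -/
structure Cl (hT : IsTree D) (F Sg : Finset X) (L : Set (Letter X G)) (p q : X) (g : G)
    (w0 : List (Letter X G)) : Prop where
  hG : FreeAct D G
  al : Alph D F Sg L
  he : (⟨p, q, g, true⟩ : Letter X G) ∈ L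
  w0L : ∀ l ∈ w0, l ∈ L
  w0ok : ok D 0 w0 p
  w0val : val w0 = g

end LTree.Idx
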