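import Pool.Agent.Work.MP_0c526b_al.Idx.Count
import Pool.Agent.Work.MP_0c526b_al.Idx.Germ

/-!
# A7: the two fold steps (first part of the fold step)
-/

set_option autoImplicit false

namespace LTree.Idx

open LTree

variable {Λ : Type*} [AddCommGroup Λ] [LinearOrder Λ] [IsOrderedAddMonoid Λ] {X : Type*}
variable {D : Dist Λ X} {G : Type*} [Group G] [MulAction G X]

lemma fx_inv_inv (l : Letter X G) : l.inv.inv = l := by
  obtain ⟨a, b, h, f⟩ := l
  simp [Letter.inv]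

lemma fx_lett_inv {T : Set (Letter X G)} {l : Letter X G} (hl : l ∈ lett T) : l.inv ∈ lett T := by
  rcases hl with h | ⟨l', h, rfl⟩
  · exact Or.inr ⟨l, h, rfl⟩
  · rw [fx_inv_inv]; exact Or.inl h

lemma fx_lett_flag {T : Set (Letter X G)} (hT : ∀ l ∈ T, l.flag = false) {l : Letter X G}
    (hl : l ∈ lett T) : l.flag = false := by
  rcases hl with h | ⟨l', h, rfl⟩
  · exact hT l h
  · exact hT l' h

/-- The directions carried by an edge at an interior point. -/
lemma fx_ncard_dset_mid (hT : IsTree D) {p q r : X} (g : G) (h : Btw D p r q) (hp : r ≠ p)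
    (hq : r ≠ q) : ((⟨p, q, g, r⟩ : Edge X G).dset D).ncard = 2 := by
  have e : (⟨p, q, g, r⟩ : Edge X G).dset D = {drn D r p, drn D r q} := by
    ext d
    simp only [Edge.dset, Set.mem_ofPred_eq, Set.mem_insert_iff, Set.mem_singleton_iff]
    constructor
    · rintro (⟨-, h⟩ | ⟨-, h⟩)
      · exact Or.inl h
      · exact Or.inr h
    · rintro (h | h)
      · exact Or.inl ⟨hp.symm, h⟩
      · exact Or.inr ⟨hq.symm, h⟩
  rw [e]
  refine Set.ncard_pair ?_
  intro h'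
  exact (drn_eq_iff hT hp.symm hq.symm).1 h' h

lemma fx_ncard_dset_right {p q : X} (g : G) (hpq : p ≠ q) :
    ((⟨p, q, g, q⟩ : Edge X G).dset D).ncard = 1 := by
  have e : (⟨p, q, g, q⟩ : Edge X G).dset D = {drn D q p} := by
    ext d
    simp only [Edge.dset, Set.mem_ofPred_eq, Set.mem_singleton_iff]
    constructor
    · rintro (⟨-, h⟩ | ⟨h, -⟩)
      · exact h
      · exact absurd rfl h
    · intro h
      exact Or.inl ⟨hpq, h⟩
  rw [e]
  exact Set.ncard_singleton _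

/-- Interior edges do not raise the count. -/
lemma fx_Phi_interior (hT : IsTree D) (hG : FreeAct D G) {F V : Finset X} (hV : Sk D F V)
    {E : Set (Edge X G)} {p q : X} {g : G} (hp : p ∈ hull D F) (hq : q ∈ hull D F)
    (gp : g • p ∈ hull D F) (gq : g • q ∈ hull D F) (R : Finset X)
    (hR : ∀ r ∈ R, Btw D p r q ∧ r ≠ p ∧ r ≠ q ∧ r ∈ V ∧ g • r ∈ V) :
    Phi D F V (E ∪ (fun r => (⟨p, q, g, r⟩ : Edge X G)) '' (R : Set X)) ≤ Phi D F V E := by
  classical
  induction R using Finset.induction_on with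
  | empty => simp
  | insert r R hr ih =>
    have ih' := ih (fun r hr => hR r (Finset.mem_insert_of_mem hr))
    obtain ⟨h1, h2, h3, h4, h5⟩ := hR r (Finset.mem_insert_self _ _)
    have e : E ∪ (fun r => (⟨p, q, g, r⟩ : Edge X G)) '' ((insert r R : Finset X) : Set X) =
        insert (⟨p, q, g, r⟩ : Edge X G)
          (E ∪ (fun r => (⟨p, q, g, r⟩ : Edge X G)) '' (R : Set X)) := by
      rw [Finset.coe_insert, Set.image_insert_eq, Set.union_insert]
    rw [e]
    have := Phi_insert hT hG hV (E := E ∪ (fun r => (⟨p, q, g, r⟩ : Edge X G)) '' (R : Set X))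
      (⟨p, q, g, r⟩ : Edge X G) h4 h5 hp hq gp gq h1
    rw [fx_ncard_dset_mid hT g h1 h2 h3] at this
    push_cast at this
    linarith

/-- The points of a new family at which there are edges in a given finite set. -/
lemma fx_exists_points {T : Set (Letter X G)} {E0 : Set (Edge X G)} (hE0 : E0.Finite) {p q : X}
    {g : G} (h : ∀ e ∈ E0, EdgeOf D (insert ⟨p, q, g, false⟩ T) e) :
    ∃ (E1 : Set (Edge X G)) (R : Set X), E1.Finite ∧ R.Finite ∧ (∀ e ∈ E1, EdgeOf D T e) ∧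
      (∀ r ∈ R, Btw D p r q) ∧
      E0 ⊆ E1 ∪ (fun r => (⟨p, q, g, r⟩ : Edge X G)) '' R := by
  classical
  refine ⟨{e ∈ E0 | EdgeOf D T e}, Edge.x '' {e ∈ E0 | e.a = p ∧ e.b = q ∧ e.h = g},
    hE0.subset (Set.sep_subset _ _), (hE0.subset (Set.sep_subset _ _)).image _,
    fun e he => he.2, ?_, ?_⟩
  · rintro _ ⟨e, ⟨he, rfl, rfl, rfl⟩, rfl⟩
    exact (h e he).2
  · intro e he
    obtain ⟨h1, h2⟩ := h e he
    rcases h1 with h1 | h1
    · right
      simp only [Letter.mk.injEq, and_true] at h1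
      obtain ⟨rfl, rfl, rfl⟩ := h1
      exact ⟨e.x, ⟨e, ⟨he, rfl, rfl, rfl⟩, rfl⟩, rfl⟩
    · left
      exact ⟨he, h1, h2⟩

lemma fx_edgeOf_mono {T T' : Set (Letter X G)} (h : T ⊆ T') {e : Edge X G} (he : EdgeOf D T e) :
    EdgeOf D T' e := ⟨h he.1, he.2⟩

lemma fx_eqv_mono {E E' : Set (Edge X G)} (h : E ⊆ E') {x y : X}
    (hxy : Relation.EqvGen (rV E) x y) : Relation.EqvGen (rV E') x y := by
  induction hxy with
  | rel a b hab =>
    obtain ⟨e, he, h1, h2⟩ := hab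
    exact Relation.EqvGen.rel _ _ ⟨e, h he, h1, h2⟩
  | refl a => exact Relation.EqvGen.refl _
  | symm a b _ ih => exact Relation.EqvGen.symm _ _ ih
  | trans a b c _ _ ih1 ih2 => exact Relation.EqvGen.trans _ _ _ ih1 ih2

/-- The common part of the two fold steps: all edges of the new family which are wanted. -/
lemma fx_fold_core (hT : IsTree D) {F : Finset X} {T : Set (Letter X G)} (hG : FreeAct D G)
    {c : ℤ} (hc : Claim D F T c) {p q : X} {g : G} (hp : p ∈ hull D F)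
    (hq : q ∈ hull D F) (gp : g • p ∈ hull D F) (gq : g • q ∈ hull D F)
    (E2 : Set (Edge X G)) (hE2 : E2.Finite) (hE2T : ∀ e ∈ E2, EdgeOf D T e) (R2 : Set X)
    (hR2 : R2.Finite) (hR2b : ∀ r ∈ R2, Btw D p r q)
    (hcount : ∀ (V : Finset X) (E : Set (Edge X G)) (R : Finset X), Sk D F V → E2 ⊆ E →
      (∀ e ∈ E, EdgeOf D T e) →
      (∀ r ∈ R, Btw D p r q ∧ r ≠ p ∧ r ≠ q ∧ r ∈ V ∧ g • r ∈ V) →
      (∀ r ∈ R2, r ≠ p → r ≠ q → r ∈ R) → p ∈ V → q ∈ V → g • p ∈ V → g • q ∈ V →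
      Phi D F V (insert ⟨p, q, g, q⟩ ((insert (⟨p, q, g, p⟩ : Edge X G) E) ∪
        (fun r => (⟨p, q, g, r⟩ : Edge X G)) '' (R : Set X))) ≤ Phi D F V E) :
    Claim D F (insert ⟨p, q, g, false⟩ T) c := by
  classical
  intro V0 E0 hV0 hE0 hE0T
  obtain ⟨E1, R1, hE1, hR1, hE1T, hR1b, hsub⟩ := fx_exists_points hE0 hE0T
  have hR : (R1 ∪ R2).Finite := hR1.union hR2
  let RR : Finset X := hR.toFinset
  have hRR : ∀ r ∈ RR, Btw D p r q := by
    intro r hr
    rcases hR.mem_toFinset.1 hr with h | h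
    · exact hR1b r h
    · exact hR2b r h
  have hin : ∀ r, Btw D p r q → r ∈ hull D F ∧ g • r ∈ hull D F := fun r hr =>
    ⟨hull_convex hT hp hq hr, hull_convex hT gp gq (hG.btw g hr)⟩
  let W : Finset X := V0 ∪ ({p, q, g • p, g • q} ∪ (RR ∪ RR.image (fun r => g • r)))
  have hW : ∀ x ∈ W, x ∈ hull D F := by
    intro x hx
    simp only [W, Finset.mem_union, Finset.mem_insert, Finset.mem_singleton,
      Finset.mem_image] at hx
    rcases hx with h | ((rfl | rfl | rfl | rfl) | (h | ⟨r, h, rfl⟩))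
    · exact hV0 x h
    · exact hp
    · exact hq
    · exact gp
    · exact gq
    · exact (hin x (hRR x h)).1
    · exact (hin r (hRR r h)).2
  obtain ⟨V, E, hWV, hEE, hEf, hSk, hEV, hPhi⟩ := hc W (E1 ∪ E2) hW (hE1.union hE2) (by
    intro e he
    rcases he with h | h
    · exact hE1T e h
    · exact hE2T e h)
  have mp : p ∈ V := hWV (by simp [W])
  have mq : q ∈ V := hWV (by simp [W])
  have mgp : g • p ∈ V := hWV (by simp [W])
  have mgq : g • q ∈ V := hWV (by simp [W])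
  have mR : ∀ r ∈ RR, r ∈ V := fun r hr => hWV (by simp [W, hr])
  have mgR : ∀ r ∈ RR, g • r ∈ V := fun r hr => hWV (by
    simp only [W, Finset.mem_union, Finset.mem_image]
    exact Or.inr (Or.inr (Or.inr ⟨r, hr, rfl⟩)))
  let R : Finset X := RR.filter (fun r => r ≠ p ∧ r ≠ q)
  have hRmem : ∀ r ∈ R, Btw D p r q ∧ r ≠ p ∧ r ≠ q ∧ r ∈ V ∧ g • r ∈ V := by
    intro r hr
    obtain ⟨h1, h2, h3⟩ := Finset.mem_filter.1 hr
    exact ⟨hRR r h1, h2, h3, mR r h1, mgR r h1⟩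
  have hc' := hcount V E R hSk (fun e he => hEE (Or.inr he)) (fun e he => (hEV e he).1) hRmem
    (fun r hr h1 h2 => Finset.mem_filter.2 ⟨hR.mem_toFinset.2 (Or.inr hr), h1, h2⟩) mp mq mgp mgq
  refine ⟨V, _, fun x hx => hWV (Finset.mem_union_left _ hx), ?_, ?_, hSk, ?_, hc'.trans hPhi⟩
  · intro e he
    rcases hsub he with h | ⟨r, h, rfl⟩
    · exact Or.inr (Or.inl (Or.inr (hEE (Or.inl h))))
    · by_cases e1 : r = p
      · subst e1; exact Or.inr (Or.inl (Or.inl rfl))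
      by_cases e2 : r = q
      · subst e2; exact Or.inl rfl
      · exact Or.inr (Or.inr ⟨r, Finset.mem_coe.2 (Finset.mem_filter.2
          ⟨hR.mem_toFinset.2 (Or.inl h), e1, e2⟩), rfl⟩)
  · exact (((hEf.insert _).union (R.finite_toSet.image _)).insert _)
  · intro e he
    rcases he with rfl | (rfl | he) | ⟨r, hr, rfl⟩
    · exact ⟨⟨Or.inl rfl, btw_right _ _⟩, mq, mgq⟩
    · exact ⟨⟨Or.inl rfl, btw_left _ _⟩, mp, mgp⟩
    · obtain ⟨h1, h2⟩ := hEV e he
      exact ⟨fx_edgeOf_mono (Set.subset_insert _ _) h1, h2⟩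
    · obtain ⟨h1, h2, h3, h4, h5⟩ := hRmem r hr
      exact ⟨⟨Or.inl rfl, h1⟩, h4, h5⟩

theorem fold_closed (hT : IsTree D) (hG : FreeAct D G) {F : Finset X} {T : Set (Letter X G)}
    (hS : Sys D F T) {c : ℤ} (hc : Claim D F T c) {p q q' : X} {g : G} (hp : p ∈ hull D F)
    (hq : q ∈ hull D F) (gp : g • p ∈ hull D F) (gq : g • q ∈ hull D F) (hq' : Btw D p q' q)
    (h0 : Conn D T p g)
    (h1 : ∃ w : List (Letter X G),
      (∀ l ∈ w, l ∈ lett T ∨ l = ⟨p, q, g, true⟩ ∨ l = (⟨p, q, g, true⟩ : Letter X G).inv) ∧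
      val w = g ∧ ok D (D.d p q') w q') :
    Claim D F (insert ⟨p, q', g, false⟩ T) c := by
  obtain ⟨w, hw, hval, hok⟩ := h1
  obtain ⟨E1, hE1, hE1T, hE1c⟩ := word_rV hG hS.flag h0
  obtain ⟨E2, R, hE2, hE2T, hR, hRb, hRc⟩ := flag_rV hT hG hS.flag hq' hw hok
  rw [hval] at hRc
  have hq'h : q' ∈ hull D F := hull_convex hT hp hq hq'
  have gq'h : g • q' ∈ hull D F := hull_convex hT gp gq (hG.btw g hq')
  refine fx_fold_core hT hG hc hp hq'h gp gq'h (E1 ∪ E2) (hE1.union hE2) ?_ R hR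
    (fun r hr => (hRb r hr).1) ?_
  · intro e he
    rcases he with h | h
    · exact hE1T e h
    · exact hE2T e h
  · intro V E RR hV hEE hET hRR hRsub mp mq mgp mgq
    have a1 : Phi D F V (insert (⟨p, q', g, p⟩ : Edge X G) E) ≤ Phi D F V E := by
      refine Phi_insert_conn hT hG hV (⟨p, q', g, p⟩ : Edge X G) mp mgp hp hq'h gp gq'h
        (btw_left _ _) ?_
      exact fx_eqv_mono (fun e he => hEE (Or.inl he)) hE1c
    have a2 := fx_Phi_interior hT hG hV (E := insert (⟨p, q', g, p⟩ : Edge X G) E) hp hq'h gp gq'h RR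
      hRR
    have a3 : Phi D F V (insert ⟨p, q', g, q'⟩ ((insert (⟨p, q', g, p⟩ : Edge X G) E) ∪
        (fun r => (⟨p, q', g, r⟩ : Edge X G)) '' (RR : Set X))) ≤
        Phi D F V ((insert (⟨p, q', g, p⟩ : Edge X G) E) ∪
        (fun r => (⟨p, q', g, r⟩ : Edge X G)) '' (RR : Set X)) := by
      refine Phi_insert_conn hT hG hV (⟨p, q', g, q'⟩ : Edge X G) mq mgq hp hq'h gp gq'h
        (btw_right _ _) ?_
      refine fx_eqv_mono ?_ hRc
      rintro e (he | ⟨r, hr, rfl⟩)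
      · exact Or.inl (Or.inr (hEE (Or.inr he)))
      · by_cases e1 : r = p
        · subst e1; exact Or.inl (Or.inl rfl)
        · exact Or.inr ⟨r, Finset.mem_coe.2 (hRsub r hr e1 (hRb r hr).2), rfl⟩
    exact a3.trans (a2.trans a1)

theorem fold_open (hT : IsTree D) (hG : FreeAct D G) {F : Finset X} {T : Set (Letter X G)}
    (hS : Sys D F T) {c : ℤ} (hc : Claim D F T c) {p q : X} {g : G} (hp : p ∈ hull D F)
    (hq : q ∈ hull D F) (gp : g • p ∈ hull D F) (gq : g • q ∈ hull D F)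
    (h0 : Conn D T p g) (hpq : p ≠ q)
    (h1 : ¬ ∃ (w : List (Letter X G)) (m : X), (∀ l ∈ w, l ∈ lett T) ∧ val w = g ∧ m ≠ p ∧
      Btw D p m q ∧ mem D w p ∧ mem D w m) :
    Claim D F (insert ⟨p, q, g, false⟩ T) c := by
  obtain ⟨E1, hE1, hE1T, hE1c⟩ := word_rV hG hS.flag h0
  refine fx_fold_core hT hG hc hp hq gp gq E1 hE1 hE1T ∅ Set.finite_empty
    (fun r hr => absurd hr (Set.notMem_empty r)) ?_
  intro V E RR hV hEE hET hRR hRsub mp mq mgp mgq
  have a1 : Phi D F V (insert (⟨p, q, g, p⟩ : Edge X G) E) + 1 ≤ Phi D F V E := by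
    refine Phi_insert_merge hT hG hV (⟨p, q, g, p⟩ : Edge X G) mp mgp hp hq gp gq
      (btw_left _ _) (fx_eqv_mono hEE hE1c) ⟨drn D p q, Or.inr ⟨hpq.symm, rfl⟩, ?_⟩
    intro hcon
    obtain ⟨w, m, hw, hy, hm, hb, m1, m2⟩ := rH_word hT hG hS.flag hET hpq.symm hcon
    refine h1 ⟨w, m, hw, ?_, hm, hb, m1, m2⟩
    have h2 : (g⁻¹ * val w) • p = p := by
      rw [mul_smul, ← hy, inv_smul_smul]
    have h3 := hG.free _ _ h2
    exact (inv_mul_eq_one.1 h3).symm
  have a2 := fx_Phi_interior hT hG hV (E := insert (⟨p, q, g, p⟩ : Edge X G) E) hp hq gp gq RR hRR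
  have a3 := Phi_insert hT hG hV (E := ((insert (⟨p, q, g, p⟩ : Edge X G) E) ∪
        (fun r => (⟨p, q, g, r⟩ : Edge X G)) '' (RR : Set X))) (⟨p, q, g, q⟩ : Edge X G) mq mgq
        hp hq gp gq (btw_right _ _)
  rw [fx_ncard_dset_right g hpq] at a3
  push_cast at a3
  linarith

lemma fx_sys_insert {F : Finset X} {T : Set (Letter X G)} (hS : Sys D F T) {p q : X} {g : G}
    (hp : p ∈ hull D F) (hq : q ∈ hull D F) (gp : g • p ∈ hull D F) (gq : g • q ∈ hull D F) :
    Sys D F (insert ⟨p, q, g, false⟩ T) where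
  fin := hS.fin.insert _
  flag := by
    rintro l (rfl | h)
    · rfl
    · exact hS.flag l h
  ha := by
    rintro l (rfl | h)
    · exact hp
    · exact hS.ha l h
  hb := by
    rintro l (rfl | h)
    · exact hq
    · exact hS.hb l h
  ga := by
    rintro l (rfl | h)
    · exact gp
    · exact hS.ga l h
  gb := by
    rintro l (rfl | h)
    · exact gq
    · exact hS.gb l h

/-- The alphabet of the fold step. -/
lemma fx_exists_Alph (hT : IsTree D) {F : Finset X} {T : Set (Letter X G)} (hS : Sys D F T) {p q : X}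
    {g : G} (hp : p ∈ hull D F) (hq : q ∈ hull D F) (gp : g • p ∈ hull D F)
    (gq : g • q ∈ hull D F) :
    ∃ Sg : Finset X, Alph D F Sg {l | l ∈ lett T ∨ l = ⟨p, q, g, true⟩ ∨
      l = (⟨p, q, g, true⟩ : Letter X G).inv} := by
  classical
  have hfin := hS.fin
  let TT : Finset (Letter X G) := hfin.toFinset
  let W : Finset X := (TT.image (fun l => l.a) ∪ TT.image (fun l => l.b)) ∪
    ((TT.image (fun l => l.h • l.a) ∪ TT.image (fun l => l.h • l.b)) ∪
      {p, q, g • p, g • q})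
  have hTT : ∀ l, l ∈ TT ↔ l ∈ T := fun l => hfin.mem_toFinset
  have hW : ∀ x ∈ W, x ∈ hull D F := by
    intro x hx
    simp only [W, Finset.mem_union, Finset.mem_insert, Finset.mem_singleton,
      Finset.mem_image, hTT] at hx
    rcases hx with (⟨l, h, rfl⟩ | ⟨l, h, rfl⟩) | ((⟨l, h, rfl⟩ | ⟨l, h, rfl⟩) |
      (rfl | rfl | rfl | rfl))
    · exact hS.ha l h
    · exact hS.hb l h
    · exact hS.ga l h
    · exact hS.gb l h
    · exact hp
    · exact hq
    · exact gp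
    · exact gq
  obtain ⟨V, hV, hWV⟩ := exists_Sk hT F W hW
  have ma : ∀ l ∈ T, l.a ∈ V := fun l hl => hWV (by
    simp only [W, Finset.mem_union, Finset.mem_image]
    exact Or.inl (Or.inl ⟨l, (hTT l).2 hl, rfl⟩))
  have mb : ∀ l ∈ T, l.b ∈ V := fun l hl => hWV (by
    simp only [W, Finset.mem_union, Finset.mem_image]
    exact Or.inl (Or.inr ⟨l, (hTT l).2 hl, rfl⟩))
  have mha : ∀ l ∈ T, l.h • l.a ∈ V := fun l hl => hWV (by
    simp only [W, Finset.mem_union, Finset.mem_image]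
    exact Or.inr (Or.inl (Or.inl ⟨l, (hTT l).2 hl, rfl⟩)))
  have mhb : ∀ l ∈ T, l.h • l.b ∈ V := fun l hl => hWV (by
    simp only [W, Finset.mem_union, Finset.mem_image]
    exact Or.inr (Or.inl (Or.inr ⟨l, (hTT l).2 hl, rfl⟩)))
  refine ⟨V, hV, ?_, ?_, ?_⟩
  · rintro l ((h | ⟨l', h, rfl⟩) | rfl | rfl)
    · exact ma l h
    · exact mha l' h
    · exact hWV (by simp [W])
    · exact hWV (by simp [W, Letter.inv])
  · rintro l ((h | ⟨l', h, rfl⟩) | rfl | rfl)
    · exact mb l h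
    · exact mhb l' h
    · exact hWV (by simp [W])
    · exact hWV (by simp [W, Letter.inv])
  · rintro l (h | rfl | rfl)
    · exact Or.inl (fx_lett_inv h)
    · exact Or.inr (Or.inr rfl)
    · rw [fx_inv_inv]; exact Or.inr (Or.inl rfl)

end LTree.Idx
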