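import Pool.Agent.Work.MP_0c526b_al.Idx.Basics
import Pool.Agent.Work.MP_0c526b_al.Idx.Balls
import Pool.Agent.Work.MP_0c526b_al.Idx.Classes

/-!
# Finitely many orbits of branch points (module C4)
-/

set_option autoImplicit false

namespace LTree.Idx

open LTree

variable {Λ : Type*} [AddCommGroup Λ] [LinearOrder Λ] [IsOrderedAddMonoid Λ] {X : Type*}
variable {D : Dist Λ X} {G : Type*} [Group G] [MulAction G X]

lemma dirs_mono {F F' : Finset X} (h : F ⊆ F') (x : X) : dirs D F x ⊆ dirs D F' x := by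
  intro d hd
  rw [mem_dirs] at *
  obtain ⟨f, hf, hne, e⟩ := hd
  exact ⟨f, h hf, hne, e⟩

/-- A finite set of branch points in different orbits. -/
structure Br (D : Dist Λ X) (G : Type*) [Group G] [MulAction G X] (x0 : X) (P : Finset X) :
    Prop where
  mem : ∀ y ∈ P, y ∈ hullPts D G x0
  dis : ∀ y ∈ P, ∀ z ∈ P, y ≠ z → ¬ ∃ g : G, z = g • y
  base : ∀ y ∈ P, ¬ ∃ g : G, x0 = g • y

lemma Br.card_le (hT : IsTree D) (hG : FreeAct D G) (S : Finset G)
    (hS : Subgroup.closure (S : Set G) = ⊤) {x0 : X} {δ : ℕ} (A : Finset G) {F0 : Finset X}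
    (hF0 : ∀ y, y ∈ F0 ↔ ∃ w ∈ A, y = w • x0) (hδ : δ ≤ (dirs D F0 x0).card) {P : Finset X}
    (hP : Br D G x0 P) : P.card + δ ≤ 2 * S.card := by
  classical
  have h1 : ∀ y ∈ P, ∃ a b c : G, IsMedian D (a • x0) (b • x0) (c • x0) y := fun y hy => hP.mem y hy
  choose! a b c habc using h1
  obtain ⟨n, hn⟩ := ball_exhaust S hS (A ∪ P.image a ∪ P.image b ∪ P.image c)
  set F : Finset X := (ball S (n + 1)).image (fun w => w • x0) with hF
  have hFm : ∀ y, y ∈ F ↔ ∃ w ∈ ball S (n + 1), y = w • x0 := by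
    intro y
    rw [hF, Finset.mem_image]
    constructor
    · rintro ⟨w, hw, rfl⟩; exact ⟨w, hw, rfl⟩
    · rintro ⟨w, hw, rfl⟩; exact ⟨w, hw, rfl⟩
  obtain ⟨T, hSys, hc, _, _, hconn⟩ := ball_system hT hG S x0 n F hFm
  have hsub := hn (n + 1) (Nat.le_succ n)
  have hx0 : x0 ∈ F := (hFm x0).2 ⟨1, one_mem_ball S _, (one_smul G x0).symm⟩
  have hAF : F0 ⊆ F := by
    intro y hy
    obtain ⟨w, hw, e⟩ := (hF0 y).1 hy
    exact (hFm y).2 ⟨w, hsub (by simp [hw]), e⟩
  have ha : ∀ y ∈ P, a y • x0 ∈ F := fun y hy => (hFm _).2 ⟨a y, hsub (by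
    simp only [Finset.mem_union]
    exact Or.inl (Or.inl (Or.inr (Finset.mem_image_of_mem a hy)))), rfl⟩
  have hb : ∀ y ∈ P, b y • x0 ∈ F := fun y hy => (hFm _).2 ⟨b y, hsub (by
    simp only [Finset.mem_union]
    exact Or.inl (Or.inr (Finset.mem_image_of_mem b hy))), rfl⟩
  have hcc : ∀ y ∈ P, c y • x0 ∈ F := fun y hy => (hFm _).2 ⟨c y, hsub (by
    simp only [Finset.mem_union]
    exact Or.inr (Finset.mem_image_of_mem c hy)), rfl⟩
  have key := count_classes hT hG hSys hc hx0 hconn P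
    (fun y hy => by
      refine ⟨⟨_, ha y hy, _, hb y hy, (habc y hy).1⟩, ?_⟩
      refine three_le_dirs hT (ha y hy) (hb y hy) (hcc y hy) (habc y hy) ?_
      intro hyF
      obtain ⟨w, _, hw⟩ := (hFm y).1 hyF
      exact hP.base y hy ⟨w⁻¹, by rw [hw, inv_smul_smul]⟩)
    (fun y hy z hz hne => by
      rintro ⟨g, _, hg⟩
      exact hP.dis y hy z hz hne ⟨g, hg⟩)
    (fun y hy => by
      rintro ⟨g, _, hg⟩
      exact hP.base y hy ⟨g, hg⟩)
  have h2 : δ ≤ (dirs D F x0).card := hδ.trans (Finset.card_le_card (dirs_mono hAF x0))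
  omega

/-- Finitely many orbits of branch points. `δ` is a lower bound for the number of directions at
`x0` in the hull of some finite part of the orbit. -/
theorem orbits_le (hT : IsTree D) (hG : FreeAct D G) (S : Finset G)
    (hS : Subgroup.closure (S : Set G) = ⊤) (x0 : X) (δ : ℕ) (A : Finset G) (F0 : Finset X)
    (hF0 : ∀ y, y ∈ F0 ↔ ∃ w ∈ A, y = w • x0) (hδ : δ ≤ (dirs D F0 x0).card) :
    ∃ F : Finset X, F.card + δ ≤ 2 * S.card + 1 ∧
      ∀ c ∈ hullPts D G x0, ∃ g : G, ∃ f ∈ F, c = g • f := by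
  classical
  have hbd : ∀ P : Finset X, Br D G x0 P → P.card + δ ≤ 2 * S.card := fun P hP =>
    hP.card_le hT hG S hS A hF0 hδ
  have h0 : Br D G x0 (∅ : Finset X) := ⟨by simp, by simp, by simp⟩
  set Q : ℕ → Prop := fun k => ∃ P : Finset X, Br D G x0 P ∧ P.card = k with hQ
  obtain ⟨P, hP, hcard⟩ : Q (Nat.findGreatest Q (2 * S.card)) :=
    Nat.findGreatest_spec (P := Q) (Nat.zero_le _) ⟨∅, h0, rfl⟩
  have hmax : ∀ P' : Finset X, Br D G x0 P' → P'.card ≤ P.card := by
    intro P' hP'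
    rw [hcard]
    exact Nat.le_findGreatest (by have := hbd P' hP'; omega) ⟨P', hP', rfl⟩
  refine ⟨insert x0 P, ?_, ?_⟩
  · have h1 := Finset.card_insert_le x0 P
    have h2 := hbd P hP
    omega
  · intro c hc
    by_cases hx : ∃ g : G, x0 = g • c
    · obtain ⟨g, hg⟩ := hx
      exact ⟨g⁻¹, x0, Finset.mem_insert_self _ _, by rw [hg, inv_smul_smul]⟩
    by_cases hy : ∃ y ∈ P, ∃ g : G, c = g • y
    · obtain ⟨y, hyP, g, hg⟩ := hy
      exact ⟨g, y, Finset.mem_insert_of_mem hyP, hg⟩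
    exfalso
    push Not at hy
    have hcP : c ∉ P := fun h => hy c h 1 (one_smul G c).symm
    have hbr : Br D G x0 (insert c P) := by
      refine ⟨?_, ?_, ?_⟩
      · intro y hy'
        rcases Finset.mem_insert.1 hy' with rfl | h
        · exact hc
        · exact hP.mem y h
      · intro y hy' z hz hne
        rcases Finset.mem_insert.1 hy' with rfl | h
        · rcases Finset.mem_insert.1 hz with rfl | h'
          · exact absurd rfl hne
          · rintro ⟨g, hg⟩
            exact hy z h' g⁻¹ (by rw [hg, inv_smul_smul])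
        · rcases Finset.mem_insert.1 hz with rfl | h'
          · rintro ⟨g, hg⟩
            exact hy y h g hg
          · exact hP.dis y h z h' hne
      · intro y hy'
        rcases Finset.mem_insert.1 hy' with rfl | h
        · exact hx
        · exact hP.base y h
    have h1 := hmax _ hbr
    rw [Finset.card_insert_of_notMem hcP] at h1
    omega

end LTree.Idx
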