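import Pool.Agent.Work.MP_0c526b_al.Idx.Orbits

/-!
# C5: the rank of the group of distances
-/

set_option autoImplicit false

namespace LTree.Idx

open LTree

variable {Λ : Type*} [AddCommGroup Λ] [LinearOrder Λ] [IsOrderedAddMonoid Λ] {X : Type*}
variable {D : Dist Λ X} {G : Type*} [Group G] [MulAction G X]

/-- A finitely generated torsion free group generated modulo 2 by `T`. -/
theorem finrank_le_of_mod_two {M : Submodule ℤ Λ} (hM : M.FG) (T : Finset Λ)
    (hT' : ∀ t ∈ T, t ∈ M)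
    (h : ∀ y ∈ M, ∃ t ∈ Submodule.span ℤ (T : Set Λ), ∃ z ∈ M, y = t + (2 : ℤ) • z) :
    Module.finrank ℤ M ≤ T.card := by
  classical
  have : Module.Finite ℤ M := Module.Finite.iff_fg.2 hM
  let n := Module.finrank ℤ M
  let b : Module.Basis (Fin n) ℤ M := Module.finBasis ℤ M
  let φ : M → (Fin n → ZMod 2) := fun y i => ((b.repr y i : ℤ) : ZMod 2)
  have hφa : ∀ y z, φ (y + z) = φ y + φ z := by
    intro y z; ext i; simp [φ]
  have hφs : ∀ (c : ℤ) y, φ (c • y) = ((c : ZMod 2)) • φ y := by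
    intro c y; ext i; simp [φ]
  have hspan : Submodule.span (ZMod 2) ((T.attach.image (fun t => φ ⟨t.1, hT' t.1 t.2⟩) :
      Finset (Fin n → ZMod 2)) : Set (Fin n → ZMod 2)) = ⊤ := by
    rw [eq_top_iff]
    intro v _
    obtain ⟨y, hy⟩ : ∃ y : M, φ y = v := by
      refine ⟨b.repr.symm (Finsupp.equivFunOnFinite.symm (fun i => ((v i).val : ℤ))), ?_⟩
      ext i
      simp [φ]
    obtain ⟨t, ht, z, hz, e⟩ := h y y.2
    obtain ⟨c, -, rfl⟩ := Submodule.mem_span_finset.1 ht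
    have e' : y = ∑ s : T, c s.1 • (⟨s.1, hT' s.1 s.2⟩ : M) + (2 : ℤ) • (⟨z, hz⟩ : M) := by
      apply Subtype.ext
      rw [e]
      push_cast
      congr 1
      rw [← Finset.sum_coe_sort T (fun s => c s • s)]
    have hφ0 : φ 0 = 0 := by ext i; simp [φ]
    have hφsum : ∀ (S : Finset T) (g : T → M), φ (∑ s ∈ S, g s) = ∑ s ∈ S, φ (g s) := by
      intro S g
      induction S using Finset.induction_on with
      | empty => simp [hφ0]
      | insert a S ha ih => rw [Finset.sum_insert ha, Finset.sum_insert ha, hφa, ih]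
    rw [← hy, e', hφa, hφs, hφsum]
    have h2 : (((2 : ℤ)) : ZMod 2) = 0 := by decide
    rw [h2, zero_smul, add_zero]
    refine Submodule.sum_mem _ (fun s _ => ?_)
    rw [hφs]
    refine Submodule.smul_mem _ _ (Submodule.subset_span ?_)
    rw [Finset.mem_coe, Finset.mem_image]
    exact ⟨s, Finset.mem_attach _ _, rfl⟩
  have h1 := finrank_span_finset_le_card (R := ZMod 2)
    (T.attach.image (fun t => φ ⟨t.1, hT' t.1 t.2⟩))
  have h2 : Module.finrank (ZMod 2) (Fin n → ZMod 2) = n := by simp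
  have h3 : (Set.finrank (ZMod 2) ((T.attach.image (fun t => φ ⟨t.1, hT' t.1 t.2⟩) :
      Finset (Fin n → ZMod 2)) : Set (Fin n → ZMod 2))) = n := by
    rw [Set.finrank, hspan, finrank_top, h2]
  rw [h3] at h1
  exact h1.trans (Finset.card_image_le.trans (by simp))

/-- Representatives for an equivalence relation on a finite set. -/
lemma exists_reps {α : Type*} (R : α → α → Prop) (hr : ∀ a, R a a) (hs : ∀ a b, R a b → R b a)
    (Q : Finset α) :
    ∃ P ⊆ Q, (∀ y ∈ P, ∀ z ∈ P, y ≠ z → ¬ R y z) ∧ ∀ q ∈ Q, ∃ p ∈ P, R p q := by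
  classical
  induction Q using Finset.induction_on with
  | empty => exact ⟨∅, Finset.Subset.refl _, by simp, by simp⟩
  | insert a Q _ ih =>
    obtain ⟨P, hPQ, h1, h2⟩ := ih
    by_cases ha : ∃ p ∈ P, R p a
    · refine ⟨P, hPQ.trans (Finset.subset_insert _ _), h1, ?_⟩
      intro q hq
      rcases Finset.mem_insert.1 hq with rfl | h
      · exact ha
      · exact h2 q h
    · push Not at ha
      refine ⟨insert a P, Finset.insert_subset_insert _ hPQ, ?_, ?_⟩
      · intro y hy z hz hne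
        rcases Finset.mem_insert.1 hy with rfl | hy'
        · rcases Finset.mem_insert.1 hz with rfl | hz'
          · exact absurd rfl hne
          · exact fun h => ha z hz' (hs _ _ h)
        · rcases Finset.mem_insert.1 hz with rfl | hz'
          · exact ha y hy'
          · exact h1 y hy' z hz' hne
      · intro q hq
        rcases Finset.mem_insert.1 hq with rfl | h
        · exact ⟨q, Finset.mem_insert_self _ _, hr q⟩
        · obtain ⟨p, hp, e⟩ := h2 q h
          exact ⟨p, Finset.mem_insert_of_mem hp, e⟩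

/-- The points of the path of a word. -/
def wpath : List (Letter X G) → X → List X
  | [], y => [y]
  | l :: w, y => y :: wpath w (l.h • y)

lemma val_mem_wpath (w : List (Letter X G)) : ∀ y : X, val w • y ∈ wpath w y := by
  induction w with
  | nil => intro y; simp [wpath, val]
  | cons l w ih =>
    intro y
    have h := ih (l.h • y)
    rw [← mul_smul] at h
    exact List.mem_cons_of_mem _ h

lemma inv_inv' (l : Letter X G) : l.inv.inv = l := by
  obtain ⟨a, b, h, f⟩ := l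
  simp [Letter.inv]

lemma Conn.refl (T : Set (Letter X G)) (y : X) : Conn D T y 1 := ⟨[], by simp, trivial, rfl⟩

lemma Conn.symm (hG : FreeAct D G) {T : Set (Letter X G)} {y : X} {g : G} (h : Conn D T y g) :
    Conn D T (g • y) g⁻¹ := by
  obtain ⟨w, hw, hm, rfl⟩ := h
  exact ⟨rev w, rev_in lett_inv hw, (mem_rev hG w y).2 hm, val_rev w⟩

lemma wpath_hull (hT : IsTree D) (hG : FreeAct D G) {F : Finset X} {T : Set (Letter X G)}
    (hS : Sys D F T) : ∀ (w : List (Letter X G)), (∀ l ∈ w, l ∈ lett T) → ∀ y ∈ hull D F,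
      mem D w y → ∀ u ∈ wpath w y, u ∈ hull D F := by
  intro w
  induction w with
  | nil =>
    intro _ y hy _ u hu
    rw [wpath, List.mem_singleton] at hu
    rw [hu]; exact hy
  | cons l w ih =>
    intro hl y hy hm u hu
    rw [wpath, List.mem_cons] at hu
    rcases hu with rfl | hu
    · exact hy
    · refine ih (fun l' h => hl l' (List.mem_cons_of_mem _ h)) (l.h • y) ?_ hm.2 u hu
      have hb := hG.btw l.h hm.1
      rcases hl l List.mem_cons_self with h | ⟨l', h, rfl⟩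
      · exact hull_convex hT (hS.ga l h) (hS.gb l h) hb
      · refine hull_convex hT (y := l'.a) (z := l'.b) (hS.ha l' h) (hS.hb l' h) ?_
        have e1 : l'.inv.h • l'.inv.a = l'.a := by simp [Letter.inv]
        have e2 : l'.inv.h • l'.inv.b = l'.b := by simp [Letter.inv]
        rwa [e1, e2] at hb

lemma wpath_dist (hG : FreeAct D G) {V : Finset X} {T : Set (Letter X G)} {x0 : X}
    {S : Finset G} (hTS : ∀ l ∈ T, l.h ∈ S) (M' : Submodule ℤ Λ)
    (hcomp : ∀ p ∈ V, ∀ q ∈ V, ∀ r ∈ V, D.d p q ∈ M' → D.d q r ∈ M' → D.d p r ∈ M')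
    (hx0 : x0 ∈ V) (hs : ∀ s ∈ S, s • x0 ∈ V ∧ s⁻¹ • x0 ∈ V) (hsM : ∀ s ∈ S, D.d x0 (s • x0) ∈ M') :
    ∀ (w : List (Letter X G)), (∀ l ∈ w, l ∈ lett T) → ∀ y, D.d x0 y ∈ M' →
      (∀ u ∈ wpath w y, u ∈ V) → ∀ u ∈ wpath w y, D.d x0 u ∈ M' := by
  intro w
  induction w with
  | nil =>
    intro _ y hy _ u hu
    rw [wpath, List.mem_singleton] at hu
    rw [hu]; exact hy
  | cons l w ih =>
    intro hl y hy hV u hu
    rw [wpath, List.mem_cons] at hu
    rcases hu with rfl | hu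
    · exact hy
    · have hV' : ∀ u ∈ wpath w (l.h • y), u ∈ V := fun u h => hV u (List.mem_cons_of_mem _ h)
      have hly : l.h • y ∈ V := by
        cases w with
        | nil => exact hV' _ (by simp [wpath])
        | cons l' w' => exact hV' _ (by simp [wpath])
      refine ih (fun l' h => hl l' (List.mem_cons_of_mem _ h)) (l.h • y) ?_ hV' u hu
      rcases hl l List.mem_cons_self with h | ⟨l', h, rfl⟩
      · refine hcomp x0 hx0 _ (hs _ (hTS l h)).1 _ hly (hsM _ (hTS l h)) ?_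
        rw [hG.iso]; exact hy
      · have e : l'.inv.h = l'.h⁻¹ := rfl
        rw [e] at hly ⊢
        refine hcomp x0 hx0 _ (hs _ (hTS l' h)).2 _ hly ?_ ?_
        · have := hG.iso l'.h x0 (l'.h⁻¹ • x0)
          rw [smul_inv_smul] at this
          rw [← this, D.symm]
          exact hsM _ (hTS l' h)
        · rw [hG.iso]; exact hy

theorem rank_level (hT : IsTree D) (hG : FreeAct D G) (S : Finset G)
    (hS : Subgroup.closure (S : Set G) = ⊤) (x0 : X) (δ : ℕ) (A : Finset G) (F0 : Finset X)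
    (hF0 : ∀ y, y ∈ F0 ↔ ∃ w ∈ A, y = w • x0) (hδ : δ ≤ (dirs D F0 x0).card) (B : Finset G) :
    ∃ M : Submodule ℤ Λ, M.FG ∧ Module.finrank ℤ M + δ ≤ 3 * S.card ∧
      ∀ a ∈ B, ∀ b ∈ B, ∀ c ∈ B, ∀ a' ∈ B, ∀ b' ∈ B, ∀ c' ∈ B, ∀ y z,
        IsMedian D (a • x0) (b • x0) (c • x0) y → IsMedian D (a' • x0) (b' • x0) (c' • x0) z →
          D.d y z ∈ M := by
  classical
  obtain ⟨n, hn⟩ := ball_exhaust S hS (A ∪ B)
  set F : Finset X := (ball S (n + 1)).image (fun w => w • x0) with hF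
  have hFm : ∀ y, y ∈ F ↔ ∃ w ∈ ball S (n + 1), y = w • x0 := by
    intro y
    rw [hF, Finset.mem_image]
    constructor
    · rintro ⟨w, hw, rfl⟩; exact ⟨w, hw, rfl⟩
    · rintro ⟨w, hw, rfl⟩; exact ⟨w, hw, rfl⟩
  obtain ⟨T, hSys, hc, hTS, _, hconn⟩ := ball_system hT hG S x0 n F hFm
  have hsub := hn (n + 1) (Nat.le_succ n)
  have hx0 : x0 ∈ F := (hFm x0).2 ⟨1, one_mem_ball S _, (one_smul G x0).symm⟩
  have hAF : F0 ⊆ F := by
    intro y hy
    obtain ⟨w, hw, e⟩ := (hF0 y).1 hy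
    exact (hFm y).2 ⟨w, hsub (by simp [hw]), e⟩
  have hBF : ∀ a ∈ B, a • x0 ∈ F := fun a ha => (hFm _).2 ⟨a, hsub (by simp [ha]), rfl⟩
  -- the relation
  set R : X → X → Prop := fun y z => ∃ g : G, Conn D T y g ∧ z = g • y with hR
  have hr : ∀ y, R y y := fun y => ⟨1, Conn.refl T y, (one_smul G y).symm⟩
  have hs : ∀ y z, R y z → R z y := by
    rintro y z ⟨g, hg, rfl⟩
    exact ⟨g⁻¹, hg.symm hG, (inv_smul_smul g y).symm⟩
  -- the medians
  obtain ⟨V, hV, -⟩ := exists_Sk (D := D) hT F ∅ (by simp)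
  set Sg : Finset X := V.filter (fun c => ∃ x ∈ F, ∃ y ∈ F, ∃ z ∈ F, IsMedian D x y z c) with hSg
  have hmeds : ∀ x ∈ F, ∀ y ∈ F, ∀ z ∈ F, ∀ c, IsMedian D x y z c → c ∈ Sg := by
    intro x hx y hy z hz c hc'
    exact Finset.mem_filter.2 ⟨hV.meds x hx y hy z hz c hc', x, hx, y, hy, z, hz, hc'⟩
  have hSgh : ∀ c ∈ Sg, c ∈ hull D F := fun c hc' => hV.sub c (Finset.mem_filter.1 hc').1
  have hFSg : F ⊆ Sg := fun f hf =>
    hmeds f hf f hf f hf f ⟨btw_left _ _, btw_left _ _, btw_left _ _⟩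
  obtain ⟨P, hPQ, hPP, hPrep⟩ := exists_reps R hr hs (Sg.filter (fun y => ¬ R y x0))
  have hP : ∀ y ∈ P, y ∈ Sg ∧ ¬ R y x0 := fun y hy => Finset.mem_filter.1 (hPQ hy)
  have key := count_classes hT hG hSys hc hx0 hconn P
    (fun y hy => by
      obtain ⟨h1, h2⟩ := hP y hy
      refine ⟨hSgh y h1, ?_⟩
      obtain ⟨-, x, hx, x', hx', x'', hx'', hm⟩ := Finset.mem_filter.1 h1
      refine three_le_dirs hT hx hx' hx'' hm ?_
      intro hyF
      exact h2 (hs _ _ (hconn y hyF)))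
    hPP
    (fun y hy => (hP y hy).2)
  have h2 : δ ≤ (dirs D F x0).card := hδ.trans (Finset.card_le_card (dirs_mono hAF x0))
  have hcardP : P.card + δ ≤ 2 * S.card := by omega
  -- the paths
  have hpath : ∀ c ∈ Sg, ∃ p : X, ∃ w : List (Letter X G), (p = x0 ∨ p ∈ P) ∧
      (∀ l ∈ w, l ∈ lett T) ∧ mem D w p ∧ c = val w • p := by
    intro c hcS
    by_cases hcx : R c x0
    · obtain ⟨g, ⟨w, hw, hm, rfl⟩, e⟩ := hs _ _ hcx
      exact ⟨x0, w, Or.inl rfl, hw, hm, e⟩
    · obtain ⟨p, hp, g, ⟨w, hw, hm, rfl⟩, e⟩ := hPrep c (Finset.mem_filter.2 ⟨hcS, hcx⟩)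
      exact ⟨p, w, Or.inr hp, hw, hm, e⟩
  choose! p w hp hw hm hv using hpath
  set V' : Finset X := Sg.biUnion (fun c => (wpath (w c) (p c)).toFinset) with hV'
  have hmemV' : ∀ u, u ∈ V' ↔ ∃ c ∈ Sg, u ∈ wpath (w c) (p c) := by
    intro u
    rw [hV', Finset.mem_biUnion]
    simp only [List.mem_toFinset]
  have hSgV : Sg ⊆ V' := by
    intro c hcS
    refine (hmemV' c).2 ⟨c, hcS, ?_⟩
    have := val_mem_wpath (w c) (p c)
    rwa [← hv c hcS] at this
  have hpS : ∀ c ∈ Sg, p c ∈ Sg := by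
    intro c hcS
    rcases hp c hcS with h | h
    · rw [h]; exact hFSg hx0
    · exact (hP _ h).1
  have hSk : Sk D F V' := by
    refine ⟨fun x hx y hy z hz c hc' => hSgV (hmeds x hx y hy z hz c hc'), ?_⟩
    intro u hu
    obtain ⟨c, hcS, hu'⟩ := (hmemV' u).1 hu
    exact wpath_hull hT hG hSys (w c) (hw c hcS) (p c) (hSgh _ (hpS c hcS)) (hm c hcS) u hu'
  have hFV : F ⊆ V' := hFSg.trans hSgV
  have hx0V : x0 ∈ V' := hFV hx0
  have hsV : ∀ s ∈ S, s • x0 ∈ V' ∧ s⁻¹ • x0 ∈ V' := by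
    intro s hs'
    constructor
    · exact hFV ((hFm _).2 ⟨s, subset_ball S n hs', rfl⟩)
    · refine hFV ((hFm _).2 ⟨s⁻¹, ?_, rfl⟩)
      exact (mem_ball_succ S n _).2 (Or.inr (Or.inr ⟨s, hs', 1, one_mem_ball S n,
        (mul_one _).symm⟩))
  -- the modules
  let N : Finset Λ := (V' ×ˢ V').image (fun u => D.d u.1 u.2)
  let M : Submodule ℤ Λ := Submodule.span ℤ (N : Set Λ)
  have hdM : ∀ y ∈ V', ∀ z ∈ V', D.d y z ∈ M := fun y hy z hz =>
    Submodule.subset_span (Finset.mem_coe.2 (Finset.mem_image.2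
      ⟨(y, z), Finset.mem_product.2 ⟨hy, hz⟩, rfl⟩))
  let T' : Finset Λ := S.image (fun s => D.d x0 (s • x0)) ∪ P.image (fun f => D.d x0 f)
  let M' : Submodule ℤ Λ := Submodule.span ℤ (T' : Set Λ) ⊔ M.map ((2 : ℤ) • LinearMap.id)
  have hM' : ∀ {y}, y ∈ M' ↔ ∃ t ∈ Submodule.span ℤ (T' : Set Λ), ∃ z ∈ M,
      y = t + (2 : ℤ) • z := by
    intro y
    constructor
    · intro hy
      obtain ⟨t, ht, u, hu, rfl⟩ := Submodule.mem_sup.1 hy
      obtain ⟨z, hz, rfl⟩ := hu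
      exact ⟨t, ht, z, hz, rfl⟩
    · rintro ⟨t, ht, z, hz, rfl⟩
      exact Submodule.mem_sup.2 ⟨t, ht, _, ⟨z, hz, rfl⟩, rfl⟩
  have hcomp : ∀ p ∈ V', ∀ q ∈ V', ∀ r ∈ V', D.d p q ∈ M' → D.d q r ∈ M' → D.d p r ∈ M' := by
    intro p hp q hq r hr h1 h2
    obtain ⟨m, m1, m2, m3⟩ := exists_median hT p q r
    have hm := hSk.med_mem hT hp hq hr ⟨m1, m2, m3⟩
    have h3 : (2 : ℤ) • D.d q m ∈ M' :=
      hM'.2 ⟨0, Submodule.zero_mem _, D.d q m, hdM q hq m hm, by simp⟩
    have h4 : D.d p r = D.d p q + D.d q r - (2 : ℤ) • D.d q m := by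
      have s := D.symm m q
      unfold Btw at *
      rw [two_zsmul]
      grind
    rw [h4]
    exact M'.sub_mem (M'.add_mem h1 h2) h3
  have hsM : ∀ s ∈ S, D.d x0 (s • x0) ∈ M' := fun s hs' =>
    Submodule.mem_sup_left (Submodule.subset_span (Finset.mem_coe.2
      (Finset.mem_union_left _ (Finset.mem_image_of_mem _ hs'))))
  have hpM : ∀ q, (q = x0 ∨ q ∈ P) → D.d x0 q ∈ M' := by
    rintro q (rfl | hq)
    · rw [D.d_self]; exact M'.zero_mem
    · exact Submodule.mem_sup_left (Submodule.subset_span (Finset.mem_coe.2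
        (Finset.mem_union_right _ (Finset.mem_image_of_mem _ hq))))
  have hVM : ∀ u ∈ V', D.d x0 u ∈ M' := by
    intro u hu
    obtain ⟨c, hcS, hu'⟩ := (hmemV' u).1 hu
    exact wpath_dist hG hTS M' hcomp hx0V hsV hsM (w c) (hw c hcS) (p c) (hpM _ (hp c hcS))
      (fun v hv' => (hmemV' v).2 ⟨c, hcS, hv'⟩) u hu'
  have hMM : M ≤ M' := by
    refine Submodule.span_le.2 ?_
    intro t ht
    obtain ⟨⟨y, z⟩, hyz, rfl⟩ := Finset.mem_image.1 (Finset.mem_coe.1 ht)
    obtain ⟨hy, hz⟩ := Finset.mem_product.1 hyz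
    refine hcomp y hy x0 hx0V z hz ?_ (hVM z hz)
    rw [D.symm]; exact hVM y hy
  have hT'M : ∀ t ∈ T', t ∈ M := by
    intro t ht
    rcases Finset.mem_union.1 ht with h | h
    · obtain ⟨s, hs', rfl⟩ := Finset.mem_image.1 h
      exact hdM x0 hx0V _ (hsV s hs').1
    · obtain ⟨f, hf, rfl⟩ := Finset.mem_image.1 h
      exact hdM x0 hx0V f (hSgV (hP f hf).1)
  have hMfg : M.FG := ⟨N, rfl⟩
  have hrk := finrank_le_of_mod_two hMfg T' hT'M (fun y hy => hM'.1 (hMM hy))
  have c1 : T'.card ≤ S.card + P.card :=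
    (Finset.card_union_le _ _).trans (add_le_add Finset.card_image_le Finset.card_image_le)
  refine ⟨M, hMfg, by omega, ?_⟩
  intro a ha b hb c hc' a' ha' b' hb' c' hc'' y z hy hz
  exact hdM y (hSgV (hmeds _ (hBF a ha) _ (hBF b hb) _ (hBF c hc') y hy)) z
    (hSgV (hmeds _ (hBF a' ha') _ (hBF b' hb') _ (hBF c' hc'') z hz))

/-- Every element of the group of lengths comes from finitely many points of the orbit. -/
lemma exists_level (x0 : X) (t : Λ) (ht : t ∈ lengths D G x0) :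
    ∃ B : Finset G, ∀ B' : Finset G, B ⊆ B' → ∀ M : Submodule ℤ Λ,
      (∀ a ∈ B', ∀ b ∈ B', ∀ c ∈ B', ∀ a' ∈ B', ∀ b' ∈ B', ∀ c' ∈ B', ∀ y z,
        IsMedian D (a • x0) (b • x0) (c • x0) y → IsMedian D (a' • x0) (b' • x0) (c' • x0) z →
          D.d y z ∈ M) → t ∈ M := by
  classical
  unfold lengths at ht
  induction ht using Submodule.span_induction with
  | mem t h =>
    obtain ⟨p, ⟨a, b, c, hp⟩, q, ⟨a', b', c', hq⟩, rfl⟩ := h
    refine ⟨{a, b, c, a', b', c'}, fun B' hB M hM => ?_⟩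
    exact hM a (hB (by simp)) b (hB (by simp)) c (hB (by simp)) a' (hB (by simp)) b'
      (hB (by simp)) c' (hB (by simp)) p q hp hq
  | zero => exact ⟨∅, fun _ _ M _ => M.zero_mem⟩
  | add s t _ _ hs ht =>
    obtain ⟨B1, h1⟩ := hs
    obtain ⟨B2, h2⟩ := ht
    refine ⟨B1 ∪ B2, fun B' hB M hM => ?_⟩
    exact M.add_mem (h1 B' (Finset.union_subset_left hB) M hM)
      (h2 B' (Finset.union_subset_right hB) M hM)
  | smul c t _ ht =>
    obtain ⟨B1, h1⟩ := ht
    exact ⟨B1, fun B' hB M hM => M.smul_mem c (h1 B' hB M hM)⟩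

/-- The group of distances has rank at most `3|S| - δ`. -/
theorem lengths_rank (hT : IsTree D) (hG : FreeAct D G) (S : Finset G)
    (hS : Subgroup.closure (S : Set G) = ⊤) (x0 : X) (δ : ℕ) (A : Finset G) (F0 : Finset X)
    (hF0 : ∀ y, y ∈ F0 ↔ ∃ w ∈ A, y = w • x0) (hδ : δ ≤ (dirs D F0 x0).card) (n : ℕ)
    (v : Fin n → lengths D G x0) (hv : LinearIndependent ℤ v) : n + δ ≤ 3 * S.card := by
  classical
  choose B hB using fun i => exists_level (D := D) (G := G) x0 (v i : Λ) (v i).2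
  obtain ⟨M, hfg, hrk, hM⟩ := rank_level hT hG S hS x0 δ A F0 hF0 hδ
    (Finset.univ.biUnion B)
  have hvM : ∀ i, (v i : Λ) ∈ M := fun i =>
    hB i _ (Finset.subset_biUnion_of_mem B (Finset.mem_univ i)) M hM
  have : Module.Finite ℤ M := Module.Finite.iff_fg.2 hfg
  have h1 : LinearIndependent ℤ (fun i => (v i : Λ)) := by
    have := hv.map' (lengths D G x0).subtype (Submodule.ker_subtype _)
    exact this
  have h2 : LinearIndependent ℤ (fun i => (⟨v i, hvM i⟩ : M)) :=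
    LinearIndependent.of_comp M.subtype h1
  have h3 := h2.fintype_card_le_finrank
  rw [Fintype.card_fin] at h3
  omega

end LTree.Idx
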