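import Pool.Agent.Work.MP_0c526b_al.Idx.Defs

/-!
# Skeleton (exact statements of all modules, with sorry; NEVER import from a finished module)
-/

set_option autoImplicit false
set_option linter.unusedVariables false

namespace LTree.Idx

open LTree

variable {Λ : Type*} [AddCommGroup Λ] [LinearOrder Λ] [IsOrderedAddMonoid Λ] {X : Type*}
variable {D : Dist Λ X} {G : Type*} [Group G] [MulAction G X]

/-! ## A1 Basics.lean -/

lemma pt_btw (hT : IsTree D) {p q : X} {t : Λ} (h0 : 0 ≤ t) (h1 : t ≤ D.d p q) :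
    Btw D p (pt hT p q t) q := sorry

lemma d_pt (hT : IsTree D) {p q : X} {t : Λ} (h0 : 0 ≤ t) (h1 : t ≤ D.d p q) :
    D.d p (pt hT p q t) = t := sorry

lemma pt_zero (hT : IsTree D) (p q : X) : pt hT p q 0 = p := sorry

lemma pt_end (hT : IsTree D) (p q : X) : pt hT p q (D.d p q) = q := sorry

lemma pt_of_btw (hT : IsTree D) {p q y : X} (h : Btw D p y q) : pt hT p q (D.d p y) = y := sorry

lemma pt_dist (hT : IsTree D) {p q : X} {s t : Λ} (h0 : 0 ≤ s) (h1 : s ≤ t) (h2 : t ≤ D.d p q) :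
    D.d (pt hT p q s) (pt hT p q t) = t - s := sorry

lemma pt_mid (hT : IsTree D) {p q : X} {s t u : Λ} (h0 : 0 ≤ s) (h1 : s ≤ t) (h2 : t ≤ u)
    (h3 : u ≤ D.d p q) : Btw D (pt hT p q s) (pt hT p q t) (pt hT p q u) := sorry

lemma smul_pt (hT : IsTree D) (hG : FreeAct D G) (g : G) {p q : X} {t : Λ} (h0 : 0 ≤ t)
    (h1 : t ≤ D.d p q) : g • pt hT p q t = pt hT (g • p) (g • q) t := sorry

/-- A point on an isometric piece: if `y` and `z` are the points at times `s ≤ u` of a segment and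
also of an isometric copy, then so are the points in between. -/
lemma pt_copy (hT : IsTree D) {p q p' q' : X} {g : G} (hG : FreeAct D G) {s t u s' : Λ}
    (h0 : 0 ≤ s) (h1 : s ≤ t) (h2 : t ≤ u) (h3 : u ≤ D.d p q) (h0' : 0 ≤ s')
    (h3' : s' + (u - s) ≤ D.d p' q') (e0 : g • pt hT p q s = pt hT p' q' s')
    (e1 : g • pt hT p q u = pt hT p' q' (s' + (u - s))) :
    g • pt hT p q t = pt hT p' q' (s' + (t - s)) := sorry

lemma med_spec (hT : IsTree D) (x y z : X) : IsMedian D x y z (med hT x y z) := sorry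

lemma med_unique (hT : IsTree D) {x y z c c' : X} (h : IsMedian D x y z c)
    (h' : IsMedian D x y z c') : c = c' := sorry

lemma mem_drn {x y z : X} : z ∈ drn D x y ↔ ¬ Btw D z x y := Iff.rfl

lemma drn_eq_iff (hT : IsTree D) {x y z : X} (hy : y ≠ x) (hz : z ≠ x) :
    drn D x y = drn D x z ↔ ¬ Btw D y x z := sorry

lemma drn_eq_of_btw (hT : IsTree D) {x y z : X} (h : Btw D x y z) (hy : y ≠ x) :
    drn D x y = drn D x z := sorry

/-- Equal directions share a nondegenerate segment. -/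
lemma drn_common (hT : IsTree D) {x y z : X} (hy : y ≠ x) (hz : z ≠ x)
    (h : drn D x y = drn D x z) : ∃ m, m ≠ x ∧ Btw D x m y ∧ Btw D x m z := sorry

lemma sm_drn (hG : FreeAct D G) (g : G) (x y : X) : sm g (drn D x y) = drn D (g • x) (g • y) :=
  sorry

lemma sm_one (d : Set X) : sm (1 : G) d = d := sorry

lemma sm_mul (g h : G) (d : Set X) : sm (g * h) d = sm g (sm h d) := sorry

lemma subset_hull {F : Finset X} {f : X} (hf : f ∈ F) : f ∈ hull D F := sorry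

lemma hull_beyond (hT : IsTree D) {F : Finset X} {y : X} (hy : y ∈ hull D F) (c : X) :
    ∃ f ∈ F, Btw D c y f := sorry

lemma hull_convex (hT : IsTree D) {F : Finset X} {y z m : X} (hy : y ∈ hull D F)
    (hz : z ∈ hull D F) (hm : Btw D y m z) : m ∈ hull D F := sorry

lemma mem_dirs {F : Finset X} {x : X} {d : Set X} :
    d ∈ dirs D F x ↔ ∃ f ∈ F, f ≠ x ∧ d = drn D x f := sorry

lemma drn_mem_dirs (hT : IsTree D) {F : Finset X} {x y : X} (hy : y ∈ hull D F) (hne : y ≠ x) :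
    drn D x y ∈ dirs D F x := sorry

lemma two_le_dirs (hT : IsTree D) {F : Finset X} {x : X} (hx : x ∈ hull D F) (hF : x ∉ F) :
    2 ≤ (dirs D F x).card := sorry

lemma three_le_dirs (hT : IsTree D) {F : Finset X} {x y z c : X} (hx : x ∈ F) (hy : y ∈ F)
    (hz : z ∈ F) (hc : IsMedian D x y z c) (hF : c ∉ F) : 3 ≤ (dirs D F c).card := sorry

lemma Sk.F_sub {F V : Finset X} (h : Sk D F V) : F ⊆ V := sorry

/-- Medians of points of the hull. -/
lemma Sk.med_or (hT : IsTree D) {F V : Finset X} (h : Sk D F V) {x y z c : X}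
    (hx : x ∈ hull D F) (hy : y ∈ hull D F) (hz : z ∈ hull D F) (hc : IsMedian D x y z c) :
    c ∈ V ∨ c = x ∨ c = y ∨ c = z := sorry

lemma Sk.med_mem (hT : IsTree D) {F V : Finset X} (h : Sk D F V) {x y z c : X}
    (hx : x ∈ V) (hy : y ∈ V) (hz : z ∈ V) (hc : IsMedian D x y z c) : c ∈ V := sorry

lemma Sk.mono {F V W : Finset X} (h : Sk D F V) (hVW : V ⊆ W) (hW : ∀ x ∈ W, x ∈ hull D F) :
    Sk D F W := sorry

lemma exists_Sk (hT : IsTree D) (F W : Finset X) (hW : ∀ x ∈ W, x ∈ hull D F) :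
    ∃ V, Sk D F V ∧ W ⊆ V := sorry

/-! ## A2 Words.lean -/

lemma val_append (w w' : List (Letter X G)) : val (w ++ w') = val w' * val w := sorry

lemma ok_append (t : Λ) (w w' : List (Letter X G)) (y : X) :
    ok D t (w ++ w') y ↔ ok D t w y ∧ ok D t w' (val w • y) := sorry

lemma mem_append (w w' : List (Letter X G)) (y : X) :
    mem D (w ++ w') y ↔ mem D w y ∧ mem D w' (val w • y) := sorry

lemma val_rev (w : List (Letter X G)) : val (rev w) = (val w)⁻¹ := sorry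

lemma ok_rev (hG : FreeAct D G) (t : Λ) (w : List (Letter X G)) (y : X) :
    ok D t (rev w) (val w • y) ↔ ok D t w y := sorry

lemma mem_rev (hG : FreeAct D G) (w : List (Letter X G)) (y : X) :
    mem D (rev w) (val w • y) ↔ mem D w y := sorry

lemma rev_in {L : Set (Letter X G)} (hL : ∀ l ∈ L, l.inv ∈ L) {w : List (Letter X G)}
    (hw : ∀ l ∈ w, l ∈ L) : ∀ l ∈ rev w, l ∈ L := sorry

lemma ok_mem {t : Λ} {w : List (Letter X G)} {y : X} (h : ok D t w y) : mem D w y := sorry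

/-- Without flags, `ok` is `mem`. -/
lemma ok_of_mem {t : Λ} {w : List (Letter X G)} {y : X} (h : mem D w y)
    (hf : ∀ l ∈ w, l.flag = false) : ok D t w y := sorry

lemma ok_move (hG : FreeAct D G) {s t : Λ} {w : List (Letter X G)} {y z : X} (h : ok D s w y)
    (hm : mem D w z) (hd : D.d y z ≤ t - s) : ok D t w z := sorry

lemma ok_mono {s t : Λ} (hst : s ≤ t) {w : List (Letter X G)} {y : X} (h : ok D s w y) :
    ok D t w y := sorry

lemma mem_convex (hT : IsTree D) (hG : FreeAct D G) {w : List (Letter X G)} {y z m : X}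
    (hy : mem D w y) (hz : mem D w z) (hm : Btw D y m z) : mem D w m := sorry

/-- A word whose letters have end points in the hull stays in the hull. -/
lemma mem_hull (hT : IsTree D) (hG : FreeAct D G) {F : Finset X} {w : List (Letter X G)}
    (hw : ∀ l ∈ w, l.h • l.a ∈ hull D F ∧ l.h • l.b ∈ hull D F) {y : X} (hy : y ∈ hull D F)
    (hm : mem D w y) : val w • y ∈ hull D F := sorry

/-! ## A3 Euler.lean -/

theorem euler (hT : IsTree D) {F V : Finset X} (hF : F.Nonempty) (hV : Sk D F V) :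
    ∑ x ∈ V, (dirs D F x).card + 2 = 2 * V.card := sorry

/-! ## A4 Ncl.lean -/

theorem ncl_bot {α : Type*} (V : Finset α) (r : α → α → Prop) (h : ∀ x y, ¬ r x y) :
    ncl r V = V.card := sorry

theorem ncl_mono {α : Type*} {r r' : α → α → Prop} (h : ∀ x y, r x y → Relation.EqvGen r' x y)
    (V : Finset α) : ncl r' V ≤ ncl r V := sorry

/-- Adding one pair. -/
theorem ncl_add {α : Type*} {r r' : α → α → Prop} {a b : α}
    (h : ∀ x y, r' x y ↔ r x y ∨ (x = a ∧ y = b)) (V : Finset α) (ha : a ∈ V) (hb : b ∈ V)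
    (hab : ¬ Relation.EqvGen r a b) : ncl r' V + 1 = ncl r V := sorry

/-- A set of pairwise inequivalent elements. -/
theorem le_ncl {α ι : Type*} {r : α → α → Prop} (V : Finset α) (I : Finset ι) (f : ι → α)
    (hf : ∀ i ∈ I, f i ∈ V) (hinj : ∀ i ∈ I, ∀ j ∈ I, Relation.EqvGen r (f i) (f j) → i = j) :
    I.card ≤ ncl r V := sorry

/-! ## A5 Count.lean (uses A1, A3, A4) -/

theorem Phi_empty (hT : IsTree D) {F V : Finset X} (hF : F.Nonempty) (hV : Sk D F V) :
    Phi D F V (∅ : Set (Edge X G)) = -2 := sorry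

/-- Connected directions at the same point are equal. -/
theorem rH_same (hG : FreeAct D G) {E : Set (Edge X G)} {x y : X} {d d' : Set X}
    (h : Relation.EqvGen (rH D E) (x, d) (y, d')) :
    (∃ g : G, y = g • x ∧ d' = sm g d) ∧ Relation.EqvGen (rV E) x y ∧ (x = y → d = d') := sorry

/-- Adding an edge: general bound. -/
theorem Phi_insert (hT : IsTree D) (hG : FreeAct D G) {F V : Finset X} (hV : Sk D F V)
    {E : Set (Edge X G)} (e : Edge X G) (h1 : e.x ∈ V) (h2 : e.h • e.x ∈ V)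
    (ha : e.a ∈ hull D F) (hb : e.b ∈ hull D F) (ga : e.h • e.a ∈ hull D F)
    (gb : e.h • e.b ∈ hull D F) (hx : Btw D e.a e.x e.b) :
    Phi D F V (insert e E) + ((e.dset D).ncard : ℤ) ≤ Phi D F V E + 2 := sorry

/-- Adding an edge whose end points are connected already. -/
theorem Phi_insert_conn (hT : IsTree D) (hG : FreeAct D G) {F V : Finset X} (hV : Sk D F V)
    {E : Set (Edge X G)} (e : Edge X G) (h1 : e.x ∈ V) (h2 : e.h • e.x ∈ V)
    (ha : e.a ∈ hull D F) (hb : e.b ∈ hull D F) (ga : e.h • e.a ∈ hull D F)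
    (gb : e.h • e.b ∈ hull D F) (hx : Btw D e.a e.x e.b)
    (hc : Relation.EqvGen (rV E) e.x (e.h • e.x)) :
    Phi D F V (insert e E) ≤ Phi D F V E := sorry

/-- Adding an edge whose end points are connected already, but not one of its directions. -/
theorem Phi_insert_merge (hT : IsTree D) (hG : FreeAct D G) {F V : Finset X} (hV : Sk D F V)
    {E : Set (Edge X G)} (e : Edge X G) (h1 : e.x ∈ V) (h2 : e.h • e.x ∈ V)
    (ha : e.a ∈ hull D F) (hb : e.b ∈ hull D F) (ga : e.h • e.a ∈ hull D F)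
    (gb : e.h • e.b ∈ hull D F) (hx : Btw D e.a e.x e.b)
    (hc : Relation.EqvGen (rV E) e.x (e.h • e.x))
    (hd : ∃ d ∈ e.dset D, ¬ Relation.EqvGen (rH D E) (e.x, d) (e.h • e.x, sm e.h d)) :
    Phi D F V (insert e E) + 1 ≤ Phi D F V E := sorry

/-! ## A6 Germ.lean (uses A1, A2) -/

/-- Connected points are joined by words. -/
theorem rV_word (hG : FreeAct D G) {T : Set (Letter X G)} (hTf : ∀ l ∈ T, l.flag = false)
    {E : Set (Edge X G)}
    (hE : ∀ e ∈ E, EdgeOf D T e) {x y : X} (h : Relation.EqvGen (rV E) x y) :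
    ∃ g : G, Conn D T x g ∧ y = g • x := sorry

/-- Words give finitely many edges. -/
theorem word_rV (hG : FreeAct D G) {T : Set (Letter X G)} (hTf : ∀ l ∈ T, l.flag = false)
    {x : X} {g : G} (h : Conn D T x g) :
    ∃ E : Set (Edge X G), E.Finite ∧ (∀ e ∈ E, EdgeOf D T e) ∧
      Relation.EqvGen (rV E) x (g • x) := sorry

/-- Connected directions are joined by words valid on a nondegenerate segment. -/
theorem rH_word (hT : IsTree D) (hG : FreeAct D G) {T : Set (Letter X G)}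
    (hTf : ∀ l ∈ T, l.flag = false)
    {E : Set (Edge X G)} (hE : ∀ e ∈ E, EdgeOf D T e) {x z y : X} {d : Set X} (hz : z ≠ x)
    (h : Relation.EqvGen (rH D E) (x, drn D x z) (y, d)) :
    ∃ (w : List (Letter X G)) (m : X), (∀ l ∈ w, l ∈ lett T) ∧ y = val w • x ∧ m ≠ x ∧
      Btw D x m z ∧ mem D w x ∧ mem D w m := sorry

/-- A word with flagged letters, valid at time `d(p,q')` from `q'`, gives finitely many edges of
the system and finitely many edges of the family `(p,q',g)` at points different from `q'`. -/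
theorem flag_rV (hT : IsTree D) (hG : FreeAct D G) {T : Set (Letter X G)}
    (hTf : ∀ l ∈ T, l.flag = false) {p q q' : X} {g : G} (hq' : Btw D p q' q)
    {w : List (Letter X G)}
    (hw : ∀ l ∈ w, l ∈ lett T ∨ l = ⟨p, q, g, true⟩ ∨ l = (⟨p, q, g, true⟩ : Letter X G).inv)
    (hok : ok D (D.d p q') w q') :
    ∃ (E : Set (Edge X G)) (R : Set X), E.Finite ∧ (∀ e ∈ E, EdgeOf D T e) ∧ R.Finite ∧
      (∀ r ∈ R, Btw D p r q' ∧ r ≠ q') ∧
      Relation.EqvGen (rV (E ∪ (fun r => (⟨p, q', g, r⟩ : Edge X G)) '' R)) q' (val w • q') := sorry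

/-- A word of the system with the family `(p,q',g)` added, valid at `q'` and at a point beyond `q'`,
may be rewritten with flagged letters. -/
theorem flag_word (hT : IsTree D) (hG : FreeAct D G) {T : Set (Letter X G)}
    (hTf : ∀ l ∈ T, l.flag = false) {p q q' m : X} {g : G} (hq' : Btw D p q' q)
    (hm : Btw D q' m q) (hne : m ≠ q') {w : List (Letter X G)}
    (hw : ∀ l ∈ w, l ∈ lett (insert ⟨p, q', g, false⟩ T)) (h1 : mem D w q') (h2 : mem D w m) :
    ∃ w' : List (Letter X G), (∀ l ∈ w', l ∈ lett T ∨ l = ⟨p, q, g, true⟩ ∨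
      l = (⟨p, q, g, true⟩ : Letter X G).inv) ∧ val w' = val w ∧
      ok D (D.d p q') w' q' ∧ ok D (D.d p m) w' m := sorry

/-! ## A7 Fold.lean (uses A1, A2, A5, A6, B8) -/

theorem fold_closed (hT : IsTree D) (hG : FreeAct D G) {F : Finset X} {T : Set (Letter X G)}
    (hS : Sys D F T) {c : ℤ} (hc : Claim D F T c) {p q q' : X} {g : G} (hp : p ∈ hull D F)
    (hq : q ∈ hull D F) (gp : g • p ∈ hull D F) (gq : g • q ∈ hull D F) (hq' : Btw D p q' q)
    (h0 : Conn D T p g)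
    (h1 : ∃ w : List (Letter X G),
      (∀ l ∈ w, l ∈ lett T ∨ l = ⟨p, q, g, true⟩ ∨ l = (⟨p, q, g, true⟩ : Letter X G).inv) ∧
      val w = g ∧ ok D (D.d p q') w q') :
    Claim D F (insert ⟨p, q', g, false⟩ T) c := sorry

theorem fold_open (hT : IsTree D) (hG : FreeAct D G) {F : Finset X} {T : Set (Letter X G)}
    (hS : Sys D F T) {c : ℤ} (hc : Claim D F T c) {p q : X} {g : G} (hp : p ∈ hull D F)
    (hq : q ∈ hull D F) (gp : g • p ∈ hull D F) (gq : g • q ∈ hull D F)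
    (h0 : Conn D T p g) (hpq : p ≠ q)
    (h1 : ¬ ∃ (w : List (Letter X G)) (m : X), (∀ l ∈ w, l ∈ lett T) ∧ val w = g ∧ m ≠ p ∧
      Btw D p m q ∧ mem D w p ∧ mem D w m) :
    Claim D F (insert ⟨p, q, g, false⟩ T) c := sorry

theorem fold_step (hT : IsTree D) (hG : FreeAct D G) {F : Finset X} {T : Set (Letter X G)}
    (hS : Sys D F T) {c : ℤ} (hc : Claim D F T c) {p q : X} {g : G} (hp : p ∈ hull D F)
    (hq : q ∈ hull D F) (gp : g • p ∈ hull D F) (gq : g • q ∈ hull D F)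
    (h0 : Conn D T p g) :
    ∃ q', Btw D p q' q ∧
      Claim D F (insert ⟨q', q, g, false⟩ (insert ⟨p, q', g, false⟩ T)) c := sorry

/-! ## B1 Gate.lean -/

/-- A trajectory leaves a segment at a median. -/
theorem gate_exit (hT : IsTree D) {F : Finset X} {a b y0 y1 : X} (hy1 : y1 ∈ hull D F)
    (h0 : Btw D a y0 b) (h1 : ¬ Btw D a y1 b) :
    ∃ f ∈ F, ∃ v, IsMedian D a b f v ∧ Btw D y0 v y1 ∧ Btw D v y1 f ∧ v ≠ y1 ∧
      ∀ z, Btw D y0 z y1 → (Btw D a z b ↔ Btw D y0 z v) := sorry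

/-- Gates of an alphabet are in the skeleton. -/
theorem gate_mem (hT : IsTree D) {F Sg : Finset X} {L : Set (Letter X G)} (hA : Alph D F Sg L)
    {l : Letter X G} (hl : l ∈ L) {f v : X} (hf : f ∈ F) (hv : IsMedian D l.a l.b f v) :
    v ∈ Sg := sorry

/-! ## B2 JJ.lean: basic properties of the set of times -/

section JJ
variable {hT : IsTree D} {F Sg : Finset X} {L : Set (Letter X G)} {p q : X} {g : G}
  {w0 : List (Letter X G)}

theorem JJ_zero : (0 : Λ) ∈ JJ hT L p q g := sorry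

theorem JJ_nonneg {t : Λ} (h : t ∈ JJ hT L p q g) : 0 ≤ t ∧ t ≤ D.d p q := sorry

theorem JJ_down (hG : FreeAct D G) {s t : Λ} (h : t ∈ JJ hT L p q g) (h0 : 0 ≤ s) (h1 : s ≤ t) :
    s ∈ JJ hT L p q g := sorry

/-- A word valid at a time of `J` and applicable at a later time. -/
theorem JJ_extend (hG : FreeAct D G) {s t : Λ} (h : s ∈ JJ hT L p q g) (h1 : s ≤ t)
    (h2 : t ≤ D.d p q) {w : List (Letter X G)} (hw : ∀ l ∈ w, l ∈ L) (hv : val w = g)
    (hs : ok D s w (pt hT p q s)) (ht : mem D w (pt hT p q t)) : t ∈ JJ hT L p q g := sorry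

theorem JJ_word (h : Cl hT F Sg L p q g w0) {t : Λ} (ht : t ∈ JJ hT L p q g) :
    ∃ w : List (Letter X G), (∀ l ∈ w, l ∈ L) ∧ val w = g ∧ ok D t w (pt hT p q t) := sorry

/-- A word crossing from `t` (or from beyond a bound `b`) to a later time: if `t < t'` in `J` and
`P` is a property of times which holds at `t'`, fails at `t`, and is inherited by larger times, then
some word is valid at a time `a ≥ t` where `P` fails and at a time `b ∈ J` where `P` holds. -/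
theorem JJ_cross (hG : FreeAct D G) (P : Λ → Prop) (hP : ∀ a b, a ≤ b → P a → P b) {t t' : Λ}
    (ht : t ∈ JJ hT L p q g) (ht' : t' ∈ JJ hT L p q g) (h : ¬ P t) (h' : P t') :
    ∃ a b, t ≤ a ∧ a ≤ b ∧ b ≤ t' ∧ a ∈ JJ hT L p q g ∧ b ∈ JJ hT L p q g ∧ ¬ P a ∧ P b ∧
      ∃ w : List (Letter X G), (∀ l ∈ w, l ∈ L) ∧ val w = g ∧ ok D a w (pt hT p q a) ∧
        ok D b w (pt hT p q b) := sorry

/-- The invariance group is a convex subgroup. -/
theorem Cc_zero (J : Set Λ) : Cc J (0 : Λ) := sorry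

theorem Cc_add {c c' : Λ} (h : Cc (JJ hT L p q g) c) (h' : Cc (JJ hT L p q g) c')
    (hG : FreeAct D G) : Cc (JJ hT L p q g) (c + c') := sorry

theorem Cc_neg {J : Set Λ} {c : Λ} (h : Cc J c) : Cc J (-c) := sorry

theorem Cc_convex {c c' : Λ} (h : Cc (JJ hT L p q g) c) (h' : |c'| ≤ |c|) (hG : FreeAct D G) :
    Cc (JJ hT L p q g) c' := sorry

end JJ

/-! ## B3 Reach.lean (uses A1, A2, B1, B2) -/

/-- A prefix `Q` leading the trajectory `k • x(t)`, `tf ≤ t ≤ T`, to the route `[v,f]`. -/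
structure RD (hT : IsTree D) (F Sg : Finset X) (L : Set (Letter X G)) (p q : X) (k : G)
    (J : Set Λ) (v f : X) (tf T : Λ) (Q : List (Letter X G)) : Prop where
  vS : v ∈ Sg
  fF : f ∈ F
  tf0 : 0 ≤ tf
  tfT : tf < T
  Tq : T ≤ D.d p q
  tfJ : tf ∈ J
  TJ : T ∉ J
  QL : ∀ l ∈ Q, l ∈ L
  ok0 : ok D tf Q (k • pt hT p q tf)
  ok1 : ok D T Q (k • pt hT p q T)
  len : T - tf ≤ D.d v f
  route : ∀ t, tf ≤ t → t ≤ T → val Q • (k • pt hT p q t) = pt hT v f (t - tf)

section Reach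
variable {hT : IsTree D} {F Sg : Finset X} {L : Set (Letter X G)} {p q : X} {g : G}
  {w0 : List (Letter X G)}

theorem reach (h : Cl hT F Sg L p q g w0) (hp : p ∈ hull D F) (hq : q ∈ hull D F)
    (gp : g • p ∈ hull D F) (gq : g • q ∈ hull D F)
    (hnm : ∀ t ∈ JJ hT L p q g, ∃ t' ∈ JJ hT L p q g, t < t') {k : G} (hk : k = 1 ∨ k = g)
    {t0 : Λ} (ht0 : t0 ∈ JJ hT L p q g) :
    ∃ v f tf T Q, RD hT F Sg L p q k (JJ hT L p q g) v f tf T Q ∧ t0 ≤ tf := sorry

theorem translation (h : Cl hT F Sg L p q g w0) (hp : p ∈ hull D F) (hq : q ∈ hull D F)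
    (gp : g • p ∈ hull D F) (gq : g • q ∈ hull D F)
    (hnm : ∀ t ∈ JJ hT L p q g, ∃ t' ∈ JJ hT L p q g, t < t') {k : G} (hk : k = 1 ∨ k = g)
    {t0 : Λ} (ht0 : t0 ∈ JJ hT L p q g) :
    ∃ τ u T U, 0 < τ ∧ t0 ≤ u - τ ∧ u ∈ JJ hT L p q g ∧ T ∉ JJ hT L p q g ∧ u ≤ T ∧
      T ≤ D.d p q ∧ (∀ l ∈ U, l ∈ L) ∧ ok D u U (k • pt hT p q u) ∧ ok D T U (k • pt hT p q T) ∧
      ∀ t, u ≤ t → t ≤ T → val U • (k • pt hT p q t) = k • pt hT p q (t - τ) := sorry

/-! ## B4 CaseTwo.lean (uses A1, A2, B2, B3) -/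

theorem caseTwo (h : Cl hT F Sg L p q g w0) (hp : p ∈ hull D F) (hq : q ∈ hull D F)
    (gp : g • p ∈ hull D F) (gq : g • q ∈ hull D F)
    (hnm : ∀ t ∈ JJ hT L p q g, ∃ t' ∈ JJ hT L p q g, t < t')
    {s : Λ} (hs : s ∈ JJ hT L p q g)
    (hC : ∀ t ∈ JJ hT L p q g, s ≤ t → Cc (JJ hT L p q g) (t - s)) : False := sorry

end Reach

/-! ## B5 Coord.lean (uses A1, A2) -/

/-- The group of distances of a finite set. -/
def spanD (D : Dist Λ X) (Sg : Finset X) : Submodule ℤ Λ :=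
  Submodule.span ℤ {t | ∃ x ∈ Sg, ∃ y ∈ Sg, t = D.d x y}

theorem spanD_fg (Sg : Finset X) : (spanD D Sg).FG := sorry

/-- Letters preserve the distances to the skeleton up to sign modulo the group of distances. -/
theorem word_coord (hT : IsTree D) (hG : FreeAct D G) {F Sg : Finset X}
    {L : Set (Letter X G)} (hA : Alph D F Sg L) {w : List (Letter X G)} (hw : ∀ l ∈ w, l ∈ L)
    {y : X} (hy : y ∈ hull D F) (hm : mem D w y) {σ σ' : X} (hσ : σ ∈ Sg) (hσ' : σ' ∈ Sg) :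
    D.d σ y - D.d σ' (val w • y) ∈ spanD D Sg ∨ D.d σ y + D.d σ' (val w • y) ∈ spanD D Sg := sorry

/-! ## B6 Connect.lean (uses A1, A2, B2, B5) -/

/-- Connecting words between routes, with shift `κ`; `C` is a convex subgroup. -/
def Cn (hT : IsTree D) (L : Set (Letter X G)) (C : Λ → Prop) (t ε κ : Λ) (v f v' f' : X) : Prop :=
  ∃ w : List (Letter X G), (∀ l ∈ w, l ∈ L) ∧ ∃ a b, 0 ≤ a ∧ C a ∧ 0 ≤ a + κ ∧ b ≤ D.d v f ∧
    b + κ ≤ D.d v' f' ∧ 0 < b - ε ∧ ¬ C (b - ε) ∧ 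
    ∀ r, a ≤ r → r ≤ b → ok D (t + r) w (pt hT v f r) ∧ val w • pt hT v f r = pt hT v' f' (r + κ)

section Stab
variable {hT : IsTree D} {F Sg : Finset X} {L : Set (Letter X G)} {p q : X} {g : G}
  {w0 : List (Letter X G)}

theorem stab_conn (h : Cl hT F Sg L p q g w0)
    (hI : ∀ s ∈ JJ hT L p q g, ∃ t ∈ JJ hT L p q g, s < t ∧ ¬ Cc (JJ hT L p q g) (t - s)) :
    ∃ ts ∈ JJ hT L p q g, ∃ εs, 0 < εs ∧ ¬ Cc (JJ hT L p q g) εs ∧
      (∀ σ ∈ Sg, ∀ σ' ∈ Sg, ¬ Cc (JJ hT L p q g) (D.d σ σ') → εs ≤ D.d σ σ') ∧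
      ∀ v ∈ Sg, ∀ v' ∈ Sg, ∀ f ∈ F, ∀ f' ∈ F, ∀ κ, Cc (JJ hT L p q g) κ →
        ∀ t ∈ JJ hT L p q g, ∀ ε, 0 < ε → ¬ Cc (JJ hT L p q g) ε →
          Cn hT L (Cc (JJ hT L p q g)) t ε κ v f v' f' →
          ∃ c, Cc (JJ hT L p q g) c ∧ Cn hT L (Cc (JJ hT L p q g)) (ts + c) εs κ v f v' f' := sorry

/-! ## B7 CaseOne.lean (uses A1, A2, B1, B2, B6) -/

theorem caseOne (h : Cl hT F Sg L p q g w0) (hp : p ∈ hull D F) (hq : q ∈ hull D F)
    (gp : g • p ∈ hull D F) (gq : g • q ∈ hull D F)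
    (hI : ∀ s ∈ JJ hT L p q g, ∃ t ∈ JJ hT L p q g, s < t ∧ ¬ Cc (JJ hT L p q g) (t - s)) :
    False := sorry

/-! ## B8 Closing.lean (uses B2, B4, B7) -/

theorem closing (h : Cl hT F Sg L p q g w0) (hp : p ∈ hull D F) (hq : q ∈ hull D F)
    (gp : g • p ∈ hull D F) (gq : g • q ∈ hull D F) :
    ∃ μ, 0 ≤ μ ∧ μ ≤ D.d p q ∧
      (∃ w : List (Letter X G), (∀ l ∈ w, l ∈ L) ∧ val w = g ∧ ok D μ w (pt hT p q μ)) ∧
      ∀ t, μ < t → ¬ Good hT L p q g μ t := by
  by_cases hmax : ∃ μ ∈ JJ hT L p q g, ∀ t ∈ JJ hT L p q g, t ≤ μ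
  · obtain ⟨μ, hμ, hle⟩ := hmax
    have hb := JJ_nonneg hμ
    refine ⟨μ, hb.1, hb.2, JJ_word h hμ, ?_⟩
    intro t ht hgood
    have : t ∈ JJ hT L p q g := Relation.ReflTransGen.tail hμ hgood
    exact absurd (hle t this) (not_le.2 ht)
  · exfalso
    push Not at hmax
    by_cases hI : ∀ s ∈ JJ hT L p q g, ∃ t ∈ JJ hT L p q g, s < t ∧
        ¬ Cc (JJ hT L p q g) (t - s)
    · exact caseOne h hp hq gp gq hI
    · push Not at hI
      obtain ⟨s, hs, hC⟩ := hI
      refine caseTwo h hp hq gp gq hmax hs ?_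
      intro t ht hst
      rcases hst.eq_or_lt with e | e
      · rw [← e, sub_self]; exact Cc_zero _
      · exact hC t ht e

end Stab

/-! ## C1 System.lean (uses A5, A7) -/

theorem Claim_zero (hT : IsTree D) {F : Finset X} (hF : F.Nonempty) :
    Claim D F (∅ : Set (Letter X G)) (-2) := sorry

/-- Adding a point family raises the bound by at most 2. -/
theorem Claim_point (hT : IsTree D) (hG : FreeAct D G) {F : Finset X} {T : Set (Letter X G)}
    (hS : Sys D F T) {c : ℤ} (hc : Claim D F T c) {x : X} {g : G} (hx : x ∈ hull D F)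
    (gx : g • x ∈ hull D F) : Claim D F (insert ⟨x, x, g, false⟩ T) (c + 2) := sorry

/-- The final system. -/
theorem final_system (hT : IsTree D) (hG : FreeAct D G) (S W : Finset G) (x0 : X) (F : Finset X)
    (hF : ∀ y, y ∈ F ↔ ∃ w ∈ W, y = w • x0) (h1 : (1 : G) ∈ W) (hSW : S ⊆ W) :
    ∃ T : Set (Letter X G), Sys D F T ∧ Claim D F T (2 * (S.card : ℤ) - 2) ∧
      (∀ l ∈ T, l.h ∈ S) ∧ (∀ s ∈ S, ⟨x0, x0, s, false⟩ ∈ T) ∧
      ∀ s ∈ S, ∀ w ∈ W, s * w ∈ W → ∃ l ∈ T, l.h = s ∧ Btw D l.a (w • x0) l.b := sorry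

/-! ## C2 Classes.lean (uses A1, A4, A5, A6) -/

theorem count_classes (hT : IsTree D) (hG : FreeAct D G) {F : Finset X} {T : Set (Letter X G)}
    (hS : Sys D F T) {c : ℤ} (hc : Claim D F T c) {x0 : X} (hx0 : x0 ∈ F)
    (hconn : ∀ f ∈ F, ∃ g : G, Conn D T x0 g ∧ f = g • x0) (P : Finset X)
    (hP : ∀ y ∈ P, y ∈ hull D F ∧ 3 ≤ (dirs D F y).card)
    (hPP : ∀ y ∈ P, ∀ z ∈ P, y ≠ z → ¬ ∃ g : G, Conn D T y g ∧ z = g • y)
    (hP0 : ∀ y ∈ P, ¬ ∃ g : G, Conn D T y g ∧ x0 = g • y) :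
    (P.card : ℤ) + ((dirs D F x0).card : ℤ) ≤ c + 2 := sorry

/-! ## C3 Balls.lean: balls in the group (uses C1) -/

/-- Balls with respect to the generating set `S`. -/
noncomputable def ball (S : Finset G) : ℕ → Finset G := by
  classical
  exact fun n => Nat.rec {1} (fun _ B => B ∪ (S ×ˢ B).image (fun u => u.1 * u.2) ∪
    (S ×ˢ B).image (fun u => u.1⁻¹ * u.2)) n

theorem ball_system (hT : IsTree D) (hG : FreeAct D G) (S : Finset G) (x0 : X) (n : ℕ)
    (F : Finset X) (hF : ∀ y, y ∈ F ↔ ∃ w ∈ ball S (n + 1), y = w • x0) :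
    ∃ T : Set (Letter X G), Sys D F T ∧ Claim D F T (2 * (S.card : ℤ) - 2) ∧
      (∀ l ∈ T, l.h ∈ S) ∧ (∀ s ∈ S, ⟨x0, x0, s, false⟩ ∈ T) ∧
      ∀ f ∈ F, ∃ g : G, Conn D T x0 g ∧ f = g • x0 := sorry

theorem ball_exhaust (S : Finset G) (hS : Subgroup.closure (S : Set G) = ⊤) (A : Finset G) :
    ∃ n, ∀ m, n ≤ m → A ⊆ ball S m := sorry

/-! ## C4 Orbits.lean (uses C2, C3) -/

/-- Finitely many orbits of branch points. `δ` is a lower bound for the number of directions at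
`x0` in the hull of some finite part of the orbit. -/
theorem orbits_le (hT : IsTree D) (hG : FreeAct D G) (S : Finset G)
    (hS : Subgroup.closure (S : Set G) = ⊤) (x0 : X) (δ : ℕ) (A : Finset G) (F0 : Finset X)
    (hF0 : ∀ y, y ∈ F0 ↔ ∃ w ∈ A, y = w • x0) (hδ : δ ≤ (dirs D F0 x0).card) :
    ∃ F : Finset X, F.card + δ ≤ 2 * S.card + 1 ∧
      ∀ c ∈ hullPts D G x0, ∃ g : G, ∃ f ∈ F, c = g • f := sorry

/-! ## C5 Rank.lean (uses C2, C3) -/

/-- A finitely generated torsion free group generated modulo 2 by `T`. -/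
theorem finrank_le_of_mod_two {M : Submodule ℤ Λ} (hM : M.FG) (T : Finset Λ)
    (hT' : ∀ t ∈ T, t ∈ M)
    (h : ∀ y ∈ M, ∃ t ∈ Submodule.span ℤ (T : Set Λ), ∃ z ∈ M, y = t + (2 : ℤ) • z) :
    Module.finrank ℤ M ≤ T.card := sorry

theorem rank_level (hT : IsTree D) (hG : FreeAct D G) (S : Finset G)
    (hS : Subgroup.closure (S : Set G) = ⊤) (x0 : X) (δ : ℕ) (A : Finset G) (F0 : Finset X)
    (hF0 : ∀ y, y ∈ F0 ↔ ∃ w ∈ A, y = w • x0) (hδ : δ ≤ (dirs D F0 x0).card) (B : Finset G) :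
    ∃ M : Submodule ℤ Λ, M.FG ∧ Module.finrank ℤ M + δ ≤ 3 * S.card ∧
      ∀ a ∈ B, ∀ b ∈ B, ∀ c ∈ B, ∀ a' ∈ B, ∀ b' ∈ B, ∀ c' ∈ B, ∀ y z,
        IsMedian D (a • x0) (b • x0) (c • x0) y → IsMedian D (a' • x0) (b' • x0) (c' • x0) z →
          D.d y z ∈ M := sorry

/-- The group of distances has rank at most `3|S| - δ`. -/
theorem lengths_rank (hT : IsTree D) (hG : FreeAct D G) (S : Finset G)
    (hS : Subgroup.closure (S : Set G) = ⊤) (x0 : X) (δ : ℕ) (A : Finset G) (F0 : Finset X)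
    (hF0 : ∀ y, y ∈ F0 ↔ ∃ w ∈ A, y = w • x0) (hδ : δ ≤ (dirs D F0 x0).card) (n : ℕ)
    (v : Fin n → lengths D G x0) (hv : LinearIndependent ℤ v) : n + δ ≤ 3 * S.card := sorry

/-! ## C6 Subtree.lean (independent, uses only Hull.lean) -/

/-- The points of the hull of an orbit at distances in the group of lengths form a tree over this
group, on which `G` acts freely. -/
theorem exists_subtree {Λ : Type*} [AddCommGroup Λ] [LinearOrder Λ] [IsOrderedAddMonoid Λ]
    {X : Type*} {D : Dist Λ X} {G : Type*} [Group G] [MulAction G X] (hT : IsTree D)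
    (hG : FreeAct D G) (x0 : X) :
    ∃ (Y : Set X) (_ : MulAction G Y) (D' : Dist (lengths D G x0).toAddSubgroup Y),
      (∀ (g : G) (y : Y), ((g • y : Y) : X) = g • (y : X)) ∧
      (∀ y z : Y, ((D'.d y z : (lengths D G x0).toAddSubgroup) : Λ) = D.d y z) ∧
      x0 ∈ Y ∧ IsTree D' ∧ FreeAct D' G := sorry

/-! ## C7 Final.lean (uses C4, C5, C6, Hull.lean, Axis.lean) -/

/-- Number of orbits of the medians of an orbit. -/
theorem final_orbits (hT : IsTree D) (hG : FreeAct D G) (S : Finset G)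
    (hS : Subgroup.closure (S : Set G) = ⊤) (x0 : X) (hne : ∃ g : G, g ≠ 1) :
    ∃ F : Finset X, F.card ≤ 2 * S.card ∧
      ∀ c ∈ hullPts D G x0, ∃ g : G, ∃ f ∈ F, c = g • f := sorry

theorem final_rank (hT : IsTree D) (hG : FreeAct D G) (S : Finset G)
    (hS : Subgroup.closure (S : Set G) = ⊤) (x0 : X) (n : ℕ)
    (v : Fin n → lengths D G x0) (hv : LinearIndependent ℤ v) : n ≤ 3 * S.card - 1 := sorry

/-- Rank of the abelian subgroups. -/
theorem final_abelian (hT : IsTree D) (hG : FreeAct D G) (S : Finset G)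
    (hS : Subgroup.closure (S : Set G) = ⊤) [Nonempty X] (A : Subgroup G)
    (hA : ∀ a ∈ A, ∀ b ∈ A, a * b = b * a) (n : ℕ) (a : Fin n → G) (ha : ∀ i, a i ∈ A)
    (hi : ∀ z : Fin n → ℤ, (List.ofFn fun i => a i ^ z i).prod = 1 → z = 0) :
    n ≤ 3 * S.card - 2 := sorry

/-- Free abelian components. -/
theorem final_free (hfree : ∀ x : Λ, x ≠ 0 → Module.Free ℤ (component x)) (hT : IsTree D)
    (hG : FreeAct D G) (S : Finset G) (hS : Subgroup.closure (S : Set G) = ⊤) [Nonempty X]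
    (A : Subgroup G) (hA : ∀ a ∈ A, ∀ b ∈ A, a * b = b * a) :
    ∃ n : ℕ, n ≤ 3 * S.card - 2 ∧ Nonempty (A ≃* Multiplicative (Fin n → ℤ)) := sorry

end LTree.Idx
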